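import Mathlib

set_option autoImplicit false

open Finset

namespace Pool.Agent.MP_c7a479_co

namespace PolySieve

/-- `f` has mean `m` with error at most `e` on every interval, also along multiples of any `k`
free of primes up to `t`. -/
def Good (t : ℕ) (f : ℕ → ℝ) (m e : ℝ) : Prop :=
  ∀ k : ℕ, 0 < k → (∀ l : ℕ, l.Prime → l ∣ k → t < l) → ∀ x H : ℕ,
    |(∑ n ∈ Ioc x (x + H), if k ∣ n then f n else 0) - H * m / k| ≤ e

lemma card_dvd (k y : ℕ) (hk : 0 < k) :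
    (y : ℝ) / k - 1 < (∑ n ∈ Ioc 0 y, if k ∣ n then (1 : ℝ) else 0) ∧
      (∑ n ∈ Ioc 0 y, if k ∣ n then (1 : ℝ) else 0) ≤ (y : ℝ) / k := by
  rw [Finset.sum_boole, Nat.Ioc_filter_dvd_card_eq_div]
  have hk' : (0 : ℝ) < k := by exact_mod_cast hk
  refine ⟨?_, Nat.cast_div_le⟩
  have h1 : y < k * (y / k + 1) := Nat.lt_mul_div_succ y hk
  have h2 : (y : ℝ) < k * ((y / k : ℕ) + 1) := by exact_mod_cast h1
  rw [sub_lt_iff_lt_add, div_lt_iff₀ hk']
  linarith

lemma good_one (t : ℕ) : Good t (fun _ => 1) 1 1 := by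
  intro k hk _ x H
  have h := Finset.sum_Ioc_consecutive (fun n => if k ∣ n then (1 : ℝ) else 0)
    (Nat.zero_le x) (Nat.le_add_right x H)
  obtain ⟨a1, a2⟩ := card_dvd k x hk
  obtain ⟨b1, b2⟩ := card_dvd k (x + H) hk
  rw [Nat.cast_add, add_div] at b1 b2
  rw [mul_one, abs_le]
  constructor <;> linarith

lemma Good.mono {t : ℕ} {f : ℕ → ℝ} {m e e' : ℝ} (h : Good t f m e) (he : e ≤ e') :
    Good t f m e' := fun k hk hp x H => (h k hk hp x H).trans he

lemma Good.smul {t : ℕ} {f : ℕ → ℝ} {m e : ℝ} (h : Good t f m e) (c : ℝ) (hc : |c| = 1) :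
    Good t (fun n => c * f n) (c * m) e := by
  intro k hk hp x H
  have h1 := h k hk hp x H
  have e1 : (∑ n ∈ Ioc x (x + H), if k ∣ n then c * f n else 0) - H * (c * m) / k =
      c * ((∑ n ∈ Ioc x (x + H), if k ∣ n then f n else 0) - H * m / k) := by
    rw [mul_sub, Finset.mul_sum]
    congr 1
    · refine Finset.sum_congr rfl fun n _ => ?_
      split_ifs <;> simp
    · ring
  rw [e1, abs_mul, hc, one_mul]
  exact h1

lemma good_sum {ι : Type} {t : ℕ} (I : Finset ι) (f : ι → ℕ → ℝ) (m : ι → ℝ) (e : ι → ℝ)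
    (h : ∀ i ∈ I, Good t (f i) (m i) (e i)) :
    Good t (fun n => ∑ i ∈ I, f i n) (∑ i ∈ I, m i) (∑ i ∈ I, e i) := by
  intro k hk hp x H
  have e1 : (∑ n ∈ Ioc x (x + H), if k ∣ n then ∑ i ∈ I, f i n else 0) - H * (∑ i ∈ I, m i) / k =
      ∑ i ∈ I, ((∑ n ∈ Ioc x (x + H), if k ∣ n then f i n else 0) - H * m i / k) := by
    rw [Finset.sum_sub_distrib, Finset.sum_comm, Finset.mul_sum, Finset.sum_div]
    congr 1
    refine Finset.sum_congr rfl fun n _ => ?_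
    split_ifs <;> simp
  rw [e1]
  exact (Finset.abs_sum_le_sum_abs _ _).trans (Finset.sum_le_sum fun i hi => h i hi k hk hp x H)

lemma Good.sub {t : ℕ} {f g : ℕ → ℝ} {m m' e e' : ℝ} (h : Good t f m e) (h' : Good t g m' e') :
    Good t (fun n => f n - g n) (m - m') (e + e') := by
  intro k hk hp x H
  have h1 := h k hk hp x H
  have h2 := h' k hk hp x H
  have e1 : (∑ n ∈ Ioc x (x + H), if k ∣ n then f n - g n else 0) - H * (m - m') / k =
      ((∑ n ∈ Ioc x (x + H), if k ∣ n then f n else 0) - H * m / k) -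
      ((∑ n ∈ Ioc x (x + H), if k ∣ n then g n else 0) - H * m' / k) := by
    have : (∑ n ∈ Ioc x (x + H), if k ∣ n then f n - g n else 0) =
        (∑ n ∈ Ioc x (x + H), if k ∣ n then f n else 0) -
        (∑ n ∈ Ioc x (x + H), if k ∣ n then g n else 0) := by
      rw [← Finset.sum_sub_distrib]
      refine Finset.sum_congr rfl fun n _ => ?_
      split_ifs <;> simp
    rw [this]
    ring
  rw [e1]
  exact (abs_sub _ _).trans (add_le_add h1 h2)

/-- The primes in `(s, t]`. -/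
def blk (s t : ℕ) : Finset ℕ := (Ioc s t).filter Nat.Prime

lemma mem_blk {s t l : ℕ} : l ∈ blk s t ↔ (s < l ∧ l ≤ t) ∧ l.Prime := by
  simp [blk]

lemma Good.set {s t : ℕ} (hst : s ≤ t) {f : ℕ → ℝ} {m e : ℝ} (h : Good s f m e)
    (S : Finset ℕ) (hS : S ⊆ blk s t) :
    Good t (fun n => if ∀ l ∈ S, l ∣ n then f n else 0) ((∏ l ∈ S, (l : ℝ)⁻¹) * m) e := by
  intro k hk hp x H
  have hpr : ∀ l ∈ S, l.Prime := fun l hl => (mem_blk.1 (hS hl)).2
  have hd : 0 < ∏ l ∈ S, l := Finset.prod_pos fun l hl => (hpr l hl).pos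
  have h1 := h (k * ∏ l ∈ S, l) (Nat.mul_pos hk hd) (fun l hl hld => by
    rcases (Nat.Prime.dvd_mul hl).1 hld with h2 | h2
    · exact hst.trans_lt (hp l hl h2)
    · obtain ⟨q, hq, hlq⟩ := (Prime.dvd_finsetProd_iff hl.prime _).1 h2
      rw [(Nat.prime_dvd_prime_iff_eq hl (hpr q hq)).1 hlq]
      exact (mem_blk.1 (hS hq)).1.1) x H
  have hco : Nat.Coprime k (∏ l ∈ S, l) := by
    refine Nat.Coprime.prod_right fun l hl => ?_
    refine ((Nat.Prime.coprime_iff_not_dvd (hpr l hl)).2 fun h2 => ?_).symm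
    have := hp l (hpr l hl) h2
    have := (mem_blk.1 (hS hl)).1.2
    omega
  have e1 : ∀ n, (if k ∣ n then (if ∀ l ∈ S, l ∣ n then f n else 0) else 0) =
      if k * ∏ l ∈ S, l ∣ n then f n else 0 := by
    intro n
    by_cases h2 : k * ∏ l ∈ S, l ∣ n
    · rw [if_pos h2, if_pos (Dvd.dvd.trans (Dvd.intro _ rfl) h2), if_pos]
      intro l hl
      exact ((Finset.dvd_prod_of_mem _ hl).mul_left k).trans h2
    · rw [if_neg h2]
      split_ifs with h3 h4
      · refine absurd (hco.mul_dvd_of_dvd_of_dvd h3 ?_) h2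
        exact Finset.prod_primes_dvd n (fun l hl => (hpr l hl).prime) h4
      · rfl
      · rfl
  simp only [e1]
  have e2 : (H : ℝ) * ((∏ l ∈ S, (l : ℝ)⁻¹) * m) / k = H * m / ((k * ∏ l ∈ S, l : ℕ) : ℝ) := by
    rw [Finset.prod_inv_distrib]
    push_cast
    rw [div_mul_eq_div_div]
    ring
  rw [e2]
  exact h1

/-- Elementary symmetric function of the reciprocals. -/
noncomputable def sg (P : Finset ℕ) (j : ℕ) : ℝ := ∑ S ∈ powersetCard j P, ∏ l ∈ S, (l : ℝ)⁻¹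

/-- Number of elements of `P` dividing `n`. -/
def wt (P : Finset ℕ) (n : ℕ) : ℕ := (P.filter (· ∣ n)).card

lemma Good.choose {s t : ℕ} (hst : s ≤ t) {f : ℕ → ℝ} {m e : ℝ} (h : Good s f m e) (j : ℕ) :
    Good t (fun n => ((wt (blk s t) n).choose j : ℝ) * f n) (sg (blk s t) j * m)
      (((blk s t).card.choose j : ℝ) * e) := by
  have h1 := good_sum (powersetCard j (blk s t))
    (fun S n => if ∀ l ∈ S, l ∣ n then f n else 0) (fun S => (∏ l ∈ S, (l : ℝ)⁻¹) * m) (fun _ => e)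
    (fun S hS => h.set hst S (mem_powersetCard.1 hS).1)
  rw [Finset.sum_const, card_powersetCard, nsmul_eq_mul, ← Finset.sum_mul] at h1
  have e1 : (fun n => ∑ S ∈ powersetCard j (blk s t), if ∀ l ∈ S, l ∣ n then f n else 0) =
      fun n => ((wt (blk s t) n).choose j : ℝ) * f n := by
    funext n
    rw [← Finset.sum_filter, Finset.sum_const, nsmul_eq_mul, wt, ← card_powersetCard]
    congr 3
    ext S
    simp only [mem_filter, mem_powersetCard, subset_iff]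
    constructor
    · rintro ⟨⟨a, b⟩, c⟩
      exact ⟨fun l hl => ⟨a hl, c l hl⟩, b⟩
    · rintro ⟨a, b⟩
      exact ⟨⟨fun l hl => (a hl).1, b⟩, fun l hl => (a hl).2⟩
  rw [e1] at h1
  exact h1

lemma sg_nonneg (P : Finset ℕ) (j : ℕ) : 0 ≤ sg P j :=
  Finset.sum_nonneg fun _ _ => Finset.prod_nonneg fun _ _ => by positivity

lemma sg_zero (P : Finset ℕ) (j : ℕ) (hj : P.card < j) : sg P j = 0 := by
  rw [sg, powersetCard_eq_empty.2 hj, Finset.sum_empty]

lemma prod_eq (P : Finset ℕ) (c : ℝ) :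
    ∏ l ∈ P, (1 + c * (l : ℝ)⁻¹) = ∑ j ∈ range (P.card + 1), c ^ j * sg P j := by
  rw [Finset.prod_one_add, Finset.sum_powerset]
  refine Finset.sum_congr rfl fun j _ => ?_
  rw [sg, Finset.mul_sum]
  refine Finset.sum_congr rfl fun S hS => ?_
  rw [Finset.prod_mul_distrib, Finset.prod_const, (mem_powersetCard.1 hS).2]

lemma pow_dvd_fact (p k : ℕ) (hp : 0 < p) : p ^ k ∣ (p * k).factorial := by
  induction k with
  | zero => simp
  | succ k ih =>
    rw [pow_succ, mul_add, mul_one]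
    exact (mul_dvd_mul ih (Nat.dvd_factorial hp le_rfl)).trans
      (Nat.factorial_mul_factorial_dvd_factorial_add _ _)

lemma sum_inv_le (t : ℕ) (ht : 2 ≤ t) : ∑ l ∈ blk (Nat.sqrt t) t, (l : ℝ)⁻¹ ≤ 4 := by
  set s := Nat.sqrt t with hs
  have hs1 : 1 ≤ s := by rw [hs, Nat.le_sqrt]; omega
  have h1 : ∏ l ∈ blk s t, l ^ (t / l) ∣ t.factorial := by
    refine Finset.prod_dvd_of_isRelPrime ?_ fun l hl => ?_
    · intro a ha b hb hab
      exact Nat.coprime_iff_isRelPrime.1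
        (Nat.coprime_pow_primes (t / a) (t / b) (mem_blk.1 ha).2 (mem_blk.1 hb).2 hab)
    · exact (pow_dvd_fact l _ (mem_blk.1 hl).2.pos).trans
        (Nat.factorial_dvd_factorial (Nat.mul_div_le t l))
  have h2 : (s + 1) ^ (∑ l ∈ blk s t, t / l) ≤ ∏ l ∈ blk s t, l ^ (t / l) := by
    rw [← Finset.prod_pow_eq_pow_sum]
    exact Finset.prod_le_prod' fun l hl => Nat.pow_le_pow_left (mem_blk.1 hl).1.1 _
  have h3 : t.factorial ≤ (s + 1) ^ (2 * t) := by
    rw [pow_mul]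
    exact (Nat.factorial_le_pow t).trans (Nat.pow_le_pow_left (Nat.lt_succ_sqrt' t).le _)
  have h4 : ∑ l ∈ blk s t, t / l ≤ 2 * t :=
    (Nat.pow_le_pow_iff_right (by omega)).1
      (h2.trans ((Nat.le_of_dvd (Nat.factorial_pos t) h1).trans h3))
  have h5 : ∑ l ∈ blk s t, ((t / l : ℕ) : ℝ) ≤ 2 * t := by exact_mod_cast h4
  have ht' : (0 : ℝ) < t := by exact_mod_cast (by omega : 0 < t)
  have h6 : ∑ l ∈ blk s t, (t : ℝ) / 2 * (l : ℝ)⁻¹ ≤ ∑ l ∈ blk s t, ((t / l : ℕ) : ℝ) := by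
    refine Finset.sum_le_sum fun l hl => ?_
    obtain ⟨⟨-, hlt⟩, hp⟩ := mem_blk.1 hl
    have hl0 : (0 : ℝ) < l := by exact_mod_cast hp.pos
    have a1 : t < l * (t / l + 1) := Nat.lt_mul_div_succ t hp.pos
    have a2 : 1 ≤ t / l := (Nat.le_div_iff_mul_le hp.pos).2 (by omega)
    have a3 : t ≤ l * (2 * (t / l)) := a1.le.trans (Nat.mul_le_mul_left _ (by omega))
    have a4 : (t : ℝ) ≤ l * (2 * ((t / l : ℕ) : ℝ)) := by exact_mod_cast a3
    rw [← div_eq_mul_inv, div_le_iff₀ hl0]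
    linarith
  rw [← Finset.mul_sum] at h6
  have h7 : (t : ℝ) / 2 * ∑ l ∈ blk s t, (l : ℝ)⁻¹ ≤ (t : ℝ) / 2 * 4 := by linarith
  exact le_of_mul_le_mul_left h7 (by positivity)

lemma exp_eight : Real.exp 8 ≤ 4096 := by
  have h1 : Real.exp 8 = Real.exp 1 ^ 8 := by rw [← Real.exp_nat_mul]; norm_num
  have h2 : Real.exp 1 ≤ 2.72 := Real.exp_one_lt_d9.le.trans (by norm_num)
  rw [h1]
  exact (pow_le_pow_left₀ (Real.exp_pos 1).le h2 8).trans (by norm_num)

lemma gen_le (P : Finset ℕ) (hP : ∑ l ∈ P, (l : ℝ)⁻¹ ≤ 4) :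
    ∏ l ∈ P, (1 + 2 * (l : ℝ)⁻¹) ≤ 4096 := by
  refine (Real.prod_one_add_le_exp_sum P (f := fun l => 2 * (l : ℝ)⁻¹)
    fun l => by positivity).trans (le_trans ?_ exp_eight)
  rw [← Finset.mul_sum]
  exact Real.exp_le_exp.2 (by linarith)

lemma sg_le (P : Finset ℕ) (hP : ∑ l ∈ P, (l : ℝ)⁻¹ ≤ 4) (j : ℕ) :
    sg P j ≤ 4096 * (1 / 2) ^ j := by
  by_cases hj : P.card < j
  · rw [sg_zero P j hj]; positivity
  · have h1 := gen_le P hP
    rw [prod_eq] at h1
    have h2 := Finset.single_le_sum (f := fun j => (2 : ℝ) ^ j * sg P j)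
      (fun i _ => mul_nonneg (by positivity) (sg_nonneg P i)) (mem_range.2 (by omega : j < P.card + 1))
    rw [one_div, inv_pow, ← div_eq_mul_inv, le_div_iff₀ (by positivity)]
    linarith

lemma euler_ge (P : Finset ℕ) (hP : ∑ l ∈ P, (l : ℝ)⁻¹ ≤ 4) (h2 : ∀ l ∈ P, 2 ≤ l) :
    1 / 4096 ≤ ∏ l ∈ P, (1 + (-1) * (l : ℝ)⁻¹) := by
  have hu : ∀ l ∈ P, 0 ≤ (l : ℝ)⁻¹ ∧ (l : ℝ)⁻¹ ≤ 1 / 2 := fun l hl => by
    refine ⟨by positivity, ?_⟩
    rw [one_div]
    exact inv_anti₀ (by norm_num) (by exact_mod_cast h2 l hl)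
  have h1 : (1 : ℝ) ≤ (∏ l ∈ P, (1 + (-1) * (l : ℝ)⁻¹)) * ∏ l ∈ P, (1 + 2 * (l : ℝ)⁻¹) := by
    rw [← Finset.prod_mul_distrib]
    refine le_trans (le_of_eq Finset.prod_const_one.symm)
      (Finset.prod_le_prod (fun _ _ => zero_le_one) fun l hl => ?_)
    obtain ⟨a, b⟩ := hu l hl
    nlinarith
  have h3 : 0 ≤ ∏ l ∈ P, (1 + (-1) * (l : ℝ)⁻¹) :=
    Finset.prod_nonneg fun l hl => by linarith [(hu l hl).2]
  have h4 := mul_le_mul_of_nonneg_left (gen_le P hP) h3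
  rw [div_le_iff₀ (by norm_num)]
  linarith

lemma trunc_ge (P : Finset ℕ) (hP : ∑ l ∈ P, (l : ℝ)⁻¹ ≤ 4) (h2 : ∀ l ∈ P, 2 ≤ l) (h : ℕ) :
    1 / 4096 - 4096 * (1 / 2) ^ h ≤ ∑ j ∈ range (h + 1), (-1) ^ j * sg P j := by
  have key : ∀ d : ℕ, (∑ j ∈ range (h + 1 + d), (-1) ^ j * sg P j) + 4096 * (1 / 2) ^ (h + d) ≤
      (∑ j ∈ range (h + 1), (-1) ^ j * sg P j) + 4096 * (1 / 2) ^ h := by
    intro d
    induction d with
    | zero => simp
    | succ d ih =>
      rw [← add_assoc, Finset.sum_range_succ]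
      have a1 := sg_le P hP (h + 1 + d)
      have a2 := sg_nonneg P (h + 1 + d)
      have a3 : (-1 : ℝ) ^ (h + 1 + d) * sg P (h + 1 + d) ≤ sg P (h + 1 + d) := by
        rcases neg_one_pow_eq_or ℝ (h + 1 + d) with e | e <;> rw [e] <;> linarith
      have a4 : ((1 : ℝ) / 2) ^ (h + 1 + d) = (1 / 2) ^ (h + d) / 2 := by ring
      have a5 : ((1 : ℝ) / 2) ^ (h + (d + 1)) = (1 / 2) ^ (h + d) / 2 := by ring
      rw [a4] at a1
      rw [a5]
      linarith
  have h3 := euler_ge P hP h2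
  rw [prod_eq] at h3
  have h4 : ∑ j ∈ range (P.card + 1), (-1) ^ j * sg P j =
      ∑ j ∈ range (h + 1 + P.card), (-1) ^ j * sg P j := by
    refine Finset.sum_subset (range_subset_range.2 (by omega)) fun j _ hj => ?_
    rw [sg_zero P j (by simpa using hj), mul_zero]
  have h5 := key P.card
  have h6 : (0 : ℝ) ≤ 4096 * (1 / 2) ^ (h + P.card) := by positivity
  linarith

/-- Bonferroni. -/
lemma bonf (w i : ℕ) :
    (if w = 0 then (1 : ℝ) else 0) ≤ ∑ j ∈ range (2 * i + 1), (-1) ^ j * (w.choose j : ℝ) ∧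
    (∑ j ∈ range (2 * i + 1), (-1) ^ j * (w.choose j : ℝ)) - w.choose (2 * i + 1) ≤
      if w = 0 then (1 : ℝ) else 0 := by
  rcases w with _ | w
  · rw [Finset.sum_range_succ']
    simp
  · have h1 := Int.alternating_sum_range_choose_eq_choose (n := w) (m := 2 * i)
    have h2 : ∑ j ∈ range (2 * i + 1), (-1) ^ j * ((w + 1).choose j : ℝ) =
        (-1) ^ (2 * i) * (w.choose (2 * i) : ℝ) := by exact_mod_cast h1
    rw [h2, pow_mul, neg_one_sq, one_pow, one_mul, if_neg (Nat.succ_ne_zero w),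
      Nat.choose_succ_succ']
    push_cast
    constructor
    · positivity
    · have : (0 : ℝ) ≤ w.choose (2 * i + 1) := by positivity
      linarith

/-- Indicator of having no prime factor up to `t`. -/
noncomputable def rough (t n : ℕ) : ℝ := by
  classical exact if ∀ l : ℕ, l.Prime → l ∣ n → t < l then 1 else 0

lemma rough_nonneg (t n : ℕ) : 0 ≤ rough t n := by
  unfold rough
  split_ifs <;> norm_num

lemma rough_split {s t : ℕ} (hst : s ≤ t) (n : ℕ) :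
    rough t n = (if wt (blk s t) n = 0 then (1 : ℝ) else 0) * rough s n := by
  unfold rough
  have h1 : wt (blk s t) n = 0 ↔ ∀ l ∈ blk s t, ¬ l ∣ n := by
    rw [wt, card_eq_zero, filter_eq_empty_iff]
  by_cases h : ∀ l : ℕ, l.Prime → l ∣ n → t < l
  · rw [if_pos h, if_pos, if_pos, one_mul]
    · exact fun l a b => hst.trans_lt (h l a b)
    · refine h1.2 fun l hl hd => ?_
      have := h l (mem_blk.1 hl).2 hd
      have := (mem_blk.1 hl).1.2
      omega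
  · rw [if_neg h]
    split_ifs with a b
    · refine absurd (fun l hl hd => ?_) h
      by_contra hc
      exact h1.1 a l (mem_blk.2 ⟨⟨b l hl hd, by omega⟩, hl⟩) hd
    all_goals simp

lemma main (t : ℕ) : ∀ i : ℕ, 13 ≤ i → 1 ≤ t → ∃ (U L : ℕ → ℝ) (mU mL : ℝ),
    (∀ n, L n ≤ rough t n) ∧ (∀ n, rough t n ≤ U n) ∧
    Good t U mU ((t : ℝ) ^ (8 * i + 12)) ∧ Good t L mL ((t : ℝ) ^ (8 * i + 12)) ∧
    1 ≤ (t : ℝ) ^ 13 * mU ∧ (1 - 2 ^ 25 * (1 / 4) ^ i) * mU ≤ mL := by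
  induction t using Nat.strong_induction_on with
  | _ t ih =>
  intro i hi ht
  rcases Nat.lt_or_ge t 2 with h2 | h2
  · obtain rfl : t = 1 := by omega
    have hr : ∀ n, rough 1 n = 1 := fun n => by
      unfold rough
      rw [if_pos fun l hl _ => hl.one_lt]
    refine ⟨fun _ => 1, fun _ => 1, 1, 1, fun n => (hr n).ge, fun n => (hr n).le, ?_, ?_, ?_, ?_⟩
    · simpa using good_one 1
    · simpa using good_one 1
    · simp
    · have : (0 : ℝ) ≤ 2 ^ 25 * (1 / 4) ^ i := by positivity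
      linarith
  set s := Nat.sqrt t with hs
  have hs1 : 1 ≤ s := by rw [hs, Nat.le_sqrt]; omega
  have hst : s < t := Nat.sqrt_lt_self (by omega)
  have hss : s * s ≤ t := Nat.sqrt_le t
  have h2s : 2 * s ≤ t := by
    rcases Nat.lt_or_ge s 2 with a | a
    · omega
    · exact (Nat.mul_le_mul_right s a).trans hss
  obtain ⟨U, L, mU, mL, hL, hU, gU, gL, bU, bL⟩ := ih s hst (i + 1) (by omega) hs1
  set P := blk s t with hP
  have hP4 : ∑ l ∈ P, (l : ℝ)⁻¹ ≤ 4 := sum_inv_le t h2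
  have hP2 : ∀ l ∈ P, 2 ≤ l := fun l hl => (mem_blk.1 hl).2.two_le
  have hPc : P.card ≤ t := by
    refine (card_filter_le _ _).trans ?_
    rw [Nat.card_Ioc]
    omega
  set ε : ℝ := (s : ℝ) ^ (8 * (i + 1) + 12) with hε
  have hε0 : 0 ≤ ε := by positivity
  have ht1 : (1 : ℝ) ≤ t := by exact_mod_cast ht
  have hεt : ε ≤ (t : ℝ) ^ (4 * i + 10) := by
    have e1 : 8 * (i + 1) + 12 = 2 * (4 * i + 10) := by ring
    rw [hε, e1, pow_mul]
    refine pow_le_pow_left₀ (by positivity) ?_ _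
    rw [sq]
    exact_mod_cast hss
  have hch : ∀ j, j ≤ 2 * i + 1 → ((P.card.choose j : ℕ) : ℝ) * ε ≤ (t : ℝ) ^ (2 * i + 1) * ε := by
    intro j hj
    refine mul_le_mul_of_nonneg_right ?_ hε0
    have a1 : P.card.choose j ≤ t ^ (2 * i + 1) :=
      (Nat.choose_le_pow _ _).trans ((Nat.pow_le_pow_left hPc _).trans
        (Nat.pow_le_pow_right ht hj))
    exact_mod_cast a1
  set y : ℕ → ℝ := fun n => ∑ j ∈ range (2 * i + 1), (-1) ^ j * ((wt P n).choose j : ℝ) with hy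
  set B : ℝ := ∑ j ∈ range (2 * i + 1), (-1) ^ j * sg P j with hB
  have gy : ∀ (f : ℕ → ℝ) (m : ℝ), Good s f m ε →
      Good t (fun n => y n * f n) (B * m) ((2 * i + 1 : ℕ) * ((t : ℝ) ^ (2 * i + 1) * ε)) := by
    intro f m hf
    have a1 := good_sum (range (2 * i + 1))
      (fun j n => (-1) ^ j * (((wt P n).choose j : ℝ) * f n)) (fun j => (-1) ^ j * (sg P j * m))
      (fun _ => (t : ℝ) ^ (2 * i + 1) * ε)
      (fun j hj => ((hf.choose hst.le j).smul ((-1) ^ j) (by simp)).mono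
        (hch j (by have := mem_range.1 hj; omega)))
    rw [Finset.sum_const, card_range, nsmul_eq_mul] at a1
    simp only [hy, hB, Finset.sum_mul, mul_assoc]
    exact a1
  have ge := (gU.choose hst.le (2 * i + 1)).mono (hch _ le_rfl)
  have herr : ((2 * i + 1 : ℕ) : ℝ) * ((t : ℝ) ^ (2 * i + 1) * ε) + (t : ℝ) ^ (2 * i + 1) * ε ≤
      (t : ℝ) ^ (8 * i + 12) := by
    have a1 : 2 * i + 1 + 1 ≤ t ^ (2 * i + 1) :=
      (Nat.succ_le_of_lt Nat.lt_two_pow_self).trans (Nat.pow_le_pow_left h2 _)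
    have a2 : ((2 * i + 1 : ℕ) : ℝ) + 1 ≤ (t : ℝ) ^ (2 * i + 1) := by exact_mod_cast a1
    have e1 : 8 * i + 12 = (2 * i + 1) + ((2 * i + 1) + (4 * i + 10)) := by ring
    rw [e1, pow_add (t : ℝ) (2 * i + 1) (2 * i + 1 + (4 * i + 10)),
      pow_add (t : ℝ) (2 * i + 1) (4 * i + 10), ← add_one_mul]
    gcongr
  have hmU : 0 < mU := by
    by_contra hc
    have : (s : ℝ) ^ 13 * mU ≤ 0 := mul_nonpos_of_nonneg_of_nonpos (by positivity) (not_lt.1 hc)
    linarith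
  have hq : ((1 : ℝ) / 4) ^ i ≤ (1 / 4) ^ 13 := pow_le_pow_of_le_one (by norm_num) (by norm_num) hi
  have hq0 : (0 : ℝ) < (1 / 4) ^ i := by positivity
  have hq2 : ((1 : ℝ) / 2) ^ (2 * i) = (1 / 4) ^ i := by rw [pow_mul]; norm_num
  have hBge : 1 / 8192 ≤ B := by
    have a1 := trunc_ge P hP4 hP2 (2 * i)
    rw [hq2] at a1
    norm_num at hq a1 ⊢
    linarith
  have hE : sg P (2 * i + 1) ≤ 2048 * (1 / 4) ^ i := by
    have a1 := sg_le P hP4 (2 * i + 1)
    rw [pow_succ, hq2] at a1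
    linarith
  refine ⟨fun n => y n * U n, fun n => y n * L n - ((wt P n).choose (2 * i + 1) : ℝ) * U n,
    B * mU, B * mL - sg P (2 * i + 1) * mU, fun n => ?_, fun n => ?_, ?_, ?_, ?_, ?_⟩
  · obtain ⟨b1, b2⟩ := bonf (wt P n) i
    rw [rough_split hst.le n]
    have c0 : (0 : ℝ) ≤ if wt P n = 0 then (1 : ℝ) else 0 := by split_ifs <;> norm_num
    have c1 : y n * L n ≤ y n * rough s n := mul_le_mul_of_nonneg_left (hL n) (c0.trans b1)
    have c2 : ((wt P n).choose (2 * i + 1) : ℝ) * rough s n ≤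
        ((wt P n).choose (2 * i + 1) : ℝ) * U n := mul_le_mul_of_nonneg_left (hU n) (by positivity)
    have c3 := mul_le_mul_of_nonneg_right b2 (rough_nonneg s n)
    simp only [hy] at c1 ⊢
    linarith
  · obtain ⟨b1, -⟩ := bonf (wt P n) i
    rw [rough_split hst.le n]
    have c0 : (0 : ℝ) ≤ if wt P n = 0 then (1 : ℝ) else 0 := by split_ifs <;> norm_num
    exact mul_le_mul b1 (hU n) (rough_nonneg s n) (c0.trans b1)
  · refine (gy U mU gU).mono (le_trans ?_ herr)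
    exact le_add_of_nonneg_right (by positivity)
  · exact ((gy L mL gL).sub ge).mono herr
  · have a1 : (2 * (s : ℝ)) ^ 13 ≤ (t : ℝ) ^ 13 :=
      pow_le_pow_left₀ (by positivity) (by exact_mod_cast h2s) _
    have a2 : (2 * (s : ℝ)) ^ 13 * (1 / 8192 * mU) ≤ (t : ℝ) ^ 13 * (B * mU) := by gcongr
    have a3 : (2 * (s : ℝ)) ^ 13 * (1 / 8192 * mU) = (s : ℝ) ^ 13 * mU := by ring
    linarith
  · have hB0 : 0 ≤ B := le_trans (by norm_num) hBge
    have a1 := mul_le_mul_of_nonneg_left bL hB0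
    have a2 : sg P (2 * i + 1) * mU ≤ (2 ^ 24 * (1 / 4) ^ i * B) * mU := by
      refine mul_le_mul_of_nonneg_right (hE.trans ?_) hmU.le
      have := mul_le_mul_of_nonneg_left hBge hq0.le
      linarith
    have a3 : 0 ≤ (1 / 4) ^ i * B * mU := by positivity
    rw [pow_succ (1 / 4 : ℝ) i] at a1
    nlinarith

end PolySieve

theorem rough_interval : ∃ C : ℕ, ∀ z x : ℕ, 2 ≤ z →
    ∃ r : ℕ, x < r ∧ r ≤ x + z ^ C ∧ ∀ l : ℕ, l.Prime → l ∣ r → z ≤ l := by
  refine ⟨131, fun z x hz => ?_⟩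
  obtain ⟨U, L, mU, mL, hL, -, -, gL, bU, bL⟩ := PolySieve.main z 13 le_rfl (by omega)
  by_contra hc
  have h1 := gL 1 one_pos (fun l hl h => absurd (Nat.dvd_one.1 h) hl.ne_one) x (z ^ 131)
  simp only [one_dvd, if_true, Nat.cast_one, div_one] at h1
  have h2 : ∑ n ∈ Ioc x (x + z ^ 131), L n ≤ 0 := by
    refine Finset.sum_nonpos fun n hn => (hL n).trans ?_
    unfold PolySieve.rough
    rw [if_neg]
    intro h
    exact hc ⟨n, (mem_Ioc.1 hn).1, (mem_Ioc.1 hn).2, fun l a b => (h l a b).le⟩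
  have h3 := (abs_le.1 h1).1
  have hz' : (2 : ℝ) ≤ z := by exact_mod_cast hz
  have h4 : mU / 2 ≤ mL := by
    norm_num at bL
    linarith
  have h5 : (z : ℝ) ^ 131 * (mU / 2) ≤ (z : ℝ) ^ 131 * mL :=
    mul_le_mul_of_nonneg_left h4 (by positivity)
  have h6 : (z : ℝ) ^ 118 * 1 ≤ (z : ℝ) ^ 118 * ((z : ℝ) ^ 13 * mU) :=
    mul_le_mul_of_nonneg_left bU (by positivity)
  have h7 : (z : ℝ) ^ 116 * 2 ^ 2 ≤ (z : ℝ) ^ 116 * (z : ℝ) ^ 2 := by gcongr
  have h8 : (0 : ℝ) < (z : ℝ) ^ 116 := by positivity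
  have e1 : (z : ℝ) ^ 131 * (mU / 2) = (z : ℝ) ^ 118 * ((z : ℝ) ^ 13 * mU) / 2 := by ring
  have e2 : (z : ℝ) ^ 116 * (z : ℝ) ^ 2 = (z : ℝ) ^ 118 := by ring
  push_cast at h3
  norm_num at h3
  linarith

end Pool.Agent.MP_c7a479_co
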