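import Pool.Agent.MP_c7a479_co.OLS

namespace Pool.Agent.MP_c7a479_co

open Function

def gam : Fin 15 → Fin 4 → Option (Fin 3) :=
  ![![none, some 0, some 0, some 1],
    ![none, some 1, some 1, some 2],
    ![none, some 2, some 2, some 0],
    ![some 0, none, some 0, some 0],
    ![some 0, some 0, none, some 2],
    ![some 0, some 1, some 2, some 1],
    ![some 0, some 2, some 1, none],
    ![some 1, none, some 1, some 1],
    ![some 1, some 0, some 2, none],
    ![some 1, some 1, none, some 0],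
    ![some 1, some 2, some 0, some 2],
    ![some 2, none, some 2, some 2],
    ![some 2, some 0, some 1, some 0],
    ![some 2, some 1, some 0, none],
    ![some 2, some 2, none, some 1]]

def bet : Fin 9 → Fin 4 → Fin 3 :=
  ![![0, 0, 0, 0],
    ![0, 1, 1, 2],
    ![0, 2, 2, 1],
    ![1, 0, 1, 1],
    ![1, 1, 2, 0],
    ![1, 2, 0, 2],
    ![2, 0, 2, 2],
    ![2, 1, 0, 1],
    ![2, 2, 1, 0]]

theorem gam_ex : ∀ i j : Fin 4, i ≠ j → ∀ a b : Option (Fin 3), (a ≠ none ∨ b ≠ none) →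
    ∃ r, gam r i = a ∧ gam r j = b := by decide +kernel

theorem bet_ex : ∀ i j : Fin 4, i ≠ j → ∀ a b : Fin 3, ∃ r, bet r i = a ∧ bet r j = b := by
  decide +kernel

/-- Wilson's construction with multiplier three. -/
theorem cov_wilson {t u : ℕ} (ht : Nat.Coprime 6 t) (hu : u ≤ t) (h : Cov (Fin u)) :
    Cov (Fin (3 * t + u)) := by
  classical
  haveI : NeZero t := ⟨by rintro rfl; simp at ht⟩
  have h2 : IsUnit (2 : ZMod t) := by
    have := (ZMod.isUnit_iff_coprime 2 t).mpr (Nat.Coprime.coprime_dvd_left (by norm_num) ht)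
    simpa using this
  have h3 : IsUnit (3 : ZMod t) := by
    have := (ZMod.isUnit_iff_coprime 3 t).mpr (Nat.Coprime.coprime_dvd_left (by norm_num) ht)
    simpa using this
  have hlin : ∀ (i j : Option (Fin 4)), i ≠ j → ∀ p q : ZMod t,
      ∃ y : ZMod t × ZMod t, lin i y = p ∧ lin j y = q := by
    intro i j hij p q
    refine lin_ex i j hij ?_ p q
    rintro a b rfl rfl
    fin_cases a <;> fin_cases b <;> simp at hij <;> norm_num <;>
      first | exact h2 | exact h2.neg | exact h3 | exact h3.neg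
  obtain ⟨U, -, hU⟩ := Finset.exists_subset_card_eq (s := (Finset.univ : Finset (ZMod t))) (n := u)
    (by simpa using hu)
  obtain ⟨X, _, D, hc, hD⟩ := h.of_card (β := U) (by simp [hU])
  let C : Fin 4 → ({s // s ∉ U} × ZMod t × Fin 9) ⊕ (U × ZMod t × Fin 15) ⊕ X →
      (ZMod t × Fin 3) ⊕ U := fun i x =>
    match x with
    | .inl x => .inl (lin (some i) (x.1.1, x.2.1), bet x.2.2 i)
    | .inr (.inl x) => (gam x.2.2 i).elim (.inr x.1) fun r => .inl (lin (some i) (x.1.1, x.2.1), r)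
    | .inr (.inr x) => .inr (D i x)
  refine Cov.of_card (α := (ZMod t × Fin 3) ⊕ U) ⟨_, inferInstance, C, ?_, ?_⟩
    (by simp [hU]; ring)
  · simp only [Fintype.card_sum, Fintype.card_prod, Fintype.card_subtype_compl, Fintype.card_coe,
      hU, ZMod.card, Fintype.card_fin] at hc ⊢
    obtain ⟨v, rfl⟩ := Nat.exists_eq_add_of_le hu
    rw [Nat.add_sub_cancel_left]
    nlinarith
  · intro i j hij a b
    have hij' : (some i : Option (Fin 4)) ≠ some j := fun h => hij (Option.some.inj h)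
    rcases a with ⟨p, r⟩ | s <;> rcases b with ⟨q, r'⟩ | s'
    · obtain ⟨y, h1, h2⟩ := hlin _ _ hij' p q
      by_cases hy : y.1 ∈ U
      · obtain ⟨g, g1, g2⟩ := gam_ex i j hij (some r) (some r') (by simp)
        exact ⟨.inr (.inl (⟨y.1, hy⟩, y.2, g)), by simp [C, g1, h1], by simp [C, g2, h2]⟩
      · obtain ⟨g, g1, g2⟩ := bet_ex i j hij r r'
        exact ⟨.inl (⟨y.1, hy⟩, y.2, g), by simp [C, g1, h1], by simp [C, g2, h2]⟩
    · obtain ⟨y, h1, h2⟩ := hlin (some i) none (by simp) p s'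
      obtain ⟨g, g1, g2⟩ := gam_ex i j hij (some r) none (by simp)
      have : y.1 = s' := h2
      refine ⟨.inr (.inl (s', y.2, g)), ?_, by simp [C, g2]⟩
      simp [C, g1, ← this, h1]
    · obtain ⟨y, h1, h2⟩ := hlin (some j) none (by simp) q s
      obtain ⟨g, g1, g2⟩ := gam_ex i j hij none (some r') (by simp)
      have : y.1 = s := h2
      refine ⟨.inr (.inl (s, y.2, g)), by simp [C, g1], ?_⟩
      simp [C, g2, ← this, h1]
    · obtain ⟨x, h1, h2⟩ := hD i j hij s s'
      exact ⟨.inr (.inr x), by simp [C, h1], by simp [C, h2]⟩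

theorem cov_two_pow (a : ℕ) : Cov (Fin (2 ^ (a + 2))) := by
  induction a using Nat.strong_induction_on with
  | _ a ih =>
    match a, ih with
    | 0, _ => exact cov_4
    | 1, _ => exact cov_8
    | a + 2, ih =>
      have := cov_mul (ih a (by omega)) cov_4
      rwa [show 2 ^ (a + 2) * 4 = 2 ^ (a + 2 + 2) by ring] at this

/-- The theorem of Bose, Shrikhande and Parker. -/
theorem cov_all {n : ℕ} (h0 : n ≠ 0) (h2 : n ≠ 2) (h6 : n ≠ 6) : Cov (Fin n) := by
  by_cases h4 : n % 4 = 2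
  · by_cases h10 : n = 10
    · subst h10; exact cov_10
    by_cases h14 : n = 14
    · subst h14; exact cov_14
    by_cases h30 : n = 30
    · subst h30; exact cov_mul (cov_odd (n := 3) (by decide)) cov_10
    have : ∃ t, (t % 6 = 1 ∨ t % 6 = 5) ∧ 3 * t < n ∧ n ≤ 4 * t := by
      by_cases hs : n < 52
      · have : n = 18 ∨ n = 22 ∨ n = 26 ∨ n = 34 ∨ n = 38 ∨ n = 42 ∨ n = 46 ∨ n = 50 := by omega
        rcases this with rfl | rfl | rfl | rfl | rfl | rfl | rfl | rfl
        exacts [⟨5, by omega⟩, ⟨7, by omega⟩, ⟨7, by omega⟩, ⟨11, by omega⟩, ⟨11, by omega⟩,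
          ⟨11, by omega⟩, ⟨13, by omega⟩, ⟨13, by omega⟩]
      · by_cases hr : (n - 1) / 3 % 6 = 0 ∨ (n - 1) / 3 % 6 = 5
        · exact ⟨((n - 1) / 3 + 1) / 6 * 6 - 1, by omega⟩
        · exact ⟨(n - 1) / 3 / 6 * 6 + 1, by omega⟩
    obtain ⟨t, ht, h3, h4t⟩ := this
    have hc : Nat.Coprime 6 t := by
      rw [Nat.Coprime, Nat.gcd_rec]
      rcases ht with ht | ht <;> rw [ht] <;> rfl
    have := cov_wilson (u := n - 3 * t) hc (by omega) (cov_odd (Nat.odd_iff.mpr (by omega)))
    rwa [show 3 * t + (n - 3 * t) = n by omega] at this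
  · obtain ⟨a, v, hv, rfl⟩ := Nat.exists_eq_two_pow_mul_odd h0
    match a with
    | 0 => exact (cov_odd hv).of_card (by simp)
    | 1 =>
      exfalso
      obtain ⟨w, rfl⟩ := hv
      omega
    | a + 2 => exact cov_mul (cov_two_pow a) (cov_odd hv)

theorem hasOLS_all {n : ℕ} (h0 : n ≠ 0) (h2 : n ≠ 2) (h6 : n ≠ 6) : HasOLS (Fin n) :=
  (cov_all h0 h2 h6).hasOLS

end Pool.Agent.MP_c7a479_co
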