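import Mathlib

namespace Pool.Agent.MP_c7a479_co

open Function

/-- A permutation cube (latin hypercube): cells are `ι → α`, and on every line parallel to a
coordinate axis the values of `C` form a permutation of `α`. -/
def IsPermCube {ι α : Type} [DecidableEq ι] (C : (ι → α) → α) : Prop :=
  ∀ (x : ι → α) (j : ι), Bijective fun t => C (update x j t)

/-- A variational set: a family of permutation cubes indexed by `κ`, such that any `|ι|` of them
with distinct indices `s j` give a bijection `x ↦ (C (s j) x)_j` of the set of cells. -/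
def IsVarSet {ι κ α : Type} [DecidableEq ι] (C : κ → (ι → α) → α) : Prop :=
  (∀ i, IsPermCube (C i)) ∧
    ∀ s : ι → κ, Injective s → Bijective fun (x : ι → α) (j : ι) => C (s j) x

/-- There is a variational set of `k` permutation cubes of dimension `m` and order `n`. -/
def HasVarSet (m n k : ℕ) : Prop :=
  ∃ C : Fin k → (Fin m → Fin n) → Fin n, IsVarSet C

/-- `π_m(n) = v`: `v` is the largest size of a variational set of `m`-dimensional permutation
cubes of order `n`. -/
def PiEq (m n v : ℕ) : Prop := IsGreatest {k : ℕ | HasVarSet m n k} v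

section Transfer

variable {ι ι' κ κ' α α' : Type} [DecidableEq ι] [DecidableEq ι']

theorem IsPermCube.transfer {C : (ι → α) → α} (h : IsPermCube C) (e : ι ≃ ι') (g : α ≃ α') :
    IsPermCube fun x : ι' → α' => g (C fun i => g.symm (x (e i))) := by
  intro x j
  have h1 := h (fun i => g.symm (x (e i))) (e.symm j)
  have h2 : (fun t => g (C fun i => g.symm (update x j t (e i)))) =
      g ∘ (fun t => C (update (fun i => g.symm (x (e i))) (e.symm j) t)) ∘ g.symm := by
    funext t
    simp only [comp]
    congr 2
    funext i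
    by_cases hi : i = e.symm j
    · subst hi; simp
    · have : e i ≠ j := fun h => hi (by rw [← h]; simp)
      simp [update_of_ne hi, update_of_ne this]
  rw [h2]
  exact g.bijective.comp (h1.comp g.symm.bijective)

theorem IsVarSet.transfer {C : κ → (ι → α) → α} (h : IsVarSet C) (e : ι ≃ ι') (g : α ≃ α')
    (f : κ' → κ) (hf : Injective f) :
    IsVarSet fun (i : κ') (x : ι' → α') => g (C (f i) fun j => g.symm (x (e j))) := by
  refine ⟨fun i => (h.1 (f i)).transfer e g, fun s hs => ?_⟩
  have h1 := h.2 (fun j => f (s (e j))) (hf.comp (hs.comp e.injective))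
  have h2 : (fun (x : ι' → α') (j : ι') => g (C (f (s j)) fun j => g.symm (x (e j)))) =
      (Equiv.arrowCongr e g) ∘ (fun (x : ι → α) (j : ι) => C (f (s (e j))) x) ∘
        (Equiv.arrowCongr e g).symm := by
    funext x j
    simp only [comp, Equiv.arrowCongr_apply, Equiv.apply_symm_apply]
    congr 2
  rw [h2]
  exact (Equiv.arrowCongr e g).bijective.comp (h1.comp (Equiv.arrowCongr e g).symm.bijective)

theorem IsVarSet.hasVarSet [Fintype ι] [Fintype κ] [Fintype α] {C : κ → (ι → α) → α}
    (h : IsVarSet C) {m n k : ℕ} (hm : Fintype.card ι = m) (hn : Fintype.card α = n)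
    (hk : k ≤ Fintype.card κ) : HasVarSet m n k := by
  classical
  obtain ⟨f⟩ : Nonempty (Fin k ↪ κ) := Function.Embedding.nonempty_of_card_le (by simpa using hk)
  exact ⟨_, h.transfer (Fintype.equivFinOfCardEq hm) (Fintype.equivFinOfCardEq hn) f f.injective⟩

theorem HasVarSet.mono {m n k k' : ℕ} (h : HasVarSet m n k) (hk : k' ≤ k) : HasVarSet m n k' := by
  obtain ⟨C, hC⟩ := h
  exact hC.hasVarSet (by simp) (by simp) (by simpa using hk)

/-- Criterion: latin cubes such that two cells agreeing in `|ι|` cubes are equal. -/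
theorem isVarSet_of_sep [Fintype ι] [Finite α] [DecidableEq κ] {C : κ → (ι → α) → α}
    (h1 : ∀ i, IsPermCube (C i))
    (h2 : ∀ (x y : ι → α) (S : Finset κ), S.card = Fintype.card ι →
      (∀ i ∈ S, C i x = C i y) → x = y) : IsVarSet C := by
  refine ⟨h1, fun s hs => ?_⟩
  apply Injective.bijective_of_finite
  intro x y hxy
  refine h2 x y (Finset.univ.image s) ?_ ?_
  · rw [Finset.card_image_of_injective _ hs]; simp
  · intro i hi
    obtain ⟨j, -, rfl⟩ := Finset.mem_image.mp hi
    exact congrFun hxy j

/-- Criterion for `|ι| + 1` cubes: omitting any one cube still separates cells. -/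
theorem isVarSet_of_omit [Fintype ι] [Fintype κ] [Finite α] [DecidableEq κ]
    {C : κ → (ι → α) → α} (hk : Fintype.card κ = Fintype.card ι + 1)
    (h1 : ∀ i, IsPermCube (C i))
    (h2 : ∀ (x y : ι → α) (i0 : κ), (∀ i, i ≠ i0 → C i x = C i y) → x = y) : IsVarSet C := by
  refine isVarSet_of_sep h1 fun x y S hS h => ?_
  have hc : (Sᶜ).card = 1 := by rw [Finset.card_compl]; omega
  obtain ⟨i0, hi0⟩ := Finset.card_eq_one.mp hc
  refine h2 x y i0 fun i hi => h i ?_
  by_contra hn
  have : i ∈ Sᶜ := Finset.mem_compl.mpr hn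
  rw [hi0, Finset.mem_singleton] at this
  exact hi this

/-- In a variational set, two cells agreeing in `|ι|` cubes are equal. -/
theorem IsVarSet.sep [Fintype ι] {C : κ → (ι → α) → α} (h : IsVarSet C) (x y : ι → α)
    (S : Finset κ) (hS : Fintype.card ι ≤ S.card) (hxy : ∀ i ∈ S, C i x = C i y) : x = y := by
  classical
  obtain ⟨f⟩ : Nonempty (ι ↪ S) := Function.Embedding.nonempty_of_card_le (by simpa using hS)
  refine (h.2 (fun j => (f j : κ)) (Subtype.val_injective.comp f.injective)).1 ?_
  funext j
  exact hxy _ (f j).2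

end Transfer

end Pool.Agent.MP_c7a479_co
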