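import Pool.Agent.Mg.Fc7a479.G07d8c5

/-!
Index one orthogonal arrays of strength `n - 2` with `n + 2` columns on `n` symbols:
if `n ≥ 4` is even, then `3` divides `n`.
-/

set_option autoImplicit false

namespace Pool.Agent.MP_c7a479_co.D4

open Function Finset

variable {X κ α : Type} [DecidableEq κ] {C : κ → X → α}

/-- The row `c` agrees with the word `x` outside `T`. -/
def Ag (C : κ → X → α) (x : κ → α) (c : X) (T : Finset κ) : Prop := ∀ i ∉ T, C i c = x i

/-- Some row agrees with `x` outside `s`, `w` and one more column. -/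
def Cv (C : κ → X → α) (x : κ → α) (s w : κ) : Prop := ∃ c v, Ag C x c {s, w, v}

/-- Codes of redundancy four with minimum distance five. -/
structure R4 (C : κ → X → α) : Prop where
  sep : ∀ (c d : X) (T : Finset κ), T.card ≤ 4 → (∀ i ∉ T, C i c = C i d) → c = d
  ex : ∀ (x : κ → α) (T : Finset κ), T.card = 4 → ∃ c, Ag C x c T

theorem R4.of_isOA [Fintype κ] {m : ℕ} (h : IsOA m C) (hk : Fintype.card κ = m + 4) : R4 C := by
  refine ⟨fun c d T hT hcd => h.sep c d Tᶜ (by rw [card_compl]; omega) fun i hi =>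
    hcd i (mem_compl.1 hi), fun x T hT => ?_⟩
  obtain ⟨c, hc⟩ := h.ex Tᶜ (by rw [card_compl]; omega) x
  exact ⟨c, fun i hi => hc i (mem_compl.2 hi)⟩

omit [DecidableEq κ] in
theorem Ag.mono {x : κ → α} {c : X} {T T' : Finset κ} (h : Ag C x c T) (hT : T ⊆ T') :
    Ag C x c T' := fun i hi => h i fun hi' => hi (hT hi')

theorem Ag.update {x : κ → α} {c : X} {T : Finset κ} (h : Ag C x c T) {s : κ} (hs : s ∈ T)
    (a : α) : Ag C (update x s a) c T := fun i hi => by
  rw [update_of_ne (fun e : i = s => hi (e ▸ hs)), h i hi]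

theorem Ag.of_update {x : κ → α} {c : X} {T : Finset κ} {s : κ} {a : α}
    (h : Ag C (Function.update x s a) c T) : Ag C x c (insert s T) := fun i hi => by
  rw [mem_insert, not_or] at hi
  rw [h i hi.2, update_of_ne hi.1]

theorem R4.eq (h : R4 C) {x : κ → α} {c d : X} {T T' : Finset κ} (hc : Ag C x c T)
    (hd : Ag C x d T') (a b e f : κ) (hT : T ⊆ {a, b, e, f}) (hT' : T' ⊆ {a, b, e, f}) : c = d :=
  h.sep c d {a, b, e, f} card_le_four fun i hi => by rw [hc.mono hT i hi, hd.mono hT' i hi]

theorem cv_update {x : κ → α} {s w : κ} (a : α) : Cv C (update x s a) s w ↔ Cv C x s w :=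
  ⟨fun ⟨c, v, h⟩ => ⟨c, v, h.of_update.mono (by simp)⟩,
    fun ⟨c, v, h⟩ => ⟨c, v, h.update (by simp) a⟩⟩

variable [Fintype κ] [Fintype α]

/-- On a line, a pair of columns is uncovered at most once. -/
theorem R4.line (h : R4 C) (hk : Fintype.card κ = Fintype.card α + 2) {x : κ → α} {s w t : κ}
    (hsw : s ≠ w) (hst : s ≠ t) (hwt : w ≠ t) {a b : α} (ha : ¬Cv C (update x t a) s w)
    (hb : ¬Cv C (update x t b) s w) : a = b := by
  classical
  by_contra hab
  have h3 : ({s, w, t} : Finset κ).card = 3 := card_eq_three.2 ⟨s, w, t, hsw, hst, hwt, rfl⟩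
  choose c hc using fun v : {v // v ∉ ({s, w, t} : Finset κ)} =>
    h.ex x (insert v.1 {s, w, t}) (by rw [card_insert_of_notMem v.2, h3])
  have hcov : ∀ v, Cv C (update x t (C t (c v))) s w := fun v =>
    ⟨c v, v.1, fun i hi => by
      by_cases e : i = t
      · rw [e, update_self]
      · rw [update_of_ne e]
        exact hc v i (by simp only [mem_insert, mem_singleton] at hi ⊢; tauto)⟩
  let f : {v // v ∉ ({s, w, t} : Finset κ)} → {e // e ∉ ({a, b} : Finset α)} := fun v =>
    ⟨C t (c v), by
      simp only [mem_insert, mem_singleton, not_or]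
      exact ⟨fun e => ha (e ▸ hcov v), fun e => hb (e ▸ hcov v)⟩⟩
  have hf : Injective f := fun v v' e => by
    have e1 : C t (c v) = C t (c v') := congrArg Subtype.val e
    have e2 : c v = c v' := h.sep _ _ {s, w, v.1, v'.1} card_le_four fun i hi => by
      by_cases e : i = t
      · rw [e, e1]
      · simp only [mem_insert, mem_singleton] at hi
        rw [hc v i (by simp only [mem_insert, mem_singleton]; tauto),
          hc v' i (by simp only [mem_insert, mem_singleton]; tauto)]
    by_contra hne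
    refine ha ⟨c v, t, Ag.update (fun i hi => ?_) (by simp) a⟩
    by_cases e : i = v.1
    · rw [e2]
      refine hc v' i fun hi' => ?_
      rcases mem_insert.1 hi' with e' | hi'
      · exact hne (Subtype.ext (e.symm.trans e'))
      · exact hi hi'
    · exact hc v i fun hi' => (mem_insert.1 hi').elim e hi
  have := Fintype.card_le_of_injective f hf
  rw [Fintype.card_subtype_compl, Fintype.card_subtype_compl, Fintype.card_coe, Fintype.card_coe,
    h3, card_pair hab] at this
  have h2 : 2 ≤ Fintype.card α := by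
    rw [← card_pair hab]
    exact card_le_univ _
  omega

omit [Fintype α] in
/-- Parity: some partner of `s` is uncovered. -/
theorem R4.parity (h : R4 C) (hk : Even (Fintype.card κ)) {x : κ → α} {s : κ}
    (hx : ∀ c v, ¬Ag C x c {s, v}) : ∃ w, w ≠ s ∧ ¬Cv C x s w := by
  by_contra hn
  have hn' : ∀ w : {w // w ≠ s}, ∃ c v, Ag C x c {s, w.1, v} := fun w => by
    by_contra h'
    exact hn ⟨w.1, w.2, h'⟩
  choose c v hc using hn'
  have hvs : ∀ w, v w ≠ s := fun w e =>
    hx (c w) w.1 ((hc w).mono (by simp [e, insert_subset_iff]))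
  let g : {w // w ≠ s} → {w // w ≠ s} := fun w => ⟨v w, hvs w⟩
  have h2 : ∀ w, g w ≠ w := fun w e =>
    hx (c w) w.1 ((hc w).mono (by simp [show v w = w.1 from congrArg Subtype.val e]))
  have h1 : ∀ w, g (g w) = w := fun w => by
    have e : c w = c (g w) := h.eq (hc w) (hc (g w)) s w.1 (v w) (v (g w))
      (by simp [insert_subset_iff]) (by simp [insert_subset_iff, g])
    by_contra hne
    refine hx (c w) (v w) fun i hi => ?_
    simp only [mem_insert, mem_singleton, not_or] at hi
    by_cases e' : i = w.1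
    · rw [e]
      refine hc (g w) i ?_
      simp only [mem_insert, mem_singleton, not_or]
      exact ⟨hi.1, hi.2, fun e'' => hne (Subtype.ext (e''.symm.trans e'))⟩
    · exact hc w i (by simp only [mem_insert, mem_singleton, not_or]; exact ⟨hi.1, e', hi.2⟩)
  have := IsOA.even_card_of_invol g h1 h2
  rw [Fintype.card_subtype_compl, Fintype.card_subtype_eq] at this
  have h0 : 0 < Fintype.card κ := Fintype.card_pos_iff.2 ⟨s⟩
  obtain ⟨a, ha⟩ := hk
  obtain ⟨b, hb⟩ := this
  omega

omit [Fintype κ] [Fintype α] in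
theorem R4.far (h : R4 C) {y : κ → α} {c : X} {s t u : κ} (htu : t ≠ u) (hst : s ≠ t)
    (hsu : s ≠ u) (hc : Ag C y c {t, u}) (ht : C t c ≠ y t) (hu : C u c ≠ y u) (d : X) (v : κ) :
    ¬Ag C y d {s, v} := fun hd => by
  have e : c = d := h.eq hc hd s v t u (by simp [insert_subset_iff]) (by simp [insert_subset_iff])
  subst e
  by_cases e : t = v
  · exact hu (hd u (by simp [hsu.symm, ← e, htu.symm]))
  · exact ht (hd t (by simp [hst.symm, e]))

/-- At distance two from the code each further column has exactly one uncovered partner. -/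
theorem R4.unique (h : R4 C) (hk : Fintype.card κ = Fintype.card α + 2)
    (he : Even (Fintype.card α)) {y : κ → α} {c : X} {s t u : κ} (htu : t ≠ u) (hst : s ≠ t)
    (hsu : s ≠ u) (hc : Ag C y c {t, u}) (ht : C t c ≠ y t) (hu : C u c ≠ y u) :
    ∃! w, w ≠ s ∧ ¬Cv C y s w := by
  classical
  have he' : Even (Fintype.card κ) := hk ▸ he.add even_two
  have hmem : ∀ a w, w ≠ s → ¬Cv C (update y t a) s w → w ∉ ({s, t, u} : Finset κ) :=
    fun a w hw hn hm => by
      have hc' := hc.update (s := t) (by simp) a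
      simp only [mem_insert, mem_singleton] at hm
      rcases hm with e | e | e
      · exact hw e
      · exact hn ⟨c, u, hc'.mono (by simp [e])⟩
      · exact hn ⟨c, t, hc'.mono (by simp [e, insert_subset_iff])⟩
  choose w hw1 hw2 using fun a : {a // a ≠ C t c} =>
    h.parity he' (h.far htu hst hsu (hc.update (s := t) (by simp) a.1)
      (by rw [update_self]; exact a.2.symm) (by rwa [update_of_ne htu.symm]))
  let f : {a // a ≠ C t c} → {v // v ∉ ({s, t, u} : Finset κ)} := fun a =>
    ⟨w a, hmem a.1 _ (hw1 a) (hw2 a)⟩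
  have hne : ∀ a, w a ≠ t := fun a e => (f a).2 (by simp [f, e])
  have hf : Injective f := fun a b e => Subtype.ext
    (h.line hk (hw1 a).symm hst (hne a) (hw2 a)
      (by rw [show w a = w b from congrArg Subtype.val e]; exact hw2 b))
  have hs : Surjective f := ((Fintype.bijective_iff_injective_and_card f).2 ⟨hf, by
    rw [Fintype.card_subtype_compl, Fintype.card_subtype_compl, Fintype.card_subtype_eq,
      Fintype.card_coe, card_eq_three.2 ⟨s, t, u, hst, hsu, htu, rfl⟩]
    omega⟩).2
  refine ⟨w ⟨y t, ht.symm⟩, ⟨hw1 _, by simpa using hw2 ⟨y t, ht.symm⟩⟩, fun v hv => ?_⟩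
  have hv' : ¬Cv C (update y t (y t)) s v := by simpa using hv.2
  obtain ⟨a, ha⟩ := hs ⟨v, hmem _ v hv.1 hv'⟩
  have e : w a = v := congrArg Subtype.val ha
  have e' : a = ⟨y t, ht.symm⟩ :=
    Subtype.ext (h.line hk (hw1 a).symm hst (hne a) (hw2 a) (e ▸ hv'))
  rw [← e, e']

omit [Fintype α] in
/-- A triple system whose leave is a perfect matching. -/
theorem R4.three_dvd (h : R4 C) {x : κ → α} (V : Finset κ)
    (hH : ∀ s ∈ V, ∀ c v, ¬Ag C x c {s, v})
    (hC : ∀ s ∈ V, ∀ w ∈ V, ∀ c v, Ag C x c {s, w, v} → v ∈ V)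
    (hU : ∀ s ∈ V, ∃! w, w ∈ V ∧ w ≠ s ∧ ¬Cv C x s w) : 3 ∣ V.card * (V.card - 2) := by
  classical
  let P := {p : κ × κ // p.1 ∈ V ∧ p.2 ∈ V ∧ p.2 ≠ p.1 ∧ Cv C x p.1 p.2}
  choose c v hc using fun p : P => p.2.2.2.2
  have huniq : ∀ (p : P) d z, Ag C x d {p.1.1, p.1.2, z} → v p = z := fun p d z hd => by
    have e : c p = d := h.eq (hc p) hd p.1.1 p.1.2 (v p) z (by simp [insert_subset_iff])
      (by simp [insert_subset_iff])
    by_contra hne
    refine hH _ p.2.1 d p.1.2 fun i hi => ?_
    simp only [mem_insert, mem_singleton, not_or] at hi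
    by_cases e' : i = z
    · rw [← e]
      exact hc p i (by simp [hi.1, hi.2, show i ≠ v p from e' ▸ Ne.symm hne])
    · exact hd i (by simp [hi.1, hi.2, e'])
  have hrot : ∀ p : P, Ag C x (c p) {p.1.2, v p, p.1.1} := fun p =>
    (hc p).mono (by simp [insert_subset_iff])
  let f : Function.End P := fun p => ⟨(p.1.2, v p), p.2.2.1, hC _ p.2.1 _ p.2.2.1 _ _ (hc p),
    fun e => hH _ p.2.1 (c p) p.1.2 ((hc p).mono (by simp [show v p = p.1.2 from e])),
    c p, p.1.1, hrot p⟩
  have hv : ∀ p, v (f p) = p.1.1 := fun p => huniq (f p) (c p) _ (hrot p)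
  have h3 : f ^ 3 ^ 1 = 1 := by
    funext p
    refine Subtype.ext (Prod.ext ?_ ?_)
    · exact hv p
    · exact hv (f p)
  have hfix : Fintype.card f.fixedPoints = 0 :=
    Fintype.card_eq_zero_iff.2 ⟨fun p => p.1.2.2.2.1 (congrArg (fun z : P => z.1.1) p.2)⟩
  have hmod := Equiv.Perm.card_fixedPoints_modEq (p := 3) h3
  rw [hfix] at hmod
  have hcard : Fintype.card P = V.card * (V.card - 2) := by
    rw [Fintype.card_subtype, card_eq_sum_card_fiberwise (f := Prod.fst) (t := V)
      (fun p hp => (mem_filter.1 hp).2.1), ← smul_eq_mul, ← sum_const]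
    refine sum_congr rfl fun s hs => ?_
    obtain ⟨w, hw, hw'⟩ := hU s hs
    have e : V.card - 2 = ((V.erase s).erase w).card := by
      rw [card_erase_of_mem (mem_erase.2 ⟨hw.2.1, hw.1⟩), card_erase_of_mem hs]
      omega
    rw [e]
    refine card_bij (fun p _ => p.2) (fun p hp => ?_) (fun p hp p' hp' e => ?_) fun z hz => ?_
    · simp only [mem_filter, mem_univ, true_and] at hp
      obtain ⟨⟨-, h2, h3, h4⟩, rfl⟩ := hp
      exact mem_erase.2 ⟨fun e => hw.2.2 (e ▸ h4), mem_erase.2 ⟨h3, h2⟩⟩
    · exact Prod.ext ((mem_filter.1 hp).2.trans (mem_filter.1 hp').2.symm) e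
    · have h1 := mem_erase.1 hz
      have h2 := mem_erase.1 h1.2
      refine ⟨(s, z), ?_, rfl⟩
      simp only [mem_filter, mem_univ, true_and, and_true]
      refine ⟨hs, h2.2, h2.1, ?_⟩
      by_contra hn
      exact h1.1 (hw' z ⟨h2.2, h2.1, hn⟩)
  rw [← hcard]
  exact (Nat.modEq_zero_iff_dvd).1 hmod

/-- The main theorem. -/
theorem R4.main (h : R4 C) (hk : Fintype.card κ = Fintype.card α + 2)
    (h4 : 4 ≤ Fintype.card α) (he : Even (Fintype.card α)) : 3 ∣ Fintype.card α := by
  classical
  have : Nontrivial α := Fintype.one_lt_card_iff_nontrivial.1 (by omega)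
  obtain ⟨z⟩ : Nonempty α := inferInstance
  obtain ⟨T, -, hT⟩ := exists_subset_card_eq (s := (univ : Finset κ)) (n := 4)
    (by rw [card_univ]; omega)
  obtain ⟨c, -⟩ := h.ex (fun _ => z) T hT
  obtain ⟨s, t, u, hst, hsu, htu⟩ : ∃ s t u : κ, s ≠ t ∧ s ≠ u ∧ t ≠ u :=
    Fintype.two_lt_card_iff.1 (by omega)
  choose y hy using fun i => exists_ne (C i c)
  obtain ⟨y, hc, ht, hu⟩ : ∃ y, Ag C y c {t, u} ∧ C t c ≠ y t ∧ C u c ≠ y u :=
    ⟨fun i => if i ∈ ({t, u} : Finset κ) then y i else C i c, fun i hi => (if_neg hi).symm,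
      by simpa using (hy t).symm, by simpa using (hy u).symm⟩
  have hV : ∀ p : κ, p ∈ ({t, u} : Finset κ)ᶜ ↔ p ≠ t ∧ p ≠ u := fun p => by simp
  have h1 := h.three_dvd (x := y) ({t, u} : Finset κ)ᶜ
    (fun p hp => h.far htu ((hV p).1 hp).1 ((hV p).1 hp).2 hc ht hu)
    (fun p hp w hw d v hd => by
      rw [hV] at hp hw ⊢
      constructor
      · rintro rfl
        have e : c = d := h.eq hc hd p w v u (by simp [insert_subset_iff])
          (by simp [insert_subset_iff])
        exact hu (e ▸ hd u (by simp [hp.2.symm, hw.2.symm, htu.symm]))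
      · rintro rfl
        have e : c = d := h.eq hc hd p w t v (by simp [insert_subset_iff])
          (by simp [insert_subset_iff])
        exact ht (e ▸ hd t (by simp [hp.1.symm, hw.1.symm, htu])))
    (fun p hp => by
      obtain ⟨w, hw, hw'⟩ := h.unique hk he htu ((hV p).1 hp).1 ((hV p).1 hp).2 hc ht hu
      refine ⟨w, ⟨(hV w).2 ⟨?_, ?_⟩, hw⟩, fun v hv => hw' v hv.2⟩
      · rintro rfl
        exact hw.2 ⟨c, u, hc.mono (by simp)⟩
      · rintro rfl
        exact hw.2 ⟨c, t, hc.mono (by simp [insert_subset_iff])⟩)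
  rw [card_compl, card_pair htu, hk, Nat.add_sub_cancel] at h1
  obtain ⟨w, ⟨hws, hw⟩, hw'⟩ := h.unique hk he htu hst hsu hc ht hu
  have hwt : w ≠ t := by
    rintro rfl
    exact hw ⟨c, u, hc.mono (by simp)⟩
  have hfar := h.far htu hst hsu hc ht hu
  let B : Finset α := univ.filter fun a => ∃ d v v', Ag C (update y s a) d {v, v'}
  have hB : B.card * 2 ≤ Fintype.card α + 1 := by
    choose d v v' hd using fun a : B => (mem_filter.1 a.2).2
    have hd' : ∀ a, Ag C y (d a) {s, v a, v' a} := fun a => (hd a).of_update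
    have hv : ∀ a, v a ≠ s := fun a e => hfar (d a) (v' a) ((hd' a).mono (by simp [e]))
    have hv' : ∀ a, v' a ≠ s := fun a e =>
      hfar (d a) (v a) ((hd' a).mono (by simp [e, insert_subset_iff]))
    have hvv : ∀ a, v a ≠ v' a := fun a e => hfar (d a) (v a) ((hd' a).mono (by simp [← e]))
    have hinj : ∀ a b, d a = d b → a = b := fun a b e => by
      have e1 := hd a s (by simp [(hv a).symm, (hv' a).symm])
      have e2 := hd b s (by simp [(hv b).symm, (hv' b).symm])
      rw [update_self] at e1 e2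
      exact Subtype.ext (by rw [← e1, ← e2, e])
    let g : B × Bool → {p // p ≠ s} := fun p => cond p.2 ⟨v p.1, hv _⟩ ⟨v' p.1, hv' _⟩
    have hg : Injective g := by
      rintro ⟨a, i⟩ ⟨b, j⟩ e
      have e' := congrArg Subtype.val e
      have hab : a = b := hinj a b (by
        cases i <;> cases j <;> simp only [g, cond_true, cond_false] at e'
        · exact h.eq (hd' a) (hd' b) s (v a) (v b) (v' a) (by simp [insert_subset_iff])
            (by simp [insert_subset_iff, e'])
        · exact h.eq (hd' a) (hd' b) s (v a) (v' b) (v' a) (by simp [insert_subset_iff])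
            (by simp [insert_subset_iff, e'])
        · exact h.eq (hd' a) (hd' b) s (v a) (v b) (v' a) (by simp [insert_subset_iff])
            (by simp [insert_subset_iff, ← e'])
        · exact h.eq (hd' a) (hd' b) s (v a) (v' b) (v' a) (by simp [insert_subset_iff])
            (by simp [insert_subset_iff, ← e']))
      subst hab
      cases i <;> cases j <;> simp only [g, cond_true, cond_false] at e'
      · rfl
      · exact absurd e'.symm (hvv a)
      · exact absurd e' (hvv a)
      · rfl
    have := Fintype.card_le_of_injective g hg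
    rw [Fintype.card_prod, Fintype.card_coe, Fintype.card_bool, Fintype.card_subtype_compl,
      Fintype.card_subtype_eq] at this
    omega
  obtain ⟨a, ha, hcv⟩ : ∃ a, a ∉ B ∧ Cv C (update y s a) w t := by
    obtain ⟨a, b, ha, hb, hab⟩ := one_lt_card_iff.1 (show 1 < Bᶜ.card by rw [card_compl]; omega)
    by_contra hn
    exact hab (h.line hk hwt hws hst.symm (fun h' => hn ⟨a, mem_compl.1 ha, h'⟩)
      fun h' => hn ⟨b, mem_compl.1 hb, h'⟩)
  have hx : ∀ d v v', ¬Ag C (update y s a) d {v, v'} := fun d v v' hd =>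
    ha (mem_filter.2 ⟨mem_univ _, d, v, v', hd⟩)
  have htri : ∀ p, ∃ d r r', Ag C (update y s a) d {p, r, r'} := fun p => by
    by_cases e : p = s
    · exact ⟨c, t, u, (hc.mono (by simp)).update (by simp [e]) a⟩
    by_cases e' : p = w
    · obtain ⟨d, r, hd⟩ := hcv
      exact ⟨d, t, r, e' ▸ hd⟩
    · have : Cv C y s p := by
        by_contra hn
        exact e' (hw' p ⟨e, hn⟩)
      obtain ⟨d, r, hd⟩ := (cv_update a).2 this
      exact ⟨d, s, r, hd.mono (by simp [insert_subset_iff])⟩
  generalize update y s a = x at hx htri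
  have h2 := h.three_dvd (x := x) univ (fun p _ d v => hx d p v) (fun _ _ _ _ _ v _ => mem_univ v)
    fun p _ => by
      obtain ⟨d, r, r', hd⟩ := htri p
      have hpr : p ≠ r := fun e => hx d r r' (hd.mono (by simp [e]))
      have hpr' : p ≠ r' := fun e => hx d r r' (hd.mono (by simp [e]))
      have hrr : r ≠ r' := fun e => hx d p r (hd.mono (by simp [e]))
      have hd' : Ag C (update x p (C p d)) d {r, r'} := fun i hi => by
        by_cases e : i = p
        · rw [e, update_self]
        · rw [update_of_ne e]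
          exact hd i fun hi' => (mem_insert.1 hi').elim e hi
      have := h.unique hk he hrr hpr hpr' hd'
        (by
          rw [update_of_ne hpr.symm]
          refine fun e => hx d p r' fun i hi => ?_
          by_cases e' : i = r
          · rw [e', e]
          · exact hd i (by simp only [mem_insert, mem_singleton] at hi ⊢; tauto))
        (by
          rw [update_of_ne hpr'.symm]
          refine fun e => hx d p r fun i hi => ?_
          by_cases e' : i = r'
          · rw [e', e]
          · exact hd i (by simp only [mem_insert, mem_singleton] at hi ⊢; tauto))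
      simpa only [cv_update, mem_univ, true_and] using this
  rw [card_univ, hk, Nat.add_sub_cancel] at h2
  rcases (Nat.Prime.dvd_mul Nat.prime_three).1 h1 with h1 | h1
  · exact h1
  · rcases (Nat.Prime.dvd_mul Nat.prime_three).1 h2 with h2 | h2
    · omega
    · exact h2

end Pool.Agent.MP_c7a479_co.D4
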