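import Pool.Agent.MP_c7a479_co.DualFour

/-!
Variational sets from the dual hyperoval code in characteristic two.
-/

set_option autoImplicit false

namespace Pool.Agent.MP_c7a479_co.D4

open Function Finset

variable {F ι : Type} [Field F] [Fintype ι] [DecidableEq ι]

theorem isPermCube_lin {g : ι → F} (hg : ∀ j, g j ≠ 0) :
    IsPermCube fun x : ι → F => ∑ j, g j * x j := by
  intro x j
  have e : (fun a => ∑ i, g i * update x j a i) =
      fun a => g j * a + ∑ i ∈ univ.erase j, g i * x i := by
    funext a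
    rw [← add_sum_erase _ _ (mem_univ j), update_self]
    congr 1
    exact sum_congr rfl fun i hi => by rw [update_of_ne (ne_of_mem_erase hi)]
  rw [e]
  exact (Equiv.addRight _).bijective.comp (Equiv.mulLeft₀ _ (hg j)).bijective

/-- Points of the hyperoval. -/
def col (t : ι → F) : ι ⊕ Fin 3 → Fin 3 → F
  | Sum.inl j => fun k => t j ^ (k : ℕ)
  | Sum.inr l => fun k => if k = l then 1 else 0

omit [Fintype ι] [DecidableEq ι] in
theorem col_indep (h2 : (2 : F) = 0) {t : ι → F} (ht : Injective t) (h0 : ∀ j, t j ≠ 0)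
    (j : ι) {u v : ι ⊕ Fin 3} (hu : Sum.inl j ≠ u) (hv : Sum.inl j ≠ v) (huv : u ≠ v)
    {a b c : F} (h : ∀ k, a * col t (Sum.inl j) k + b * col t u k + c * col t v k = 0) :
    a = 0 := by
  have e0 := h 0
  have e1 := h 1
  have e2 := h 2
  have hj := h0 j
  have key : ∀ (i : ι) (l : Fin 3) (b c : F), j ≠ i →
      (∀ k, a * col t (Sum.inl j) k + b * col t (Sum.inl i) k + c * col t (Sum.inr l) k = 0) →
      a = 0 := fun i l b c hi h => by
    have e0 := h 0
    have e1 := h 1
    have e2 := h 2
    have hd : t j - t i ≠ 0 := sub_ne_zero.2 (ht.ne hi)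
    fin_cases l <;> simp [col] at e0 e1 e2
    · refine (mul_eq_zero.1 ?_).resolve_right (mul_ne_zero hj hd)
      linear_combination e2 - t i * e1
    · refine (mul_eq_zero.1 ?_).resolve_right (mul_ne_zero hd hd)
      linear_combination e2 - t i ^ 2 * e0 + a * (t i ^ 2 - t j * t i) * h2
    · refine (mul_eq_zero.1 ?_).resolve_right hd
      linear_combination e1 - t i * e0
  rcases u with i | l <;> rcases v with i' | l'
  · have hi : t j - t i ≠ 0 := sub_ne_zero.2 (ht.ne fun e => hu (by rw [e]))
    have hi' : t j - t i' ≠ 0 := sub_ne_zero.2 (ht.ne fun e => hv (by rw [e]))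
    simp [col] at e0 e1 e2
    refine (mul_eq_zero.1 ?_).resolve_right (mul_ne_zero hi hi')
    linear_combination e2 - (t i + t i') * e1 + t i * t i' * e0
  · exact key i l' b c (fun e => hu (by rw [e])) h
  · exact key i' l c b (fun e => hv (by rw [e])) fun k => by linear_combination h k
  · fin_cases l <;> fin_cases l' <;> simp [col, hj] at e0 e1 e2 huv <;> assumption

theorem hasVarSet_dual [Fintype F] (h2 : (2 : F) = 0) {t f : ι → F} (ht : Injective t)
    (h0 : ∀ j, t j ≠ 0) (hf : ∀ j, f j ≠ 0) (hs : ∀ k : Fin 3, ∑ j, t j ^ (k : ℕ) * f j = 0)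
    {l : F} (hl0 : l ≠ 0) (hl1 : 1 + l ≠ 0) (hlm : (Fintype.card ι : F) + l ≠ 0) :
    HasVarSet (Fintype.card ι) (Fintype.card F) (Fintype.card ι + 3) := by
  classical
  let g : ι ⊕ Fin 3 → ι → F := fun i j =>
    Sum.elim (fun i => f i * (1 + if j = i then l else 0))
      (fun k : Fin 3 => l * (t j ^ (k : ℕ) * f j)) i
  have hg : ∀ i j, g i j ≠ 0 := by
    rintro (i | k) j
    · refine mul_ne_zero (hf i) ?_
      split_ifs
      · exact hl1
      · simp
    · exact mul_ne_zero hl0 (mul_ne_zero (pow_ne_zero _ (h0 j)) (hf j))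
  have hvar : IsVarSet fun (i : ι ⊕ Fin 3) (x : ι → F) => ∑ j, g i j * x j := by
    refine isVarSet_of_sep (fun i => isPermCube_lin (hg i)) fun x y S hS hxy => ?_
    obtain ⟨z, hz⟩ : ∃ z : ι → F, z = x - y := ⟨_, rfl⟩
    let V : ι ⊕ Fin 3 → F := fun i => ∑ j, g i j * z j
    have hV0 : ∀ i ∈ S, V i = 0 := fun i hi => by
      have := hxy i hi
      simp only [V, hz, Pi.sub_apply, mul_sub, sum_sub_distrib]
      exact sub_eq_zero.2 this
    have hVl : ∀ i, V (Sum.inl i) = f i * (∑ j, z j + l * z i) := fun i => by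
      simp only [V, g, Sum.elim_inl, mul_assoc, ← mul_sum, add_mul, one_mul, sum_add_distrib,
        ite_mul, zero_mul, sum_ite_eq', mem_univ, if_true]
    have hrel : ∀ k, ∑ i, V i * col t i k = 0 := fun k => by
      rw [Fintype.sum_sum_type]
      have e1 : ∑ i, V (Sum.inl i) * col t (Sum.inl i) k =
          (∑ j, z j) * ∑ j, t j ^ (k : ℕ) * f j + V (Sum.inr k) := by
        simp only [hVl, col]
        simp only [V, g, Sum.elim_inr, mul_sum, ← sum_add_distrib]
        exact sum_congr rfl fun i _ => by ring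
      have e2 : ∑ i, V (Sum.inr i) * col t (Sum.inr i) k = V (Sum.inr k) := by simp [col]
      rw [e1, e2, hs k]
      linear_combination V (Sum.inr k) * h2
    have hc : Sᶜ.card = 3 := by rw [card_compl, hS]; simp
    have hY : ∀ i, ∑ j, z j + l * z i = 0 := fun i => by
      refine (mul_eq_zero.1 ((hVl i).symm.trans ?_)).resolve_left (hf i)
      by_cases hi : Sum.inl i ∈ S
      · exact hV0 _ hi
      obtain ⟨u, v, huv, hT⟩ := card_eq_two.1 (show (Sᶜ.erase (Sum.inl i)).card = 2 by
        rw [card_erase_of_mem (mem_compl.2 hi), hc])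
      have hu : Sum.inl i ≠ u := (ne_of_mem_erase (hT ▸ (by simp : u ∈ ({u, v} : Finset _)))).symm
      have hv : Sum.inl i ≠ v := (ne_of_mem_erase (hT ▸ (by simp : v ∈ ({u, v} : Finset _)))).symm
      refine col_indep h2 ht h0 i hu hv huv (b := V u) (c := V v) fun k => ?_
      rw [← hrel k, ← sum_subset (subset_univ Sᶜ)
        (fun w _ hw => by rw [hV0 w (by simpa using hw), zero_mul]),
        ← add_sum_erase _ _ (mem_compl.2 hi), hT, sum_pair huv, add_assoc]
    have hσ : ∑ j, z j = 0 := by
      have := sum_congr (rfl : (univ : Finset ι) = univ) fun i _ => hY i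
      rw [sum_add_distrib, ← mul_sum, sum_const, sum_const_zero, nsmul_eq_mul, ← add_mul] at this
      exact (mul_eq_zero.1 this).resolve_left hlm
    refine sub_eq_zero.1 (hz ▸ funext fun i => ?_)
    have := hY i
    rw [hσ, zero_add] at this
    exact (mul_eq_zero.1 this).resolve_left hl0
  exact hvar.hasVarSet rfl rfl (by simp)

theorem hasVarSet_two_pow {h m : ℕ} (hh : 3 ≤ h) (h1 : 2 ^ h ≤ m + 2) (h2 : m + 1 ≤ 2 ^ h) :
    HasVarSet m (2 ^ h) (m + 3) := by
  classical
  let F := GaloisField 2 h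
  have : Fintype F := Fintype.ofFinite F
  have hF : Fintype.card F = 2 ^ h := by
    rw [← Nat.card_eq_fintype_card]
    exact GaloisField.card 2 h (by omega)
  have h8 : 8 ≤ 2 ^ h := Nat.pow_le_pow_right (n := 2) two_pos hh
  have c2 : (2 : F) = 0 := CharP.cast_eq_zero F 2
  have hsum : ∀ e : ℕ, e ≤ 4 → ∑ x : F, x ^ e = 0 := fun e he =>
    FiniteField.sum_pow_lt_card_sub_one F e (by omega)
  obtain ⟨l, hl⟩ : ∃ l : F, l ∉ ({0, -1} : Finset F) :=
    exists_mem_notMem_of_card_lt_card (s := {0, -1}) (t := univ)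
      (card_le_two.trans_lt (by rw [card_univ]; omega)) |>.imp fun _ h => h.2
  simp only [mem_insert, mem_singleton, not_or] at hl
  have hl1 : 1 + l ≠ 0 := fun e => hl.2 (by linear_combination e)
  have main : ∀ f : F → F, f 0 = 0 → (∀ k : Fin 3, ∑ x, x ^ (k : ℕ) * f x = 0) →
      HasVarSet (Fintype.card {x // f x ≠ 0}) (2 ^ h) (Fintype.card {x // f x ≠ 0} + 3) := by
    intro f f0 hf
    rw [← hF]
    refine hasVarSet_dual c2 (t := Subtype.val) (f := fun x => f x.1) Subtype.val_injective
      (fun x e => x.2 (by rw [e, f0])) (fun x => x.2) (fun k => ?_) hl.1 hl1 ?_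
    · rw [← sum_subtype (univ.filter fun x => f x ≠ 0) (by simp) fun x => x ^ (k : ℕ) * f x]
      exact (sum_filter_of_ne fun x _ hx => right_ne_zero_of_mul hx).trans (hf k)
    · rcases Nat.even_or_odd' (Fintype.card {x // f x ≠ 0}) with ⟨r, e | e⟩
      · rw [e, Nat.cast_mul, Nat.cast_ofNat, c2, zero_mul, zero_add]
        exact hl.1
      · rw [e, Nat.cast_add, Nat.cast_mul, Nat.cast_ofNat, c2, zero_mul, zero_add, Nat.cast_one]
        exact hl1
  rcases (by omega : m + 1 = 2 ^ h ∨ m + 2 = 2 ^ h) with e | e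
  · have := main (fun x => x) rfl fun k => by
      simpa only [pow_succ] using hsum (k + 1) (by omega)
    rwa [Fintype.card_subtype_compl, Fintype.card_subtype_eq, hF, show 2 ^ h - 1 = m by omega]
      at this
  · have := main (fun x => x * (x - 1)) (zero_mul _) fun k => by
      have e1 : ∀ x : F, x ^ (k : ℕ) * (x * (x - 1)) = x ^ (k + 2 : ℕ) - x ^ (k + 1 : ℕ) :=
        fun x => by ring
      simp only [e1, sum_sub_distrib]
      rw [hsum _ (by omega), hsum _ (by omega), sub_zero]
    have hc : Fintype.card {x : F // x * (x - 1) ≠ 0} = m := by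
      rw [Fintype.card_subtype, show (univ.filter fun x : F => x * (x - 1) ≠ 0) = {0, 1}ᶜ by
        ext x
        simp [sub_eq_zero], card_compl, card_pair zero_ne_one, hF]
      omega
    rwa [hc] at this

theorem le_add_three {m n k : ℕ} (h : HasVarSet m n k) (hn : 4 ≤ n) (he : Even n) (h3 : ¬3 ∣ n)
    (hm : n ≤ m + 2) : k ≤ m + 3 := by
  by_contra hlt
  have hmn : m < n := by
    by_contra h'
    have := h.le_of_large (by omega) (by omega)
    omega
  obtain ⟨C, hC⟩ := (h.mono (k' := m + 4) (by omega)).exists_isOA (by omega)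
  obtain ⟨S, -, hS⟩ := exists_subset_card_eq (s := (univ : Finset (Fin (m + 4))))
    (n := m + 2 - n) (by simp; omega)
  have hd := hC.derived S (by omega) fun _ => ⟨0, by omega⟩
  have hk : Fintype.card {i // i ∉ S} = n + 2 := by
    rw [Fintype.card_subtype_compl, Fintype.card_coe, Fintype.card_fin]
    omega
  have := (R4.of_isOA hd (by omega)).main (by simpa using hk) (by simpa using hn)
    (by simpa using he)
  exact h3 (by simpa using this)

end Pool.Agent.MP_c7a479_co.D4
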