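import Pool.Agent.MP_c7a479_co.EMert

namespace Pool.Agent.MP_c7a479_co.Ex

open Finset
open scoped Classical

theorem EAbel_one {u v a : ℝ} {g : ℝ → ℝ} (hg : ContinuousOn g (Set.Icc u v)) (h1 : u < a)
    (h2 : a ≤ v) :
    IntervalIntegrable (fun s => (if a ≤ s then (1 : ℝ) else 0) * g s) MeasureTheory.volume u v ∧
      ∫ s in u..v, (if a ≤ s then (1 : ℝ) else 0) * g s = ∫ s in a..v, g s := by
  have huv : u ≤ v := h1.le.trans h2
  have he : (fun s => (if a ≤ s then (1 : ℝ) else 0) * g s) = (Set.Ici a).indicator g := by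
    funext s
    by_cases h : a ≤ s <;> simp [Set.indicator, h]
  have hi : IntervalIntegrable g MeasureTheory.volume u v :=
    (hg.mono (by rw [Set.uIcc_of_le huv])).intervalIntegrable
  rw [he]
  constructor
  · rw [intervalIntegrable_iff] at hi ⊢
    exact hi.indicator measurableSet_Ici
  · rw [intervalIntegral.integral_of_le huv, intervalIntegral.integral_of_le h2,
      MeasureTheory.setIntegral_indicator measurableSet_Ici,
      ← MeasureTheory.integral_Icc_eq_integral_Ioc]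
    congr 2
    ext s
    simp only [Set.mem_inter_iff, Set.mem_Ioc, Set.mem_Ici, Set.mem_Icc]
    constructor
    · rintro ⟨⟨-, h3⟩, h4⟩
      exact ⟨h4, h3⟩
    · rintro ⟨h3, h4⟩
      exact ⟨⟨h1.trans_le h3, h4⟩, h3⟩

theorem EAbel_sum (S : Finset ℕ) (w a : ℕ → ℝ) {u v : ℝ} {g : ℝ → ℝ}
    (hg : ContinuousOn g (Set.Icc u v)) (ha : ∀ p ∈ S, u < a p ∧ a p ≤ v) :
    IntervalIntegrable (fun s => (∑ p ∈ S with a p ≤ s, w p) * g s) MeasureTheory.volume u v ∧
      ∑ p ∈ S, w p * ∫ s in a p..v, g s = ∫ s in u..v, (∑ p ∈ S with a p ≤ s, w p) * g s := by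
  have he : (fun s => (∑ p ∈ S with a p ≤ s, w p) * g s) =
      fun s => ∑ p ∈ S, w p * ((if a p ≤ s then (1 : ℝ) else 0) * g s) := by
    funext s
    rw [sum_filter, sum_mul]
    refine sum_congr rfl fun p _ => ?_
    split_ifs <;> simp
  have hi : ∀ p ∈ S, IntervalIntegrable
      (fun s => w p * ((if a p ≤ s then (1 : ℝ) else 0) * g s)) MeasureTheory.volume u v :=
    fun p hp => (EAbel_one hg (ha p hp).1 (ha p hp).2).1.const_mul _
  rw [he]
  constructor
  · have := IntervalIntegrable.sum S hi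
    rwa [show (∑ i ∈ S, fun s => w i * ((if a i ≤ s then (1 : ℝ) else 0) * g s)) =
      fun s => ∑ i ∈ S, w i * ((if a i ≤ s then (1 : ℝ) else 0) * g s) from by
        funext s
        simp only [Finset.sum_apply]] at this
  · rw [intervalIntegral.integral_finsetSum hi]
    refine sum_congr rfl fun p hp => ?_
    rw [intervalIntegral.integral_const_mul, (EAbel_one hg (ha p hp).1 (ha p hp).2).2]

theorem EAbel_log_pos {p : ℕ} (hp : p.Prime) : 0 < Real.log p :=
  Real.log_pos (by exact_mod_cast hp.one_lt)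

theorem EAbel_filter {s y : ℝ} (h : s ≤ y) :
    (PP y).filter (fun p : ℕ => Real.log p ≤ s) = PP s := by
  ext p
  simp only [mem_filter, mem_PP]
  exact ⟨fun h1 => ⟨h1.1.1, h1.2⟩, fun h1 => ⟨⟨h1.1, h1.2.trans h⟩, h1.2⟩⟩

theorem EAbel_AA0 (y : ℝ) : AA 0 y = ∑ p ∈ PP y, hh p * Real.log p := by
  simp [AA]

theorem EAbel_pow (a y : ℝ) (j : ℕ) :
    ∫ s in a..y, ((j : ℝ) + 1) * (y - s) ^ j = (y - a) ^ (j + 1) := by
  have h : ∀ s ∈ Set.uIcc a y,
      HasDerivAt (fun s : ℝ => -(y - s) ^ (j + 1)) (((j : ℝ) + 1) * (y - s) ^ j) s := by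
    intro s _
    have := (((hasDerivAt_id s).const_sub y).fun_pow (j + 1)).fun_neg
    refine this.congr_deriv ?_
    simp
  rw [intervalIntegral.integral_eq_sub_of_hasDerivAt h
    (Continuous.intervalIntegrable (by fun_prop) _ _)]
  simp

theorem EAbel_pow2 (y : ℝ) (j : ℕ) :
    ∫ s in (0 : ℝ)..y, 2 * s * (((j : ℝ) + 1) * (y - s) ^ j) =
      2 * y ^ (j + 2) / (j + 2) := by
  have hj : (j : ℝ) + 2 ≠ 0 := by positivity
  have h : ∀ s ∈ Set.uIcc 0 y,
      HasDerivAt (fun s : ℝ => -(2 * s * (y - s) ^ (j + 1)) - 2 * (y - s) ^ (j + 2) / (j + 2))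
        (2 * s * (((j : ℝ) + 1) * (y - s) ^ j)) s := by
    intro s _
    have h1 := ((hasDerivAt_id s).const_sub y).fun_pow (j + 1)
    have h2 := ((hasDerivAt_id s).const_sub y).fun_pow (j + 2)
    have h3 := (((hasDerivAt_id s).const_mul 2).fun_mul h1).fun_neg.fun_sub
      ((h2.const_mul 2).div_const ((j : ℝ) + 2))
    refine h3.congr_deriv ?_
    simp only [id, Nat.add_sub_cancel, show j + 2 - 1 = j + 1 from rfl]
    push_cast
    field_simp
    ring
  rw [intervalIntegral.integral_eq_sub_of_hasDerivAt h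
    (Continuous.intervalIntegrable (by fun_prop) _ _)]
  simp

theorem EAbel_AA {C : ℝ} (hC : ∀ y : ℝ, 0 ≤ y → |AA 0 y - 2 * y| ≤ C) (j : ℕ) (y : ℝ)
    (hy : 0 ≤ y) : |AA j y - 2 * y ^ (j + 1) / (j + 1)| ≤ C * y ^ j := by
  cases j with
  | zero => simpa using hC y hy
  | succ j =>
    have hg : ContinuousOn (fun s : ℝ => ((j : ℝ) + 1) * (y - s) ^ j) (Set.Icc 0 y) := by
      fun_prop
    obtain ⟨hi, he⟩ := EAbel_sum (PP y) (fun p => hh p * Real.log p) (fun p => Real.log p) hg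
      (fun p hp => ⟨EAbel_log_pos (mem_PP.1 hp).1, (mem_PP.1 hp).2⟩)
    simp only [EAbel_pow] at he
    have hA : AA (j + 1) y = ∫ s in (0 : ℝ)..y,
        (∑ p ∈ (PP y).filter (fun p : ℕ => Real.log p ≤ s), hh p * Real.log p) * (((j : ℝ) + 1) * (y - s) ^ j) := he
    have h2 : IntervalIntegrable (fun s : ℝ => 2 * s * (((j : ℝ) + 1) * (y - s) ^ j))
        MeasureTheory.volume 0 y := Continuous.intervalIntegrable (by fun_prop) _ _
    have h3 : IntervalIntegrable (fun s : ℝ => C * (((j : ℝ) + 1) * (y - s) ^ j))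
        MeasureTheory.volume 0 y := Continuous.intervalIntegrable (by fun_prop) _ _
    have h4 : ∫ s in (0 : ℝ)..y, C * (((j : ℝ) + 1) * (y - s) ^ j) = C * y ^ (j + 1) := by
      rw [intervalIntegral.integral_const_mul, EAbel_pow, sub_zero]
    have h5 : 2 * y ^ (j + 1 + 1) / ((j + 1 : ℕ) + 1) =
        ∫ s in (0 : ℝ)..y, 2 * s * (((j : ℝ) + 1) * (y - s) ^ j) := by
      rw [EAbel_pow2]
      push_cast
      ring
    have key : ∀ s ∈ Set.Icc 0 y,
        |(∑ p ∈ (PP y).filter (fun p : ℕ => Real.log p ≤ s), hh p * Real.log p) - 2 * s| ≤ C := by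
      intro s hs
      rw [EAbel_filter hs.2, ← EAbel_AA0]
      exact hC s hs.1
    have hpos : ∀ s ∈ Set.Icc 0 y, 0 ≤ ((j : ℝ) + 1) * (y - s) ^ j := fun s hs =>
      mul_nonneg (by positivity) (pow_nonneg (sub_nonneg.2 hs.2) _)
    rw [hA, h5, ← h4, abs_le]
    constructor
    · have := intervalIntegral.integral_mono_on hy (h2.sub h3) hi (fun s hs => by
        have h6 := (abs_le.1 (key s hs)).1
        have h7 := hpos s hs
        nlinarith)
      rw [intervalIntegral.integral_sub h2 h3] at this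
      linarith
    · have := intervalIntegral.integral_mono_on hy hi (h2.add h3) (fun s hs => by
        have h6 := (abs_le.1 (key s hs)).2
        have h7 := hpos s hs
        nlinarith)
      rw [intervalIntegral.integral_add h2 h3] at this
      linarith

theorem EAbel_sq {C : ℝ} (hC : ∀ y : ℝ, 0 ≤ y → |AA 0 y - 2 * y| ≤ C) (y : ℝ) (hy : 0 ≤ y) :
    ∑ p ∈ PP y, hh p * Real.log p ^ 2 ≤ y ^ 2 + 2 * C * y := by
  have h1 : ∑ p ∈ PP y, hh p * Real.log p ^ 2 = y * AA 0 y - AA 1 y := by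
    simp only [AA, mul_sum, ← sum_sub_distrib]
    refine sum_congr rfl fun p _ => ?_
    ring
  have h2 := (abs_le.1 (hC y hy)).2
  have h3 := (abs_le.1 (EAbel_AA hC 1 y hy)).1
  have h4 : 2 * y ^ (1 + 1) / (((1 : ℕ) : ℝ) + 1) = y ^ 2 := by
    push_cast
    ring
  rw [h4, pow_one] at h3
  rw [h1]
  nlinarith [mul_le_mul_of_nonneg_left h2 hy]

theorem EAbel_inv {a l : ℝ} (ha : 0 < a) (hl : a ≤ l) :
    ∫ s in a..l, 1 / s ^ 2 = 1 / a - 1 / l := by
  have hc : ContinuousOn (fun s : ℝ => 1 / s ^ 2) (Set.uIcc a l) := by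
    rw [Set.uIcc_of_le hl]
    exact continuousOn_const.div (by fun_prop) fun s hs => (pow_pos (ha.trans_le hs.1) 2).ne'
  have h : ∀ s ∈ Set.uIcc a l, HasDerivAt (fun s : ℝ => -s⁻¹) (1 / s ^ 2) s := by
    intro s hs
    rw [Set.uIcc_of_le hl] at hs
    have := (hasDerivAt_inv (ha.trans_le hs.1).ne').fun_neg
    refine this.congr_deriv ?_
    simp
  rw [intervalIntegral.integral_eq_sub_of_hasDerivAt h hc.intervalIntegrable]
  simp only [one_div]
  ring

theorem EAbel_log {y l : ℝ} (c : ℝ) (hy : 0 < y) (hl : y ≤ l) :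
    ∫ s in y..l, (2 * s + c) * (1 / s ^ 2) = 2 * Real.log (l / y) + c * (1 / y - 1 / l) := by
  have hc : ContinuousOn (fun s : ℝ => (2 * s + c) * (1 / s ^ 2)) (Set.uIcc y l) := by
    rw [Set.uIcc_of_le hl]
    exact ContinuousOn.mul (by fun_prop)
      (continuousOn_const.div (by fun_prop) fun s hs => (pow_pos (hy.trans_le hs.1) 2).ne')
  have h : ∀ s ∈ Set.uIcc y l,
      HasDerivAt (fun s : ℝ => 2 * Real.log s - c * s⁻¹) ((2 * s + c) * (1 / s ^ 2)) s := by
    intro s hs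
    rw [Set.uIcc_of_le hl] at hs
    have h0 := (hy.trans_le hs.1).ne'
    have := ((Real.hasDerivAt_log h0).const_mul 2).fun_sub ((hasDerivAt_inv h0).const_mul c)
    refine this.congr_deriv ?_
    field_simp
    ring
  rw [intervalIntegral.integral_eq_sub_of_hasDerivAt h hc.intervalIntegrable,
    Real.log_div (hy.trans_le hl).ne' hy.ne']
  simp only [one_div]
  ring

theorem EAbel_mid {C : ℝ} (hC : ∀ y : ℝ, 0 ≤ y → |AA 0 y - 2 * y| ≤ C) {y s : ℝ} (hy : 0 ≤ y)
    (hs : y ≤ s) :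
    ∑ p ∈ (PP s).filter (fun p : ℕ => ¬ Real.log p ≤ y), hh p * Real.log p ≤ 2 * s + (2 * C - 2 * y) := by
  have h1 := sum_filter_add_sum_filter_not (PP s) (fun p : ℕ => Real.log p ≤ y)
    (fun p => hh p * Real.log p)
  rw [EAbel_filter hs, ← EAbel_AA0, ← EAbel_AA0] at h1
  have h2 := (abs_le.1 (hC y hy)).1
  have h3 := (abs_le.1 (hC s (hy.trans hs))).2
  linarith

theorem EAbel_big {C : ℝ} (hC : ∀ y : ℝ, 0 ≤ y → |AA 0 y - 2 * y| ≤ C) {y l : ℝ} (hy : 0 < y)
    (hl : y ≤ l) :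
    ∑ p ∈ (PP l).filter (fun p : ℕ => ¬ Real.log p ≤ y), hh p ≤ 2 * Real.log (l / y) + 2 * C / y := by
  have hl0 : 0 < l := hy.trans_le hl
  have hg : ContinuousOn (fun s : ℝ => 1 / s ^ 2) (Set.Icc y l) :=
    continuousOn_const.div (by fun_prop) fun s hs => (pow_pos (hy.trans_le hs.1) 2).ne'
  have hS : ∀ p ∈ (PP l).filter (fun p : ℕ => ¬ Real.log p ≤ y),
      y < Real.log p ∧ Real.log p ≤ l := fun p hp =>
    ⟨not_le.1 (mem_filter.1 hp).2, (mem_PP.1 (mem_filter.1 hp).1).2⟩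
  obtain ⟨hi, he⟩ := EAbel_sum _ (fun p => hh p * Real.log p) (fun p => Real.log p) hg hS
  have h1 : ∑ p ∈ (PP l).filter (fun p : ℕ => ¬ Real.log p ≤ y), hh p =
      (∑ p ∈ (PP l).filter (fun p : ℕ => ¬ Real.log p ≤ y), hh p * Real.log p) * (1 / l) +
        ∑ p ∈ (PP l).filter (fun p : ℕ => ¬ Real.log p ≤ y), hh p * Real.log p * ∫ s in Real.log p..l, 1 / s ^ 2 := by
    rw [sum_mul, ← sum_add_distrib]
    refine sum_congr rfl fun p hp => ?_
    have h0 : 0 < Real.log p := hy.trans (hS p hp).1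
    rw [EAbel_inv h0 (hS p hp).2]
    field_simp
    ring
  have h2 : IntervalIntegrable (fun s : ℝ => (2 * s + (2 * C - 2 * y)) * (1 / s ^ 2))
      MeasureTheory.volume y l := by
    refine ContinuousOn.intervalIntegrable ?_
    rw [Set.uIcc_of_le hl]
    exact ContinuousOn.mul (by fun_prop) hg
  have h3 := intervalIntegral.integral_mono_on hl hi h2 (fun s hs => by
    refine mul_le_mul_of_nonneg_right ?_ (by positivity)
    have h4 : ((PP l).filter (fun p : ℕ => ¬ Real.log p ≤ y)).filter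
        (fun p : ℕ => Real.log p ≤ s) = (PP s).filter (fun p : ℕ => ¬ Real.log p ≤ y) := by
      rw [filter_comm, EAbel_filter hs.2]
    rw [h4]
    exact EAbel_mid hC hy.le hs.1)
  rw [EAbel_log _ hy hl, ← he] at h3
  have h5 := mul_le_mul_of_nonneg_right (EAbel_mid hC hy.le hl) (one_div_pos.2 hl0).le
  have h6 : (2 * l + (2 * C - 2 * y)) * (1 / l) + (2 * C - 2 * y) * (1 / y - 1 / l) =
      2 * C / y := by
    field_simp
    ring
  rw [h1]
  linarith

/-- `AA (j + 1) y = ∫ s in 0..y, (j + 1) * AA j s`, then induction. -/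
theorem AA_est : ∃ C : ℝ, 0 < C ∧ ∀ (j : ℕ) (y : ℝ), 0 ≤ y →
    |AA j y - 2 * y ^ (j + 1) / (j + 1)| ≤ C * y ^ j := by
  obtain ⟨C, h0, hC⟩ := mert1
  exact ⟨C, h0, EAbel_AA hC⟩

/-- Split at `log p ≤ y`.  The small primes give `y * AA 0 y - AA 1 y`; for the others use
`1 / s = 1 / l + ∫ σ in s..l, 1 / σ ^ 2`. -/
theorem Phi_le : ∃ C : ℝ, 0 < C ∧ ∀ l y : ℝ, 0 < y → y ≤ l →
    Phi l y ≤ y ^ 2 * (1 + 2 * Real.log (l / y)) + C * l := by
  obtain ⟨C, h0, hC⟩ := mert1
  refine ⟨4 * C, by positivity, fun l y hy hl => ?_⟩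
  have h1 := sum_filter_add_sum_filter_not (PP l) (fun p : ℕ => Real.log p ≤ y)
    (fun p => hh p * min y (Real.log p) ^ 2)
  have h2 : ∑ p ∈ (PP l).filter (fun p : ℕ => Real.log p ≤ y), hh p * min y (Real.log p) ^ 2 =
      ∑ p ∈ PP y, hh p * Real.log p ^ 2 := by
    rw [EAbel_filter hl]
    exact sum_congr rfl fun p hp => by rw [min_eq_right (mem_PP.1 hp).2]
  have h3 : ∑ p ∈ (PP l).filter (fun p : ℕ => ¬ Real.log p ≤ y), hh p * min y (Real.log p) ^ 2 =
      y ^ 2 * ∑ p ∈ (PP l).filter (fun p : ℕ => ¬ Real.log p ≤ y), hh p := by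
    rw [mul_sum]
    exact sum_congr rfl fun p hp => by
      rw [min_eq_left (not_le.1 (mem_filter.1 hp).2).le, mul_comm]
  have h4 := EAbel_sq hC y hy.le
  have h5 := mul_le_mul_of_nonneg_left (EAbel_big hC hy hl) (sq_nonneg y)
  have h6 : y ^ 2 * (2 * Real.log (l / y) + 2 * C / y) =
      y ^ 2 * (2 * Real.log (l / y)) + 2 * C * y := by
    field_simp
  have h7 := mul_le_mul_of_nonneg_left hl h0.le
  rw [Phi, ← h1, h2, h3]
  linarith

theorem Phi_le' : ∃ C : ℝ, 0 < C ∧ ∀ l y : ℝ, 0 ≤ l → 0 ≤ y → Phi l y ≤ l ^ 2 + C * l := by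
  obtain ⟨C, h0, hC⟩ := mert1
  refine ⟨2 * C, by positivity, fun l y hl hy => le_trans ?_ (EAbel_sq hC l hl)⟩
  refine sum_le_sum fun p hp => ?_
  have hp' := (mem_PP.1 hp).1
  exact mul_le_mul_of_nonneg_left
    (pow_le_pow_left₀ (le_min hy (EAbel_log_pos hp').le) (min_le_right _ _) 2) (hh_pos hp').le

end Pool.Agent.MP_c7a479_co.Ex
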