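import Pool.Agent.MP_c7a479_co.ECrt

namespace Pool.Agent.MP_c7a479_co.Ex

open Finset
open scoped Classical

variable {r r' : ℕ → ℕ}

theorem ECount_sum (T : Finset ℕ) (b : ℕ → ℝ) (x Z : ℕ) :
    ∑ t ∈ Ico x (x + Z), ∏ p ∈ T, (b p * if Bad r r' p t then (1 : ℝ) else 0) =
      (∏ p ∈ T, b p) * (#{t ∈ Ico x (x + Z) | ∀ p ∈ T, Bad r r' p t} : ℝ) := by
  rw [card_filter, Nat.cast_sum, mul_sum]
  refine sum_congr rfl fun t _ => ?_
  rw [prod_mul_distrib, prod_boole]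
  split_ifs <;> simp

/-- Expand the product with `Finset.prod_add`. -/
theorem prod_est (h : Exact r r') (S : Finset ℕ) (hS : ∀ p ∈ S, p.Prime) (a b : ℕ → ℝ) (x Z : ℕ) :
    |∑ t ∈ Ico x (x + Z), ∏ p ∈ S, (a p + b p * if Bad r r' p t then 1 else 0) -
      Z * ∏ p ∈ S, (a p + b p * gg p)| ≤ ∏ p ∈ S, (|a p| + 2 * |b p|) := by
  have e1 : ∑ t ∈ Ico x (x + Z), ∏ p ∈ S, (a p + b p * if Bad r r' p t then (1 : ℝ) else 0) =
      ∑ T ∈ S.powerset, (∏ p ∈ T, b p) * (∏ p ∈ S \ T, a p) *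
        (#{t ∈ Ico x (x + Z) | ∀ p ∈ T, Bad r r' p t} : ℝ) := by
    have : ∀ t, ∏ p ∈ S, (a p + b p * if Bad r r' p t then (1 : ℝ) else 0) =
        ∑ T ∈ S.powerset, (∏ p ∈ T, (b p * if Bad r r' p t then (1 : ℝ) else 0)) *
          ∏ p ∈ S \ T, a p := fun t => by
      rw [← prod_add]
      exact prod_congr rfl fun p _ => add_comm _ _
    rw [sum_congr rfl fun t _ => this t, sum_comm]
    refine sum_congr rfl fun T _ => ?_
    rw [← sum_mul, ECount_sum]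
    ring
  have e2 : (Z : ℝ) * ∏ p ∈ S, (a p + b p * gg p) =
      ∑ T ∈ S.powerset, (∏ p ∈ T, b p) * (∏ p ∈ S \ T, a p) * (Z * ∏ p ∈ T, gg p) := by
    have : ∏ p ∈ S, (a p + b p * gg p) =
        ∑ T ∈ S.powerset, (∏ p ∈ T, (b p * gg p)) * ∏ p ∈ S \ T, a p := by
      rw [← prod_add]
      exact prod_congr rfl fun p _ => add_comm _ _
    rw [this, mul_sum]
    refine sum_congr rfl fun T _ => ?_
    rw [prod_mul_distrib]
    ring
  have e3 : ∏ p ∈ S, (|a p| + 2 * |b p|) =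
      ∑ T ∈ S.powerset, (∏ p ∈ T, (2 * |b p|)) * ∏ p ∈ S \ T, |a p| := by
    rw [← prod_add]
    exact prod_congr rfl fun p _ => add_comm _ _
  rw [e1, e2, e3, ← sum_sub_distrib]
  refine (abs_sum_le_sum_abs _ _).trans (sum_le_sum fun T hT => ?_)
  rw [← mul_sub, abs_mul, abs_mul, abs_prod, abs_prod, prod_mul_distrib, prod_const]
  have h1 := count_bad h T (fun p hp => hS p (mem_powerset.1 hT hp)) x Z
  have h2 : 0 ≤ (∏ p ∈ T, |b p|) * ∏ p ∈ S \ T, |a p| :=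
    mul_nonneg (prod_nonneg fun _ _ => abs_nonneg _) (prod_nonneg fun _ _ => abs_nonneg _)
  calc _ ≤ (∏ p ∈ T, |b p|) * (∏ p ∈ S \ T, |a p|) * 2 ^ #T := mul_le_mul_of_nonneg_left h1 h2
    _ = _ := by ring

/-- The constant term of the local factor of a pair. -/
noncomputable def ECount_a (R R' : Finset ℕ) (p : ℕ) : ℝ :=
  if p ∈ R then (if p ∈ R' then hh p ^ 2 else hh p) else (if p ∈ R' then hh p else 1)

/-- The indicator coefficient of the local factor of a pair. -/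
noncomputable def ECount_b (R R' : Finset ℕ) (p : ℕ) : ℝ :=
  if p ∈ R then (if p ∈ R' then 1 - hh p ^ 2 else -(1 + hh p))
  else (if p ∈ R' then -(1 + hh p) else 0)

theorem ECount_ite (Q R : Finset ℕ) (hR : R ⊆ Q) (f : ℕ → ℝ) :
    ∏ p ∈ Q, (if p ∈ R then f p else 1) = ∏ p ∈ R, f p := by
  rw [prod_ite_mem, inter_eq_right.2 hR]

theorem ECount_point (Q R R' : Finset ℕ) (hR : R ⊆ Q) (hR' : R' ⊆ Q) (t : ℕ) :
    ∏ p ∈ Q, (ECount_a R R' p + ECount_b R R' p * if Bad r r' p t then (1 : ℝ) else 0) =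
      (∏ p ∈ R, psi r r' p t) * ∏ p ∈ R', psi r r' p t := by
  rw [← ECount_ite Q R hR, ← ECount_ite Q R' hR', ← prod_mul_distrib]
  refine prod_congr rfl fun p _ => ?_
  unfold ECount_a ECount_b psi
  split_ifs <;> ring

theorem ECount_mean (Q R R' : Finset ℕ) (hQ : ∀ p ∈ Q, p.Prime) (hR : R ⊆ Q) (hR' : R' ⊆ Q) :
    ∏ p ∈ Q, (ECount_a R R' p + ECount_b R R' p * gg p) = if R = R' then Ex.hR R else 0 := by
  split_ifs with e
  · subst e
    rw [Ex.hR, ← ECount_ite Q R hR]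
    refine prod_congr rfl fun p hp => ?_
    have := hh_mul (hQ p hp)
    unfold ECount_a ECount_b
    split_ifs
    · linear_combination (hh p - 1) * this
    · ring
  · have : ∃ p, (p ∈ R ∧ p ∉ R') ∨ (p ∉ R ∧ p ∈ R') := by
      by_contra hc
      push Not at hc
      exact e (Finset.ext fun p => ⟨fun hp => (hc p).1 hp, fun hp => by
        by_contra hn
        exact (hc p).2 hn hp⟩)
    obtain ⟨p, ⟨h1, h2⟩ | ⟨h1, h2⟩⟩ := this
    · refine prod_eq_zero (hR h1) ?_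
      have := hh_mul (hQ p (hR h1))
      rw [ECount_a, ECount_b, if_pos h1, if_pos h1, if_neg h2, if_neg h2]
      linear_combination this
    · refine prod_eq_zero (hR' h2) ?_
      have := hh_mul (hQ p (hR' h2))
      rw [ECount_a, ECount_b, if_neg h1, if_neg h1, if_pos h2, if_pos h2]
      linear_combination this

theorem ECount_weight (Q R R' : Finset ℕ) (hQ : ∀ p ∈ Q, p.Prime) (hR : R ⊆ Q) (hR' : R' ⊆ Q) :
    ∏ p ∈ Q, (|ECount_a R R' p| + 2 * |ECount_b R R' p|) ≤ 8 ^ #R * 8 ^ #R' := by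
  rw [← prod_const, ← prod_const, ← ECount_ite Q R hR, ← ECount_ite Q R' hR', ← prod_mul_distrib]
  refine prod_le_prod (fun p _ => by positivity) fun p hp => ?_
  have h1 := hh_pos (hQ p hp)
  have h2 := hh_le_two (hQ p hp)
  have h3 : |-(1 + hh p)| = 1 + hh p := by rw [abs_neg, abs_of_pos (by linarith)]
  have h4 : |hh p| = hh p := abs_of_pos h1
  have h5 : |hh p ^ 2| ≤ 4 := by rw [abs_of_nonneg (by positivity)]; nlinarith
  have h6 : |1 - hh p ^ 2| ≤ 3 := by rw [abs_le]; constructor <;> nlinarith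
  unfold ECount_a ECount_b
  split_ifs
  · linarith
  · rw [h3, h4]; linarith
  · rw [h3, h4]; linarith
  · simp

theorem ECount_pair (h : Exact r r') (D Q : Finset ℕ) (hD : ∀ p ∈ D, p.Prime)
    (hQ : ∀ p ∈ Q, p.Prime) (hDQ : Disjoint D Q) (R R' : Finset ℕ) (hR : R ⊆ Q) (hR' : R' ⊆ Q)
    (x Z : ℕ) :
    |∑ t ∈ Ico x (x + Z), (if ∀ p ∈ D, Bad r r' p t then (1 : ℝ) else 0) *
        ((∏ p ∈ R, psi r r' p t) * ∏ p ∈ R', psi r r' p t) -
      Z * ((∏ p ∈ D, gg p) * if R = R' then Ex.hR R else 0)| ≤ 2 ^ #D * (8 ^ #R * 8 ^ #R') := by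
  let a : ℕ → ℝ := fun p => if p ∈ D then 0 else ECount_a R R' p
  let b : ℕ → ℝ := fun p => if p ∈ D then 1 else ECount_b R R' p
  have haD : ∀ p ∈ D, a p = 0 := fun p hp => if_pos hp
  have hbD : ∀ p ∈ D, b p = 1 := fun p hp => if_pos hp
  have haQ : ∀ p ∈ Q, a p = ECount_a R R' p := fun p hp =>
    if_neg (Finset.disjoint_right.1 hDQ hp)
  have hbQ : ∀ p ∈ Q, b p = ECount_b R R' p := fun p hp =>
    if_neg (Finset.disjoint_right.1 hDQ hp)
  have key := prod_est h (D ∪ Q) (fun p hp => (mem_union.1 hp).elim (hD p) (hQ p)) a b x Z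
  have e1 : ∀ t, ∏ p ∈ D ∪ Q, (a p + b p * if Bad r r' p t then (1 : ℝ) else 0) =
      (if ∀ p ∈ D, Bad r r' p t then (1 : ℝ) else 0) *
        ((∏ p ∈ R, psi r r' p t) * ∏ p ∈ R', psi r r' p t) := by
    intro t
    rw [prod_union hDQ, ← ECount_point Q R R' hR hR' t, ← prod_boole]
    congr 1
    · exact prod_congr rfl fun p hp => by rw [haD p hp, hbD p hp, zero_add, one_mul]
    · exact prod_congr rfl fun p hp => by rw [haQ p hp, hbQ p hp]
  have e2 : ∏ p ∈ D ∪ Q, (a p + b p * gg p) =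
      (∏ p ∈ D, gg p) * if R = R' then Ex.hR R else 0 := by
    rw [prod_union hDQ, ← ECount_mean Q R R' hQ hR hR']
    congr 1
    · exact prod_congr rfl fun p hp => by rw [haD p hp, hbD p hp, zero_add, one_mul]
    · exact prod_congr rfl fun p hp => by rw [haQ p hp, hbQ p hp]
  have e3 : ∏ p ∈ D ∪ Q, (|a p| + 2 * |b p|) ≤ 2 ^ #D * (8 ^ #R * 8 ^ #R') := by
    rw [prod_union hDQ]
    have e4 : ∏ p ∈ D, (|a p| + 2 * |b p|) = 2 ^ #D := by
      rw [← prod_const]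
      exact prod_congr rfl fun p hp => by rw [haD p hp, hbD p hp]; simp
    have e5 : ∏ p ∈ Q, (|a p| + 2 * |b p|) =
        ∏ p ∈ Q, (|ECount_a R R' p| + 2 * |ECount_b R R' p|) :=
      prod_congr rfl fun p hp => by rw [haQ p hp, hbQ p hp]
    rw [e4, e5]
    exact mul_le_mul_of_nonneg_left (ECount_weight Q R R' hQ hR hR') (by positivity)
  rw [sum_congr rfl fun t _ => e1 t, e2] at key
  exact key.trans e3

/-- Orthogonality of the products of the centred factors. -/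
theorem sq_est (h : Exact r r') (D Q : Finset ℕ) (hD : ∀ p ∈ D, p.Prime) (hQ : ∀ p ∈ Q, p.Prime)
    (hDQ : Disjoint D Q) (c : Finset ℕ → ℝ) (x Z : ℕ) :
    |∑ t ∈ Ico x (x + Z), (if ∀ p ∈ D, Bad r r' p t then 1 else 0) *
        (∑ R ∈ Q.powerset, c R * ∏ p ∈ R, psi r r' p t) ^ 2 -
      Z * ((∏ p ∈ D, gg p) * ∑ R ∈ Q.powerset, hR R * c R ^ 2)| ≤
      2 ^ #D * (∑ R ∈ Q.powerset, |c R| * 8 ^ #R) ^ 2 := by
  have e1 : ∑ t ∈ Ico x (x + Z), (if ∀ p ∈ D, Bad r r' p t then (1 : ℝ) else 0) *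
        (∑ R ∈ Q.powerset, c R * ∏ p ∈ R, psi r r' p t) ^ 2 =
      ∑ R ∈ Q.powerset, ∑ R' ∈ Q.powerset, c R * c R' *
        ∑ t ∈ Ico x (x + Z), (if ∀ p ∈ D, Bad r r' p t then (1 : ℝ) else 0) *
          ((∏ p ∈ R, psi r r' p t) * ∏ p ∈ R', psi r r' p t) := by
    have e0 : ∀ t, (if ∀ p ∈ D, Bad r r' p t then (1 : ℝ) else 0) *
        (∑ R ∈ Q.powerset, c R * ∏ p ∈ R, psi r r' p t) ^ 2 =
        ∑ R ∈ Q.powerset, ∑ R' ∈ Q.powerset, c R * c R' *
          ((if ∀ p ∈ D, Bad r r' p t then (1 : ℝ) else 0) *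
            ((∏ p ∈ R, psi r r' p t) * ∏ p ∈ R', psi r r' p t)) := by
      intro t
      rw [sq, sum_mul_sum, mul_sum]
      refine sum_congr rfl fun R _ => ?_
      rw [mul_sum]
      refine sum_congr rfl fun R' _ => ?_
      ring
    rw [sum_congr rfl fun t _ => e0 t, sum_comm]
    refine sum_congr rfl fun R _ => ?_
    rw [sum_comm]
    refine sum_congr rfl fun R' _ => ?_
    rw [mul_sum]
  have e2 : (Z : ℝ) * ((∏ p ∈ D, gg p) * ∑ R ∈ Q.powerset, hR R * c R ^ 2) =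
      ∑ R ∈ Q.powerset, ∑ R' ∈ Q.powerset, c R * c R' *
        (Z * ((∏ p ∈ D, gg p) * if R = R' then hR R else 0)) := by
    rw [mul_sum, mul_sum]
    refine sum_congr rfl fun R hR0 => ?_
    rw [sum_eq_single R]
    · rw [if_pos rfl]; ring
    · intro R' _ hne
      rw [if_neg (Ne.symm hne)]; ring
    · exact fun hn => absurd hR0 hn
  have e3 : (2 : ℝ) ^ #D * (∑ R ∈ Q.powerset, |c R| * 8 ^ #R) ^ 2 =
      ∑ R ∈ Q.powerset, ∑ R' ∈ Q.powerset, |c R| * |c R'| * (2 ^ #D * (8 ^ #R * 8 ^ #R')) := by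
    rw [sq, sum_mul_sum, mul_sum]
    refine sum_congr rfl fun R _ => ?_
    rw [mul_sum]
    refine sum_congr rfl fun R' _ => ?_
    ring
  rw [e1, e2, e3, ← sum_sub_distrib]
  refine (abs_sum_le_sum_abs _ _).trans (sum_le_sum fun R hR0 => ?_)
  rw [← sum_sub_distrib]
  refine (abs_sum_le_sum_abs _ _).trans (sum_le_sum fun R' hR1 => ?_)
  rw [← mul_sub, abs_mul, abs_mul]
  exact mul_le_mul_of_nonneg_left
    (ECount_pair h D Q hD hQ hDQ R R' (mem_powerset.1 hR0) (mem_powerset.1 hR1) x Z)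
    (by positivity)

end Pool.Agent.MP_c7a479_co.Ex
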