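import Pool.Agent.MP_c7a479_co.EDefs

namespace Pool.Agent.MP_c7a479_co.Ex

open Finset
open scoped Classical

variable {r r' : ℕ → ℕ}

theorem ECrt_base (q a x Z : ℕ) (hq : 0 < q) :
    |(#{t ∈ Ico x (x + Z) | t ≡ a [MOD q]} : ℝ) - Z / q| ≤ 1 := by
  have h := Nat.Ico_filter_modEq_card x (x + Z) hq a
  have hq' : (0 : ℚ) < q := by exact_mod_cast hq
  set u : ℚ := ((x : ℚ) - a) / q with hu
  have e : (((x + Z : ℕ) : ℚ) - a) / q = u + Z / q := by rw [hu]; push_cast; ring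
  rw [e] at h
  have hz : (0 : ℚ) ≤ Z / q := by positivity
  have h0 : ⌈u⌉ ≤ ⌈u + Z / q⌉ := Int.ceil_mono (by linarith)
  rw [max_eq_left (by omega)] at h
  have h1 : ((#{t ∈ Ico x (x + Z) | t ≡ a [MOD q]} : ℕ) : ℚ) = ⌈u + Z / q⌉ - ⌈u⌉ := by
    exact_mod_cast h
  have h2 : |((#{t ∈ Ico x (x + Z) | t ≡ a [MOD q]} : ℕ) : ℚ) - Z / q| ≤ 1 := by
    rw [h1, abs_le]
    have a1 := Int.le_ceil u
    have a2 := Int.ceil_lt_add_one u
    have a3 := Int.le_ceil (u + Z / q)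
    have a4 := Int.ceil_lt_add_one (u + Z / q)
    constructor <;> linarith
  have h3 := (Rat.cast_le (K := ℝ)).2 h2
  push_cast at h3
  exact h3

theorem ECrt_gen (h : Exact r r') (x Z : ℕ) (D : Finset ℕ) : (∀ p ∈ D, p.Prime) →
    ∀ q a : ℕ, 0 < q → (∀ p ∈ D, q.Coprime p) →
    |(#{t ∈ Ico x (x + Z) | t ≡ a [MOD q] ∧ ∀ p ∈ D, Bad r r' p t} : ℝ) -
      Z / q * ∏ p ∈ D, gg p| ≤ 2 ^ #D := by
  induction D using Finset.induction_on with
  | empty =>
    intro _ q a hq _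
    simpa using ECrt_base q a x Z hq
  | insert p D hp ih =>
    intro hD q a hq hc
    have hpp : p.Prime := hD p (mem_insert_self _ _)
    have hD' : ∀ s ∈ D, s.Prime := fun s hs => hD s (mem_insert_of_mem hs)
    have hqp : q.Coprime p := hc p (mem_insert_self _ _)
    have hc' : ∀ s ∈ D, (q * p).Coprime s := fun s hs =>
      Nat.Coprime.mul_left (hc s (mem_insert_of_mem hs))
        ((Nat.coprime_primes hpp (hD' s hs)).2 fun e => hp (e ▸ hs))
    have key : ∀ b : ℕ, ∃ c : ℕ, ∀ t, t ≡ c [MOD q * p] ↔ t ≡ a [MOD q] ∧ t ≡ b [MOD p] := by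
      intro b
      obtain ⟨c, h1, h2⟩ := Nat.chineseRemainder hqp a b
      refine ⟨c, fun t => ?_⟩
      rw [← Nat.modEq_and_modEq_iff_modEq_mul hqp]
      exact ⟨fun H => ⟨H.1.trans h1, H.2.trans h2⟩,
        fun H => ⟨H.1.trans h1.symm, H.2.trans h2.symm⟩⟩
    obtain ⟨c1, hc1⟩ := key (r p)
    obtain ⟨c2, hc2⟩ := key (r' p)
    have i1 := ih hD' (q * p) c1 (Nat.mul_pos hq hpp.pos) hc'
    have i2 := ih hD' (q * p) c2 (Nat.mul_pos hq hpp.pos) hc'
    have hq0 : (q : ℝ) ≠ 0 := by exact_mod_cast hq.ne'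
    have hp0 : (p : ℝ) ≠ 0 := by exact_mod_cast hpp.pos.ne'
    rw [prod_insert hp, card_insert_of_notMem hp, pow_succ]
    have h2 : (0 : ℝ) < 2 ^ #D := by positivity
    by_cases h2p : p = 2
    · have e : {t ∈ Ico x (x + Z) | t ≡ a [MOD q] ∧ ∀ s ∈ insert p D, Bad r r' s t} =
          {t ∈ Ico x (x + Z) | t ≡ c1 [MOD q * p] ∧ ∀ s ∈ D, Bad r r' s t} := by
        refine filter_congr fun t _ => ?_
        rw [forall_mem_insert, hc1, Bad, ← and_assoc]
        refine and_congr_left fun _ => and_congr_right fun _ => ⟨fun H => ?_, Or.inl⟩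
        subst h2p
        exact H.elim id fun H => H.trans h.1.symm
      have e2 : (Z : ℝ) / q * (gg p * ∏ s ∈ D, gg s) = Z / ((q * p : ℕ) : ℝ) * ∏ s ∈ D, gg s := by
        rw [gg, om, if_pos h2p]; push_cast; field_simp
      rw [e, e2]
      linarith
    · have e : {t ∈ Ico x (x + Z) | t ≡ a [MOD q] ∧ ∀ s ∈ insert p D, Bad r r' s t} =
          {t ∈ Ico x (x + Z) | t ≡ c1 [MOD q * p] ∧ ∀ s ∈ D, Bad r r' s t} ∪
          {t ∈ Ico x (x + Z) | t ≡ c2 [MOD q * p] ∧ ∀ s ∈ D, Bad r r' s t} := by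
        rw [← filter_or]
        refine filter_congr fun t _ => ?_
        rw [forall_mem_insert, hc1, hc2, Bad]
        tauto
      have hd : Disjoint {t ∈ Ico x (x + Z) | t ≡ c1 [MOD q * p] ∧ ∀ s ∈ D, Bad r r' s t}
          {t ∈ Ico x (x + Z) | t ≡ c2 [MOD q * p] ∧ ∀ s ∈ D, Bad r r' s t} := by
        rw [disjoint_filter]
        intro t _ H1 H2
        exact h.2 p hpp h2p (((hc1 t).1 H1.1).2.symm.trans ((hc2 t).1 H2.1).2)
      have e2 : (Z : ℝ) / q * (gg p * ∏ s ∈ D, gg s) =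
          2 * (Z / ((q * p : ℕ) : ℝ) * ∏ s ∈ D, gg s) := by
        rw [gg, om, if_neg h2p]; push_cast; field_simp
      rw [e, e2, card_union_of_disjoint hd]
      push_cast at i1 i2 ⊢
      rw [abs_le] at i1 i2 ⊢
      constructor <;> linarith [i1.1, i1.2, i2.1, i2.2]

/-- Chinese remainder theorem: `∏ om p` classes modulo `∏ p`. -/
theorem count_bad (h : Exact r r') (D : Finset ℕ) (hD : ∀ p ∈ D, p.Prime) (x Z : ℕ) :
    |(#{t ∈ Ico x (x + Z) | ∀ p ∈ D, Bad r r' p t} : ℝ) - Z * ∏ p ∈ D, gg p| ≤ 2 ^ #D := by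
  simpa [Nat.modEq_one] using ECrt_gen h x Z D hD 1 0 one_pos fun p _ => Nat.coprime_one_left p

end Pool.Agent.MP_c7a479_co.Ex
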