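import Pool.Agent.MP_c7a479_co.Defs

/-! Definitions for the exponent `1 / 11`: designs in covering form and the sieve quantities. -/

namespace Pool.Agent.MP_c7a479_co.Ex

open Finset
open scoped Classical

noncomputable section

/-- Transversal design in covering form: rows `ι`, symbols `α`, at most `|α| ^ 2` blocks. -/
def Td (ι α : Type) [Fintype α] : Prop :=
  ∃ (X : Type) (_ : Fintype X) (b : X → ι → α), Fintype.card X ≤ Fintype.card α ^ 2 ∧
    ∀ i j, i ≠ j → ∀ x y, ∃ c, b c i = x ∧ b c j = y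

/-- Incomplete transversal design in covering form: old symbols `M`, hole `H`. -/
def Itd (ι M H : Type) [Fintype M] [Fintype H] : Prop :=
  ∃ (X : Type) (_ : Fintype X) (b : X → ι → M ⊕ H),
    Fintype.card X ≤ Fintype.card M ^ 2 + 2 * Fintype.card M * Fintype.card H ∧
    ∀ i j, i ≠ j → ∀ (x : M) (y : M ⊕ H), ∃ c, b c i = .inl x ∧ b c j = y

/-- Quasi-difference matrix in covering form. -/
def Qdm (ι G H : Type) [AddCommGroup G] [Fintype G] [Fintype H] : Prop :=
  ∃ (Y : Type) (_ : Fintype Y) (x : Y → ι → G ⊕ H),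
    Fintype.card Y ≤ Fintype.card G + 2 * Fintype.card H ∧
    (∀ i j, i ≠ j → ∀ g, ∃ c a b, x c i = .inl a ∧ x c j = .inl b ∧ a - b = g) ∧
    ∀ i j, i ≠ j → ∀ h, ∃ c a, x c i = .inl a ∧ x c j = .inr h

/-- The line through `f` with direction `u`. -/
def Ln (K : Type) {V : Type} [Field K] [AddCommGroup V] [Module K V] (f u : V) : Set V :=
  {s | ∃ t : K, s = f + t • u}

/-- The support of a switching gadget: three lines. -/
def Gd (K : Type) {V : Type} [Field K] [AddCommGroup V] [Module K V] (o δ w w' : V) : Set V :=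
  Ln K o δ ∪ Ln K o w ∪ Ln K (o + δ) w'

/-- Three independent vectors. -/
def Ind3 (K : Type) {V : Type} [Field K] [AddCommGroup V] [Module K V] (x y z : V) : Prop :=
  ∀ a b c : K, a • x + b • y + c • z = 0 → a = 0 ∧ b = 0 ∧ c = 0

/-- The primes `p` with `log p ≤ y`. -/
def PP (y : ℝ) : Finset ℕ := (range (⌊Real.exp y⌋₊ + 1)).filter Nat.Prime

/-- The number of removed residue classes. -/
def om (p : ℕ) : ℝ := if p = 2 then 1 else 2

/-- The density of the removed classes. -/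
def gg (p : ℕ) : ℝ := om p / p

/-- The Selberg weight `g / (1 - g)`. -/
def hh (p : ℕ) : ℝ := om p / (p - om p)

/-- The logarithm of the product of a set of primes. -/
def LL (R : Finset ℕ) : ℝ := ∑ p ∈ R, Real.log p

/-- The multiplicative extension of `hh`. -/
def hR (R : Finset ℕ) : ℝ := ∏ p ∈ R, hh p

/-- The diagonal variables. -/
def yy (L : ℝ) (R : Finset ℕ) : ℝ := max (L - LL R) 0

/-- Moments of the Selberg measure. -/
def MM (L : ℝ) (j : ℕ) : ℝ := ∑ R ∈ (PP L).powerset with LL R ≤ L, hR R * (L - LL R) ^ j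

/-- Weighted prime sums. -/
def AA (j : ℕ) (y : ℝ) : ℝ := ∑ p ∈ PP y, hh p * Real.log p * (y - Real.log p) ^ j

/-- The penalty function. -/
def Phi (l y : ℝ) : ℝ := ∑ p ∈ PP l, hh p * min y (Real.log p) ^ 2

/-- The main term of the lower bound sieve. -/
def TT (l L : ℝ) : ℝ :=
  ∑ R ∈ (PP L).powerset, hR R * yy L R ^ 2 -
    ∑ p ∈ PP l, gg p * ∑ R ∈ ((PP L).erase p).powerset, hR R * (yy L R - yy L (insert p R)) ^ 2

/-- The polynomial majorant. -/
def RR (s : ℝ) : ℝ := 1 / 100 + 12 / 25 * s + 287 / 100 * s ^ 2 - 83 / 25 * s ^ 3 + 993 / 1000 * s ^ 4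

/-- `t` lies in one of the two removed classes modulo `p`. -/
def Bad (r r' : ℕ → ℕ) (p t : ℕ) : Prop := t ≡ r p [MOD p] ∨ t ≡ r' p [MOD p]

/-- Exactly `om p` classes are removed. -/
def Exact (r r' : ℕ → ℕ) : Prop :=
  r 2 ≡ r' 2 [MOD 2] ∧ ∀ p : ℕ, p.Prime → p ≠ 2 → ¬ r p ≡ r' p [MOD p]

/-- The centred local factors. -/
def psi (r r' : ℕ → ℕ) (p t : ℕ) : ℝ := if Bad r r' p t then -1 else hh p

theorem mem_PP {y : ℝ} {p : ℕ} : p ∈ PP y ↔ p.Prime ∧ Real.log p ≤ y := by
  rw [PP, mem_filter, mem_range, Nat.lt_succ_iff, Nat.le_floor_iff (Real.exp_pos y).le, and_comm]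
  refine and_congr_right fun hp => ?_
  rw [Real.log_le_iff_le_exp (by exact_mod_cast hp.pos)]

theorem om_lt {p : ℕ} (hp : p.Prime) : 1 ≤ om p ∧ om p ≤ 2 ∧ om p + 1 ≤ p := by
  unfold om
  split_ifs with h
  · subst h; norm_num
  · have : 3 ≤ p := by have := hp.two_le; omega
    have : (3 : ℝ) ≤ p := by exact_mod_cast this
    refine ⟨by norm_num, le_rfl, by linarith⟩

theorem hh_pos {p : ℕ} (hp : p.Prime) : 0 < hh p := by
  obtain ⟨h1, -, h3⟩ := om_lt hp
  exact div_pos (by linarith) (by linarith)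

theorem hh_le_two {p : ℕ} (hp : p.Prime) : hh p ≤ 2 := by
  obtain ⟨h1, h2, h3⟩ := om_lt hp
  rw [hh, div_le_iff₀ (by linarith)]
  linarith

theorem gg_nonneg (p : ℕ) : 0 ≤ gg p := by
  unfold gg om
  split_ifs <;> positivity

theorem gg_le_hh {p : ℕ} (hp : p.Prime) : gg p ≤ hh p := by
  obtain ⟨h1, -, h3⟩ := om_lt hp
  exact div_le_div_of_nonneg_left (by linarith) (by linarith) (by linarith)

theorem hh_mul {p : ℕ} (hp : p.Prime) : (1 - gg p) * hh p = gg p := by
  obtain ⟨h1, -, h3⟩ := om_lt hp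
  have h4 : (p : ℝ) ≠ 0 := by linarith
  have h5 : (p : ℝ) - om p ≠ 0 := by linarith
  rw [gg, hh]
  field_simp

theorem hR_nonneg {R : Finset ℕ} (h : ∀ p ∈ R, p.Prime) : 0 ≤ hR R :=
  prod_nonneg fun p hp => (hh_pos (h p hp)).le

end

end Pool.Agent.MP_c7a479_co.Ex
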