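import Pool.Agent.MP_c7a479_co.EDefs

namespace Pool.Agent.MP_c7a479_co.Ex

open Finset
open scoped Classical

theorem EField_num {δ : ℝ} (hδ : 0 < δ) {k : ℕ} (hk : 0 < k) (h1 : 1 ≤ Real.log k)
    (h2 : 16 * (2 + δ) / δ ^ 2 ≤ Real.log k) (h3 : 27 / δ ≤ Real.log k) :
    ∃ N : ℕ, k ≤ rothNumberNat N ∧ ((2 * (2 * N + 10 * k) : ℕ) : ℝ) ≤ (k : ℝ) ^ (1 + 2 * δ) := by
  have k0 : (0 : ℝ) < k := by exact_mod_cast hk
  set x := Real.log k with hx
  have ek : (k : ℝ) = Real.exp x := (Real.exp_log k0).symm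
  set y := Real.exp (x * (1 + δ)) with hy
  have y1 : (k : ℝ) ≤ y := by
    rw [ek, hy, Real.exp_le_exp]
    nlinarith
  have k1 : (1 : ℝ) ≤ k := by exact_mod_cast hk
  have n1 : y ≤ (⌈y⌉₊ : ℝ) := Nat.le_ceil y
  have n2 : (⌈y⌉₊ : ℝ) ≤ 2 * y := by
    have := Nat.ceil_lt_add_one (show 0 ≤ y by positivity)
    linarith
  refine ⟨⌈y⌉₊, ?_, ?_⟩
  · have l1 : Real.log (⌈y⌉₊ : ℝ) ≤ (2 + δ) * x := by
      have := Real.log_le_log (by linarith) n2
      rw [Real.log_mul two_ne_zero (by linarith), hy, Real.log_exp] at this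
      have := Real.log_le_sub_one_of_pos (show (0 : ℝ) < 2 by norm_num)
      linarith
    have l2 : √(Real.log (⌈y⌉₊ : ℝ)) ≤ δ * x / 4 := by
      rw [div_le_iff₀ (by positivity)] at h2
      refine Real.sqrt_le_iff.2 ⟨by positivity, l1.trans ?_⟩
      nlinarith
    have l3 : (k : ℝ) ≤ (⌈y⌉₊ : ℝ) * Real.exp (-4 * √(Real.log (⌈y⌉₊ : ℝ))) := by
      calc (k : ℝ) = y * Real.exp (-(δ * x)) := by
            rw [hy, ← Real.exp_add, ek]
            congr 1
            ring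
        _ ≤ _ := mul_le_mul n1 (Real.exp_le_exp.2 (by linarith)) (by positivity) (by positivity)
    exact_mod_cast l3.trans Behrend.roth_lower_bound
  · have e : (k : ℝ) ^ (1 + 2 * δ) = y * Real.exp (δ * x) := by
      rw [Real.rpow_def_of_pos k0, hy, ← Real.exp_add]
      congr 1
      ring
    have l4 : 28 ≤ Real.exp (δ * x) := by
      rw [div_le_iff₀ hδ] at h3
      linarith [Real.add_one_le_exp (δ * x)]
    rw [e]
    push_cast
    nlinarith

/-- Fields of characteristic two. -/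
theorem field_even {k : ℕ} (hk : 1 ≤ k) : ∃ (K : Type) (_ : Field K) (_ : Fintype K) (a : Fin k → K),
    Function.Injective a ∧ (∀ i j l, a i + a j = 2 * a l → i = j) ∧ 10 * k ≤ Fintype.card K ∧
      Fintype.card K ≤ 20 * k ∧ ∃ e, 1 ≤ e ∧ Fintype.card K = 2 ^ e := by
  obtain ⟨n, h1, h2⟩ : ∃ n, 2 ^ n ≤ 10 * k ∧ 10 * k < 2 ^ (n + 1) :=
    ⟨_, Nat.pow_log_le_self 2 (by omega), Nat.lt_pow_succ_log_self one_lt_two _⟩
  let _ : Fintype (GaloisField 2 (n + 1)) := Fintype.ofFinite _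
  have hc : Fintype.card (GaloisField 2 (n + 1)) = 2 ^ (n + 1) := by
    rw [← Nat.card_eq_fintype_card, GaloisField.card 2 (n + 1) (by omega)]
  obtain ⟨a⟩ : Nonempty (Fin k ↪ GaloisField 2 (n + 1)) :=
    Function.Embedding.nonempty_of_card_le (by rw [hc, Fintype.card_fin]; omega)
  refine ⟨GaloisField 2 (n + 1), inferInstance, inferInstance, a, a.injective, fun i j l h => ?_,
    by omega, by rw [hc, pow_succ]; omega, n + 1, by omega, hc⟩
  rw [two_mul, CharTwo.add_self_eq_zero, CharTwo.add_eq_zero] at h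
  exact a.injective h

/-- Prime fields, with a Behrend set (`Behrend.roth_lower_bound`, `rothNumberNat_spec`) and
Bertrand's postulate. -/
theorem field_odd {ε : ℝ} (hε : 0 < ε) : ∃ k₀ : ℕ, ∀ k : ℕ, k₀ ≤ k →
    ∃ (K : Type) (_ : Field K) (_ : Fintype K) (a : Fin k → K),
      Function.Injective a ∧ (∀ i j l, a i + a j = 2 * a l → i = j) ∧ 10 * k ≤ Fintype.card K ∧
        (Fintype.card K : ℝ) ≤ (k : ℝ) ^ (1 + ε) ∧ (Fintype.card K).Prime := by
  have ht : Filter.Tendsto (fun k : ℕ => Real.log k) Filter.atTop Filter.atTop :=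
    Real.tendsto_log_atTop.comp tendsto_natCast_atTop_atTop
  obtain ⟨k₀, hk₀⟩ := Filter.eventually_atTop.1 (((Filter.eventually_gt_atTop 0).and
    (ht.eventually_ge_atTop 1)).and ((ht.eventually_ge_atTop (16 * (2 + ε / 2) / (ε / 2) ^ 2)).and
      (ht.eventually_ge_atTop (27 / (ε / 2)))))
  refine ⟨k₀, fun k hk => ?_⟩
  obtain ⟨⟨h0, h1⟩, h2, h3⟩ := hk₀ k hk
  obtain ⟨N, hN, hb⟩ := EField_num (half_pos hε) h0 h1 h2 h3
  rw [mul_div_cancel₀ ε two_ne_zero] at hb
  obtain ⟨t, ht1, ht2, ht3⟩ := rothNumberNat_spec N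
  obtain ⟨q, hq, q1, q2⟩ := Nat.exists_prime_lt_and_le_two_mul (2 * N + 10 * k) (by omega)
  have : Fact q.Prime := ⟨hq⟩
  let f := t.orderEmbOfCardLe (ht2 ▸ hN : k ≤ #t)
  have fm : ∀ i, f i ∈ t := t.orderEmbOfCardLe_mem _
  have fl : ∀ i, f i < N := fun i => mem_range.1 (ht1 (fm i))
  have cast : ∀ a b : ℕ, a < q → b < q → (a : ZMod q) = b → a = b := fun a b ha hb e => by
    rwa [ZMod.natCast_eq_natCast_iff', Nat.mod_eq_of_lt ha, Nat.mod_eq_of_lt hb] at e
  refine ⟨ZMod q, inferInstance, inferInstance, fun i => (f i : ℕ), fun i j e => ?_,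
    fun i j l e => ?_, by rw [ZMod.card]; omega, ?_, by rwa [ZMod.card]⟩
  · exact f.injective (cast _ _ (by have := fl i; omega) (by have := fl j; omega) e)
  · have e' : f i + f j = f l + f l :=
      cast _ _ (by have := fl i; have := fl j; omega) (by have := fl l; omega)
        (by push_cast; rw [e, two_mul])
    exact f.injective ((ht3 (fm i) (fm l) (fm j) e').trans
      (ht3 (fm j) (fm l) (fm i) ((add_comm _ _).trans e')).symm)
  · rw [ZMod.card]
    exact le_trans (by exact_mod_cast q2) hb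

end Pool.Agent.MP_c7a479_co.Ex
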