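import Pool.Agent.MP_c7a479_co.EDefs

namespace Pool.Agent.MP_c7a479_co.Ex

open Finset
open scoped Classical

/-- Assembly of the matrix from projective representatives. -/
theorem EHeavy_asm {K : Type} [Field K] [Fintype K] {k : ℕ} (h : Fin k → K)
    (hh : Function.Injective h) (rep : (K × K) ⊕ Bool → Fin k → Option (K × K × K))
    (ha : ∀ i j, i ≠ j → ∀ v : K × K, ∃ r a b, ∃ s : K, s ≠ 0 ∧ rep r i = some a ∧
      rep r j = some b ∧ a - b = s • ((1 : K), v))
    (hb : ∀ i j, i ≠ j → ∃ r a, rep r i = some a ∧ rep r j = none) :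
    Qdm (Fin k) (K × K × K) Kˣ := by
  refine ⟨(((K × K) ⊕ Bool) × Kˣ) ⊕ (K × K), inferInstance,
    Sum.elim (fun c i => (rep c.1 i).elim (.inr c.2) fun a => .inl ((c.2 : K) • a))
      (fun c i => .inl (h i • ((0 : K), c))), ?_, ?_, ?_⟩
  · have h1 : 1 ≤ Fintype.card K := Fintype.card_pos
    simp only [Fintype.card_sum, Fintype.card_prod, Fintype.card_bool, Fintype.card_units]
    obtain ⟨m, hm⟩ := Nat.exists_eq_add_of_le h1
    rw [hm, Nat.add_sub_cancel_left]
    nlinarith
  · rintro i j hij ⟨g0, g1, g2⟩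
    have hd : h i - h j ≠ 0 := sub_ne_zero.2 (hh.ne hij)
    by_cases hg : g0 = 0
    · refine ⟨.inr (g1 / (h i - h j), g2 / (h i - h j)), _, _, rfl, rfl, ?_⟩
      subst hg
      rw [← sub_smul]
      refine Prod.ext (by simp) (Prod.ext ?_ ?_)
      · simp only [Prod.smul_mk, smul_eq_mul]
        field_simp
      · simp only [Prod.smul_mk, smul_eq_mul]
        field_simp
    · obtain ⟨r, a, b, s, hs, h1, h2, h3⟩ := ha i j hij (g1 / g0, g2 / g0)
      refine ⟨.inl (r, Units.mk0 (g0 / s) (div_ne_zero hg hs)), (g0 / s) • a, (g0 / s) • b,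
        by simp [h1], by simp [h2], ?_⟩
      rw [← smul_sub, h3, smul_smul, div_mul_cancel₀ _ hs]
      refine Prod.ext (by simp) (Prod.ext ?_ ?_)
      · simp only [Prod.smul_mk, smul_eq_mul]
        field_simp
      · simp only [Prod.smul_mk, smul_eq_mul]
        field_simp
  · intro i j hij t
    obtain ⟨r, a, h1, h2⟩ := hb i j hij
    exact ⟨.inl (r, t), (t : K) • a, by simp [h1], by simp [h2]⟩

/-- The function `xi` of the blueprint. -/
theorem EHeavy_xi {K : Type} [Field K] {k : ℕ} (h φ : Fin k → K) (σ σ' : K)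
    (hh : Function.Injective h) (hφ : Function.Injective φ) (h0 : ∀ i, h i ≠ 0)
    (hσ : σ ≠ 0) (hσ' : σ' ≠ 0)
    (h1 : ∀ i j, h i ≠ φ j) (h2 : ∀ i j l, h i * (h j * h l) ≠ σ)
    (h2' : ∀ i j l, h i * (h j * h l) ≠ σ') (h3 : ∀ i j l, φ i * (h j * h l) ≠ σ)
    (h3' : ∀ i j l, φ i * (h j * h l) ≠ σ')
    (h4 : ∀ i j l r, σ * (h i * h j) ≠ σ' * (h l * h r)) :
    ∃ xi : Fin k → K → K,
      (∀ j l, l ≠ j → xi j (h j + h l) * (h j * h l) = if j < l then σ else σ') ∧
      (∀ j j' y, xi j y = xi j' y → j = j') ∧ ∀ j j' y, h j ≠ xi j' y := by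
  have hex : ∀ j y, ∃ x : K, ((∀ l, l ≠ j → y ≠ h j + h l) ∧ x = φ j) ∨
      ∃ l, l ≠ j ∧ y = h j + h l ∧ x * (h j * h l) = if j < l then σ else σ' := by
    intro j y
    by_cases hy : ∃ l, l ≠ j ∧ y = h j + h l
    · obtain ⟨l, hl, hy⟩ := hy
      exact ⟨(if j < l then σ else σ') / (h j * h l), Or.inr ⟨l, hl, hy,
        div_mul_cancel₀ _ (mul_ne_zero (h0 j) (h0 l))⟩⟩
    · exact ⟨φ j, Or.inl ⟨fun l hl e => hy ⟨l, hl, e⟩, rfl⟩⟩
  choose xi hxi using hex
  refine ⟨xi, fun j l hl => ?_, fun j j' y e => ?_, fun j j' y e => ?_⟩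
  · rcases hxi j (h j + h l) with ⟨a, -⟩ | ⟨l', -, a, b⟩
    · exact absurd rfl (a l hl)
    · obtain rfl : l = l' := hh (add_left_cancel a)
      exact b
  · rcases hxi j y with ⟨-, a⟩ | ⟨l, hl, a, b⟩ <;>
      rcases hxi j' y with ⟨-, a'⟩ | ⟨l', hl', a', b'⟩
    · exact hφ (by rw [← a, ← a', e])
    · rw [← e, a] at b'
      split_ifs at b'
      · exact absurd b' (h3 _ _ _)
      · exact absurd b' (h3' _ _ _)
    · rw [e, a'] at b
      split_ifs at b
      · exact absurd b (h3 _ _ _)
      · exact absurd b (h3' _ _ _)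
    · rw [← e] at b'
      have key : ∀ τ : K, τ ≠ 0 → xi j y * (h j * h l) = τ → xi j y * (h j' * h l') = τ →
          j = j' ∨ (j = l' ∧ l = j') := by
        intro τ hτ c c'
        have hx : xi j y ≠ 0 := by
          rintro hx
          rw [hx, zero_mul] at c
          exact hτ c.symm
        have hp : h j * h l = h j' * h l' := mul_left_cancel₀ hx (c.trans c'.symm)
        have hs : h j + h l = h j' + h l' := a.symm.trans a'
        have : (h j - h j') * (h j - h l') = 0 := by
          linear_combination (h j) * hs - hp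
        rcases mul_eq_zero.1 this with d | d
        · exact Or.inl (hh (sub_eq_zero.1 d))
        · have d' := sub_eq_zero.1 d
          refine Or.inr ⟨hh d', hh ?_⟩
          linear_combination hs - d'
      split_ifs at b b' with c c' c'
      · rcases key σ hσ b b' with d | ⟨d, d'⟩
        · exact d
        · subst d d'
          exact absurd c' (not_lt.2 c.le)
      · exact absurd (by linear_combination (h j * h l) * b' - (h j' * h l') * b :
          σ * (h j' * h l') = σ' * (h j * h l)) (h4 _ _ _ _)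
      · exact absurd (by linear_combination (h j' * h l') * b - (h j * h l) * b' :
          σ * (h j * h l) = σ' * (h j' * h l')) (h4 _ _ _ _)
      · rcases key σ' hσ' b b' with d | ⟨d, d'⟩
        · exact d
        · subst d d'
          exact le_antisymm (not_lt.1 c') (not_lt.1 c)
  · rcases hxi j' y with ⟨-, a⟩ | ⟨l, -, -, b⟩
    · exact h1 _ _ (e.trans a)
    · rw [← e] at b
      split_ifs at b
      · exact h2 _ _ _ b
      · exact h2' _ _ _ b

section

variable {K : Type} [Field K] {k : ℕ} (h : Fin k → K) (xi : Fin k → K → K)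

/-- The special points. -/
def EHeavy_pt (c : Fin k × Bool × K) : K × K :=
  (if c.2.1 then h c.1 else xi c.1 c.2.2, c.2.2)

/-- The label of the special point of row `j` on the line `lam` of the star `l`. -/
noncomputable def EHeavy_m (l j : Fin k) (lam : Bool × K) : Bool × K :=
  if lam.1 then (true, h j + lam.2) else (decide (lam.2 = h j + h l), lam.2)

/-- The special point of row `j` on the line `lam` of the star `l`. -/
noncomputable def EHeavy_mu (l j : Fin k) (lam : Bool × K) : K × K :=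
  EHeavy_pt h xi (j, EHeavy_m h l j lam)

/-- The direction of a line. -/
def EHeavy_e (lam : Bool × K) : K × K := (1, if lam.1 then 1 else 0)

/-- The position of the special point on the line. -/
noncomputable def EHeavy_s (l j : Fin k) (lam : Bool × K) : K :=
  (EHeavy_mu h xi l j lam).1 - (EHeavy_mu h xi l l lam).1

/-- The modified columns. -/
noncomputable def EHeavy_col (c : Fin k × Bool × K) (i : Fin k) : Option (K × K × K) :=
  if c.2 = (true, h c.1) then
    (if i = c.1 then none else some (h i • ((1 : K), EHeavy_pt h xi (c.1, false, h c.1 + h c.1))))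
  else if i = c.1 then some ((0 : K), EHeavy_e c.2)
  else some (-(EHeavy_s h xi c.1 i c.2)⁻¹ • ((1 : K), EHeavy_mu h xi c.1 c.1 c.2))

theorem EHeavy_key (l j : Fin k) (c : Bool × K) (hc : c ≠ (false, h j + h l)) :
    ∃ lam, lam ≠ (true, h l) ∧ EHeavy_m h l j lam = c := by
  obtain ⟨b, y⟩ := c
  by_cases hy : y = h j + h l
  · have hb : b = true := by
      cases b
      · exact absurd (by rw [hy]) hc
      · rfl
    exact ⟨(false, y), by simp, by simp [EHeavy_m, hy, hb]⟩
  · cases b
    · exact ⟨(false, y), by simp, by simp [EHeavy_m, hy]⟩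
    · refine ⟨(true, y - h j), fun e => hy ?_, by simp [EHeavy_m]⟩
      have := congrArg Prod.snd e
      simp only at this
      linear_combination this

theorem EHeavy_line (l j : Fin k) (lam : Bool × K) :
    EHeavy_mu h xi l j lam =
      EHeavy_mu h xi l l lam + EHeavy_s h xi l j lam • EHeavy_e lam := by
  obtain ⟨b, y⟩ := lam
  refine Prod.ext (by simp [EHeavy_s, EHeavy_e]) ?_
  cases b
  · simp [EHeavy_mu, EHeavy_m, EHeavy_pt, EHeavy_e]
  · simp [EHeavy_mu, EHeavy_m, EHeavy_pt, EHeavy_e, EHeavy_s]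
    ring

variable {h xi}

theorem EHeavy_inj (hh : Function.Injective h) (x2 : ∀ j j' y, xi j y = xi j' y → j = j')
    (x3 : ∀ j j' y, h j ≠ xi j' y) : Function.Injective (EHeavy_pt h xi) := by
  rintro ⟨j, b, y⟩ ⟨j', b', y'⟩ e
  obtain ⟨e1, e2⟩ := Prod.ext_iff.1 e
  simp only [EHeavy_pt] at e1 e2
  subst e2
  cases b <;> cases b'
  · obtain rfl : j = j' := x2 j j' y (by simpa using e1)
    rfl
  · exact absurd (by simpa using e1.symm) (x3 j' j y)
  · exact absurd (by simpa using e1) (x3 j j' y)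
  · obtain rfl : j = j' := hh (by simpa using e1)
    rfl

theorem EHeavy_s_ne (hi : Function.Injective (EHeavy_pt h xi)) (l : Fin k) {i j : Fin k}
    (hij : i ≠ j) (lam : Bool × K) : EHeavy_s h xi l i lam ≠ EHeavy_s h xi l j lam := by
  intro e
  have : EHeavy_mu h xi l i lam = EHeavy_mu h xi l j lam := by
    rw [EHeavy_line h xi l i, EHeavy_line h xi l j, e]
  exact hij (congrArg Prod.fst (hi this))

theorem EHeavy_s_ne_zero (hi : Function.Injective (EHeavy_pt h xi)) {l i : Fin k}
    (hil : i ≠ l) (lam : Bool × K) : EHeavy_s h xi l i lam ≠ 0 := by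
  have := EHeavy_s_ne hi l hil lam
  rwa [show EHeavy_s h xi l l lam = 0 from sub_self _] at this

end

/-- `|K| - 1` new symbols on `K ^ 3`, from parameters in general position. -/
theorem qdm_heavy_of {K : Type} [Field K] [Fintype K] {k : ℕ} (h φ : Fin k → K) (σ σ' : K)
    (hh : Function.Injective h) (hφ : Function.Injective φ) (h0 : ∀ i, h i ≠ 0)
    (hσ : σ ≠ 0) (hσ' : σ' ≠ 0)
    (h1 : ∀ i j, h i ≠ φ j) (h2 : ∀ i j l, h i * (h j * h l) ≠ σ)
    (h2' : ∀ i j l, h i * (h j * h l) ≠ σ') (h3 : ∀ i j l, φ i * (h j * h l) ≠ σ)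
    (h3' : ∀ i j l, φ i * (h j * h l) ≠ σ')
    (h4 : ∀ i j l r, σ * (h i * h j) ≠ σ' * (h l * h r)) : Qdm (Fin k) (K × K × K) Kˣ := by
  obtain ⟨xi, x1, x2, x3⟩ := EHeavy_xi h φ σ σ' hh hφ h0 hσ hσ' h1 h2 h2' h3 h3' h4
  have hi := EHeavy_inj hh x2 x3
  let rep : (K × K) ⊕ Bool → Fin k → Option (K × K × K) :=
    Sum.elim (Function.extend (EHeavy_pt h xi) (EHeavy_col h xi)
      fun v i => some (h i • ((1 : K), v)))
      fun b i => some (h i, -(if b then σ else σ') / h i, h i ^ 2)
  have hrep : ∀ c, rep (.inl (EHeavy_pt h xi c)) = EHeavy_col h xi c := fun c =>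
    hi.extend_apply (EHeavy_col h xi) (fun v i => some (h i • ((1 : K), v))) c
  have hone : ∀ i j, i ≠ j → ∀ c : Bool × K, ∃ r a b, ∃ s : K, s ≠ 0 ∧ rep r i = some a ∧
      rep r j = some b ∧ a - b = s • ((1 : K), EHeavy_pt h xi (i, c)) := by
    intro i j hij c
    have hd : h i - h j ≠ 0 := sub_ne_zero.2 (hh.ne hij)
    by_cases hc : c = (false, h i + h j)
    · refine ⟨.inr (decide (i < j)), _, _, h i - h j, hd, rfl, rfl, ?_⟩
      have e := x1 i j hij.symm
      have hi0 := h0 i
      have hj0 := h0 j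
      subst hc
      refine Prod.ext (by simp) (Prod.ext ?_ ?_)
      · simp only [EHeavy_pt, decide_eq_true_eq, Prod.mk_sub_mk, Prod.smul_mk, smul_eq_mul,
          Bool.false_eq_true, if_false]
        rw [← e]
        field_simp
        ring
      · simp only [EHeavy_pt, Prod.mk_sub_mk, Prod.smul_mk, smul_eq_mul]
        ring
    · obtain ⟨lam, hl, hm⟩ := EHeavy_key h j i c hc
      have hs := EHeavy_s_ne_zero hi hij lam
      refine ⟨.inl (EHeavy_pt h xi (j, lam)),
        -(EHeavy_s h xi j i lam)⁻¹ • ((1 : K), EHeavy_mu h xi j j lam), ((0 : K), EHeavy_e lam),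
        -(EHeavy_s h xi j i lam)⁻¹, neg_ne_zero.2 (inv_ne_zero hs), ?_, ?_, ?_⟩
      · rw [hrep]
        simp [EHeavy_col, hl, hij]
      · rw [hrep]
        simp [EHeavy_col, hl]
      · have e : EHeavy_pt h xi (i, c) = EHeavy_mu h xi j i lam := by rw [EHeavy_mu, hm]
        rw [e, EHeavy_line h xi j i]
        refine Prod.ext (by simp) ?_
        simp only [Prod.smul_mk, Prod.mk_sub_mk, smul_add, smul_smul, neg_mul,
          inv_mul_cancel₀ hs, neg_smul, one_smul, Prod.neg_mk]
        abel
  refine EHeavy_asm h hh rep (fun i j hij v => ?_) fun i j hij => ?_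
  · have hd : h i - h j ≠ 0 := sub_ne_zero.2 (hh.ne hij)
    by_cases hv : ∃ c, EHeavy_pt h xi c = v
    · obtain ⟨⟨r, c⟩, rfl⟩ := hv
      by_cases hri : r = i
      · subst hri
        exact hone r j hij c
      by_cases hrj : r = j
      · subst hrj
        obtain ⟨t, a, b, s, hs, e1, e2, e3⟩ := hone r i hij.symm c
        exact ⟨t, b, a, -s, neg_ne_zero.2 hs, e2, e1, by rw [neg_smul, ← e3, neg_sub]⟩
      have hir : i ≠ r := fun e => hri e.symm
      have hjr : j ≠ r := fun e => hrj e.symm
      by_cases hc : c = (false, h r + h r)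
      · subst hc
        refine ⟨.inl (EHeavy_pt h xi (r, true, h r)), h i • _, h j • _, h i - h j, hd, ?_, ?_,
          (sub_smul _ _ _).symm⟩
        · rw [hrep]
          simp only [EHeavy_col, if_true, if_neg hir]
        · rw [hrep]
          simp only [EHeavy_col, if_true, if_neg hjr]
      · obtain ⟨lam, hl, hm⟩ := EHeavy_key h r r c hc
        have e : EHeavy_pt h xi (r, c) = EHeavy_mu h xi r r lam := by rw [EHeavy_mu, hm]
        refine ⟨.inl (EHeavy_pt h xi (r, lam)), -(EHeavy_s h xi r i lam)⁻¹ • _,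
          -(EHeavy_s h xi r j lam)⁻¹ • _, -(EHeavy_s h xi r i lam)⁻¹ - -(EHeavy_s h xi r j lam)⁻¹,
          ?_, ?_, ?_, (sub_smul _ _ _).symm⟩
        · exact sub_ne_zero.2 fun a => EHeavy_s_ne hi r hij lam (inv_injective (neg_injective a))
        · rw [hrep, e]
          simp only [EHeavy_col, if_neg hl, if_neg hir]
        · rw [hrep, e]
          simp only [EHeavy_col, if_neg hl, if_neg hjr]
    · have e : rep (.inl v) = fun i => some (h i • ((1 : K), v)) :=
        Function.extend_apply' (EHeavy_col h xi) (fun v i => some (h i • ((1 : K), v))) v hv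
      exact ⟨.inl v, h i • _, h j • _, h i - h j, hd, by rw [e], by rw [e], (sub_smul _ _ _).symm⟩
  · refine ⟨.inl (EHeavy_pt h xi (j, true, h j)),
      h i • ((1 : K), EHeavy_pt h xi (j, false, h j + h j)), ?_, ?_⟩
    · rw [hrep]
      simp only [EHeavy_col, if_true, if_neg hij]
    · rw [hrep]
      simp only [EHeavy_col, if_true]

/-- Take `h j = γ ^ j`, `φ j = γ ^ (k + j)`, `σ = γ ^ (4 * k)`, `σ' = γ ^ (6 * k)` for a
generator `γ` of `Kˣ`. -/
theorem qdm_heavy {K : Type} [Field K] [Fintype K] {k : ℕ} (hq : 8 * k + 1 < Fintype.card K) :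
    Qdm (Fin k) (K × K × K) Kˣ := by
  obtain ⟨γ, hγ⟩ := IsCyclic.exists_generator (α := Kˣ)
  have ho : orderOf γ = Fintype.card K - 1 := by
    rw [orderOf_eq_card_of_forall_mem_zpowers hγ, Nat.card_eq_fintype_card, Fintype.card_units]
  have hinj : ∀ a b : ℕ, a ≤ 8 * k → b ≤ 8 * k → (γ : K) ^ a = (γ : K) ^ b → a = b := by
    intro a b ha hb e
    refine pow_injOn_Iio_orderOf (x := γ) (by simp only [Set.mem_Iio]; omega)
      (by simp only [Set.mem_Iio]; omega) (Units.ext ?_)
    simpa using e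
  have hne : ∀ a : ℕ, (γ : K) ^ a ≠ 0 := fun a => pow_ne_zero _ γ.ne_zero
  refine qdm_heavy_of (fun j => (γ : K) ^ (j : ℕ)) (fun j => (γ : K) ^ (k + j)) (γ ^ (4 * k))
    (γ ^ (6 * k)) (fun i j e => ?_) (fun i j e => ?_) (fun i => hne _) (hne _) (hne _)
    (fun i j e => ?_) (fun i j l e => ?_) (fun i j l e => ?_) (fun i j l e => ?_)
    (fun i j l e => ?_) (fun i j l r e => ?_)
  · have := hinj _ _ (by omega) (by omega) e
    exact Fin.ext this
  · have := hinj _ _ (by omega) (by omega) e
    exact Fin.ext (by omega)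
  · have := hinj _ _ (by omega) (by omega) e
    omega
  · simp only [← pow_add] at e
    have := hinj _ _ (by omega) (by omega) e
    omega
  · simp only [← pow_add] at e
    have := hinj _ _ (by omega) (by omega) e
    omega
  · simp only [← pow_add] at e
    have := hinj _ _ (by omega) (by omega) e
    omega
  · simp only [← pow_add] at e
    have := hinj _ _ (by omega) (by omega) e
    omega
  · simp only [← pow_add] at e
    have := hinj _ _ (by omega) (by omega) e
    omega

end Pool.Agent.MP_c7a479_co.Ex
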