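import Pool.Agent.MP_c7a479_co.EDefs

namespace Pool.Agent.MP_c7a479_co.Ex

open Finset
open scoped Classical

theorem EPoly_a {w : ℝ} (h0 : 0 ≤ w) (h1 : w ≤ 1 / 2) :
    0 ≤ RR (w ^ 2) - (w ^ 4 + 2 * w ^ 3 - 2 * w ^ 5) := by
  have ha : 0 ≤ w - 0 := sub_nonneg.2 h0
  have hb : 0 ≤ 1 / 2 - w := sub_nonneg.2 h1
  have e : RR (w ^ 2) - (w ^ 4 + 2 * w ^ 3 - 2 * w ^ 5) =
      64 / 25 * (w - 0) ^ 0 * (1 / 2 - w) ^ 8 +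
      512 / 25 * (w - 0) ^ 1 * (1 / 2 - w) ^ 7 +
      512 / 5 * (w - 0) ^ 2 * (1 / 2 - w) ^ 6 +
      6592 / 25 * (w - 0) ^ 3 * (1 / 2 - w) ^ 5 +
      8748 / 25 * (w - 0) ^ 4 * (1 / 2 - w) ^ 4 +
      6336 / 25 * (w - 0) ^ 5 * (1 / 2 - w) ^ 3 +
      2668 / 25 * (w - 0) ^ 6 * (1 / 2 - w) ^ 2 +
      648 / 25 * (w - 0) ^ 7 * (1 / 2 - w) ^ 1 +
      2913 / 1000 * (w - 0) ^ 8 * (1 / 2 - w) ^ 0 := by
    unfold RR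
    ring
  rw [e]
  positivity

theorem EPoly_b {w : ℝ} (h0 : 1 / 2 ≤ w) (h1 : w ≤ 1) :
    0 ≤ RR (w ^ 2) - (w ^ 4 + 2 * w ^ 3 - 2 * w ^ 5) := by
  have ha : 0 ≤ w - 1 / 2 := sub_nonneg.2 h0
  have hb : 0 ≤ 1 - w := sub_nonneg.2 h1
  have e : RR (w ^ 2) - (w ^ 4 + 2 * w ^ 3 - 2 * w ^ 5) =
      2913 / 1000 * (w - 1 / 2) ^ 0 * (1 - w) ^ 8 +
      2586 / 125 * (w - 1 / 2) ^ 1 * (1 - w) ^ 7 +
      8762 / 125 * (w - 1 / 2) ^ 2 * (1 - w) ^ 6 +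
      19368 / 125 * (w - 1 / 2) ^ 3 * (1 - w) ^ 5 +
      5592 / 25 * (w - 1 / 2) ^ 4 * (1 - w) ^ 4 +
      22272 / 125 * (w - 1 / 2) ^ 5 * (1 - w) ^ 3 +
      7232 / 125 * (w - 1 / 2) ^ 6 * (1 - w) ^ 2 +
      1024 / 125 * (w - 1 / 2) ^ 7 * (1 - w) ^ 1 +
      1056 / 125 * (w - 1 / 2) ^ 8 * (1 - w) ^ 0 := by
    unfold RR
    ring
  rw [e]
  positivity

theorem EPoly_c {s : ℝ} (h0 : 1 ≤ s) (h1 : s ≤ 5 / 4) :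
    0 ≤ RR s - 1 := by
  have ha : 0 ≤ s - 1 := sub_nonneg.2 h0
  have hb : 0 ≤ 5 / 4 - s := sub_nonneg.2 h1
  have e : RR s - 1 =
      1056 / 125 * (s - 1) ^ 0 * (5 / 4 - s) ^ 4 +
      1216 / 25 * (s - 1) ^ 1 * (5 / 4 - s) ^ 3 +
      1928 / 25 * (s - 1) ^ 2 * (5 / 4 - s) ^ 2 +
      1118 / 25 * (s - 1) ^ 3 * (5 / 4 - s) ^ 1 +
      1757 / 200 * (s - 1) ^ 4 * (5 / 4 - s) ^ 0 := by
    unfold RR
    ring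
  rw [e]
  positivity

theorem EPoly_d {s : ℝ} (h0 : 5 / 4 ≤ s) (h1 : s ≤ 3 / 2) :
    0 ≤ RR s - 1 := by
  have ha : 0 ≤ s - 5 / 4 := sub_nonneg.2 h0
  have hb : 0 ≤ 3 / 2 - s := sub_nonneg.2 h1
  have e : RR s - 1 =
      1757 / 200 * (s - 5 / 4) ^ 0 * (3 / 2 - s) ^ 4 +
      639 / 25 * (s - 5 / 4) ^ 1 * (3 / 2 - s) ^ 3 +
      491 / 25 * (s - 5 / 4) ^ 2 * (3 / 2 - s) ^ 2 +
      108 / 25 * (s - 5 / 4) ^ 3 * (3 / 2 - s) ^ 1 +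
      306 / 125 * (s - 5 / 4) ^ 4 * (3 / 2 - s) ^ 0 := by
    unfold RR
    ring
  rw [e]
  positivity

theorem EPoly_e {s : ℝ} (h0 : 3 / 2 ≤ s) (h1 : s ≤ 2) :
    0 ≤ RR s - 1 := by
  have ha : 0 ≤ s - 3 / 2 := sub_nonneg.2 h0
  have hb : 0 ≤ 2 - s := sub_nonneg.2 h1
  have e : RR s - 1 =
      153 / 1000 * (s - 3 / 2) ^ 0 * (2 - s) ^ 4 +
      162 / 125 * (s - 3 / 2) ^ 1 * (2 - s) ^ 3 +
      1039 / 125 * (s - 3 / 2) ^ 2 * (2 - s) ^ 2 +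
      2328 / 125 * (s - 3 / 2) ^ 3 * (2 - s) ^ 1 +
      1556 / 125 * (s - 3 / 2) ^ 4 * (2 - s) ^ 0 := by
    unfold RR
    ring
  rw [e]
  positivity

theorem EPoly_log {w : ℝ} (h0 : 0 < w) (h1 : w ≤ 1) : Real.log (1 / w ^ 2) ≤ 1 / w - w := by
  have h2 : 0 ≤ Real.log w⁻¹ := Real.log_nonneg ((one_le_inv₀ h0).2 h1)
  have h3 := Real.self_le_sinh_iff.2 h2
  rw [Real.sinh_log (inv_pos.2 h0), inv_inv] at h3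
  rw [one_div, one_div, ← inv_pow, Real.log_pow]
  push_cast
  linarith

/-- With `s = w ^ 2` use `log (1 / s) ≤ 1 / w - w`; then a polynomial inequality in `w`
(margin `1 / 100`). -/
theorem RR_ge {s : ℝ} (h0 : 0 < s) (h1 : s ≤ 1) : s ^ 2 * (1 + 2 * Real.log (1 / s)) ≤ RR s := by
  obtain ⟨w, hw, rfl⟩ : ∃ w : ℝ, 0 < w ∧ s = w ^ 2 :=
    ⟨Real.sqrt s, Real.sqrt_pos.2 h0, (Real.sq_sqrt h0.le).symm⟩
  have hw1 : w ≤ 1 := by nlinarith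
  have h2 := EPoly_log hw hw1
  have h3 : (w ^ 2) ^ 2 * (1 + 2 * (1 / w - w)) = w ^ 4 + 2 * w ^ 3 - 2 * w ^ 5 := by
    field_simp
    ring
  have h4 : (w ^ 2) ^ 2 * (1 + 2 * Real.log (1 / w ^ 2)) ≤ (w ^ 2) ^ 2 * (1 + 2 * (1 / w - w)) :=
    mul_le_mul_of_nonneg_left (by linarith) (by positivity)
  rcases le_total w (1 / 2) with h | h
  · linarith [EPoly_a hw.le h]
  · linarith [EPoly_b h hw1]

theorem RR_ge' {s : ℝ} (h0 : 1 ≤ s) (h1 : s ≤ 197 / 100) : 1 ≤ RR s := by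
  rcases le_total s (5 / 4) with h | h
  · linarith [EPoly_c h0 h]
  rcases le_total s (3 / 2) with h' | h'
  · linarith [EPoly_d h h']
  · linarith [EPoly_e h' (by linarith)]

end Pool.Agent.MP_c7a479_co.Ex
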