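import Pool.Agent.MP_c7a479_co.EMom
import Pool.Agent.MP_c7a479_co.EPoly

namespace Pool.Agent.MP_c7a479_co.Ex

open Finset
open scoped Classical

theorem EPos_diff {L : ℝ} {p : ℕ} {R : Finset ℕ} (h : p ∉ R) :
    yy L R - yy L (insert p R) = min (yy L R) (Real.log p) := by
  have h0 : 0 ≤ Real.log p := Real.log_natCast_nonneg p
  have h1 : LL (insert p R) = Real.log p + LL R := by rw [LL, sum_insert h, LL]
  rw [yy, yy, h1]
  simp only [max_def, min_def]
  split_ifs <;> linarith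

theorem EPos_zero (l : ℝ) : Phi l 0 = 0 :=
  sum_eq_zero fun p _ => by rw [min_eq_left (Real.log_natCast_nonneg p)]; ring

theorem EPos_hR {L : ℝ} {R : Finset ℕ} (h : R ∈ (PP L).powerset) : 0 ≤ hR R :=
  hR_nonneg fun _ hp => (mem_PP.1 (mem_powerset.1 h hp)).1

theorem EPos_Phi : ∃ C : ℝ, 0 < C ∧ ∀ l y : ℝ, 0 < l → 0 ≤ y → y ≤ 197 / 100 * l →
    Phi l y ≤ l ^ 2 * RR (y / l) + C * l := by
  obtain ⟨C, hC, h⟩ := Phi_le
  obtain ⟨C', hC', h'⟩ := Phi_le'
  refine ⟨C + C', add_pos hC hC', fun l y hl h0 h1 => ?_⟩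
  have e1 : 0 < C * l := mul_pos hC hl
  have e2 : 0 < C' * l := mul_pos hC' hl
  rcases h0.eq_or_lt with rfl | h2
  · rw [EPos_zero, zero_div, RR]
    nlinarith [sq_nonneg l]
  · rcases le_total y l with h3 | h3
    · have e3 := mul_le_mul_of_nonneg_left
        (RR_ge (div_pos h2 hl) ((div_le_one hl).2 h3)) (sq_nonneg l)
      have e4 : l ^ 2 * ((y / l) ^ 2 * (1 + 2 * Real.log (1 / (y / l)))) =
          y ^ 2 * (1 + 2 * Real.log (l / y)) := by
        rw [one_div_div]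
        field_simp
      have := h l y h2 h3
      linarith
    · have e3 := mul_le_mul_of_nonneg_left
        (RR_ge' ((one_le_div hl).2 h3) ((div_le_iff₀ hl).2 h1)) (sq_nonneg l)
      have := h' l y hl.le h0
      linarith

theorem TT_ge {l L : ℝ} (hl : l ≤ L) :
    ∑ R ∈ (PP L).powerset with LL R ≤ L, hR R * ((L - LL R) ^ 2 - Phi l (L - LL R)) ≤ TT l L := by
  have _ := hl
  have h1 : ∑ R ∈ (PP L).powerset with LL R ≤ L, hR R * ((L - LL R) ^ 2 - Phi l (L - LL R)) =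
      ∑ R ∈ (PP L).powerset, hR R * (yy L R ^ 2 - Phi l (yy L R)) := by
    rw [sum_filter]
    refine sum_congr rfl fun R _ => ?_
    split_ifs with h
    · rw [yy, max_eq_left (by linarith)]
    · rw [yy, max_eq_right (by linarith), EPos_zero]
      ring
  have h2 : ∑ R ∈ (PP L).powerset, hR R * Phi l (yy L R) =
      ∑ p ∈ PP l, hh p * ∑ R ∈ (PP L).powerset, hR R * min (yy L R) (Real.log p) ^ 2 := by
    simp only [Phi, mul_sum]
    rw [sum_comm]
    exact sum_congr rfl fun p _ => sum_congr rfl fun R _ => by ring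
  rw [h1, TT]
  simp only [mul_sub]
  rw [sum_sub_distrib, h2]
  refine sub_le_sub_left (sum_le_sum fun p hp => ?_) _
  have hp' := (mem_PP.1 hp).1
  have h3 : ∑ R ∈ ((PP L).erase p).powerset, hR R * (yy L R - yy L (insert p R)) ^ 2 =
      ∑ R ∈ ((PP L).erase p).powerset, hR R * min (yy L R) (Real.log p) ^ 2 :=
    sum_congr rfl fun R hR' => by
      rw [EPos_diff fun h => notMem_erase p (PP L) (mem_powerset.1 hR' h)]
  rw [h3]
  refine mul_le_mul (gg_le_hh hp') (sum_le_sum_of_subset_of_nonneg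
    (powerset_mono.2 (erase_subset _ _)) fun R h _ => mul_nonneg (EPos_hR h) (sq_nonneg _))
    (sum_nonneg fun R h => mul_nonneg
      (EPos_hR (powerset_mono.2 (erase_subset _ _) h)) (sq_nonneg _)) (hh_pos hp').le

/-- `Phi l y ≤ l ^ 2 * RR (y / l) + C * l` on `[0, 197 / 100 * l]`, then the moments: the main
constant is `u ^ 2 / 6 - ∑ j, r j * u ^ j * 2 / ((j + 1) * (j + 2)) > 6 / 1000`, `u = 197 / 100`. -/
theorem TT_pos : ∃ l₀ : ℝ, ∀ l : ℝ, l₀ ≤ l → 1 ≤ TT l (197 / 100 * l) := by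
  obtain ⟨C, hC, h⟩ := EPos_Phi
  obtain ⟨D, hD, hm⟩ := mom
  refine ⟨max 20 (1000 * (C + 112 * D)), fun l hl => ?_⟩
  have l1 : 20 ≤ l := (le_max_left _ _).trans hl
  have l2 : 1000 * (C + 112 * D) ≤ l := (le_max_right _ _).trans hl
  have l0 : 0 < l := by linarith
  set L := 197 / 100 * l with hL
  have L0 : 0 ≤ L := by rw [hL]; positivity
  have L1 : l ≤ L := by rw [hL]; linarith
  have m1 := one_le_MM L0
  have m0 : 0 < MM L 0 := by linarith
  have key : ∀ j : ℕ, j ≤ 4 → |MM L j / (l ^ j * MM L 0) -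
      2 / ((j + 1) * (j + 2)) * (197 / 100) ^ j| ≤ 16 * (D / l) := by
    intro j hj
    have e0 : 0 < l ^ j * MM L 0 := by positivity
    have e1 : MM L j / (l ^ j * MM L 0) - 2 / ((j + 1) * (j + 2)) * (197 / 100) ^ j =
        (MM L j - 2 / ((j + 1) * (j + 2)) * L ^ j * MM L 0) / (l ^ j * MM L 0) := by
      rw [sub_div, show L ^ j = (197 / 100) ^ j * l ^ j by rw [hL, mul_pow]]
      congr 1
      field_simp
    have e2 : (197 / 100 : ℝ) ^ j ≤ 16 :=
      (pow_le_pow_right₀ (by norm_num) hj).trans (by norm_num)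
    rw [e1, abs_div, abs_of_pos e0, ← mul_div_assoc, div_le_div_iff₀ e0 l0]
    refine (mul_le_mul_of_nonneg_left L1 (abs_nonneg _)).trans ((hm j hj L L0).trans ?_)
    rw [show L ^ j = (197 / 100) ^ j * l ^ j by rw [hL, mul_pow]]
    have := mul_le_mul_of_nonneg_right e2 (mul_pos hD e0).le
    linarith
  have k1 := abs_le.1 (key 1 (by norm_num))
  have k2 := abs_le.1 (key 2 (by norm_num))
  have k3 := abs_le.1 (key 3 (by norm_num))
  have k4 := abs_le.1 (key 4 (by norm_num))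
  norm_num at k1 k2 k3 k4
  have e1 : ∑ R ∈ (PP L).powerset with LL R ≤ L,
      hR R * ((L - LL R) ^ 2 - (l ^ 2 * RR ((L - LL R) / l) + C * l)) =
      MM L 2 - (l ^ 2 / 100 * MM L 0 + 12 / 25 * l * MM L 1 + 287 / 100 * MM L 2 -
        83 / 25 / l * MM L 3 + 993 / 1000 / l ^ 2 * MM L 4) - C * l * MM L 0 := by
    simp only [MM, mul_sum, ← sum_add_distrib, ← sum_sub_distrib]
    refine sum_congr rfl fun R _ => ?_
    rw [RR]
    field_simp
    ring
  have e2 : MM L 2 - (l ^ 2 / 100 * MM L 0 + 12 / 25 * l * MM L 1 + 287 / 100 * MM L 2 -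
        83 / 25 / l * MM L 3 + 993 / 1000 / l ^ 2 * MM L 4) - C * l * MM L 0 =
      l ^ 2 * MM L 0 * (-(1 / 100) - 12 / 25 * (MM L 1 / (l * MM L 0)) -
        187 / 100 * (MM L 2 / (l ^ 2 * MM L 0)) + 83 / 25 * (MM L 3 / (l ^ 3 * MM L 0)) -
        993 / 1000 * (MM L 4 / (l ^ 4 * MM L 0)) - C / l) := by
    field_simp
    ring
  have e3 : C / l + 112 * (D / l) ≤ 1 / 1000 := by
    rw [← mul_div_assoc, ← add_div, div_le_iff₀ l0]
    linarith
  have e4 : 0 < D / l := div_pos hD l0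
  have e5 : 1 / 200 ≤ -(1 / 100) - 12 / 25 * (MM L 1 / (l * MM L 0)) -
        187 / 100 * (MM L 2 / (l ^ 2 * MM L 0)) + 83 / 25 * (MM L 3 / (l ^ 3 * MM L 0)) -
        993 / 1000 * (MM L 4 / (l ^ 4 * MM L 0)) - C / l := by
    linarith [k1.1, k1.2, k2.1, k2.2, k3.1, k3.2, k4.1, k4.2]
  refine le_trans ?_ (TT_ge L1)
  refine le_trans ?_ (sum_le_sum (g := fun R => hR R * ((L - LL R) ^ 2 - Phi l (L - LL R)))
    (f := fun R => hR R * ((L - LL R) ^ 2 - (l ^ 2 * RR ((L - LL R) / l) + C * l)))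
    fun R hR' => ?_)
  · rw [e1, e2]
    have e6 : 400 ≤ l ^ 2 * MM L 0 := by nlinarith
    nlinarith
  · obtain ⟨r1, r2⟩ := mem_filter.1 hR'
    have r3 : 0 ≤ LL R := sum_nonneg fun p _ => Real.log_natCast_nonneg p
    exact mul_le_mul_of_nonneg_left
      (sub_le_sub_left (h l _ l0 (by linarith) (by linarith)) _) (EPos_hR r1)

end Pool.Agent.MP_c7a479_co.Ex
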