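import Pool.Agent.MP_c7a479_co.ECount
import Pool.Agent.MP_c7a479_co.EPos

namespace Pool.Agent.MP_c7a479_co.Ex

open Finset
open scoped Classical

variable {r r' : ℕ → ℕ}

theorem ESieve_yy_nonneg (L : ℝ) (R : Finset ℕ) : 0 ≤ yy L R := le_max_right _ _

theorem ESieve_yy_insert (L : ℝ) {p : ℕ} {R : Finset ℕ} (hp : p ∉ R) :
    yy L (insert p R) ≤ yy L R := by
  unfold yy LL
  rw [sum_insert hp]
  have := Real.log_natCast_nonneg p
  exact max_le_max (by linarith) le_rfl

theorem ESieve_split {L : ℝ} {p t : ℕ} (hp : p ∈ PP L) (hb : Bad r r' p t) :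
    ∑ R ∈ (PP L).powerset, yy L R * ∏ q ∈ R, psi r r' q t =
      ∑ R ∈ ((PP L).erase p).powerset,
        (yy L R - yy L (insert p R)) * ∏ q ∈ R, psi r r' q t := by
  conv_lhs => rw [← insert_erase hp]
  rw [sum_powerset_insert (notMem_erase p _), ← sum_add_distrib]
  refine sum_congr rfl fun R hR => ?_
  have hpR : p ∉ R := fun h => notMem_erase p _ (mem_powerset.1 hR h)
  have h1 : psi r r' p t = -1 := by rw [psi, if_pos hb]
  rw [prod_insert hpR, h1]
  ring

/-- If every `t` of the interval is removed then `∑ t, φ t ^ 2 * (1 - ∑ p, 1 (Bad p t)) ≤ 0`. -/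
theorem sieve_ineq (h : Exact r r') {l L : ℝ} (hl : l ≤ L) {x Z : ℕ}
    (hall : ∀ t ∈ Ico x (x + Z), ∃ p ∈ PP l, Bad r r' p t) :
    Z * TT l L ≤ (1 + 2 * #(PP l)) * (∑ R ∈ (PP L).powerset, yy L R * 8 ^ #R) ^ 2 := by
  set W := ∑ R ∈ (PP L).powerset, yy L R * 8 ^ #R with hW
  have hprime : ∀ p ∈ PP L, p.Prime := fun p hp => (mem_PP.1 hp).1
  have hsub : ∀ p ∈ PP l, p ∈ PP L := fun p hp =>
    mem_PP.2 ⟨(mem_PP.1 hp).1, (mem_PP.1 hp).2.trans hl⟩
  set φ : ℕ → ℝ := fun t => ∑ R ∈ (PP L).powerset, yy L R * ∏ q ∈ R, psi r r' q t with hφ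
  have h0 := sq_est h ∅ (PP L) (by simp) hprime (disjoint_empty_left _) (yy L) x Z
  have hWe : ∑ R ∈ (PP L).powerset, |yy L R| * 8 ^ #R = W :=
    sum_congr rfl fun R _ => by rw [abs_of_nonneg (ESieve_yy_nonneg L R)]
  rw [hWe] at h0
  simp only [notMem_empty, IsEmpty.forall_iff, implies_true, if_true, one_mul, prod_empty,
    card_empty, pow_zero] at h0
  have h1 : ∀ p ∈ PP l, ∑ t ∈ Ico x (x + Z), (if Bad r r' p t then (1 : ℝ) else 0) * φ t ^ 2 ≤
      Z * (gg p * ∑ R ∈ ((PP L).erase p).powerset, hR R * (yy L R - yy L (insert p R)) ^ 2) +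
        2 * W ^ 2 := by
    intro p hp
    have h2 := sq_est h {p} ((PP L).erase p) (by simpa using (mem_PP.1 hp).1)
      (fun q hq => hprime q (mem_of_mem_erase hq)) (by simp)
      (fun R => yy L R - yy L (insert p R)) x Z
    simp only [mem_singleton, forall_eq, prod_singleton, card_singleton, pow_one] at h2
    have h3 : ∑ R ∈ ((PP L).erase p).powerset, |yy L R - yy L (insert p R)| * 8 ^ #R ≤ W := by
      refine le_trans (sum_le_sum fun R hR => ?_)
        (sum_le_sum_of_subset_of_nonneg (powerset_mono.2 (erase_subset p _)) fun R _ _ =>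
          mul_nonneg (ESieve_yy_nonneg L R) (by positivity))
      have hpR : p ∉ R := fun h => notMem_erase p _ (mem_powerset.1 hR h)
      have h4 := ESieve_yy_insert L hpR
      have h5 := ESieve_yy_nonneg L (insert p R)
      rw [abs_of_nonneg (by linarith)]
      exact mul_le_mul_of_nonneg_right (by linarith) (by positivity)
    have h6 : (∑ R ∈ ((PP L).erase p).powerset, |yy L R - yy L (insert p R)| * 8 ^ #R) ^ 2 ≤
        W ^ 2 :=
      pow_le_pow_left₀ (sum_nonneg fun R _ => by positivity) h3 2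
    have h7 : ∑ t ∈ Ico x (x + Z), (if Bad r r' p t then (1 : ℝ) else 0) * φ t ^ 2 =
        ∑ t ∈ Ico x (x + Z), (if Bad r r' p t then (1 : ℝ) else 0) *
          (∑ R ∈ ((PP L).erase p).powerset,
            (yy L R - yy L (insert p R)) * ∏ q ∈ R, psi r r' q t) ^ 2 := by
      refine sum_congr rfl fun t _ => ?_
      split_ifs with hb
      · rw [hφ]
        simp only
        rw [ESieve_split (hsub p hp) hb]
      · simp
    rw [h7]
    have := (abs_le.1 h2).2
    linarith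
  have h8 : ∑ t ∈ Ico x (x + Z), φ t ^ 2 ≤
      ∑ p ∈ PP l, ∑ t ∈ Ico x (x + Z), (if Bad r r' p t then (1 : ℝ) else 0) * φ t ^ 2 := by
    rw [sum_comm]
    refine sum_le_sum fun t ht => ?_
    obtain ⟨p, hp, hb⟩ := hall t ht
    have := single_le_sum (f := fun p => (if Bad r r' p t then (1 : ℝ) else 0) * φ t ^ 2)
      (fun q _ => by split_ifs <;> positivity) hp
    simpa [hb] using this
  have h9 := h8.trans (sum_le_sum h1)
  rw [sum_add_distrib, ← mul_sum, sum_const, nsmul_eq_mul] at h9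
  have h10 := (abs_le.1 h0).1
  unfold TT
  simp only [hφ] at h9
  nlinarith [h9, h10]

/-- Rankin's trick. -/
theorem wt_le {L : ℝ} (hL : 0 ≤ L) : ∑ R ∈ (PP L).powerset, yy L R * 8 ^ #R ≤
    L * Real.exp L * ∏ p ∈ PP L, (1 + 8 / (p : ℝ)) := by
  rw [prod_one_add, mul_sum]
  refine sum_le_sum fun R hR => ?_
  have hpos : ∀ p ∈ R, (0 : ℝ) < p := fun p hp => by
    exact_mod_cast (mem_PP.1 (mem_powerset.1 hR hp)).1.pos
  have h1 : ∏ p ∈ R, (8 / (p : ℝ)) = Real.exp (-LL R) * 8 ^ #R := by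
    rw [prod_div_distrib, prod_const, LL, Real.exp_neg, Real.exp_sum, div_eq_inv_mul]
    congr 2
    exact prod_congr rfl fun p hp => (Real.exp_log (hpos p hp)).symm
  rw [h1, ← mul_assoc, mul_assoc L, ← Real.exp_add]
  refine mul_le_mul_of_nonneg_right ?_ (by positivity)
  have h2 : 0 ≤ LL R := sum_nonneg fun p _ => Real.log_natCast_nonneg p
  unfold yy
  refine max_le ?_ (by positivity)
  by_cases h3 : LL R ≤ L
  · have : 1 ≤ Real.exp (L + -LL R) := Real.one_le_exp (by linarith)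
    nlinarith
  · have : 0 ≤ L * Real.exp (L + -LL R) := by positivity
    linarith

theorem ESieve_num {l : ℝ} (hl : 10 ^ 9 ≤ l) :
    5 * Real.exp l * (197 / 100 * l * Real.exp (197 / 100 * l) *
      Real.exp (1 / 1000 * (197 / 100 * l))) ^ 2 < Real.exp (l * (99 / 20)) := by
  have h0 : 0 < l := by linarith
  have h1 := Real.pow_div_factorial_le_exp (6 / 1000 * l) (by positivity) 3
  have h2 : 20 * l ^ 2 < Real.exp (6 / 1000 * l) := by
    refine lt_of_lt_of_le ?_ h1
    have h3 : ((3 : ℕ).factorial : ℝ) = 6 := by norm_num [Nat.factorial]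
    rw [h3]
    have h4 : 0 < l ^ 2 := by positivity
    nlinarith
  have h5 : 5 * Real.exp l * (197 / 100 * l * Real.exp (197 / 100 * l) *
      Real.exp (1 / 1000 * (197 / 100 * l))) ^ 2 =
      5 * (197 / 100) ^ 2 * l ^ 2 * Real.exp (494394 / 100000 * l) := by
    have : Real.exp (494394 / 100000 * l) = Real.exp l * (Real.exp (197 / 100 * l) *
        Real.exp (1 / 1000 * (197 / 100 * l))) ^ 2 := by
      rw [← Real.exp_add, ← Real.exp_nat_mul, ← Real.exp_add]
      congr 1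
      push_cast
      ring
    rw [this]
    ring
  have h6 : Real.exp (6 / 1000 * l) * Real.exp (494394 / 100000 * l) ≤
      Real.exp (l * (99 / 20)) := by
    rw [← Real.exp_add]
    exact Real.exp_le_exp.2 (by linarith)
  rw [h5]
  refine lt_of_lt_of_le ?_ h6
  refine mul_lt_mul_of_pos_right ?_ (Real.exp_pos _)
  have h4 : 0 < l ^ 2 := by positivity
  nlinarith

/-- The two dimensional sieve with sieving limit `4.95`. -/
theorem sieve2 : ∃ z₀ : ℕ, ∀ z : ℕ, z₀ ≤ z → ∀ r r' : ℕ → ℕ, r 2 ≡ r' 2 [MOD 2] → ∀ x Z : ℕ,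
    (z : ℝ) ^ (99 / 20 : ℝ) ≤ Z → ∃ t, x ≤ t ∧ t < x + Z ∧
      ∀ p : ℕ, p.Prime → p ≤ z → ¬ Bad r r' p t := by
  obtain ⟨l₀, hl₀⟩ := TT_pos
  obtain ⟨L₀, hL₀⟩ := prod_le (ε := 1 / 1000) (by norm_num)
  refine ⟨⌈Real.exp (max (max l₀ L₀) (10 ^ 9))⌉₊, fun z hz r r' h2 x Z hZ => ?_⟩
  have hz1 : Real.exp (max (max l₀ L₀) (10 ^ 9)) ≤ z := (Nat.le_ceil _).trans (by exact_mod_cast hz)
  have hzpos : (0 : ℝ) < z := (Real.exp_pos _).trans_le hz1
  set l := Real.log z with hl
  have hm : max (max l₀ L₀) (10 ^ 9) ≤ l := (Real.le_log_iff_exp_le hzpos).2 hz1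
  have hm1 : l₀ ≤ l := (le_max_left _ _).trans ((le_max_left _ _).trans hm)
  have hm2 : L₀ ≤ l := (le_max_right _ _).trans ((le_max_left _ _).trans hm)
  have hm3 : (10 : ℝ) ^ 9 ≤ l := (le_max_right _ _).trans hm
  have hl0 : 0 < l := by linarith
  have hez : Real.exp l = z := Real.exp_log hzpos
  by_contra hcon
  push Not at hcon
  let s : ℕ → ℕ := fun p => if p ≠ 2 ∧ r p ≡ r' p [MOD p] then r p + 1 else r' p
  have hex : Exact r s := by
    refine ⟨by simpa [s] using h2, fun p hp hp2 => ?_⟩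
    by_cases hc : r p ≡ r' p [MOD p]
    · have : s p = r p + 1 := if_pos ⟨hp2, hc⟩
      rw [this]
      intro h
      have h3 := (Nat.modEq_iff_dvd' (Nat.le_succ _)).1 h
      rw [Nat.succ_sub (le_refl _), Nat.sub_self] at h3
      exact hp.one_lt.ne' (Nat.dvd_one.1 h3)
    · have : s p = r' p := if_neg fun h => hc h.2
      rwa [this]
  have hall : ∀ t ∈ Ico x (x + Z), ∃ p ∈ PP l, Bad r s p t := by
    intro t ht
    obtain ⟨p, hp, hpz, hb⟩ := hcon t (mem_Ico.1 ht).1 (mem_Ico.1 ht).2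
    refine ⟨p, mem_PP.2 ⟨hp, Real.log_le_log (by exact_mod_cast hp.pos) (by exact_mod_cast hpz)⟩,
      ?_⟩
    rcases hb with hb | hb
    · exact Or.inl hb
    · by_cases hc : p ≠ 2 ∧ r p ≡ r' p [MOD p]
      · exact Or.inl (hb.trans hc.2.symm)
      · have : s p = r' p := if_neg hc
        exact Or.inr (by rwa [this])
  have h1 := sieve_ineq hex (L := 197 / 100 * l) (by linarith) hall
  have h3 := hl₀ l hm1
  have h4 := wt_le (L := 197 / 100 * l) (by linarith)
  have h5 := hL₀ (197 / 100 * l) (by linarith)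
  have h6 : ∑ R ∈ (PP (197 / 100 * l)).powerset, yy (197 / 100 * l) R * 8 ^ #R ≤
      197 / 100 * l * Real.exp (197 / 100 * l) * Real.exp (1 / 1000 * (197 / 100 * l)) :=
    h4.trans (mul_le_mul_of_nonneg_left h5 (by positivity))
  have h7 := pow_le_pow_left₀
    (sum_nonneg fun R _ => mul_nonneg (ESieve_yy_nonneg _ R) (by positivity)) h6 2
  have h8 : (#(PP l) : ℝ) ≤ Real.exp l + 1 := by
    have h9 : #(PP l) ≤ ⌊Real.exp l⌋₊ + 1 := by
      unfold PP
      exact (card_filter_le _ _).trans (card_range _).le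
    have h10 : (⌊Real.exp l⌋₊ : ℝ) ≤ Real.exp l := Nat.floor_le (Real.exp_pos l).le
    have h11 : (#(PP l) : ℝ) ≤ (⌊Real.exp l⌋₊ : ℝ) + 1 := by exact_mod_cast h9
    linarith
  have h12 : 1 ≤ Real.exp l := Real.one_le_exp hl0.le
  have h13 : (1 + 2 * (#(PP l) : ℝ)) ≤ 5 * Real.exp l := by linarith
  have h14 := mul_le_mul h13 h7 (sq_nonneg _) (by positivity)
  have h15 := ESieve_num hm3
  rw [Real.rpow_def_of_pos hzpos, ← hl] at hZ
  have h16 : (Z : ℝ) ≤ Z * TT l (197 / 100 * l) :=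
    le_mul_of_one_le_right (Nat.cast_nonneg Z) h3
  linarith

end Pool.Agent.MP_c7a479_co.Ex
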