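import Pool.Agent.MP_c7a479_co.EDefs

namespace Pool.Agent.MP_c7a479_co.Ex

open Finset
open scoped Classical

variable {K V : Type} [Field K] [Fintype K] [AddCommGroup V] [Module K V] [Fintype V]

omit [Field K] [AddCommGroup V] [Module K V] in
theorem EGreedy_avoid {J : Type} [Fintype J] (F : J → K → K → V)
    (h : Fintype.card J * Fintype.card K ^ 2 < Fintype.card V) :
    ∃ o, ∀ j x y, o ≠ F j x y := by
  by_contra! hc
  have hs : Function.Surjective fun z : J × K × K => F z.1 z.2.1 z.2.2 := fun o => by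
    obtain ⟨j, x, y, e⟩ := hc o
    exact ⟨(j, x, y), e.symm⟩
  have := Fintype.card_le_of_surjective _ hs
  simp only [Fintype.card_prod] at this
  rw [sq] at h
  omega

omit [Fintype K] [Fintype V] in
theorem EGreedy_solve {o d p : V} {t : K} (h : p = o + t • (d - o)) (hp : p ≠ d) :
    ∃ y : K, o = d + y • (p - d) := by
  have ht : 1 - t ≠ 0 := by
    intro h1
    have : t = 1 := (sub_eq_zero.1 h1).symm
    rw [this, one_smul] at h
    exact hp (by rw [h]; abel)
  refine ⟨(1 - t)⁻¹, ?_⟩
  have : p - d = (1 - t) • (o - d) := by rw [h]; module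
  rw [this, smul_smul, inv_mul_cancel₀ ht, one_smul]
  abel

theorem EGreedy_step {J : Type} [Fintype J] (f u : J → V) (d d' δ : V)
    (hind : ∀ x y : K, x • δ + y • (d' - d) = 0 → x = 0 ∧ y = 0)
    (hcard : (3 * Fintype.card J + 1) * Fintype.card K ^ 2 < Fintype.card V) :
    ∃ o, Ind3 K δ (d - o) (d' - o - δ) ∧ ∀ j, d ∉ Ln K (f j) (u j) → d' ∉ Ln K (f j) (u j) →
      ∀ s ∈ Gd K o δ (d - o) (d' - o - δ), s ∉ Ln K (f j) (u j) := by
  let F : Option (J ⊕ J ⊕ J) → K → K → V := fun z x y =>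
    match z with
    | none => d + x • (d' - d) + y • δ
    | some (.inl j) => f j + x • u j + y • δ
    | some (.inr (.inl j)) => d + x • (f j - d) + y • u j
    | some (.inr (.inr j)) => d' - δ + x • (f j - d') + y • u j
  obtain ⟨o, ho⟩ := EGreedy_avoid F (by
    simp only [Fintype.card_option, Fintype.card_sum]
    convert hcard using 3
    ring)
  refine ⟨o, fun a b c h => ?_, fun j h1 h2 s hs hs' => ?_⟩
  · by_cases hbc : b + c = 0
    · have hb : b = -c := eq_neg_of_add_eq_zero_left hbc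
      obtain ⟨e1, e2⟩ := hind (a - c) c (by rw [← h, hb]; module)
      refine ⟨?_, by rw [hb, e2, neg_zero], e2⟩
      rwa [e2, sub_zero] at e1
    · refine absurd ?_ (ho none ((b + c)⁻¹ * c) ((b + c)⁻¹ * (a - c)))
      have e : (b + c) • (o - d) = c • (d' - d) + (a - c) • δ := by
        rw [← sub_eq_zero, ← neg_eq_zero, ← h]; module
      have e2 : o - d = (b + c)⁻¹ • (c • (d' - d) + (a - c) • δ) := by
        rw [← e, smul_smul, inv_mul_cancel₀ hbc, one_smul]
      show o = d + ((b + c)⁻¹ * c) • (d' - d) + ((b + c)⁻¹ * (a - c)) • δ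
      rw [← sub_add_cancel o d, e2]
      module
  · obtain ⟨x, hx⟩ := hs'
    rcases hs with (⟨t, ht⟩ | ⟨t, ht⟩) | ⟨t, ht⟩
    · refine ho (some (.inl j)) x (-t) ?_
      show o = f j + x • u j + (-t) • δ
      rw [← hx, ht]; module
    · obtain ⟨y, hy⟩ := EGreedy_solve ht (fun e => h1 ⟨x, e ▸ hx⟩)
      refine ho (some (.inr (.inl j))) y (y * x) ?_
      show o = d + y • (f j - d) + (y * x) • u j
      rw [hy, hx]; module
    · have ht' : s = o + δ + t • (d' - (o + δ)) := by rw [ht, sub_sub]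
      obtain ⟨y, hy⟩ := EGreedy_solve ht' (fun e => h2 ⟨x, e ▸ hx⟩)
      refine ho (some (.inr (.inr j))) y (y * x) ?_
      show o = d' - δ + y • (f j - d') + (y * x) • u j
      rw [eq_sub_of_add_eq hy, hx]; module

omit [Fintype K] [Fintype V] in
theorem EGreedy_pt (p x : V) : x ∈ Ln K p 0 ↔ x = p := by
  simp [Ln]

/-- Greedy placement of the gadgets: each new base point avoids a union of planes
`{p + x • u + y • v}`, each with at most `|K| ^ 2` points. -/
theorem greedy {E C : Type} [Fintype E] [Fintype C] (d d' δ : E → V) (c : C → V)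
    (hd : Function.Injective d) (hd' : Function.Injective d') (hdd : ∀ e e', d e ≠ d' e')
    (hc : ∀ e i, d e ≠ c i) (hc' : ∀ e i, d' e ≠ c i)
    (hind : ∀ e, ∀ x y : K, x • δ e + y • (d' e - d e) = 0 → x = 0 ∧ y = 0)
    (hcard : (3 * (Fintype.card C + 5 * Fintype.card E) + 1) * Fintype.card K ^ 2 <
      Fintype.card V) :
    ∃ o : E → V, (∀ e, Ind3 K (δ e) (d e - o e) (d' e - o e - δ e)) ∧
      (∀ e i, c i ∉ Gd K (o e) (δ e) (d e - o e) (d' e - o e - δ e)) ∧
      ∀ e e', e ≠ e' → ∀ s ∈ Gd K (o e) (δ e) (d e - o e) (d' e - o e - δ e),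
        s ∉ Gd K (o e') (δ e') (d e' - o e') (d' e' - o e' - δ e') := by
  let G : V → E → Set V := fun o e => Gd K o (δ e) (d e - o) (d' e - o - δ e)
  let P : V → E → Prop := fun o e => Ind3 K (δ e) (d e - o) (d' e - o - δ e) ∧
    (∀ i, c i ∉ G o e) ∧ ∀ e', e' ≠ e → d e' ∉ G o e ∧ d' e' ∉ G o e
  have key : ∀ s : Finset E, ∃ o : E → V, (∀ e ∈ s, P (o e) e) ∧
      ∀ e ∈ s, ∀ e' ∈ s, e ≠ e' → ∀ x ∈ G (o e) e, x ∉ G (o e') e' := by
    intro s
    induction s using Finset.induction_on with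
    | empty => exact ⟨fun _ => 0, by simp, by simp⟩
    | insert e s he ih =>
      obtain ⟨o, h1, h2⟩ := ih
      let f : C ⊕ E ⊕ E ⊕ E ⊕ E ⊕ E → V :=
        Sum.elim c (Sum.elim d (Sum.elim d' (Sum.elim o (Sum.elim o fun e => o e + δ e))))
      let u : C ⊕ E ⊕ E ⊕ E ⊕ E ⊕ E → V :=
        Sum.elim 0 (Sum.elim 0 (Sum.elim 0 (Sum.elim δ
          (Sum.elim (fun e => d e - o e) fun e => d' e - o e - δ e))))
      obtain ⟨o', k1, k2⟩ := EGreedy_step (K := K) f u (d e) (d' e) (δ e) (hind e) (by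
        simp only [Fintype.card_sum]
        convert hcard using 4
        ring)
      have kp : ∀ j, u j = 0 → d e ≠ f j → d' e ≠ f j → f j ∉ G o' e := by
        intro j hj a1 a2 a3
        refine k2 j ?_ ?_ _ a3 ?_ <;> rw [hj, EGreedy_pt]
        · exact a1
        · exact a2
      have hP : P o' e := by
        refine ⟨k1, fun i => kp (.inl i) rfl (hc e i) (hc' e i), fun e' hne => ⟨?_, ?_⟩⟩
        · exact kp (.inr (.inl e')) rfl (fun h => hne (hd h).symm) (hdd e' e).symm
        · exact kp (.inr (.inr (.inl e'))) rfl (hdd e e') fun h => hne (hd' h).symm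
      have hD : ∀ e' ∈ s, ∀ x ∈ G o' e, x ∉ G (o e') e' := by
        intro e' he' x hx hx'
        have hne : e ≠ e' := fun h => he (h ▸ he')
        obtain ⟨n1, n2⟩ := (h1 e' he').2.2 e hne
        rcases hx' with (hx' | hx') | hx'
        · exact k2 (.inr (.inr (.inr (.inl e')))) (fun h => n1 (Or.inl (Or.inl h)))
            (fun h => n2 (Or.inl (Or.inl h))) x hx hx'
        · exact k2 (.inr (.inr (.inr (.inr (.inl e'))))) (fun h => n1 (Or.inl (Or.inr h)))
            (fun h => n2 (Or.inl (Or.inr h))) x hx hx'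
        · exact k2 (.inr (.inr (.inr (.inr (.inr e'))))) (fun h => n1 (Or.inr h))
            (fun h => n2 (Or.inr h)) x hx hx'
      have hu : ∀ e' ∈ s, Function.update o e o' e' = o e' := fun e' he' =>
        Function.update_of_ne (fun h : e' = e => he (h ▸ he')) _ _
      refine ⟨Function.update o e o', fun a ha => ?_, fun a ha b hb hab => ?_⟩
      · rcases mem_insert.1 ha with rfl | ha
        · rwa [Function.update_self]
        · rw [hu a ha]; exact h1 a ha
      · rcases mem_insert.1 ha with ha' | ha' <;> rcases mem_insert.1 hb with hb' | hb'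
        · exact absurd (ha'.trans hb'.symm) hab
        · rw [ha', Function.update_self, hu b hb']; exact hD b hb'
        · rw [hb', Function.update_self, hu a ha']
          exact fun x hx hx' => hD a ha' x hx' hx
        · rw [hu a ha', hu b hb']; exact h2 a ha' b hb' hab
  obtain ⟨o, h1, h2⟩ := key univ
  exact ⟨o, fun e => (h1 e (mem_univ _)).1, fun e => (h1 e (mem_univ _)).2.1,
    fun e e' h => h2 e (mem_univ _) e' (mem_univ _) h⟩

end Pool.Agent.MP_c7a479_co.Ex
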