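import Pool.Agent.MP_c7a479_co.EGad
import Pool.Agent.MP_c7a479_co.EGreedy

namespace Pool.Agent.MP_c7a479_co.Ex

open Finset
open scoped Classical

/-- Increasing pairs of rows. -/
abbrev EUnit_E (k : ℕ) : Type := {p : Fin k × Fin k // p.1 < p.2}

/-- The abstract form: templates `a i • s`, perturbed on disjoint supports. -/
theorem EUnit_abs {K V : Type} [Field K] [AddCommGroup V] [Module K V] [Fintype V] {k : ℕ}
    (a : Fin k → K) (ha : Function.Injective a) (hap : ∀ i j l, a i + a j = 2 * a l → i = j)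
    (c P P' : Fin k → V) (hc : Function.Injective c) (G : EUnit_E k → Set V)
    (Y Z : EUnit_E k → V → V) (hcG : ∀ e i, c i ∉ G e)
    (hG : ∀ e e', e ≠ e' → ∀ s ∈ G e, s ∉ G e')
    (hY : ∀ e, ∀ τ : K, 1 - 2 * τ * (a e.1.1 - a e.1.2) ≠ 0 → ∀ v ∈ G e, ∃ s ∈ G e,
      s + τ • Y e s = v)
    (hZ : ∀ e, ∀ τ : K, ∀ v ∈ G e, ∃ s ∈ G e, s + τ • Z e s = v)
    (hS : ∀ e v, (v ∈ G e ∧ (a e.1.1 - a e.1.2) • v ≠ P e.1.1 - P e.1.2 ∧
        (a e.1.1 - a e.1.2) • v ≠ P' e.1.1 - P' e.1.2) ∨ v = c e.1.1 ∨ v = c e.1.2 →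
      ∃ s ∈ G e, s + (a e.1.1 - a e.1.2)⁻¹ • (Y e s - Z e s) = v) :
    Qdm (Fin k) V Unit := by
  let pe : EUnit_E k → V → Fin k → V := fun e s i =>
    if i = e.1.1 then Y e s else if i = e.1.2 then Z e s else 0
  let pert : V → Fin k → V := fun s i => ∑ e, if s ∈ G e then pe e s i else 0
  have hp1 : ∀ e s, s ∈ G e → ∀ i, pert s i = pe e s i := by
    intro e s hs i
    simp only [pert]
    rw [sum_eq_single e]
    · rw [if_pos hs]
    · intro e' _ he'
      rw [if_neg (hG e e' he'.symm s hs)]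
    · simp
  have hp0 : ∀ s, (∀ e, s ∉ G e) → ∀ i, pert s i = 0 := by
    intro s hs i
    exact sum_eq_zero fun e _ => if_neg (hs e)
  let x : V ⊕ Bool → Fin k → V ⊕ Unit := fun y i =>
    match y with
    | .inl s => if s = c i then .inr () else .inl (a i • s + pert s i)
    | .inr b => .inl (if b then P i else P' i)
  have key : ∀ i j, i < j → ∀ g, ∃ y u w, x y i = .inl u ∧ x y j = .inl w ∧ u - w = g := by
    intro i j hij g
    have hA : a i - a j ≠ 0 := sub_ne_zero.2 fun h => hij.ne (ha h)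
    set v := (a i - a j)⁻¹ • g with hv
    have hg : g = (a i - a j) • v := by rw [hv, smul_inv_smul₀ hA]
    have fin : ∀ s, s ≠ c i → s ≠ c j → s + (a i - a j)⁻¹ • (pert s i - pert s j) = v →
        ∃ y u w, x y i = .inl u ∧ x y j = .inl w ∧ u - w = g := by
      intro s h1 h2 h3
      refine ⟨.inl s, _, _, if_neg h1, if_neg h2, ?_⟩
      rw [hg, ← h3, smul_add, smul_inv_smul₀ hA, sub_smul]
      abel
    by_cases h1 : g = P i - P j
    · exact ⟨.inr true, _, _, rfl, rfl, h1.symm⟩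
    by_cases h2 : g = P' i - P' j
    · exact ⟨.inr false, _, _, rfl, rfl, h2.symm⟩
    let e0 : EUnit_E k := ⟨(i, j), hij⟩
    by_cases h3 : v ∈ G e0 ∨ v = c i ∨ v = c j
    · obtain ⟨s, hs, hs'⟩ := hS e0 v (by
        rcases h3 with h3 | h3
        · exact Or.inl ⟨h3, by rw [← hg]; exact h1, by rw [← hg]; exact h2⟩
        · exact Or.inr h3)
      refine fin s (fun h => hcG e0 i (h ▸ hs)) (fun h => hcG e0 j (h ▸ hs)) ?_
      rw [hp1 e0 s hs, hp1 e0 s hs]
      simpa [pe, e0, hij.ne'] using hs'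
    push Not at h3
    by_cases h4 : ∃ e, v ∈ G e
    · obtain ⟨e, he⟩ := h4
      have hne : e ≠ e0 := fun h => h3.1 (h ▸ he)
      obtain ⟨⟨p, q⟩, hpq⟩ := e
      have hpq' : p < q := hpq
      have fin' : ∀ s ∈ G ⟨(p, q), hpq⟩, s + (a i - a j)⁻¹ •
          (pe ⟨(p, q), hpq⟩ s i - pe ⟨(p, q), hpq⟩ s j) = v →
          ∃ y u w, x y i = .inl u ∧ x y j = .inl w ∧ u - w = g := by
        intro s hs h
        refine fin s (fun h => hcG _ i (h ▸ hs)) (fun h => hcG _ j (h ▸ hs)) ?_
        rw [hp1 _ s hs, hp1 _ s hs]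
        exact h
      by_cases hip : i = p
      · subst hip
        have hjq : j ≠ q := fun h => hne (by subst h; rfl)
        obtain ⟨s, hs, hs'⟩ := hY ⟨(i, q), hpq⟩ (a i - a j)⁻¹ (by
          intro h
          apply hij.ne (hap i j q ?_)
          field_simp at h
          linear_combination -h) v he
        exact fin' s hs (by simpa [pe, hij.ne', hjq] using hs')
      by_cases hjp : j = p
      · subst hjp
        have hiq : i ≠ q := (hij.trans hpq').ne
        obtain ⟨s, hs, hs'⟩ := hY ⟨(j, q), hpq⟩ (-(a i - a j)⁻¹) (by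
          intro h
          apply hij.ne (hap i j q ?_)
          field_simp at h
          linear_combination h) v he
        exact fin' s hs (by simpa [pe, hip, hiq] using hs')
      obtain ⟨s, hs, hs'⟩ := hZ ⟨(p, q), hpq⟩ ((a i - a j)⁻¹ *
        ((if i = q then 1 else 0) - if j = q then 1 else 0)) v he
      refine fin' s hs ?_
      rw [← hs', mul_smul, sub_smul]
      simp only [pe, if_neg hip, if_neg hjp, ite_smul, one_smul, zero_smul]
    · push Not at h4
      exact fin v h3.2.1 h3.2.2 (by rw [hp0 v h4, hp0 v h4]; simp)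
  refine ⟨V ⊕ Bool, inferInstance, x, by simp, fun i j hij g => ?_, fun i j hij h => ?_⟩
  · rcases lt_or_gt_of_ne hij with h | h
    · exact key i j h g
    · obtain ⟨y, u, w, h1, h2, h3⟩ := key j i h (-g)
      exact ⟨y, w, u, h2, h1, by rw [← neg_sub, h3, neg_neg]⟩
  · exact ⟨.inl (c j), _, if_neg fun h => hij (hc h).symm, if_pos rfl⟩

theorem EUnit_pair {K : Type} [Field K] {k : ℕ} {a : Fin k → K} (ha : Function.Injective a)
    (e e' : EUnit_E k) (h1 : a e.1.1 + a e.1.2 = a e'.1.1 + a e'.1.2)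
    (h2 : a e.1.1 ^ 2 + a e.1.1 * a e.1.2 + a e.1.2 ^ 2 =
      a e'.1.1 ^ 2 + a e'.1.1 * a e'.1.2 + a e'.1.2 ^ 2) : e = e' := by
  obtain ⟨⟨j, l⟩, h⟩ := e
  obtain ⟨⟨j', l'⟩, h'⟩ := e'
  simp only at h h' h1 h2
  have h3 : (a j - a j') * (a j - a l') = 0 := by
    have : a l = a j' + a l' - a j := by linear_combination h1
    rw [this] at h2
    linear_combination h2
  rcases mul_eq_zero.1 h3 with h4 | h4
  · obtain rfl : j = j' := ha (sub_eq_zero.1 h4)
    obtain rfl : l = l' := ha (add_left_cancel h1)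
    rfl
  · obtain rfl : j = l' := ha (sub_eq_zero.1 h4)
    obtain rfl : l = j' := ha (by linear_combination h1)
    exact absurd (h.trans h') (lt_irrefl _)

theorem EUnit_card (k : ℕ) : 2 * Fintype.card (EUnit_E k) ≤ k ^ 2 := by
  have h : Function.Injective fun y : EUnit_E k × Bool =>
      if y.2 then y.1.1 else y.1.1.swap := by
    rintro ⟨⟨⟨j, l⟩, h⟩, b⟩ ⟨⟨⟨j', l'⟩, h'⟩, b'⟩ hh
    simp only at h h'
    cases b <;> cases b' <;> simp at hh ⊢
    · exact ⟨hh.2, hh.1⟩
    · obtain ⟨rfl, rfl⟩ := hh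
      exact absurd (h.trans h') (lt_irrefl _)
    · obtain ⟨rfl, rfl⟩ := hh
      exact absurd (h.trans h') (lt_irrefl _)
    · exact hh
  have := Fintype.card_le_of_injective _ h
  simp only [Fintype.card_prod, Fintype.card_bool, Fintype.card_fin] at this
  nlinarith

/-- One new symbol on `K ^ 4`. -/
theorem qdm_unit {K : Type} [Field K] [Fintype K] {k : ℕ} (a : Fin k → K)
    (ha : Function.Injective a) (hap : ∀ i j l, a i + a j = 2 * a l → i = j)
    (hq : 5 * k < Fintype.card K) : Qdm (Fin k) (Fin 4 → K) Unit := by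
  let c : Fin k → Fin 4 → K := fun i => ![a i, 0, 0, 0]
  let d : EUnit_E k → Fin 4 → K := fun e =>
    ![0, a e.1.1 + a e.1.2, a e.1.1 ^ 2 + a e.1.1 * a e.1.2 + a e.1.2 ^ 2, 1]
  let d' : EUnit_E k → Fin 4 → K := fun e => ![a e.1.1 + a e.1.2, -(a e.1.1 + a e.1.2),
    -(a e.1.1 ^ 2 + a e.1.1 * a e.1.2 + a e.1.2 ^ 2), -1]
  let δ : EUnit_E k → Fin 4 → K := fun e => c e.1.1 - d e
  have hA : ∀ e : EUnit_E k, a e.1.1 - a e.1.2 ≠ 0 := fun e =>
    sub_ne_zero.2 fun h => e.2.ne (ha h)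
  obtain ⟨o, h1, h2, h3⟩ := greedy (K := K) d d' δ c
    (fun e e' h => EUnit_pair ha e e' (congrFun h 1) (congrFun h 2))
    (fun e e' h => EUnit_pair ha e e' (congrFun h 0) (neg_injective (congrFun h 2)))
    (fun e e' h => by
      have h0 : (0 : K) = a e'.1.1 + a e'.1.2 := congrFun h 0
      have h3 : (1 : K) = -1 := congrFun h 3
      exact e'.2.ne (hap _ _ e'.1.1 (by linear_combination -h0 - a e'.1.1 * h3)))
    (fun e i h => one_ne_zero (α := K) (congrFun h 3))
    (fun e i h => neg_ne_zero.2 (one_ne_zero (α := K)) (congrFun h 3))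
    (fun e x y h => by
      have h0 : x * (a e.1.1 - 0) + y * (a e.1.1 + a e.1.2 - 0) = 0 := congrFun h 0
      have h3 : x * (0 - 1) + y * (-1 - 1) = 0 := congrFun h 3
      have hy : y = 0 := by
        apply (mul_eq_zero.1 (?_ : y * (a e.1.1 - a e.1.2) = 0)).resolve_right (hA e)
        linear_combination -h0 - a e.1.1 * h3
      refine ⟨?_, hy⟩
      rw [hy] at h3
      linear_combination -h3)
    (by
      have h := EUnit_card k
      have h2 : 1 < Fintype.card K := Fintype.one_lt_card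
      simp only [Fintype.card_fin, Fintype.card_fun]
      set q := Fintype.card K
      have h4 : 3 * (k + 5 * Fintype.card (EUnit_E k)) + 1 < q ^ 2 := by
        rcases Nat.eq_zero_or_pos k with rfl | hk
        · nlinarith
        · nlinarith
      calc _ < q ^ 2 * q ^ 2 := Nat.mul_lt_mul_of_pos_right h4 (by positivity)
        _ = q ^ 4 := by ring)
  choose Y Z hY hZ hS using fun e => gadget (h1 e) (hA e)
  refine EUnit_abs a ha hap c (fun i => ![0, a i ^ 2, a i ^ 3, a i])
    (fun i => ![a i ^ 2, -a i ^ 2, -a i ^ 3, -a i]) (fun i j h => ha (congrFun h 0)) _ Y Z h2 h3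
    hY hZ fun e v hv => hS e v ?_
  rcases hv with ⟨h4, h5, h6⟩ | h4 | h4
  · refine Or.inl ⟨h4, fun h => h5 ?_, fun h => h6 ?_⟩
    · rw [h, add_sub_cancel]
      funext r
      fin_cases r <;> simp [d] <;> ring
    · rw [h, show o e + δ e + (d' e - o e - δ e) = d' e by abel]
      funext r
      fin_cases r <;> simp [d'] <;> ring
  · refine Or.inr (Or.inl ?_)
    rw [h4]
    simp only [δ]
    abel
  · refine Or.inr (Or.inr ?_)
    rw [h4, show o e + (d' e - o e - δ e) = d' e - δ e by abel]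
    funext r
    fin_cases r <;> simp [c, d, d', δ]

end Pool.Agent.MP_c7a479_co.Ex
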