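import Pool.Agent.MP_c7a479_co.EDefs

namespace Pool.Agent.MP_c7a479_co.Ex

open Finset
open scoped Classical

variable {K V : Type} [Field K] [AddCommGroup V] [Module K V]

/-- The switching gadget.  Take `Y s = A • (o + (o + δ) - 2 • s)` on the first line and `0`
elsewhere; `Z s = -A • w` on the second line, `-A • w'` on the third line and `0` elsewhere. -/
theorem gadget {o δ w w' : V} (h : Ind3 K δ w w') {A : K} (hA : A ≠ 0) :
    ∃ Y Z : V → V,
      (∀ τ : K, 1 - 2 * τ * A ≠ 0 → ∀ v ∈ Gd K o δ w w', ∃ s ∈ Gd K o δ w w', s + τ • Y s = v) ∧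
      (∀ τ : K, ∀ v ∈ Gd K o δ w w', ∃ s ∈ Gd K o δ w w', s + τ • Z s = v) ∧
      ∀ v, (v ∈ Gd K o δ w w' ∧ v ≠ o + w ∧ v ≠ o + δ + w') ∨ v = o + δ + w ∨ v = o + w' →
        ∃ s ∈ Gd K o δ w w', s + A⁻¹ • (Y s - Z s) = v := by
  obtain ⟨Y, hY⟩ : ∃ Y : V → V, ∀ s, Y s =
    if s ∈ Ln K o δ then A • (o + (o + δ) - (2 : K) • s) else 0 := ⟨_, fun _ => rfl⟩
  obtain ⟨Z, hZ⟩ : ∃ Z : V → V, ∀ s, Z s = if s ∈ Ln K o w then -A • w else
    if s ∈ Ln K (o + δ) w' then -A • w' else 0 := ⟨_, fun _ => rfl⟩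
  have m1 : ∀ t : K, o + t • δ ∈ Gd K o δ w w' := fun t => Or.inl (Or.inl ⟨t, rfl⟩)
  have m2 : ∀ t : K, o + t • w ∈ Gd K o δ w w' := fun t => Or.inl (Or.inr ⟨t, rfl⟩)
  have m3 : ∀ t : K, o + δ + t • w' ∈ Gd K o δ w w' := fun t => Or.inr ⟨t, rfl⟩
  have d12 : ∀ t u : K, o + t • δ = o + u • w → t = 0 ∧ u = 0 := fun t u e => by
    have := h t (-u) 0 (by linear_combination (norm := module) e)
    exact ⟨this.1, neg_eq_zero.1 this.2.1⟩
  have d13 : ∀ t u : K, o + t • δ = o + δ + u • w' → t = 1 ∧ u = 0 := fun t u e => by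
    have := h (t - 1) 0 (-u) (by linear_combination (norm := module) e)
    exact ⟨sub_eq_zero.1 this.1, neg_eq_zero.1 this.2.2⟩
  have Y1 : ∀ t : K, Y (o + t • δ) = (A * (1 - 2 * t)) • δ := fun t => by
    rw [hY, if_pos ⟨t, rfl⟩]
    module
  have Y2 : ∀ t : K, t ≠ 0 → Y (o + t • w) = 0 := fun t ht => by
    rw [hY, if_neg fun ⟨u, e⟩ => ht (d12 u t e.symm).2]
  have Y3 : ∀ t : K, t ≠ 0 → Y (o + δ + t • w') = 0 := fun t ht => by
    rw [hY, if_neg fun ⟨u, e⟩ => ht (d13 u t e.symm).2]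
  have Z1 : ∀ t : K, t ≠ 0 → t ≠ 1 → Z (o + t • δ) = 0 := fun t h0 h1 => by
    rw [hZ, if_neg fun ⟨u, e⟩ => h0 (d12 t u e).1, if_neg fun ⟨u, e⟩ => h1 (d13 t u e).1]
  have Z2 : ∀ t : K, Z (o + t • w) = -A • w := fun t => by rw [hZ, if_pos ⟨t, rfl⟩]
  have Z3 : ∀ t : K, Z (o + δ + t • w') = -A • w' := fun t => by
    rw [hZ, if_neg fun ⟨u, e⟩ => one_ne_zero (h 1 (-u) t (by linear_combination (norm := module) e)).1,
      if_pos ⟨t, rfl⟩]
  have iA : A⁻¹ * A = 1 := inv_mul_cancel₀ hA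
  have p2 : ∀ u : K, u ≠ 1 → ∃ s ∈ Gd K o δ w w', s + A⁻¹ • (Y s - Z s) = o + u • w :=
    fun u hu => ⟨_, m2 (u - 1), by
      rw [Y2 _ (sub_ne_zero.2 hu), Z2]
      linear_combination (norm := module) iA • w⟩
  have p3 : ∀ u : K, u ≠ 1 → ∃ s ∈ Gd K o δ w w', s + A⁻¹ • (Y s - Z s) = o + δ + u • w' :=
    fun u hu => ⟨_, m3 (u - 1), by
      rw [Y3 _ (sub_ne_zero.2 hu), Z3]
      linear_combination (norm := module) iA • w'⟩
  refine ⟨Y, Z, fun τ hτ v hv => ?_, fun τ v hv => ?_, ?_⟩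
  · by_cases h1 : v ∈ Ln K o δ
    · obtain ⟨u, rfl⟩ := h1
      refine ⟨_, m1 ((u - τ * A) / (1 - 2 * τ * A)), ?_⟩
      rw [Y1]
      linear_combination (norm := module) div_mul_cancel₀ (u - τ * A) hτ • δ
    · exact ⟨v, hv, by rw [hY, if_neg h1, smul_zero, add_zero]⟩
  · by_cases h2 : v ∈ Ln K o w
    · obtain ⟨u, rfl⟩ := h2
      refine ⟨_, m2 (u + τ * A), ?_⟩
      rw [Z2]
      module
    by_cases h3 : v ∈ Ln K (o + δ) w'
    · obtain ⟨u, rfl⟩ := h3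
      refine ⟨_, m3 (u + τ * A), ?_⟩
      rw [Z3]
      module
    · exact ⟨v, hv, by rw [hZ, if_neg h2, if_neg h3, smul_zero, add_zero]⟩
  · rintro v (⟨(⟨u, rfl⟩ | ⟨u, rfl⟩) | ⟨u, rfl⟩, a, b⟩ | rfl | rfl)
    · by_cases h0 : u = 0
      · simpa only [h0, zero_smul] using p2 0 zero_ne_one
      by_cases h1 : u = 1
      · simpa only [h1, zero_smul, one_smul, add_zero] using p3 0 zero_ne_one
      refine ⟨_, m1 (1 - u), ?_⟩
      rw [Y1, Z1 _ (sub_ne_zero.2 (Ne.symm h1)) fun e => h0 (sub_eq_self.1 e)]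
      linear_combination (norm := module) (1 - 2 * (1 - u)) • iA • δ
    · exact p2 u fun e => a (by rw [e, one_smul])
    · exact p3 u fun e => b (by rw [e, one_smul])
    · have y := Y1 0
      have z := Z2 0
      rw [zero_smul, add_zero] at y z
      refine ⟨o, by simpa using m1 0, ?_⟩
      rw [y, z]
      linear_combination (norm := module) iA • δ + iA • w
    · have y := Y1 1
      have z := Z3 0
      rw [one_smul] at y
      rw [zero_smul, add_zero] at z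
      refine ⟨o + δ, by simpa using m1 1, ?_⟩
      rw [y, z]
      linear_combination (norm := module) iA • w' - iA • δ

end Pool.Agent.MP_c7a479_co.Ex
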