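import Pool.Agent.MP_c7a479_co.EDefs

namespace Pool.Agent.MP_c7a479_co.Ex

open Finset
open scoped Classical

section Aux

open ArithmeticFunction

theorem EMert_log_eq (N : ℕ) : ∑ n ∈ Icc 1 N, Real.log n =
    ∑ d ∈ Icc 1 N, vonMangoldt d * ((N / d : ℕ) : ℝ) := by
  induction N with
  | zero => simp
  | succ N ih =>
    rw [sum_Icc_succ_top (by omega), ih]
    have h1 : ∑ d ∈ Icc 1 (N + 1), vonMangoldt d * (((N + 1) / d : ℕ) : ℝ) =
        ∑ d ∈ Icc 1 (N + 1), vonMangoldt d * ((N / d : ℕ) : ℝ) +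
          ∑ d ∈ Icc 1 (N + 1), if d ∣ N + 1 then vonMangoldt d else 0 := by
      rw [← sum_add_distrib]
      refine sum_congr rfl fun d _ => ?_
      rw [Nat.succ_div]
      split_ifs <;> push_cast <;> ring
    rw [h1, sum_Icc_succ_top (by omega) (fun d => vonMangoldt d * ((N / d : ℕ) : ℝ)),
      Nat.div_eq_of_lt (Nat.lt_succ_self N), ← sum_filter, ← vonMangoldt_sum]
    simp only [Nat.cast_zero, mul_zero, add_zero]
    congr 1

theorem EMert_log_bounds (N : ℕ) : N * Real.log N - N ≤ ∑ n ∈ Icc 1 N, Real.log n ∧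
    ∑ n ∈ Icc 1 N, Real.log n ≤ N * Real.log N := by
  constructor
  · induction N with
    | zero => simp
    | succ N ih =>
      rw [sum_Icc_succ_top (by omega)]
      rcases Nat.eq_zero_or_pos N with rfl | hN
      · simp
      have hN' : (0 : ℝ) < N := by exact_mod_cast hN
      have h1 : Real.log ((N + 1) / N) ≤ (N + 1) / N - 1 :=
        Real.log_le_sub_one_of_pos (by positivity)
      rw [Real.log_div (by positivity) hN'.ne'] at h1
      have h2 : (N : ℝ) * (Real.log (N + 1) - Real.log N) ≤ 1 := by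
        calc (N : ℝ) * (Real.log (N + 1) - Real.log N) ≤ N * ((N + 1) / N - 1) := by gcongr
          _ = 1 := by field_simp; ring
      push_cast
      nlinarith
  · calc ∑ n ∈ Icc 1 N, Real.log n ≤ ∑ n ∈ Icc 1 N, Real.log N := by
          refine sum_le_sum fun n hn => ?_
          rw [mem_Icc] at hn
          exact Real.log_le_log (by exact_mod_cast hn.1) (by exact_mod_cast hn.2)
      _ = N * Real.log N := by simp

theorem EMert_vm {N : ℕ} (hN : 1 ≤ N) :
    Real.log N - 1 ≤ ∑ n ∈ Icc 1 N, vonMangoldt n / n ∧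
      ∑ n ∈ Icc 1 N, vonMangoldt n / n ≤ Real.log N + (Real.log 4 + 4) := by
  have hN' : (0 : ℝ) < N := by exact_mod_cast hN
  obtain ⟨h1, h2⟩ := EMert_log_bounds N
  rw [EMert_log_eq] at h1 h2
  have h3 : ∑ d ∈ Icc 1 N, vonMangoldt d * ((N / d : ℕ) : ℝ) ≤
      N * ∑ n ∈ Icc 1 N, vonMangoldt n / n := by
    rw [mul_sum]
    refine sum_le_sum fun d _ => ?_
    have := (Nat.cast_div_le (α := ℝ) (m := N) (n := d))
    calc vonMangoldt d * ((N / d : ℕ) : ℝ) ≤ vonMangoldt d * (N / d) := by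
          gcongr
      _ = _ := by ring
  have h4 : N * ∑ n ∈ Icc 1 N, vonMangoldt n / n ≤
      ∑ d ∈ Icc 1 N, vonMangoldt d * ((N / d : ℕ) : ℝ) + ∑ d ∈ Icc 1 N, vonMangoldt d := by
    rw [mul_sum, ← sum_add_distrib]
    refine sum_le_sum fun d hd => ?_
    have h5 : (N : ℝ) / d ≤ ((N / d : ℕ) : ℝ) + 1 := by
      rw [← Nat.floor_div_eq_div (K := ℝ)]
      exact (Nat.lt_floor_add_one _).le
    calc (N : ℝ) * (vonMangoldt d / d) = vonMangoldt d * (N / d) := by ring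
      _ ≤ vonMangoldt d * (((N / d : ℕ) : ℝ) + 1) := by gcongr
      _ = _ := by ring
  have h6 : ∑ d ∈ Icc 1 N, vonMangoldt d ≤ (Real.log 4 + 4) * N := by
    have := Chebyshev.psi_le_const_mul_self hN'.le
    rw [Chebyshev.psi_eq_sum_Icc, Nat.floor_natCast] at this
    refine le_trans (sum_le_sum_of_subset_of_nonneg ?_ fun _ _ _ => vonMangoldt_nonneg) this
    exact Icc_subset_Icc (by omega) le_rfl
  constructor
  · exact le_of_mul_le_mul_left (by nlinarith) hN'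
  · exact le_of_mul_le_mul_left (by nlinarith) hN'

theorem EMert_nonprime : Summable fun n : ℕ => (if n.Prime then 0 else vonMangoldt n) / (n : ℝ) := by
  refine (vonMangoldt.summable_residueClass_non_primes_div (0 : ZMod 1)).congr fun n => ?_
  rw [vonMangoldt.residueClass, Set.indicator_of_mem]
  exact Subsingleton.elim (α := ZMod 1) _ _

theorem EMert_prime : ∃ C : ℝ, 0 < C ∧ ∀ y : ℝ, 0 ≤ y →
    |∑ p ∈ PP y, Real.log p / p - y| ≤ C := by
  have hn : ∀ n : ℕ, 0 ≤ (if n.Prime then 0 else vonMangoldt n) / (n : ℝ) := fun n => by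
    refine div_nonneg ?_ n.cast_nonneg
    split_ifs
    · exact le_rfl
    · exact vonMangoldt_nonneg
  have hB : 0 ≤ ∑' n : ℕ, (if n.Prime then 0 else vonMangoldt n) / (n : ℝ) := tsum_nonneg hn
  refine ⟨∑' n : ℕ, (if n.Prime then 0 else vonMangoldt n) / (n : ℝ) + 10, by linarith,
    fun y hy => ?_⟩
  have h1 : 1 ≤ ⌊Real.exp y⌋₊ := Nat.le_floor (by exact_mod_cast Real.one_le_exp hy)
  have h1' : (1 : ℝ) ≤ ⌊Real.exp y⌋₊ := by exact_mod_cast h1
  obtain ⟨h2, h3⟩ := EMert_vm h1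
  have h4 : Real.log ⌊Real.exp y⌋₊ ≤ y :=
    (Real.log_le_iff_le_exp (by linarith)).2 (Nat.floor_le (Real.exp_pos y).le)
  have h5 : y ≤ Real.log 2 + Real.log ⌊Real.exp y⌋₊ := by
    rw [← Real.log_mul (by norm_num) (by linarith), Real.le_log_iff_exp_le (by linarith)]
    linarith [Nat.lt_floor_add_one (Real.exp y)]
  have h6 : Real.log 2 ≤ 1 := by
    linarith [Real.log_le_sub_one_of_pos (show (0 : ℝ) < 2 by norm_num)]
  have h7 : Real.log 4 ≤ 3 := by
    linarith [Real.log_le_sub_one_of_pos (show (0 : ℝ) < 4 by norm_num)]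
  have e : ∑ n ∈ Icc 1 ⌊Real.exp y⌋₊, vonMangoldt n / n = ∑ p ∈ PP y, Real.log p / p +
      ∑ n ∈ Icc 1 ⌊Real.exp y⌋₊, (if n.Prime then 0 else vonMangoldt n) / (n : ℝ) := by
    have e1 : PP y = (Icc 1 ⌊Real.exp y⌋₊).filter Nat.Prime := by
      ext p
      rw [PP, mem_filter, mem_filter, mem_range, mem_Icc]
      exact and_congr_left fun hp => ⟨fun h => ⟨hp.pos, by omega⟩, fun h => by omega⟩
    rw [e1, sum_filter, ← sum_add_distrib]
    refine sum_congr rfl fun n _ => ?_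
    split_ifs with h
    · rw [vonMangoldt_apply_prime h, zero_div, add_zero]
    · rw [zero_add]
  have h8 := EMert_nonprime.sum_le_tsum (Icc 1 ⌊Real.exp y⌋₊) fun n _ => hn n
  have h9 := sum_nonneg (s := Icc 1 ⌊Real.exp y⌋₊) fun n _ => hn n
  rw [abs_le]
  constructor <;> linarith

end Aux

theorem EMert_sq : ∃ C : ℝ, 0 < C ∧ ∀ s : Finset ℕ, ∑ n ∈ s, Real.log n / (n : ℝ) ^ 2 ≤ C := by
  have hn : ∀ n : ℕ, 0 ≤ Real.log n / (n : ℝ) ^ 2 := fun n =>
    div_nonneg (Real.log_natCast_nonneg n) (sq_nonneg _)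
  have hs : Summable fun n : ℕ => Real.log n / (n : ℝ) ^ 2 := by
    refine Summable.of_nonneg_of_le hn (fun n => ?_)
      ((Real.summable_one_div_nat_rpow.2 (show (1 : ℝ) < 3 / 2 by norm_num)).mul_left 2)
    rcases Nat.eq_zero_or_pos n with rfl | h
    · simp
    have h0 : (0 : ℝ) < n := by exact_mod_cast h
    have h1 := Real.log_le_rpow_div h0.le (show (0 : ℝ) < 1 / 2 by norm_num)
    have h2 : (n : ℝ) ^ 2 = (n : ℝ) ^ (1 / 2 : ℝ) * (n : ℝ) ^ (3 / 2 : ℝ) := by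
      rw [← Real.rpow_add h0, ← Real.rpow_natCast]
      norm_num
    have h3 := Real.rpow_pos_of_pos h0 (1 / 2)
    have h4 := Real.rpow_pos_of_pos h0 (3 / 2)
    rw [h2, mul_one_div, div_le_div_iff₀ (mul_pos h3 h4) h4, ← mul_assoc]
    exact mul_le_mul_of_nonneg_right (by linarith) h4.le
  have hB : 0 ≤ ∑' n : ℕ, Real.log n / (n : ℝ) ^ 2 := tsum_nonneg hn
  exact ⟨∑' n : ℕ, Real.log n / (n : ℝ) ^ 2 + 1, by linarith,
    fun s => (hs.sum_le_tsum s fun n _ => hn n).trans (by linarith)⟩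

theorem EMert_hh {p : ℕ} (hp : p.Prime) :
    2 / (p : ℝ) ≤ hh p ∧ hh p ≤ 2 / (p : ℝ) + 12 / (p : ℝ) ^ 2 ∧ hh p ≤ 6 / (p : ℝ) := by
  unfold hh om
  split_ifs with h
  · subst h; norm_num
  · have h1 : 3 ≤ p := by have := hp.two_le; omega
    have h2 : (3 : ℝ) ≤ p := by exact_mod_cast h1
    refine ⟨div_le_div_of_nonneg_left (by norm_num) (by linarith) (by linarith), ?_, ?_⟩
    · rw [div_add_div _ _ (by positivity) (by positivity),
        div_le_div_iff₀ (by linarith) (by positivity)]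
      nlinarith [mul_nonneg (mul_nonneg (sub_nonneg.2 h2) (sub_nonneg.2 h2)) (sub_nonneg.2 h2),
        mul_nonneg (sub_nonneg.2 h2) (sub_nonneg.2 h2)]
    · rw [div_le_div_iff₀ (by linarith) (by linarith)]
      linarith

/-- Mertens' first theorem for the weights `hh p = 2 / p + O(1 / p ^ 2)`. -/
theorem mert1 : ∃ C : ℝ, 0 < C ∧ ∀ y : ℝ, 0 ≤ y → |AA 0 y - 2 * y| ≤ C := by
  obtain ⟨C, hC, h⟩ := EMert_prime
  obtain ⟨D, hD, h'⟩ := EMert_sq
  refine ⟨2 * C + 12 * D, by positivity, fun y hy => ?_⟩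
  have h1 := abs_le.1 (h y hy)
  have h2 := h' (PP y)
  have h3 : 2 * ∑ p ∈ PP y, Real.log p / p ≤ AA 0 y := by
    rw [AA, mul_sum]
    refine sum_le_sum fun p hp => ?_
    calc 2 * (Real.log p / p) = 2 / p * Real.log p := by ring
      _ ≤ hh p * Real.log p := mul_le_mul_of_nonneg_right (EMert_hh (mem_PP.1 hp).1).1
          (Real.log_natCast_nonneg p)
      _ = _ := by rw [pow_zero, mul_one]
  have h4 : AA 0 y ≤ 2 * ∑ p ∈ PP y, Real.log p / p +
      12 * ∑ p ∈ PP y, Real.log p / (p : ℝ) ^ 2 := by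
    rw [AA, mul_sum, mul_sum, ← sum_add_distrib]
    refine sum_le_sum fun p hp => ?_
    rw [pow_zero, mul_one]
    calc hh p * Real.log p ≤ (2 / p + 12 / (p : ℝ) ^ 2) * Real.log p :=
          mul_le_mul_of_nonneg_right (EMert_hh (mem_PP.1 hp).1).2.1 (Real.log_natCast_nonneg p)
      _ = _ := by ring
  rw [abs_le]
  constructor <;> linarith [h1.1, h1.2]

theorem sq_sum : ∃ C : ℝ, 0 < C ∧ ∀ y : ℝ, ∑ p ∈ PP y, hh p ^ 2 * Real.log p ≤ C := by
  obtain ⟨D, hD, h'⟩ := EMert_sq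
  refine ⟨36 * D, by positivity, fun y => le_trans ?_ (mul_le_mul_of_nonneg_left (h' (PP y))
    (by norm_num))⟩
  rw [mul_sum]
  refine sum_le_sum fun p hp => ?_
  have hp' := (mem_PP.1 hp).1
  calc hh p ^ 2 * Real.log p ≤ (6 / p) ^ 2 * Real.log p := mul_le_mul_of_nonneg_right
        (pow_le_pow_left₀ (hh_pos hp').le (EMert_hh hp').2.2 2) (Real.log_natCast_nonneg p)
    _ = _ := by ring

theorem prod_le {ε : ℝ} (hε : 0 < ε) :
    ∃ L₀ : ℝ, ∀ L : ℝ, L₀ ≤ L → ∏ p ∈ PP L, (1 + 8 / (p : ℝ)) ≤ Real.exp (ε * L) := by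
  obtain ⟨C, hC, h⟩ := EMert_prime
  obtain ⟨K, hK⟩ : ∃ K : ℝ, K = ∑ p ∈ PP (16 / ε), 8 / (p : ℝ) := ⟨_, rfl⟩
  have hK0 : 0 ≤ K := hK ▸ sum_nonneg fun p _ => by positivity
  refine ⟨2 * K / ε + C, fun L hL => ?_⟩
  have h0 : 0 ≤ 2 * K / ε := by positivity
  have h1 := (abs_le.1 (h L (by linarith))).2
  have h2 : ∑ p ∈ PP L, 8 / (p : ℝ) ≤ K + ε / 2 * ∑ p ∈ PP L, Real.log p / p := by
    calc ∑ p ∈ PP L, 8 / (p : ℝ) ≤ ∑ p ∈ PP L, ((if p ∈ PP (16 / ε) then 8 / (p : ℝ) else 0) +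
          ε / 2 * (Real.log p / p)) := sum_le_sum fun p hp => by
          have hp' := (mem_PP.1 hp).1
          have h3 : (0 : ℝ) < p := by exact_mod_cast hp'.pos
          have h4 := Real.log_natCast_nonneg p
          split_ifs with h5
          · exact le_add_of_nonneg_right (by positivity)
          · have h6 : 16 / ε < Real.log p := not_le.1 fun h => h5 (mem_PP.2 ⟨hp', h⟩)
            rw [div_lt_iff₀ hε] at h6
            rw [zero_add, ← mul_div_assoc]
            exact div_le_div_of_nonneg_right (by linarith) h3.le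
      _ ≤ _ := by
          rw [sum_add_distrib, ← mul_sum, sum_ite_mem, hK]
          exact add_le_add_left (sum_le_sum_of_subset_of_nonneg inter_subset_right
            fun p _ _ => by positivity) _
  have h3 : 2 * K ≤ (L - C) * ε := (div_le_iff₀ hε).1 (by linarith)
  calc ∏ p ∈ PP L, (1 + 8 / (p : ℝ)) ≤ ∏ p ∈ PP L, Real.exp (8 / (p : ℝ)) :=
        prod_le_prod (fun p _ => by positivity) fun p _ => by
          linarith [Real.add_one_le_exp (8 / (p : ℝ))]
    _ = Real.exp (∑ p ∈ PP L, 8 / (p : ℝ)) := (Real.exp_sum _ _).symm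
    _ ≤ _ := Real.exp_le_exp.2 (by nlinarith)

end Pool.Agent.MP_c7a479_co.Ex
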