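import Pool.Agent.MP_c7a479_co.EAbel

namespace Pool.Agent.MP_c7a479_co.Ex

open Finset
open scoped Classical

/-- The index set of the moments. -/
noncomputable def EMom_S (L : ℝ) : Finset (Finset ℕ) := (PP L).powerset.filter fun R => LL R ≤ L

theorem EMom_MM (L : ℝ) (j : ℕ) : MM L j = ∑ R ∈ EMom_S L, hR R * (L - LL R) ^ j := rfl

theorem EMom_log (p : ℕ) : 0 ≤ Real.log p := Real.log_natCast_nonneg p

theorem EMom_LL (R : Finset ℕ) : 0 ≤ LL R := sum_nonneg fun p _ => EMom_log p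

theorem EMom_mem {L : ℝ} {R : Finset ℕ} : R ∈ EMom_S L ↔ (∀ p ∈ R, p.Prime) ∧ LL R ≤ L := by
  rw [EMom_S, mem_filter, mem_powerset]
  refine and_congr_left fun h => ⟨fun h1 p hp => (mem_PP.1 (h1 hp)).1, fun h1 p hp => ?_⟩
  exact mem_PP.2 ⟨h1 p hp, (single_le_sum (fun q _ => EMom_log q) hp).trans h⟩

theorem EMom_LL_insert {R : Finset ℕ} {p : ℕ} (h : p ∉ R) :
    LL (insert p R) = Real.log p + LL R := sum_insert h

theorem EMom_hR_insert {R : Finset ℕ} {p : ℕ} (h : p ∉ R) :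
    hR (insert p R) = hh p * hR R := prod_insert h

theorem EMom_bij (L : ℝ) (F : Finset ℕ → ℕ → ℝ) :
    ∑ R ∈ EMom_S L, ∑ p ∈ R, F R p =
      ∑ R ∈ EMom_S L, ∑ p ∈ PP (L - LL R) \ R, F (insert p R) p := by
  rw [sum_sigma', sum_sigma']
  refine sum_nbij' (fun x => ⟨x.1.erase x.2, x.2⟩) (fun x => ⟨insert x.2 x.1, x.2⟩) ?_ ?_ ?_ ?_ ?_
  · rintro ⟨R, p⟩ hx
    simp only [mem_sigma, EMom_mem, mem_sdiff, mem_PP] at hx ⊢
    obtain ⟨⟨h1, h2⟩, h3⟩ := hx
    have h4 := EMom_LL_insert (notMem_erase p R)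
    rw [insert_erase h3] at h4
    have := EMom_log p
    exact ⟨⟨fun q hq => h1 q (mem_of_mem_erase hq), by linarith⟩, ⟨h1 p h3, by linarith⟩,
      notMem_erase p R⟩
  · rintro ⟨R, p⟩ hx
    simp only [mem_sigma, EMom_mem, mem_sdiff, mem_PP] at hx ⊢
    obtain ⟨⟨h1, h2⟩, ⟨h3, h4⟩, h5⟩ := hx
    refine ⟨⟨fun q hq => ?_, by rw [EMom_LL_insert h5]; linarith⟩, mem_insert_self _ _⟩
    rcases mem_insert.1 hq with rfl | hq
    · exact h3
    · exact h1 q hq
  · rintro ⟨R, p⟩ hx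
    simp only [mem_sigma] at hx
    simp only [insert_erase hx.2]
  · rintro ⟨R, p⟩ hx
    simp only [mem_sigma, mem_sdiff] at hx
    simp only [erase_insert hx.2.2]
  · rintro ⟨R, p⟩ hx
    simp only [mem_sigma] at hx
    simp only [insert_erase hx.2]

theorem EMom_le {L : ℝ} (j : ℕ) : MM L j ≤ L ^ j * MM L 0 := by
  rw [EMom_MM, EMom_MM, mul_sum]
  refine sum_le_sum fun R hR' => ?_
  obtain ⟨h1, h2⟩ := EMom_mem.1 hR'
  rw [pow_zero, mul_one, mul_comm]
  have := EMom_LL R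
  exact mul_le_mul_of_nonneg_right (pow_le_pow_left₀ (by linarith) (by linarith) j) (hR_nonneg h1)

/-- The omitted terms. -/
noncomputable def EMom_E (L : ℝ) (j : ℕ) : ℝ := ∑ R ∈ EMom_S L, hR R *
  ∑ p ∈ PP (L - LL R) ∩ R, hh p * Real.log p * (L - LL R - Real.log p) ^ j

theorem EMom_id (L : ℝ) (j : ℕ) :
    L * MM L j - MM L (j + 1) = ∑ R ∈ EMom_S L, hR R * AA j (L - LL R) - EMom_E L j := by
  have h1 : L * MM L j - MM L (j + 1) =
      ∑ R ∈ EMom_S L, ∑ p ∈ R, hR R * Real.log p * (L - LL R) ^ j := by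
    rw [EMom_MM, EMom_MM, mul_sum, ← sum_sub_distrib]
    refine sum_congr rfl fun R _ => ?_
    rw [← sum_mul, ← mul_sum]
    change _ = hR R * LL R * _
    ring
  rw [h1, EMom_bij, EMom_E, ← sum_sub_distrib]
  refine sum_congr rfl fun R _ => ?_
  rw [AA, ← sum_inter_add_sum_sdiff (PP (L - LL R)) R, mul_add, add_sub_cancel_left, mul_sum]
  refine sum_congr rfl fun p hp => ?_
  have h2 := (mem_sdiff.1 hp).2
  rw [EMom_hR_insert h2, EMom_LL_insert h2, sub_sub, add_comm (LL R)]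
  ring

theorem EMom_E_nonneg (L : ℝ) (j : ℕ) : 0 ≤ EMom_E L j := by
  refine sum_nonneg fun R hR' => mul_nonneg (hR_nonneg (EMom_mem.1 hR').1) ?_
  refine sum_nonneg fun p hp => ?_
  obtain ⟨h1, h2⟩ := mem_PP.1 (mem_inter.1 hp).1
  exact mul_nonneg (mul_nonneg (hh_pos h1).le (EMom_log p)) (pow_nonneg (by linarith) j)

theorem EMom_E_le {C : ℝ} (hC : ∀ y : ℝ, ∑ p ∈ PP y, hh p ^ 2 * Real.log p ≤ C) {L : ℝ}
    (hL : 0 ≤ L) (j : ℕ) : EMom_E L j ≤ C * L ^ j * MM L 0 := by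
  have hp : 0 ≤ L ^ j := pow_nonneg hL j
  calc EMom_E L j ≤ ∑ R ∈ EMom_S L, ∑ p ∈ R, hR R * (hh p * Real.log p * L ^ j) := by
        refine sum_le_sum fun R hR' => ?_
        obtain ⟨h1, h2⟩ := EMom_mem.1 hR'
        rw [← mul_sum]
        refine mul_le_mul_of_nonneg_left ?_ (hR_nonneg h1)
        refine le_trans (sum_le_sum fun p hp => ?_)
          (sum_le_sum_of_subset_of_nonneg inter_subset_right fun p hp' _ =>
            mul_nonneg (mul_nonneg (hh_pos (h1 p hp')).le (EMom_log p)) hp)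
        obtain ⟨h3, h4⟩ := mem_PP.1 (mem_inter.1 hp).1
        have := EMom_LL R
        have := EMom_log p
        exact mul_le_mul_of_nonneg_left (pow_le_pow_left₀ (by linarith) (by linarith) j)
          (mul_nonneg (hh_pos h3).le this)
    _ = ∑ R ∈ EMom_S L, hR R * L ^ j * ∑ p ∈ PP (L - LL R) \ R, hh p ^ 2 * Real.log p := by
        rw [EMom_bij]
        refine sum_congr rfl fun R _ => ?_
        rw [mul_sum]
        refine sum_congr rfl fun p hp => ?_
        rw [EMom_hR_insert (mem_sdiff.1 hp).2]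
        ring
    _ ≤ ∑ R ∈ EMom_S L, hR R * L ^ j * C := by
        refine sum_le_sum fun R hR' => ?_
        refine mul_le_mul_of_nonneg_left ?_ (mul_nonneg (hR_nonneg (EMom_mem.1 hR').1) hp)
        exact (sum_le_sum_of_subset_of_nonneg sdiff_subset fun p _ _ =>
          mul_nonneg (sq_nonneg _) (EMom_log p)).trans (hC _)
    _ = C * L ^ j * MM L 0 := by
        rw [EMom_MM, mul_sum]
        exact sum_congr rfl fun R _ => by ring

/-- `L * MM L j - MM L (j + 1) = ∑ R, hR R * LL R * (L - LL R) ^ j`; write `LL R = ∑ p ∈ R, log p`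
and `R = insert p R'`: this is `∑ R', hR R' * AA j (L - LL R')` up to the terms `p ∈ R'`. -/
theorem mom_step : ∃ C : ℝ, 0 < C ∧ ∀ (j : ℕ) (L : ℝ), 0 ≤ L →
    |L * MM L j - (j + 3) / (j + 1) * MM L (j + 1)| ≤ C * L ^ j * MM L 0 := by
  obtain ⟨C1, hC1, h1⟩ := AA_est
  obtain ⟨C2, hC2, h2⟩ := sq_sum
  refine ⟨C1 + C2, by linarith, fun j L hL => ?_⟩
  have hj : (j : ℝ) + 1 ≠ 0 := by positivity
  have h3 : L * MM L j - (j + 3) / (j + 1) * MM L (j + 1) =
      ∑ R ∈ EMom_S L, hR R * (AA j (L - LL R) - 2 * (L - LL R) ^ (j + 1) / (j + 1)) -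
        EMom_E L j := by
    have h4 : ∑ R ∈ EMom_S L, hR R * (AA j (L - LL R) - 2 * (L - LL R) ^ (j + 1) / (j + 1)) =
        ∑ R ∈ EMom_S L, hR R * AA j (L - LL R) - 2 / (j + 1) * MM L (j + 1) := by
      rw [EMom_MM, mul_sum, ← sum_sub_distrib]
      exact sum_congr rfl fun R _ => by ring
    have h5 : ((j : ℝ) + 3) / (j + 1) = 1 + 2 / (j + 1) := by
      field_simp
      ring
    rw [h4, h5]
    linarith [EMom_id L j]
  have h6 : |∑ R ∈ EMom_S L, hR R * (AA j (L - LL R) - 2 * (L - LL R) ^ (j + 1) / (j + 1))| ≤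
      C1 * MM L j := by
    rw [EMom_MM, mul_sum]
    refine (abs_sum_le_sum_abs _ _).trans (sum_le_sum fun R hR' => ?_)
    obtain ⟨h7, h8⟩ := EMom_mem.1 hR'
    rw [abs_mul, abs_of_nonneg (hR_nonneg h7), mul_left_comm]
    exact mul_le_mul_of_nonneg_left (h1 j _ (by linarith)) (hR_nonneg h7)
  have h7 := mul_le_mul_of_nonneg_left (EMom_le (L := L) j) hC1.le
  have h8 := EMom_E_le h2 hL j
  have h9 := EMom_E_nonneg L j
  rw [h3]
  refine (abs_sub _ _).trans ?_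
  rw [abs_of_nonneg h9]
  linarith

theorem one_le_MM {L : ℝ} (hL : 0 ≤ L) : 1 ≤ MM L 0 := by
  have h0 : (∅ : Finset ℕ) ∈ EMom_S L := EMom_mem.2 ⟨by simp, by simpa [LL] using hL⟩
  have h := single_le_sum (f := fun R => hR R * (L - LL R) ^ 0)
    (fun R h => mul_nonneg (hR_nonneg (EMom_mem.1 h).1) (by simp)) h0
  rw [EMom_MM]
  simpa [hR] using h

theorem mom : ∃ C : ℝ, 0 < C ∧ ∀ j : ℕ, j ≤ 4 → ∀ L : ℝ, 0 ≤ L →
    |MM L j - 2 / ((j + 1) * (j + 2)) * L ^ j * MM L 0| * L ≤ C * L ^ j * MM L 0 := by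
  obtain ⟨C, hC, h⟩ := mom_step
  have key : ∀ L : ℝ, 0 ≤ L → ∀ j : ℕ,
      |MM L j - 2 / ((j + 1) * (j + 2)) * L ^ j * MM L 0| * L ≤ j * C * L ^ j * MM L 0 := by
    intro L hL j
    induction j with
    | zero => norm_num
    | succ j ih =>
      have h1 := h j L hL
      have hj1 : (j : ℝ) + 1 ≠ 0 := by positivity
      have hj2 : (j : ℝ) + 2 ≠ 0 := by positivity
      have hj3 : (j : ℝ) + 3 ≠ 0 := by positivity
      have h2 : MM L (j + 1) - 2 / ((((j + 1 : ℕ) : ℝ) + 1) * (((j + 1 : ℕ) : ℝ) + 2)) *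
          L ^ (j + 1) * MM L 0 = (j + 1) / (j + 3) *
            ((MM L j - 2 / ((j + 1) * (j + 2)) * L ^ j * MM L 0) * L -
              (L * MM L j - (j + 3) / (j + 1) * MM L (j + 1))) := by
        have e1 : ((j + 1 : ℕ) : ℝ) + 1 = j + 2 := by push_cast; ring
        have e2 : ((j + 1 : ℕ) : ℝ) + 2 = j + 3 := by push_cast; ring
        rw [e1, e2]
        field_simp
        ring
      have h3 : |((j : ℝ) + 1) / (j + 3)| ≤ 1 := by
        rw [abs_of_nonneg (by positivity), div_le_one (by positivity)]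
        linarith
      have h4 : |(MM L j - 2 / ((j + 1) * (j + 2)) * L ^ j * MM L 0) * L -
          (L * MM L j - (j + 3) / (j + 1) * MM L (j + 1))| ≤ (j + 1) * C * L ^ j * MM L 0 := by
        refine (abs_sub _ _).trans ?_
        rw [abs_mul, abs_of_nonneg hL]
        linarith
      rw [h2, abs_mul]
      have h5 := mul_le_mul h3 h4 (abs_nonneg _) zero_le_one
      refine (mul_le_mul_of_nonneg_right h5 hL).trans (le_of_eq ?_)
      push_cast
      ring
  refine ⟨4 * C, by linarith, fun j hj L hL => (key L hL j).trans ?_⟩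
  have h1 : (j : ℝ) ≤ 4 := by exact_mod_cast hj
  have h2 := one_le_MM hL
  gcongr

end Pool.Agent.MP_c7a479_co.Ex
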