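import Pool.Agent.MP_c7a479_co.EDefs

namespace Pool.Agent.MP_c7a479_co.Ex

open Finset
open scoped Classical

variable {ι ι' α β M H M' H' : Type}

theorem Td.of_card [Fintype α] [Fintype β] (h : Td ι α) (e : Fintype.card α = Fintype.card β) :
    Td ι β := by
  obtain ⟨X, _, b, h1, h2⟩ := h
  have g := Fintype.equivOfCardEq e
  refine ⟨X, inferInstance, fun c i => g (b c i), e ▸ h1, fun i j hij x y => ?_⟩
  obtain ⟨c, k1, k2⟩ := h2 i j hij (g.symm x) (g.symm y)
  exact ⟨c, by simp only [k1, Equiv.apply_symm_apply], by simp only [k2, Equiv.apply_symm_apply]⟩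

theorem Td.of_inj [Fintype α] (h : Td ι α) (f : ι' → ι) (hf : Function.Injective f) :
    Td ι' α := by
  obtain ⟨X, _, b, h1, h2⟩ := h
  exact ⟨X, inferInstance, fun c i => b c (f i), h1, fun i j hij => h2 _ _ (hf.ne hij)⟩

theorem Td.prod [Fintype α] [Fintype β] (h : Td ι α) (h' : Td ι β) : Td ι (α × β) := by
  obtain ⟨X, _, b, h1, h2⟩ := h
  obtain ⟨X', _, b', k1, k2⟩ := h'
  refine ⟨X × X', inferInstance, fun c i => (b c.1 i, b' c.2 i), ?_, fun i j hij x y => ?_⟩
  · rw [Fintype.card_prod, Fintype.card_prod, mul_pow]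
    exact Nat.mul_le_mul h1 k1
  · obtain ⟨c, h3, h4⟩ := h2 i j hij x.1 y.1
    obtain ⟨c', k3, k4⟩ := k2 i j hij x.2 y.2
    exact ⟨(c, c'), Prod.ext h3 k3, Prod.ext h4 k4⟩

/-- Blocks `(x, v)` with entries `x + a i * v`. -/
theorem td_field (K : Type) [Field K] [Fintype K] (a : ι → K) (ha : Function.Injective a) :
    Td ι K := by
  refine ⟨K × K, inferInstance, fun c i => c.1 + a i * c.2, ?_, fun i j hij x y => ?_⟩
  · rw [Fintype.card_prod, sq]
  · have h : a i - a j ≠ 0 := sub_ne_zero.2 (ha.ne hij)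
    refine ⟨(x - a i * ((x - y) / (a i - a j)), (x - y) / (a i - a j)), by simp, ?_⟩
    field_simp
    ring

/-- MacNeish: induction on the prime factorisation with `ZMod p`. -/
theorem td_rough {k n : ℕ} (hn : n ≠ 0) (h : ∀ p : ℕ, p.Prime → p ∣ n → k ≤ p) :
    Td (Fin k) (Fin n) := by
  induction n using induction_on_primes with
  | zero => exact absurd rfl hn
  | one =>
    exact ⟨Unit, inferInstance, fun _ _ => 0, by simp, fun i j _ x y =>
      ⟨(), Subsingleton.elim _ _, Subsingleton.elim _ _⟩⟩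
  | prime_mul p m hp ih =>
    have := Fact.mk hp
    have hk := h p hp (dvd_mul_right _ _)
    have h1 : Td (Fin k) (ZMod p) := td_field (ZMod p) (fun i => ((i : ℕ) : ZMod p)) fun i j e => by
      have := congrArg ZMod.val e
      simp only [ZMod.val_natCast_of_lt (lt_of_lt_of_le i.2 hk),
        ZMod.val_natCast_of_lt (lt_of_lt_of_le j.2 hk)] at this
      exact Fin.ext this
    refine (h1.prod (ih (right_ne_zero_of_mul hn) fun q hq hd => h q hq (hd.mul_left _))).of_card ?_
    simp only [Fintype.card_prod, ZMod.card, Fintype.card_fin]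

theorem Itd.of_card [Fintype M] [Fintype H] [Fintype M'] [Fintype H'] (h : Itd ι M H)
    (e : Fintype.card M = Fintype.card M') (e' : Fintype.card H = Fintype.card H') :
    Itd ι M' H' := by
  obtain ⟨X, _, b, h1, h2⟩ := h
  have g := Fintype.equivOfCardEq e
  have g' := Fintype.equivOfCardEq e'
  refine ⟨X, inferInstance, fun c i => g.sumCongr g' (b c i), e ▸ e' ▸ h1, fun i j hij x y => ?_⟩
  obtain ⟨c, k1, k2⟩ := h2 i j hij (g.symm x) ((g.sumCongr g').symm y)
  exact ⟨c, by simp [k1], by simp only [k2, Equiv.apply_symm_apply]⟩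

theorem Td.itd [Fintype M] (h : Td ι M) : Itd ι M (Fin 0) := by
  obtain ⟨X, _, b, h1, h2⟩ := h
  refine ⟨X, inferInstance, fun c i => .inl (b c i), h1.trans (Nat.le_add_right _ _),
    fun i j hij x y => ?_⟩
  rcases y with y | y
  · obtain ⟨c, k1, k2⟩ := h2 i j hij x y
    exact ⟨c, congrArg _ k1, congrArg _ k2⟩
  · exact y.elim0

/-- Inflate every symbol by `α`. -/
theorem Itd.prod [Fintype M] [Fintype H] [Fintype α] (h : Itd ι M H) (h' : Td ι α) :
    Itd ι (M × α) (H × α) := by
  obtain ⟨X, _, b, h1, h2⟩ := h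
  obtain ⟨X', _, b', k1, k2⟩ := h'
  refine ⟨X × X', inferInstance,
    fun c i => (b c.1 i).map (fun m => (m, b' c.2 i)) fun m => (m, b' c.2 i), ?_,
    fun i j hij x y => ?_⟩
  · simp only [Fintype.card_prod]
    exact (Nat.mul_le_mul h1 k1).trans (le_of_eq (by ring))
  · rcases y with y | y
    · obtain ⟨c, h3, h4⟩ := h2 i j hij x.1 (.inl y.1)
      obtain ⟨c', k3, k4⟩ := k2 i j hij x.2 y.2
      exact ⟨(c, c'), by simp [h3, k3], by simp [h4, k4]⟩
    · obtain ⟨c, h3, h4⟩ := h2 i j hij x.1 (.inr y.1)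
      obtain ⟨c', k3, k4⟩ := k2 i j hij x.2 y.2
      exact ⟨(c, c'), by simp [h3, k3], by simp [h4, k4]⟩

/-- Develop the columns: blocks `(c, g)`, old entries are translated by `g`. -/
theorem Qdm.itd {G : Type} [AddCommGroup G] [Fintype G] [Fintype H] (h : Qdm ι G H) :
    Itd ι G H := by
  obtain ⟨Y, _, x, h1, h2, h3⟩ := h
  refine ⟨Y × G, inferInstance, fun c i => (x c.1 i).map (fun a => a + c.2) id, ?_,
    fun i j hij u y => ?_⟩
  · rw [Fintype.card_prod]
    exact (Nat.mul_le_mul_right _ h1).trans (le_of_eq (by ring))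
  · rcases y with y | y
    · obtain ⟨c, a, b, k1, k2, k3⟩ := h2 i j hij (u - y)
      refine ⟨(c, u - a), by simp [k1], ?_⟩
      have : b + (u - a) = y := by rw [← sub_sub_cancel u y, ← k3]; abel
      simp [k2, this]
    · obtain ⟨c, a, k1, k2⟩ := h3 i j hij y
      exact ⟨(c, u - a), by simp [k1], by simp [k2]⟩

/-- In a design in covering form two rows determine the block. -/
theorem td_bij [Fintype α] {X : Type} [Fintype X] {b : X → ι → α}
    (hc : Fintype.card X ≤ Fintype.card α ^ 2)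
    (h : ∀ i j, i ≠ j → ∀ x y, ∃ c, b c i = x ∧ b c j = y) {i j : ι} (hij : i ≠ j) :
    Function.Bijective fun c => (b c i, b c j) := by
  have hs : Function.Surjective fun c => (b c i, b c j) := fun p => by
    obtain ⟨c, k1, k2⟩ := h i j hij p.1 p.2
    exact ⟨c, Prod.ext k1 k2⟩
  refine (Fintype.bijective_iff_surjective_and_card _).2 ⟨hs, le_antisymm ?_
    (Fintype.card_le_of_surjective _ hs)⟩
  rwa [Fintype.card_prod, ← sq]

/-- Rows `0, 1` index the cells, the other rows are the squares. -/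
theorem Td.hasVarSet {k n : ℕ} (h : Td (Fin (k + 2)) (Fin n)) : HasVarSet 2 n k := by
  obtain ⟨X, _, b, h1, h2⟩ := h
  have h01 : (0 : Fin (k + 2)) ≠ 1 := Fin.zero_ne_one
  obtain ⟨g, hg⟩ : ∃ g : (Fin 2 → Fin n) → X, ∀ x, b (g x) 0 = x 0 ∧ b (g x) 1 = x 1 :=
    ⟨fun x => (h2 0 1 h01 (x 0) (x 1)).choose, fun x => (h2 0 1 h01 (x 0) (x 1)).choose_spec⟩
  have key : ∀ i j, i ≠ j → ∀ x y, b (g x) i = b (g y) i → b (g x) j = b (g y) j → x = y :=
    fun i j hij x y k1 k2 => by
      have e : g x = g y := (td_bij h1 h2 hij).1 (Prod.ext k1 k2)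
      funext r
      fin_cases r
      · exact (hg x).1.symm.trans (e ▸ (hg y).1)
      · exact (hg x).2.symm.trans (e ▸ (hg y).2)
  refine ⟨fun r x => b (g x) r.succ.succ, fun r x j => ?_, fun s hs => ?_⟩
  · refine Function.Injective.bijective_of_finite fun t t' e => ?_
    have : Function.update x j t = Function.update x j t' := by
      fin_cases j
      · refine key 1 r.succ.succ (Fin.succ_succ_ne_one r).symm _ _ ?_ e
        rw [(hg _).2, (hg _).2]
        simp
      · refine key 0 r.succ.succ (Fin.succ_ne_zero _).symm _ _ ?_ e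
        rw [(hg _).1, (hg _).1]
        simp
    simpa using congrFun this j
  · refine Function.Injective.bijective_of_finite fun x y e => ?_
    refine key (s 0).succ.succ (s 1).succ.succ (fun k => ?_) x y (congrFun e 0) (congrFun e 1)
    exact Fin.zero_ne_one (hs (Fin.succ_injective _ (Fin.succ_injective _ k)))

end Pool.Agent.MP_c7a479_co.Ex
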