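import Pool.Agent.MP_c7a479_co.ETd

namespace Pool.Agent.MP_c7a479_co.Ex

open Finset
open scoped Classical

/-- Wilson's construction with weights on one extra row.  Blocks: a master block `c` together with
a block of the ingredient with hole `H (b c none)`, and the blocks of the design on the hole. -/
theorem wilson_gen {ι M T : Type} [Nonempty ι] [Fintype M] [Fintype T] (H : T → Type)
    [∀ s, Fintype (H s)] (hT : Td (Option ι) T) (hI : ∀ s, Itd ι M (H s))
    (hU : Td ι (Σ s, H s)) : Td ι ((M × T) ⊕ Σ s, H s) := by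
  obtain ⟨X, _, b, hX, hb⟩ := hT
  obtain ⟨Y, _, u, hY, hu⟩ := hU
  choose Z fZ z hZ hz using hI
  obtain ⟨i₀⟩ := ‹Nonempty ι›
  have hbij := td_bij hX hb (i := none) (j := some i₀) (by simp)
  let f : (c : X) → Z (b c none) → ι → (M × T) ⊕ Σ s, H s := fun c y i =>
    (z _ y i).map (fun m => (m, b c (some i))) fun h => ⟨_, h⟩
  refine ⟨(Σ c : X, Z (b c none)) ⊕ Y, inferInstance,
    Sum.elim (fun p => f p.1 p.2) fun y i => .inr (u y i), ?_, ?_⟩
  · have h1 : ∑ c : X, Fintype.card (Z (b c none)) =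
        ∑ p : T × T, Fintype.card (Z p.1) :=
      Fintype.sum_bijective _ hbij _ _ fun _ => rfl
    have h2 : ∑ p : T × T, Fintype.card (Z p.1) ≤ ∑ p : T × T,
        (Fintype.card M ^ 2 + 2 * Fintype.card M * Fintype.card (H p.1)) :=
      sum_le_sum fun p _ => hZ p.1
    have h3 : ∑ p : T × T, Fintype.card (H p.1) = Fintype.card T * Fintype.card (Σ s, H s) := by
      rw [Fintype.sum_prod_type, Fintype.card_sigma, mul_sum]
      exact sum_congr rfl fun s _ => Finset.sum_const_nat (f := fun _ : T => Fintype.card (H s))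
        fun _ _ => rfl
    rw [sum_add_distrib, ← mul_sum, h3, sum_const, card_univ, Fintype.card_prod, smul_eq_mul] at h2
    rw [Fintype.card_sum, Fintype.card_sigma, h1, Fintype.card_sum, Fintype.card_prod]
    nlinarith
  · have key : ∀ i j, i ≠ j → ∀ (x : M × T) (y : (M × T) ⊕ Σ s, H s),
        ∃ p : Σ c : X, Z (b c none), f p.1 p.2 i = .inl x ∧ f p.1 p.2 j = y := by
      rintro i j hij ⟨m, t⟩ (⟨m', t'⟩ | ⟨s, h⟩)
      · obtain ⟨c, rfl, rfl⟩ := hb (some i) (some j) (by simpa) t t'
        obtain ⟨y, h1, h2⟩ := hz (b c none) i j hij m (.inl m')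
        exact ⟨⟨c, y⟩, by simp [f, h1], by simp [f, h2]⟩
      · obtain ⟨c, rfl, rfl⟩ := hb (some i) none (by simp) t s
        obtain ⟨y, h1, h2⟩ := hz (b c none) i j hij m (.inr h)
        exact ⟨⟨c, y⟩, by simp [f, h1], by simp [f, h2]⟩
    rintro i j hij (x | x) y
    · obtain ⟨p, h⟩ := key i j hij x y
      exact ⟨.inl p, h⟩
    · rcases y with y | y
      · obtain ⟨p, h⟩ := key j i hij.symm y (.inr x)
        exact ⟨.inl p, h.2, h.1⟩
      · obtain ⟨c, h1, h2⟩ := hu i j hij x y
        exact ⟨.inr c, congrArg Sum.inr h1, congrArg Sum.inr h2⟩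

theorem EWilson_sum {t A B W : ℕ} (h : A + B ≤ t) :
    ∑ s : Fin t, (if (s : ℕ) < A then W else if (s : ℕ) < A + B then 1 else 0) = W * A + B := by
  rw [Fin.sum_univ_eq_sum_range (fun s => if s < A then W else if s < A + B then 1 else 0)]
  obtain ⟨r, rfl⟩ := Nat.exists_eq_add_of_le h
  have e1 : ∀ x ∈ range A, (if x < A then W else if x < A + B then 1 else 0) = W :=
    fun x hx => if_pos (mem_range.1 hx)
  have e2 : ∀ x ∈ range B, (if A + x < A then W else if A + x < A + B then 1 else 0) = 1 :=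
    fun x hx => by
      rw [mem_range] at hx
      rw [if_neg (by omega), if_pos (by omega)]
  have e3 : ∀ x ∈ range r,
      (if A + B + x < A then W else if A + B + x < A + B then 1 else 0) = 0 :=
    fun x _ => by rw [if_neg (by omega), if_neg (by omega)]
  rw [sum_range_add, sum_range_add, sum_congr rfl e1, sum_congr rfl e2, sum_congr rfl e3]
  simp [mul_comm]

/-- Weights `W` on `U / W` points, `1` on `U % W` points and `0` on the others. -/
theorem wilson {k m W t U : ℕ} (hk : 1 ≤ k) (h0 : Td (Fin k) (Fin m))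
    (h1 : Itd (Fin k) (Fin m) (Fin 1)) (hW : Itd (Fin k) (Fin m) (Fin W))
    (ht : Td (Fin (k + 1)) (Fin t)) (hU : Td (Fin k) (Fin U)) (hle : U / W + U % W ≤ t) :
    Td (Fin k) (Fin (m * t + U)) := by
  have : Nonempty (Fin k) := ⟨⟨0, hk⟩⟩
  let w : Fin t → ℕ := fun s =>
    if (s : ℕ) < U / W then W else if (s : ℕ) < U / W + U % W then 1 else 0
  have hw : Fintype.card (Σ s, Fin (w s)) = U := by
    simp only [Fintype.card_sigma, Fintype.card_fin, w]
    rw [EWilson_sum hle, Nat.div_add_mod]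
  refine (wilson_gen (M := Fin m) (fun s => Fin (w s))
    (ht.of_inj _ (finSuccEquiv k).symm.injective) (fun s => ?_)
    (hU.of_card (by rw [hw, Fintype.card_fin]))).of_card ?_
  · have : w s = W ∨ w s = 1 ∨ w s = 0 := by
      simp only [w]
      split_ifs <;> simp
    rcases this with h | h | h <;> rw [h]
    exacts [hW, h1, h0.itd]
  · rw [Fintype.card_sum, hw]
    simp

end Pool.Agent.MP_c7a479_co.Ex
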