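import Pool.Agent.MP_c7a479_co.ETd

/-! Layered quasi-difference matrices over `V × R`. -/

namespace Pool.Agent.MP_c7a479_co.Ex

open Finset
open scoped Classical

/-- At most `N` columns with `u` new symbols that cover the differences in `S`. -/
def Cov (k : ℕ) (V : Type) [AddCommGroup V] (u N : ℕ) (S : Fin k → Fin k → V → Prop) : Prop :=
  ∃ (Y : Type) (_ : Fintype Y) (x : Y → Fin k → V ⊕ Fin u), Fintype.card Y ≤ N ∧
    (∀ i j, i < j → ∀ g, S i j g → ∃ c a b, x c i = .inl a ∧ x c j = .inl b ∧ a - b = g) ∧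
    ∀ i j, i ≠ j → ∀ h, ∃ c a, x c i = .inl a ∧ x c j = .inr h

theorem Cov.mono {k : ℕ} {V : Type} [AddCommGroup V] {u N : ℕ} {S S' : Fin k → Fin k → V → Prop}
    (h : Cov k V u N S) (hS : ∀ i j, i < j → ∀ g, S' i j g → S i j g) : Cov k V u N S' := by
  obtain ⟨Y, _, x, h1, h2, h3⟩ := h
  exact ⟨Y, inferInstance, x, h1, fun i j hij g hg => h2 i j hij g (hS i j hij g hg), h3⟩

/-- Plain columns have second coordinate `r i * ρ`, shifted ones `r i * ρ + w i`. -/
theorem asm {k : ℕ} {V R : Type} [AddCommGroup V] [Fintype V] [CommRing R] [Fintype R]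
    (r w : Fin k → R) (β : Fin k → Fin k → R) (hr : ∀ i j, i ≠ j → IsUnit (r i - r j))
    (hβ : ∀ i j, w i - w j = (r i - r j) * β i j) (u u' N N' : R → ℕ)
    (S S' : R → Fin k → Fin k → V → Prop)
    (hA : ∀ ρ, Cov k V (u ρ) (N ρ) (S ρ)) (hB : ∀ ρ, Cov k V (u' ρ) (N' ρ) (S' ρ))
    (hN : ∀ ρ, N ρ + N' ρ ≤ Fintype.card V + 2 * (u ρ + u' ρ))
    (hS : ∀ i j, i < j → ∀ ρ g, S (ρ + β i j) i j g ∨ S' ρ i j g) :
    Qdm (Fin k) (V × R) ((Σ ρ, Fin (u ρ)) ⊕ (Σ ρ, Fin (u' ρ))) := by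
  choose A iA xa a1 a2 a3 using hA
  choose B iB xb b1 b2 b3 using hB
  let x : (Σ ρ, A ρ) ⊕ (Σ ρ, B ρ) → Fin k → (V × R) ⊕ ((Σ ρ, Fin (u ρ)) ⊕ (Σ ρ, Fin (u' ρ))) :=
    Sum.elim (fun c i => (xa c.1 c.2 i).map (fun v => (v, r i * c.1)) fun h => .inl ⟨c.1, h⟩)
      fun c i => (xb c.1 c.2 i).map (fun v => (v, r i * c.1 + w i)) fun h => .inr ⟨c.1, h⟩
  have key : ∀ i j, i < j → ∀ g, ∃ c a b, x c i = .inl a ∧ x c j = .inl b ∧ a - b = g := by
    rintro i j hij ⟨g, τ⟩
    obtain ⟨v, hv⟩ := (hr i j hij.ne).exists_right_inv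
    rcases hS i j hij (v * τ - β i j) g with h | h
    · obtain ⟨c, a, b, h1, h2, h3⟩ := a2 _ i j hij g h
      refine ⟨.inl ⟨_, c⟩, (a, r i * (v * τ - β i j + β i j)), (b, r j * (v * τ - β i j + β i j)),
        by simp [x, h1], by simp [x, h2], Prod.ext h3 ?_⟩
      simp only [Prod.snd_sub]
      linear_combination τ * hv
    · obtain ⟨c, a, b, h1, h2, h3⟩ := b2 _ i j hij g h
      refine ⟨.inr ⟨_, c⟩, (a, r i * (v * τ - β i j) + w i), (b, r j * (v * τ - β i j) + w j),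
        by simp [x, h1], by simp [x, h2], Prod.ext h3 ?_⟩
      simp only [Prod.snd_sub]
      linear_combination τ * hv + hβ i j
  refine ⟨_, inferInstance, x, ?_, fun i j hij g => ?_, fun i j hij h => ?_⟩
  · simp only [Fintype.card_sum, Fintype.card_sigma, Fintype.card_fin, Fintype.card_prod]
    rw [← sum_add_distrib, ← sum_add_distrib, mul_sum, mul_comm (Fintype.card V),
      ← smul_eq_mul, ← card_univ, ← sum_const, ← sum_add_distrib]
    exact sum_le_sum fun ρ _ => (add_le_add (a1 ρ) (b1 ρ)).trans (hN ρ)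
  · rcases lt_or_gt_of_ne hij with h | h
    · exact key i j h g
    · obtain ⟨y, a, b, h1, h2, h3⟩ := key j i h (-g)
      exact ⟨y, b, a, h2, h1, by rw [← neg_sub, h3, neg_neg]⟩
  · rcases h with ⟨ρ, h⟩ | ⟨ρ, h⟩
    · obtain ⟨c, a, h1, h2⟩ := a3 ρ i j hij h
      exact ⟨.inl ⟨ρ, c⟩, (a, r i * ρ), by simp [x, h1], by simp [x, h2]⟩
    · obtain ⟨c, a, h1, h2⟩ := b3 ρ i j hij h
      exact ⟨.inr ⟨ρ, c⟩, (a, r i * ρ + w i), by simp [x, h1], by simp [x, h2]⟩

/-- Filling the hole. -/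
theorem Itd.fill {ι M H : Type} [Fintype M] [Fintype H] (h : Itd ι M H) (h' : Td ι H) :
    Td ι (M ⊕ H) := by
  obtain ⟨X, _, b, h1, h2⟩ := h
  obtain ⟨X', _, b', k1, k2⟩ := h'
  refine ⟨X ⊕ X', inferInstance, Sum.elim b fun c i => .inr (b' c i), ?_, fun i j hij x y => ?_⟩
  · simp only [Fintype.card_sum]
    nlinarith
  · rcases x with x | x
    · obtain ⟨c, e1, e2⟩ := h2 i j hij x y
      exact ⟨.inl c, e1, e2⟩
    · rcases y with y | y
      · obtain ⟨c, e1, e2⟩ := h2 j i hij.symm y (.inr x)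
        exact ⟨.inl c, e2, e1⟩
      · obtain ⟨c, e1, e2⟩ := k2 i j hij x y
        exact ⟨.inr c, congrArg _ e1, congrArg _ e2⟩

variable {K : Type} [Field K] {k : ℕ}

/-- The hub slopes. -/
def hub (a : Fin k → K) (l : Fin k) : K × K × K := (0, a l, 0)

/-- `g` is not a hub difference. -/
def Free (a : Fin k → K) (i j : Fin k) (g : K × K × K) : Prop := ∀ l, g ≠ (a i - a j) • hub a l

/-- What the shifted columns of a base layer cover. -/
def Base (a : Fin k → K) (i j : Fin k) (g : K × K × K) : Prop :=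
  (∃ l, l ≠ i ∧ l ≠ j ∧ g = (a i - a j) • hub a l) ∨ g = (a i - a j) • ((1, 0, 0) : K × K × K) ∨
    g = (a i - a j) • ((-1, a i + a j, 0) : K × K × K)

/-- What the private layer of the pair `i, j` covers in this pair. -/
def Spec (a : Fin k → K) (i j : Fin k) (g : K × K × K) : Prop :=
  (Free a i j g ∧ g ≠ (a i - a j) • ((1, 0, 0) : K × K × K) ∧
    g ≠ (a i - a j) • ((-1, a i + a j, 0) : K × K × K)) ∨
    g = (a i - a j) • hub a i ∨ g = (a i - a j) • hub a j

theorem spec_or_base (a : Fin k → K) (i j : Fin k) (g : K × K × K) :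
    Spec a i j g ∨ Base a i j g := by
  by_cases h : Free a i j g
  · by_cases h1 : g = (a i - a j) • ((1, 0, 0) : K × K × K)
    · exact Or.inr (Or.inr (Or.inl h1))
    by_cases h2 : g = (a i - a j) • ((-1, a i + a j, 0) : K × K × K)
    · exact Or.inr (Or.inr (Or.inr h2))
    exact Or.inl (Or.inl ⟨h, h1, h2⟩)
  · obtain ⟨l, hl⟩ := not_forall.1 h
    have hl := not_not.1 hl
    by_cases h1 : l = i
    · exact Or.inl (Or.inr (Or.inl (h1 ▸ hl)))
    by_cases h2 : l = j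
    · exact Or.inl (Or.inr (Or.inr (h2 ▸ hl)))
    exact Or.inr (Or.inl ⟨l, h1, h2, hl⟩)

theorem card_off {X : Type} [Fintype X] {f : Fin k → X} (hf : Function.Injective f)
    [Fintype {x // ∀ l, x ≠ f l}] : Fintype.card {x // ∀ l, x ≠ f l} = Fintype.card X - k := by
  have e : Fintype.card {x // ¬ x ∈ Set.range f} = Fintype.card X - k := by
    rw [Fintype.card_subtype_compl, Fintype.card_congr (Equiv.ofInjective f hf).symm,
      Fintype.card_fin]
  rw [← e]
  exact Fintype.card_congr (Equiv.subtypeEquivRight fun x => by simp [eq_comm])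

theorem hub_inj {a : Fin k → K} (ha : Function.Injective a) : Function.Injective (hub a) :=
  fun _ _ h => ha (congrArg (fun v => v.2.1) h)

theorem cov_hub {a : Fin k → K} : Cov k (K × K × K) 0 k fun i j g => ¬ Free a i j g := by
  refine ⟨Fin k, inferInstance, fun l i => .inl (a i • hub a l), by simp, fun i j _ g hg => ?_,
    fun _ _ _ h => h.elim0⟩
  obtain ⟨l, hl⟩ := not_forall.1 hg
  exact ⟨l, _, _, rfl, rfl, by rw [not_not.1 hl, sub_smul]⟩

theorem cov_base {a : Fin k → K} : Cov k (K × K × K) 1 (k + 2) (Base a) := by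
  refine ⟨Fin k ⊕ Bool, inferInstance, Sum.elim
    (fun l i => if i = l then .inr 0 else .inl (a i • hub a l))
    fun b i => .inl (if b then (a i, 0, 0) else (-a i, a i ^ 2, 0)), by simp, ?_, ?_⟩
  · rintro i j - g (⟨l, h1, h2, rfl⟩ | rfl | rfl)
    · exact ⟨.inl l, _, _, if_neg h1.symm, if_neg h2.symm, (sub_smul _ _ _).symm⟩
    · exact ⟨.inr true, _, _, rfl, rfl, by simp [Prod.ext_iff]⟩
    · refine ⟨.inr false, _, _, rfl, rfl, ?_⟩
      simp only [Bool.false_eq_true, if_false, Prod.mk_sub_mk, Prod.smul_mk, smul_eq_mul]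
      refine Prod.ext ?_ (Prod.ext ?_ ?_) <;> simp only <;> ring
  · intro i j hij h
    exact ⟨.inl j, _, if_neg hij, by rw [Subsingleton.elim h 0]; exact if_pos rfl⟩

theorem cov_free [Fintype K] {a : Fin k → K} (ha : Function.Injective a) :
    Cov k (K × K × K) 0 (Fintype.card (K × K × K) - k) (Free a) := by
  refine ⟨{s // ∀ l, s ≠ hub a l}, inferInstance, fun s i => .inl (a i • s.1),
    (card_off (hub_inj ha)).le, fun i j hij g hg => ?_, fun _ _ _ h => h.elim0⟩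
  have hA : a i - a j ≠ 0 := sub_ne_zero.2 (ha.ne hij.ne)
  refine ⟨⟨(a i - a j)⁻¹ • g, fun l e => hg l ?_⟩, _, _, rfl, rfl, ?_⟩
  · rw [← e, smul_inv_smul₀ hA]
  · rw [← sub_smul, smul_inv_smul₀ hA]

end Pool.Agent.MP_c7a479_co.Ex
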