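import Pool.Agent.MP_c7a479_co.FMain
import Pool.Agent.MP_c7a479_co.EField
import Pool.Agent.MP_c7a479_co.ESieve

namespace Pool.Agent.MP_c7a479_co.Ex

open Finset
open scoped Classical

/-- The decomposition `n = q ^ 3 * t + U`. -/
theorem decomp3 {n q z Z : ℕ} (hq : 2 ≤ q) (hZ : 1 ≤ Z) (hn : 6 * q ^ 5 * Z ≤ n)
    (hzZ : 6 * z ^ 3 ≤ Z)
    (hp : ∀ p : ℕ, p.Prime → p ≤ z → p ∣ q → ¬ p ∣ n) (h2 : 2 ∣ q ∨ 2 ∣ n)
    (hs : ∀ r r' : ℕ → ℕ, r 2 ≡ r' 2 [MOD 2] → ∀ x : ℕ, ∃ t, x ≤ t ∧ t < x + Z ∧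
      ∀ p : ℕ, p.Prime → p ≤ z → ¬ Bad r r' p t) :
    ∃ t U : ℕ, n = q ^ 3 * t + U ∧ t ≠ 0 ∧ U ≠ 0 ∧ U % (q - 1) * (6 * z ^ 3) + U / (q - 1) ≤ t ∧
      (∀ p : ℕ, p.Prime → p ∣ t → z < p) ∧ ∀ p : ℕ, p.Prime → p ∣ U → z < p := by
  have hr : ∀ p : ℕ, ∃ r : ℕ, (p = 2 → r ≡ 0 [MOD 2]) ∧
      (p.Prime → ¬ p ∣ q → ∀ t, q ^ 3 * t ≡ n [MOD p] → t ≡ r [MOD p]) := by
    intro p
    by_cases h : p.Prime ∧ ¬ p ∣ q ∧ ∃ t, q ^ 3 * t ≡ n [MOD p]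
    · obtain ⟨h1, h3, t₀, h4⟩ := h
      have hc : Nat.Coprime p (q ^ 3) := ((Nat.Prime.coprime_iff_not_dvd h1).2 h3).pow_right 3
      refine ⟨t₀, ?_, fun _ _ t ht => Nat.ModEq.cancel_left_of_coprime hc (ht.trans h4.symm)⟩
      rintro rfl
      refine Nat.ModEq.cancel_left_of_coprime hc (h4.trans ?_)
      exact (Nat.modEq_zero_iff_dvd.2 (h2.resolve_left h3))
    · exact ⟨0, fun _ => rfl, fun h1 h3 t ht => absurd ⟨h1, h3, t, ht⟩ h⟩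
  choose r hr2 hr using hr
  have hq4 : 0 < q ^ 3 := by positivity
  have hN : 6 * q ^ 2 * Z ≤ n / q ^ 3 := by
    rw [Nat.le_div_iff_mul_le hq4]
    calc 6 * q ^ 2 * Z * q ^ 3 = 6 * q ^ 5 * Z := by ring
      _ ≤ n := hn
  have hq2 : 4 ≤ q ^ 2 := by nlinarith
  have hZN : 24 * Z ≤ 6 * q ^ 2 * Z := by nlinarith
  obtain ⟨t, h3, h4, h5⟩ := hs (fun _ => 0) r (hr2 2 rfl).symm (n / q ^ 3 - Z)
  have h6 : t + 1 ≤ n / q ^ 3 := by omega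
  have h7 : q ^ 3 * (t + 1) ≤ n := by
    rw [mul_comm]
    exact (Nat.le_div_iff_mul_le hq4).1 h6
  have h8 : n < q ^ 3 * (t + Z + 1) := by
    rw [mul_comm]
    exact (Nat.div_lt_iff_lt_mul hq4).1 (by omega)
  obtain ⟨U, rfl⟩ : ∃ U, n = q ^ 3 * t + U := Nat.exists_eq_add_of_le (by nlinarith)
  refine ⟨t, U, rfl, by omega, by nlinarith, ?_, fun p hp' h => ?_, fun p hp' h => ?_⟩
  · obtain ⟨s, rfl⟩ : ∃ s, q = s + 1 := ⟨q - 1, by omega⟩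
    have hs1 : 1 ≤ s := by omega
    rw [Nat.add_sub_cancel]
    have e1 : U % s < s := Nat.mod_lt _ hs1
    have e2 : U / s ≤ 4 * (s + 1) ^ 2 * Z := by
      apply Nat.div_le_of_le_mul
      have e3 : U ≤ (s + 1) ^ 3 * (2 * Z) := by nlinarith
      calc U ≤ (s + 1) * ((s + 1) ^ 2 * (2 * Z)) := by rw [← mul_assoc, ← pow_succ']; exact e3
        _ ≤ (2 * s) * ((s + 1) ^ 2 * (2 * Z)) := Nat.mul_le_mul_right _ (by omega)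
        _ = _ := by ring
    have e4 : U % s * (6 * z ^ 3) ≤ (s + 1) ^ 2 * Z := Nat.mul_le_mul (by nlinarith) hzZ
    have e5 : 6 * (s + 1) ^ 2 * Z = 4 * (s + 1) ^ 2 * Z + 2 * ((s + 1) ^ 2 * Z) := by ring
    have e6 : 1 * Z ≤ (s + 1) ^ 2 * Z := Nat.mul_le_mul_right _ (by nlinarith)
    omega
  · by_contra hc
    exact h5 p hp' (by omega) (Or.inl (Nat.modEq_zero_iff_dvd.2 h))
  · by_contra hc
    have hU : q ^ 3 * t ≡ q ^ 3 * t + U [MOD p] := by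
      simpa using (Nat.ModEq.refl (q ^ 3 * t)).add (Nat.modEq_zero_iff_dvd.2 h).symm
    by_cases hpq : p ∣ q
    · exact hp p hp' (by omega) hpq (dvd_add ((hpq.pow (by norm_num)).mul_right t) h)
    · exact h5 p hp' (by omega) (Or.inr (hr p hp' hpq t hU))

theorem FFinal_num : ∃ x₀ : ℝ, 3 ≤ x₀ ∧ ∀ x z : ℝ, x₀ ≤ x → x ≤ z → z ≤ x + 3 →
    20 * z ≤ z ^ (1 + 1 / 200 : ℝ) ∧ 6 * z ^ 3 ≤ z ^ (99 / 20 : ℝ) ∧
      6 * (z ^ (1 + 1 / 200 : ℝ)) ^ 5 * (z ^ (99 / 20 : ℝ) + 1) ≤ x ^ 10 := by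
  obtain ⟨x₀, h⟩ := Filter.eventually_atTop.1
    ((tendsto_rpow_atTop (show (0 : ℝ) < 1 / 200 by norm_num)).eventually_ge_atTop 20)
  refine ⟨max x₀ 6, le_trans (by norm_num) (le_max_right _ _), fun x z hx h1 h2 => ?_⟩
  have h3 : 6 ≤ x := (le_max_right _ _).trans hx
  have h4 := h z (((le_max_left _ _).trans hx).trans h1)
  have hz : 0 < z := by linarith
  set w := z ^ (1 / 200 : ℝ) with hw
  have e1 : z ^ (1 + 1 / 200 : ℝ) = z * w := by rw [Real.rpow_add hz, Real.rpow_one]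
  have e2 : z ^ (99 / 20 : ℝ) * w ^ 10 = z ^ 5 := by
    rw [hw, ← Real.rpow_natCast, ← Real.rpow_mul hz.le, ← Real.rpow_add hz, ← Real.rpow_natCast]
    norm_num
  have e3 : 1 ≤ z ^ (99 / 20 : ℝ) := Real.one_le_rpow (by linarith) (by norm_num)
  have e0 : z ^ 4 ≤ z ^ (99 / 20 : ℝ) := by
    rw [← Real.rpow_natCast]
    exact Real.rpow_le_rpow_of_exponent_le (by linarith) (by norm_num)
  set y := z ^ (99 / 20 : ℝ)
  rw [e1]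
  refine ⟨by nlinarith, by nlinarith [pow_pos hz 3], ?_⟩
  have e4 : (20 : ℝ) ^ 5 ≤ w ^ 5 := pow_le_pow_left₀ (by norm_num) h4 5
  have e5 : z ^ 10 ≤ (2 * x) ^ 10 := pow_le_pow_left₀ hz.le (by linarith) 10
  have e6 : 0 ≤ z ^ 5 * w ^ 5 * y := by positivity
  have e7 : z ^ 10 = z ^ 5 * w ^ 5 * y * w ^ 5 := by
    rw [show z ^ 10 = z ^ 5 * z ^ 5 by ring]
    nth_rewrite 2 [← e2]
    ring
  have e8 : z ^ 5 * w ^ 5 * 1 ≤ z ^ 5 * w ^ 5 * y := mul_le_mul_of_nonneg_left e3 (by positivity)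
  have e9 := mul_le_mul_of_nonneg_left e4 e6
  calc 6 * (z * w) ^ 5 * (y + 1) = 6 * (z ^ 5 * w ^ 5 * y) + 6 * (z ^ 5 * w ^ 5 * 1) := by ring
    _ ≤ x ^ 10 := by nlinarith

theorem final10 : ∃ n₀ : ℕ, ∀ n : ℕ, n₀ ≤ n →
    ∃ k : ℕ, (n : ℝ) ^ (1 / 10 : ℝ) ≤ k ∧ HasVarSet 2 n k := by
  obtain ⟨x₀, hx₀, hnum⟩ := FFinal_num
  obtain ⟨k₀, hodd⟩ := field_odd (ε := 1 / 200) (by norm_num)
  obtain ⟨z₀, hsv⟩ := sieve2
  obtain ⟨n₀, hn₀⟩ := Filter.eventually_atTop.1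
    (((tendsto_rpow_atTop (show (0 : ℝ) < 1 / 10 by norm_num)).comp
      tendsto_natCast_atTop_atTop).eventually_ge_atTop (x₀ + k₀ + z₀))
  refine ⟨n₀, fun n hn => ⟨⌈(n : ℝ) ^ (1 / 10 : ℝ)⌉₊, Nat.le_ceil _, ?_⟩⟩
  have h1 : x₀ + k₀ + z₀ ≤ (n : ℝ) ^ (1 / 10 : ℝ) := hn₀ n hn
  have h11 : ((n : ℝ) ^ (1 / 10 : ℝ)) ^ 10 = n := by
    rw [← Real.rpow_natCast, ← Real.rpow_mul n.cast_nonneg]
    norm_num
  set x := (n : ℝ) ^ (1 / 10 : ℝ)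
  have hk0 : (0 : ℝ) ≤ k₀ := k₀.cast_nonneg
  have hz0 : (0 : ℝ) ≤ z₀ := z₀.cast_nonneg
  have h2 := Nat.le_ceil x
  have h3 := Nat.ceil_lt_add_one (show 0 ≤ x by linarith)
  set k := ⌈x⌉₊
  obtain ⟨h4, h8, h5⟩ := hnum x ((k + 2 : ℕ) : ℝ) (by linarith) (by push_cast; linarith)
    (by push_cast; linarith)
  have h6 : k₀ ≤ k + 2 := by
    have : (k₀ : ℝ) ≤ ((k + 2 : ℕ) : ℝ) := by push_cast; linarith
    exact_mod_cast this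
  have h7 : z₀ ≤ k + 2 := by
    have : (z₀ : ℝ) ≤ ((k + 2 : ℕ) : ℝ) := by push_cast; linarith
    exact_mod_cast this
  obtain ⟨K, _, _, a, ha, hap, hq, hq', hp, hpar⟩ : ∃ (K : Type) (_ : Field K) (_ : Fintype K)
      (a : Fin (k + 2) → K), Function.Injective a ∧ (∀ i j l, a i + a j = 2 * a l → i = j) ∧
      10 * (k + 2) ≤ Fintype.card K ∧
      (Fintype.card K : ℝ) ≤ ((k + 2 : ℕ) : ℝ) ^ (1 + 1 / 200 : ℝ) ∧
      (∀ p : ℕ, p.Prime → p ≤ k + 2 → p ∣ Fintype.card K → ¬ p ∣ n) ∧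
      (2 ∣ Fintype.card K ∨ 2 ∣ n) := by
    by_cases hn2 : 2 ∣ n
    · obtain ⟨K, _, _, a, ha, hap, hq, hq', hpr⟩ := hodd (k + 2) h6
      refine ⟨K, _, _, a, ha, hap, hq, hq', fun p hp hp' h => ?_, Or.inr hn2⟩
      have := (Nat.prime_dvd_prime_iff_eq hp hpr).1 h
      omega
    · obtain ⟨K, _, _, a, ha, hap, hq, hq', e, he, hc⟩ := field_even (k := k + 2) (by omega)
      refine ⟨K, _, _, a, ha, hap, hq, le_trans ?_ h4, fun p hp _ h => ?_, Or.inl ?_⟩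
      · exact_mod_cast hq'
      · rw [hc] at h
        rwa [(Nat.prime_dvd_prime_iff_eq hp Nat.prime_two).1 (hp.dvd_of_dvd_pow h)]
      · rw [hc]
        exact dvd_pow_self 2 (by omega)
  have hy : (0 : ℝ) < ((k + 2 : ℕ) : ℝ) ^ (99 / 20 : ℝ) := by positivity
  obtain ⟨t, U, hn', ht, hU, hle, hrt, hrU⟩ := decomp3 (n := n) (q := Fintype.card K) (z := k + 2)
    (Z := ⌈((k + 2 : ℕ) : ℝ) ^ (99 / 20 : ℝ)⌉₊) (by omega) (Nat.ceil_pos.2 hy) (by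
      have e1 := (Nat.ceil_lt_add_one hy.le).le
      have e2 := pow_le_pow_left₀ (Nat.cast_nonneg _) hq' 5
      have : (6 : ℝ) * (Fintype.card K : ℝ) ^ 5 * (⌈((k + 2 : ℕ) : ℝ) ^ (99 / 20 : ℝ)⌉₊ : ℕ) ≤ n := by
        rw [← h11]
        refine le_trans ?_ h5
        gcongr
      exact_mod_cast this) (by exact_mod_cast h8.trans (Nat.le_ceil _)) hp hpar
    (fun r r' h x => hsv (k + 2) h7 r r' h x _ (Nat.le_ceil _))
  have hI := itd_layers ha hap (by omega) (by omega) ht (fun p hp h => (hrt p hp h).le) hle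
  rw [Nat.div_add_mod] at hI
  exact ((hI.fill (td_rough hU fun p hp h => (hrU p hp h).le)).of_card (by simp [hn'])).hasVarSet

end Pool.Agent.MP_c7a479_co.Ex
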