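import Pool.Agent.MP_c7a479_co.FDefs
import Pool.Agent.MP_c7a479_co.EHeavy

namespace Pool.Agent.MP_c7a479_co.Ex

open Finset
open scoped Classical

/-- Projective representatives, from parameters in general position. -/
theorem rep_heavy_of {K : Type} [Field K] [Fintype K] {k : ℕ} (h φ : Fin k → K) (σ σ' : K)
    (hh : Function.Injective h) (hφ : Function.Injective φ) (h0 : ∀ i, h i ≠ 0)
    (hσ : σ ≠ 0) (hσ' : σ' ≠ 0)
    (h1 : ∀ i j, h i ≠ φ j) (h2 : ∀ i j l, h i * (h j * h l) ≠ σ)
    (h2' : ∀ i j l, h i * (h j * h l) ≠ σ') (h3 : ∀ i j l, φ i * (h j * h l) ≠ σ)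
    (h3' : ∀ i j l, φ i * (h j * h l) ≠ σ')
    (h4 : ∀ i j l r, σ * (h i * h j) ≠ σ' * (h l * h r)) :
    ∃ rep : (K × K) ⊕ Bool → Fin k → Option (K × K × K),
      (∀ i j, i ≠ j → ∀ v : K × K, ∃ r a b, ∃ s : K, s ≠ 0 ∧ rep r i = some a ∧
        rep r j = some b ∧ a - b = s • ((1 : K), v)) ∧
      ∀ i j, i ≠ j → ∃ r a, rep r i = some a ∧ rep r j = none := by
  obtain ⟨xi, x1, x2, x3⟩ := EHeavy_xi h φ σ σ' hh hφ h0 hσ hσ' h1 h2 h2' h3 h3' h4
  have hi := EHeavy_inj hh x2 x3
  let rep : (K × K) ⊕ Bool → Fin k → Option (K × K × K) :=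
    Sum.elim (Function.extend (EHeavy_pt h xi) (EHeavy_col h xi)
      fun v i => some (h i • ((1 : K), v)))
      fun b i => some (h i, -(if b then σ else σ') / h i, h i ^ 2)
  have hrep : ∀ c, rep (.inl (EHeavy_pt h xi c)) = EHeavy_col h xi c := fun c =>
    hi.extend_apply (EHeavy_col h xi) (fun v i => some (h i • ((1 : K), v))) c
  have hone : ∀ i j, i ≠ j → ∀ c : Bool × K, ∃ r a b, ∃ s : K, s ≠ 0 ∧ rep r i = some a ∧
      rep r j = some b ∧ a - b = s • ((1 : K), EHeavy_pt h xi (i, c)) := by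
    intro i j hij c
    have hd : h i - h j ≠ 0 := sub_ne_zero.2 (hh.ne hij)
    by_cases hc : c = (false, h i + h j)
    · refine ⟨.inr (decide (i < j)), _, _, h i - h j, hd, rfl, rfl, ?_⟩
      have e := x1 i j hij.symm
      have hi0 := h0 i
      have hj0 := h0 j
      subst hc
      refine Prod.ext (by simp) (Prod.ext ?_ ?_)
      · simp only [EHeavy_pt, decide_eq_true_eq, Prod.mk_sub_mk, Prod.smul_mk, smul_eq_mul,
          Bool.false_eq_true, if_false]
        rw [← e]
        field_simp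
        ring
      · simp only [EHeavy_pt, Prod.mk_sub_mk, Prod.smul_mk, smul_eq_mul]
        ring
    · obtain ⟨lam, hl, hm⟩ := EHeavy_key h j i c hc
      have hs := EHeavy_s_ne_zero hi hij lam
      refine ⟨.inl (EHeavy_pt h xi (j, lam)),
        -(EHeavy_s h xi j i lam)⁻¹ • ((1 : K), EHeavy_mu h xi j j lam), ((0 : K), EHeavy_e lam),
        -(EHeavy_s h xi j i lam)⁻¹, neg_ne_zero.2 (inv_ne_zero hs), ?_, ?_, ?_⟩
      · rw [hrep]
        simp [EHeavy_col, hl, hij]
      · rw [hrep]
        simp [EHeavy_col, hl]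
      · have e : EHeavy_pt h xi (i, c) = EHeavy_mu h xi j i lam := by rw [EHeavy_mu, hm]
        rw [e, EHeavy_line h xi j i]
        refine Prod.ext (by simp) ?_
        simp only [Prod.smul_mk, Prod.mk_sub_mk, smul_add, smul_smul,
          inv_mul_cancel₀ hs, neg_smul, one_smul, Prod.neg_mk]
        abel
  refine ⟨rep, fun i j hij v => ?_, fun i j hij => ?_⟩
  · have hd : h i - h j ≠ 0 := sub_ne_zero.2 (hh.ne hij)
    by_cases hv : ∃ c, EHeavy_pt h xi c = v
    · obtain ⟨⟨r, c⟩, rfl⟩ := hv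
      by_cases hri : r = i
      · subst hri
        exact hone r j hij c
      by_cases hrj : r = j
      · subst hrj
        obtain ⟨t, a, b, s, hs, e1, e2, e3⟩ := hone r i hij.symm c
        exact ⟨t, b, a, -s, neg_ne_zero.2 hs, e2, e1, by rw [neg_smul, ← e3, neg_sub]⟩
      have hir : i ≠ r := fun e => hri e.symm
      have hjr : j ≠ r := fun e => hrj e.symm
      by_cases hc : c = (false, h r + h r)
      · subst hc
        refine ⟨.inl (EHeavy_pt h xi (r, true, h r)), h i • _, h j • _, h i - h j, hd, ?_, ?_,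
          (sub_smul _ _ _).symm⟩
        · rw [hrep]
          simp only [EHeavy_col, if_true, if_neg hir]
        · rw [hrep]
          simp only [EHeavy_col, if_true, if_neg hjr]
      · obtain ⟨lam, hl, hm⟩ := EHeavy_key h r r c hc
        have e : EHeavy_pt h xi (r, c) = EHeavy_mu h xi r r lam := by rw [EHeavy_mu, hm]
        refine ⟨.inl (EHeavy_pt h xi (r, lam)), -(EHeavy_s h xi r i lam)⁻¹ • _,
          -(EHeavy_s h xi r j lam)⁻¹ • _, -(EHeavy_s h xi r i lam)⁻¹ - -(EHeavy_s h xi r j lam)⁻¹,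
          ?_, ?_, ?_, (sub_smul _ _ _).symm⟩
        · exact sub_ne_zero.2 fun a => EHeavy_s_ne hi r hij lam (inv_injective (neg_injective a))
        · rw [hrep, e]
          simp only [EHeavy_col, if_neg hl, if_neg hir]
        · rw [hrep, e]
          simp only [EHeavy_col, if_neg hl, if_neg hjr]
    · have e : rep (.inl v) = fun i => some (h i • ((1 : K), v)) :=
        Function.extend_apply' (EHeavy_col h xi) (fun v i => some (h i • ((1 : K), v))) v hv
      exact ⟨.inl v, h i • _, h j • _, h i - h j, hd, by rw [e], by rw [e], (sub_smul _ _ _).symm⟩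
  · refine ⟨.inl (EHeavy_pt h xi (j, true, h j)),
      h i • ((1 : K), EHeavy_pt h xi (j, false, h j + h j)), ?_, ?_⟩
    · rw [hrep]
      simp only [EHeavy_col, if_true, if_neg hij]
    · rw [hrep]
      simp only [EHeavy_col, if_true]

/-- Take `h j = γ ^ j`, `φ j = γ ^ (k + j)`, `σ = γ ^ (4 * k)`, `σ' = γ ^ (6 * k)` for a
generator `γ` of `Kˣ`. -/
theorem rep_heavy {K : Type} [Field K] [Fintype K] {k : ℕ} (hq : 8 * k + 1 < Fintype.card K) :
    ∃ rep : (K × K) ⊕ Bool → Fin k → Option (K × K × K),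
      (∀ i j, i ≠ j → ∀ v : K × K, ∃ r a b, ∃ s : K, s ≠ 0 ∧ rep r i = some a ∧
        rep r j = some b ∧ a - b = s • ((1 : K), v)) ∧
      ∀ i j, i ≠ j → ∃ r a, rep r i = some a ∧ rep r j = none := by
  obtain ⟨γ, hγ⟩ := IsCyclic.exists_generator (α := Kˣ)
  have ho : orderOf γ = Fintype.card K - 1 := by
    rw [orderOf_eq_card_of_forall_mem_zpowers hγ, Nat.card_eq_fintype_card, Fintype.card_units]
  have hinj : ∀ a b : ℕ, a ≤ 8 * k → b ≤ 8 * k → (γ : K) ^ a = (γ : K) ^ b → a = b := by
    intro a b ha hb e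
    refine pow_injOn_Iio_orderOf (x := γ) (by simp only [Set.mem_Iio]; omega)
      (by simp only [Set.mem_Iio]; omega) (Units.ext ?_)
    simpa using e
  have hne : ∀ a : ℕ, (γ : K) ^ a ≠ 0 := fun a => pow_ne_zero _ γ.ne_zero
  refine rep_heavy_of (fun j => (γ : K) ^ (j : ℕ)) (fun j => (γ : K) ^ (k + j)) (γ ^ (4 * k))
    (γ ^ (6 * k)) (fun i j e => ?_) (fun i j e => ?_) (fun i => hne _) (hne _) (hne _)
    (fun i j e => ?_) (fun i j l e => ?_) (fun i j l e => ?_) (fun i j l e => ?_)
    (fun i j l e => ?_) (fun i j l r e => ?_)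
  · have := hinj _ _ (by omega) (by omega) e
    exact Fin.ext this
  · have := hinj _ _ (by omega) (by omega) e
    exact Fin.ext (by omega)
  · have := hinj _ _ (by omega) (by omega) e
    omega
  · simp only [← pow_add] at e
    have := hinj _ _ (by omega) (by omega) e
    omega
  · simp only [← pow_add] at e
    have := hinj _ _ (by omega) (by omega) e
    omega
  · simp only [← pow_add] at e
    have := hinj _ _ (by omega) (by omega) e
    omega
  · simp only [← pow_add] at e
    have := hinj _ _ (by omega) (by omega) e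
    omega
  · simp only [← pow_add] at e
    have := hinj _ _ (by omega) (by omega) e
    omega

/-- A heavy layer: `|K| - 1` new symbols, hub columns left out. -/
theorem cov_heavy {K : Type} [Field K] [Fintype K] {k : ℕ} (hq : 8 * k + 1 < Fintype.card K)
    {h : Fin k → K} (hh : Function.Injective h) :
    Cov k (K × K × K) (Fintype.card K - 1)
      (Fintype.card (K × K × K) - k + 2 * (Fintype.card K - 1)) (Free h) := by
  obtain ⟨rep, ha, hb⟩ := rep_heavy hq
  have f : Kˣ ≃ Fin (Fintype.card K - 1) := Fintype.equivFinOfCardEq (Fintype.card_units K)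
  have hi : Function.Injective fun l => ((h l, 0) : K × K) := fun _ _ e => hh (congrArg Prod.fst e)
  refine ⟨(((K × K) ⊕ Bool) × Kˣ) ⊕ {c : K × K // ∀ l, c ≠ (h l, 0)}, inferInstance,
    Sum.elim (fun c i => (rep c.1 i).elim (.inr (f c.2)) fun a => .inl ((c.2 : K) • a))
      (fun c i => .inl (h i • ((0 : K), c.1))), ?_, ?_, ?_⟩
  · rw [Fintype.card_sum, card_off hi]
    simp only [Fintype.card_sum, Fintype.card_prod, Fintype.card_bool, Fintype.card_units]
    obtain ⟨m, hm⟩ : ∃ m, Fintype.card K = m + 1 := ⟨Fintype.card K - 1, by omega⟩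
    rw [hm, Nat.add_sub_cancel]
    have h1 : k ≤ (m + 1) * (m + 1) := by nlinarith
    have h2 : (m + 1) * ((m + 1) * (m + 1)) = (m + 1) * (m + 1) * m + (m + 1) * (m + 1) := by ring
    rw [add_mul]
    omega
  · rintro i j hij ⟨g0, g1, g2⟩ hg
    have hd : h i - h j ≠ 0 := sub_ne_zero.2 (hh.ne hij.ne)
    by_cases hg0 : g0 = 0
    · subst hg0
      have key : (h i - h j) • ((0 : K), (g1 / (h i - h j), g2 / (h i - h j))) = (0, g1, g2) := by
        refine Prod.ext (by simp) (Prod.ext ?_ ?_)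
        · simp only [Prod.smul_mk, smul_eq_mul]
          field_simp
        · simp only [Prod.smul_mk, smul_eq_mul]
          field_simp
      exact ⟨.inr ⟨(g1 / (h i - h j), g2 / (h i - h j)), fun l e => hg l (by rw [← key, e]; rfl)⟩,
        _, _, rfl, rfl, by rw [← sub_smul, key]⟩
    · obtain ⟨r, a, b, s, hs, h1, h2, h3⟩ := ha i j hij.ne (g1 / g0, g2 / g0)
      refine ⟨.inl (r, Units.mk0 (g0 / s) (div_ne_zero hg0 hs)), (g0 / s) • a, (g0 / s) • b,
        by simp [h1], by simp [h2], ?_⟩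
      rw [← smul_sub, h3, smul_smul, div_mul_cancel₀ _ hs]
      refine Prod.ext (by simp) (Prod.ext ?_ ?_)
      · simp only [Prod.smul_mk, smul_eq_mul]
        field_simp
      · simp only [Prod.smul_mk, smul_eq_mul]
        field_simp
  · intro i j hij t
    obtain ⟨r, a, h1, h2⟩ := hb i j hij
    exact ⟨.inl (r, f.symm t), (f.symm t : K) • a, by simp [h1], by simp [h2]⟩

end Pool.Agent.MP_c7a479_co.Ex
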