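import Pool.Agent.MP_c7a479_co.FPriv
import Pool.Agent.MP_c7a479_co.FHeavy

namespace Pool.Agent.MP_c7a479_co.Ex

open Finset
open scoped Classical

/-- The shift of the pair `i, j`. -/
def bet {k : ℕ} (i j : Fin k) : ℕ := 2 * k * (i ^ 2 + i * j + j ^ 2) + (i + j)

theorem bet_lt {k : ℕ} (i j : Fin k) : bet i j < 6 * k ^ 3 := by
  obtain ⟨i, hi⟩ := i
  obtain ⟨j, hj⟩ := j
  obtain ⟨m, rfl⟩ : ∃ m, k = m + 1 := ⟨k - 1, by omega⟩
  have h1 : i ≤ m := by omega
  have h2 : j ≤ m := by omega
  have h3 : i ^ 2 + i * j + j ^ 2 ≤ m ^ 2 + m * m + m ^ 2 := by gcongr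
  have h4 := Nat.mul_le_mul_left (2 * (m + 1)) h3
  simp only [bet]
  nlinarith [Nat.zero_le (m ^ 2), Nat.zero_le m]

theorem bet_inj {k : ℕ} {i j p q : Fin k} (hij : i < j) (hpq : p < q) (h : bet i j = bet p q) :
    i = p ∧ j = q := by
  have h1 : (i : ℕ) + j = p + q := by
    have := congrArg (· % (2 * k)) h
    simp only [bet, Nat.mul_add_mod] at this
    rwa [Nat.mod_eq_of_lt (by omega), Nat.mod_eq_of_lt (by omega)] at this
  have h2 : (i : ℕ) ^ 2 + i * j + j ^ 2 = p ^ 2 + p * q + q ^ 2 := by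
    rw [bet, bet, h1] at h
    exact Nat.eq_of_mul_eq_mul_left (by omega) (Nat.add_right_cancel h)
  have h3 : ((i : ℕ) : ℤ) + (j : ℕ) = (p : ℕ) + (q : ℕ) := by exact_mod_cast h1
  have h4 : ((i : ℕ) : ℤ) ^ 2 + (i : ℕ) * (j : ℕ) + (j : ℕ) ^ 2 =
      (p : ℕ) ^ 2 + (p : ℕ) * (q : ℕ) + (q : ℕ) ^ 2 := by exact_mod_cast h2
  have h5 : (((i : ℕ) : ℤ) - (p : ℕ)) * ((i : ℕ) - (q : ℕ)) = 0 := by
    linear_combination h4 - ((j : ℕ) + (p : ℕ) + (q : ℕ) : ℤ) * h3
  have h6 : (i : ℕ) < j := hij
  have h7 : (p : ℕ) < q := hpq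
  rcases mul_eq_zero.1 h5 with e | e
  · exact ⟨Fin.ext (by omega), Fin.ext (by omega)⟩
  · omega

theorem sum_val {t : ℕ} [NeZero t] (f : ℕ → ℕ) : ∑ ρ : ZMod t, f ρ.val = ∑ v ∈ range t, f v := by
  obtain ⟨s, rfl⟩ := Nat.exists_eq_succ_of_ne_zero (NeZero.ne t)
  exact Fin.sum_univ_eq_sum_range f (s + 1)

theorem unit_sub {k t : ℕ} (hp : ∀ p : ℕ, p.Prime → p ∣ t → k ≤ p) {i j : Fin k} (h : j < i) :
    IsUnit (((i : ℕ) : ZMod t) - (j : ℕ)) := by
  have h1 : (j : ℕ) < i := h
  rw [← Nat.cast_sub h1.le, ZMod.isUnit_iff_coprime]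
  refine Nat.coprime_of_dvd fun p hp' h2 h3 => ?_
  have := Nat.le_of_dvd (by omega) h2
  have := hp p hp' h3
  omega

/-- `a` heavy layers and `b` single new symbols. -/
theorem itd_layers {K : Type} [Field K] [Fintype K] {k t a b : ℕ} {h : Fin k → K}
    (hh : Function.Injective h) (hap : ∀ i j l, h i + h j = 2 * h l → i = j) (hk : 1 ≤ k)
    (hq : 8 * k + 1 < Fintype.card K) (ht : t ≠ 0) (hp : ∀ p : ℕ, p.Prime → p ∣ t → k ≤ p)
    (hab : b * (6 * k ^ 3) + a ≤ t) :
    Itd (Fin k) (Fin (Fintype.card K ^ 3 * t)) (Fin ((Fintype.card K - 1) * a + b)) := by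
  have : NeZero t := ⟨ht⟩
  set S := 6 * k ^ 3 with hS
  have hS0 : 0 < S := by positivity
  have hV : k ≤ Fintype.card (K × K × K) := by
    simp only [Fintype.card_prod]
    exact le_trans (by omega) (Nat.le_mul_of_pos_right _ (by positivity))
  let u : ℕ → ℕ := fun v => if b * S ≤ v ∧ v < b * S + a then Fintype.card K - 1 else 0
  let u' : ℕ → ℕ := fun v => if S ∣ v ∧ v < b * S then 1 else 0
  have main := asm (V := K × K × K) (R := ZMod t) (fun i : Fin k => ((i : ℕ) : ZMod t))
    (fun i => 2 * k * ((i : ℕ) : ZMod t) ^ 3 + ((i : ℕ) : ZMod t) ^ 2) (fun i j => (bet i j : ℕ))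
    (fun i j hij => by
      rcases lt_or_gt_of_ne hij with e | e
      · exact neg_sub ((j : ℕ) : ZMod t) _ ▸ (unit_sub hp e).neg
      · exact unit_sub hp e)
    (fun i j => by simp only [bet]; push_cast; ring)
    (fun ρ => u ρ.val) (fun ρ => u' ρ.val)
    (fun ρ => Fintype.card (K × K × K) - k + 2 * u ρ.val) (fun ρ => k + 2 * u' ρ.val)
    (fun ρ i j g => if ρ.val < b * S ∧ ρ.val % S = bet i j then Spec h i j g else Free h i j g)
    (fun ρ i j g => if S ∣ ρ.val ∧ ρ.val < b * S then Base h i j g else ¬ Free h i j g)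
    (fun ρ => by
      by_cases h1 : ρ.val < b * S
      · have e : u ρ.val = 0 := if_neg (by omega)
        rw [e]
        by_cases h2 : ∃ p q : Fin k, p < q ∧ ρ.val % S = bet p q
        · obtain ⟨p, q, hpq, h2⟩ := h2
          refine (cov_priv hh hap hpq).mono fun i j hij g hg => ?_
          by_cases h3 : i = p ∧ j = q
          · rw [if_pos h3]
            rwa [if_pos ⟨h1, by rw [h2, h3.1, h3.2]⟩] at hg
          · rw [if_neg h3]
            rwa [if_neg fun e => h3 (bet_inj hij hpq (e.2.symm.trans h2))] at hg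
        · refine (cov_free hh).mono fun i j hij g hg => ?_
          rwa [if_neg fun e => h2 ⟨i, j, hij, e.2⟩] at hg
      · by_cases h2 : ρ.val < b * S + a
        · have e : u ρ.val = Fintype.card K - 1 := if_pos ⟨by omega, h2⟩
          rw [e]
          exact (cov_heavy hq hh).mono fun i j _ g hg => by rwa [if_neg fun e => h1 e.1] at hg
        · have e : u ρ.val = 0 := if_neg fun e => h2 e.2
          rw [e]
          exact (cov_free hh).mono fun i j _ g hg => by rwa [if_neg fun e => h1 e.1] at hg)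
    (fun ρ => by
      by_cases h1 : S ∣ ρ.val ∧ ρ.val < b * S
      · have e : u' ρ.val = 1 := if_pos h1
        rw [e]
        exact cov_base.mono fun i j _ g hg => by rwa [if_pos h1] at hg
      · have e : u' ρ.val = 0 := if_neg h1
        rw [e]
        exact cov_hub.mono fun i j _ g hg => by rwa [if_neg h1] at hg)
    (fun ρ => by omega)
    (fun i j _ ρ g => by
      have hb : bet i j < S := bet_lt i j
      by_cases h1 : S ∣ ρ.val ∧ ρ.val < b * S
      · obtain ⟨⟨c, hc⟩, h2⟩ := id h1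
        have h3 : c + 1 ≤ b := by
          rw [hc, mul_comm] at h2
          exact Nat.lt_of_mul_lt_mul_right h2
        have h4 : S * c + S ≤ b * S := by nlinarith
        have h5 : (ρ + (bet i j : ℕ)).val = S * c + bet i j := by
          rw [← ZMod.natCast_zmod_val ρ, ← Nat.cast_add, ZMod.val_natCast_of_lt (by omega), hc]
        rw [if_pos h1, if_pos ⟨by omega, by rw [h5, Nat.mul_add_mod, Nat.mod_eq_of_lt hb]⟩]
        exact spec_or_base h i j g
      · rw [if_neg h1, if_neg]
        · exact em _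
        rintro ⟨h2, h3⟩
        have h4 := Nat.div_add_mod (ρ + (bet i j : ℕ)).val S
        set c := (ρ + (bet i j : ℕ)).val / S
        have h5 : ρ = ((S * c : ℕ) : ZMod t) := by
          have := ZMod.natCast_zmod_val (ρ + ((bet i j : ℕ) : ZMod t))
          rw [← h4, h3, Nat.cast_add] at this
          exact (add_right_cancel this).symm
        have h6 : ρ.val = S * c := by rw [h5, ZMod.val_natCast_of_lt (by omega)]
        exact h1 ⟨⟨c, h6⟩, by omega⟩)
  refine main.itd.of_card (by simp only [Fintype.card_prod, ZMod.card, Fintype.card_fin]; ring) ?_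
  simp only [Fintype.card_sum, Fintype.card_sigma, Fintype.card_fin]
  rw [sum_val u, sum_val u']
  congr 1
  · rw [← sum_filter, sum_const, smul_eq_mul, mul_comm]
    congr 1
    rw [show filter (fun v => b * S ≤ v ∧ v < b * S + a) (range t) = Ico (b * S) (b * S + a) by
      ext v
      simp only [mem_filter, mem_range, mem_Ico]
      omega]
    simp
  · rw [← sum_filter, sum_const, smul_eq_mul, mul_one,
      show filter (fun v => S ∣ v ∧ v < b * S) (range t) = (range b).image (· * S) by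
        ext v
        simp only [mem_filter, mem_range, mem_image]
        constructor
        · rintro ⟨-, ⟨c, rfl⟩, h2⟩
          rw [mul_comm] at h2
          exact ⟨c, Nat.lt_of_mul_lt_mul_right h2, mul_comm _ _⟩
        · rintro ⟨c, h1, rfl⟩
          have := Nat.mul_lt_mul_of_pos_right h1 hS0
          exact ⟨by omega, dvd_mul_left _ _, this⟩,
      card_image_of_injective _ (mul_left_injective₀ hS0.ne'), card_range]

end Pool.Agent.MP_c7a479_co.Ex
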