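import Pool.Agent.MP_c7a479_co.FDefs
import Pool.Agent.MP_c7a479_co.EGad

namespace Pool.Agent.MP_c7a479_co.Ex

open Finset
open scoped Classical

variable {K : Type} [Field K] {k : ℕ}

/-- The private layer of the pair `p < q`: one switching gadget. -/
theorem cov_priv [Fintype K] {a : Fin k → K} (ha : Function.Injective a)
    (hap : ∀ i j l, a i + a j = 2 * a l → i = j) {p q : Fin k} (hpq : p < q) :
    Cov k (K × K × K) 0 (Fintype.card (K × K × K) - k)
      fun i j g => if i = p ∧ j = q then Spec a i j g else Free a i j g := by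
  have hA : a p - a q ≠ 0 := sub_ne_zero.2 (ha.ne hpq.ne)
  have hI : Ind3 K ((-1, a p, 0) : K × K × K) (0, 0, 1) (-1, a q, 1) := by
    intro x y z h
    simp only [Prod.smul_mk, smul_eq_mul, Prod.mk_add_mk, Prod.mk_eq_zero] at h
    obtain ⟨h1, h2, h3⟩ := h
    have hx : x = 0 := by
      apply (mul_eq_zero.1 (?_ : x * (a p - a q) = 0)).resolve_right hA
      linear_combination h2 + a q * h1
    have hz : z = 0 := by linear_combination -h1 - hx
    exact ⟨hx, by linear_combination h3 - hz, hz⟩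
  obtain ⟨Y, Z, hY, hZ, hS⟩ := gadget (o := ((1, 0, -1) : K × K × K)) hI hA
  set G := Gd K ((1, 0, -1) : K × K × K) (-1, a p, 0) (0, 0, 1) (-1, a q, 1) with hG
  have hc : ∀ s ∈ G, ∀ l, s ≠ hub a l := by
    rintro s ((⟨t, rfl⟩ | ⟨t, rfl⟩) | ⟨t, rfl⟩) l e
    · simpa [hub] using congrArg (fun v => v.2.2) e
    · simpa [hub] using congrArg Prod.fst e
    · have e1 := congrArg Prod.fst e
      have e2 := congrArg (fun v => v.2.2) e
      simp only [hub, Prod.smul_mk, smul_eq_mul, Prod.mk_add_mk] at e1 e2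
      exact one_ne_zero (α := K) (by linear_combination -e1 - e2)
  let pe : K × K × K → Fin k → K × K × K := fun s i =>
    if s ∈ G then (if i = p then Y s else if i = q then Z s else 0) else 0
  refine ⟨{s // ∀ l, s ≠ hub a l}, inferInstance, fun s i => .inl (a i • s.1 + pe s.1 i),
    (card_off (hub_inj ha)).le, fun i j hij g hg => ?_, fun _ _ _ h => h.elim0⟩
  have hB : a i - a j ≠ 0 := sub_ne_zero.2 (ha.ne hij.ne)
  obtain ⟨v, rfl⟩ : ∃ v, g = (a i - a j) • v := ⟨(a i - a j)⁻¹ • g, (smul_inv_smul₀ hB g).symm⟩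
  have inj : ∀ x y : K × K × K, (a i - a j) • x = (a i - a j) • y ↔ x = y := fun x y =>
    (smul_right_injective _ hB).eq_iff
  suffices h : ∃ s, (∀ l, s ≠ hub a l) ∧ s + (a i - a j)⁻¹ • (pe s i - pe s j) = v by
    obtain ⟨s, h1, h2⟩ := h
    refine ⟨⟨s, h1⟩, _, _, rfl, rfl, ?_⟩
    rw [← h2, smul_add, smul_inv_smul₀ hB, sub_smul]
    abel
  by_cases hv : v ∈ G ∨ (i = p ∧ j = q ∧ (v = hub a i ∨ v = hub a j))
  swap
  · push Not at hv
    refine ⟨v, fun l e => ?_, by simp [pe, hv.1]⟩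
    split_ifs at hg with h
    · rcases hg with hg | hg | hg
      · exact hg.1 l (by rw [e])
      · exact (hv.2 h.1 h.2).1 ((inj _ _).1 hg)
      · exact (hv.2 h.1 h.2).2 ((inj _ _).1 hg)
    · exact hg l (by rw [e])
  by_cases h : i = p ∧ j = q
  · obtain ⟨rfl, rfl⟩ := h
    rw [if_pos ⟨rfl, rfl⟩] at hg
    obtain ⟨s, hs, hs'⟩ := hS v (by
      have e1 : hub a i = (1, 0, -1) + (-1, a i, 0) + (0, 0, 1) := by simp [hub]
      have e2 : hub a j = (1, 0, -1) + (-1, a j, 1) := by simp [hub]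
      rcases hg with ⟨h1, h2, h3⟩ | hg | hg
      · rcases hv with hv | ⟨-, -, hv | hv⟩
        · refine Or.inl ⟨hv, fun e => h2 ?_, fun e => h3 ?_⟩
          · rw [e]; simp
          · rw [e]; simp
        · exact absurd (by rw [hv]) (h1 i)
        · exact absurd (by rw [hv]) (h1 j)
      · exact Or.inr (Or.inl (((inj _ _).1 hg).trans e1))
      · exact Or.inr (Or.inr (((inj _ _).1 hg).trans e2)))
    exact ⟨s, hc s hs, by simpa [pe, hs, hij.ne'] using hs'⟩
  have hv : v ∈ G := hv.resolve_right fun e => h ⟨e.1, e.2.1⟩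
  by_cases hip : i = p
  · subst hip
    have hjq : j ≠ q := fun e => h ⟨rfl, e⟩
    obtain ⟨s, hs, hs'⟩ := hY (a i - a j)⁻¹ (by
      intro e
      apply hij.ne (hap i j q ?_)
      field_simp at e
      linear_combination -e) v hv
    exact ⟨s, hc s hs, by simpa [pe, hs, hij.ne', hjq] using hs'⟩
  by_cases hjp : j = p
  · subst hjp
    have hiq : i ≠ q := (hij.trans hpq).ne
    obtain ⟨s, hs, hs'⟩ := hY (-(a i - a j)⁻¹) (by
      intro e
      apply hij.ne (hap i j q ?_)
      field_simp at e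
      linear_combination e) v hv
    exact ⟨s, hc s hs, by simpa [pe, hs, hip, hiq] using hs'⟩
  obtain ⟨s, hs, hs'⟩ := hZ ((a i - a j)⁻¹ *
    ((if i = q then 1 else 0) - if j = q then 1 else 0)) v hv
  refine ⟨s, hc s hs, ?_⟩
  rw [← hs', mul_smul, sub_smul]
  simp only [pe, if_pos hs, if_neg hip, if_neg hjp, ite_smul, one_smul, zero_smul]

end Pool.Agent.MP_c7a479_co.Ex
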