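import Pool.Agent.Mg.Fc7a479.Ga95bd4
import Pool.Agent.Mg.Fc7a479.Gf55335

namespace Pool.Agent.MP_c7a479_co.LowerBoundVariant

open Pool.Agent.MP_c7a479_co

theorem result (m n : ℕ) (hm : 3 ≤ m) (hn : 3 ≤ n) (h6 : n = 6 → 5 ≤ m) :
    HasVarSet m n (m + 1) := by
  by_cases h : n = 6
  · subst h
    exact hasVarSet_six (h6 rfl)
  · exact hasVarSet_succ hm hn h

end Pool.Agent.MP_c7a479_co.LowerBoundVariant
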