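import Pool.Agent.MP_c7a479_co.DualOval

namespace Pool.Agent.MP_c7a479_co.NearDiagonalVariant

open Pool.Agent.MP_c7a479_co

theorem result (m n : ℕ) (hn : 4 ≤ n) (he : Even n) (h3 : ¬3 ∣ n) (hm : n ≤ m + 2) :
    (∀ k, HasVarSet m n k → k ≤ m + 3) ∧
      ∀ h : ℕ, 3 ≤ h → n = 2 ^ h → m < n → PiEq m n (m + 3) :=
  ⟨fun _ hk => D4.le_add_three hk hn he h3 hm, fun _ hh e hlt =>
    ⟨e ▸ D4.hasVarSet_two_pow hh (e ▸ hm) (e ▸ hlt), fun _ hk => D4.le_add_three hk hn he h3 hm⟩⟩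

end Pool.Agent.MP_c7a479_co.NearDiagonalVariant
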