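import Pool.Agent.MP_c7a479_co.Upper

namespace Pool.Agent.MP_c7a479_co

open Function

/-- A latin square, as a binary operation. -/
def IsLatin {α : Type} (P : α → α → α) : Prop :=
  (∀ a, Bijective (P a)) ∧ ∀ b, Bijective fun a => P a b

/-- A pair of orthogonal latin squares on `α`. -/
def HasOLS (α : Type) : Prop :=
  ∃ P Q : α → α → α, IsLatin P ∧ IsLatin Q ∧
    ∀ a b a' b', P a b = P a' b' → Q a b = Q a' b' → a = a' ∧ b = b'

/-- A covering form of an orthogonal array with four columns. -/
def Cov (α : Type) [Fintype α] : Prop :=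
  ∃ (X : Type) (_ : Fintype X) (C : Fin 4 → X → α), Fintype.card X ≤ Fintype.card α ^ 2 ∧
    ∀ i j, i ≠ j → ∀ a b, ∃ x, C i x = a ∧ C j x = b

theorem Cov.hasOLS {α : Type} [Fintype α] (h : Cov α) : HasOLS α := by
  classical
  obtain ⟨X, _, C, hc, h⟩ := h
  have hb : ∀ i j, i ≠ j → Bijective fun x => (C i x, C j x) := by
    intro i j hij
    have hs : Surjective fun x => (C i x, C j x) := fun p => by
      obtain ⟨x, h1, h2⟩ := h i j hij p.1 p.2
      exact ⟨x, Prod.ext h1 h2⟩
    have := Fintype.card_le_of_surjective _ hs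
    refine (Fintype.bijective_iff_surjective_and_card _).mpr ⟨hs, ?_⟩
    rw [Fintype.card_prod] at this ⊢
    rw [sq] at hc
    omega
  have hinj : ∀ i j, i ≠ j → ∀ x y, C i x = C i y → C j x = C j y → x = y :=
    fun i j hij x y h1 h2 => (hb i j hij).1 (Prod.ext h1 h2)
  choose r h0 h1 using h 0 1 (by decide)
  have hr : ∀ a b a' b', r a b = r a' b' → a = a' ∧ b = b' := fun a b a' b' h =>
    ⟨by rw [← h0 a b, h, h0], by rw [← h1 a b, h, h1]⟩
  have hl : ∀ k : Fin 4, k ≠ 0 → k ≠ 1 → IsLatin fun a b => C k (r a b) := by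
    intro k k0 k1
    refine ⟨fun a => Injective.bijective_of_finite fun b b' hbb => ?_,
      fun b => Injective.bijective_of_finite fun a a' haa => ?_⟩
    · exact (hr _ _ _ _ (hinj k 0 k0 _ _ hbb (by rw [h0, h0]))).2
    · exact (hr _ _ _ _ (hinj k 1 k1 _ _ haa (by rw [h1, h1]))).1
  exact ⟨_, _, hl 2 (by decide) (by decide), hl 3 (by decide) (by decide),
    fun a b a' b' e1 e2 => hr _ _ _ _ (hinj 2 3 (by decide) _ _ e1 e2)⟩

theorem Cov.of_equiv {α β : Type} [Fintype α] [Fintype β] (h : Cov α) (e : α ≃ β) : Cov β := by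
  obtain ⟨X, _, C, hc, h⟩ := h
  refine ⟨X, inferInstance, fun i x => e (C i x), by rwa [← Fintype.card_congr e], ?_⟩
  intro i j hij a b
  obtain ⟨x, h1, h2⟩ := h i j hij (e.symm a) (e.symm b)
  exact ⟨x, by simp [h1], by simp [h2]⟩

theorem Cov.of_card {α β : Type} [Fintype α] [Fintype β] (h : Cov α)
    (e : Fintype.card α = Fintype.card β) : Cov β := h.of_equiv (Fintype.equivOfCardEq e)

theorem Cov.prod {α β : Type} [Fintype α] [Fintype β] (h : Cov α) (h' : Cov β) :
    Cov (α × β) := by
  obtain ⟨X, _, C, hc, h⟩ := h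
  obtain ⟨Y, _, D, hd, h'⟩ := h'
  refine ⟨X × Y, inferInstance, fun i x => (C i x.1, D i x.2), ?_, ?_⟩
  · rw [Fintype.card_prod, Fintype.card_prod, mul_pow]
    exact Nat.mul_le_mul hc hd
  · intro i j hij a b
    obtain ⟨x, h1, h2⟩ := h i j hij a.1 b.1
    obtain ⟨y, h3, h4⟩ := h' i j hij a.2 b.2
    exact ⟨(x, y), Prod.ext h1 h3, Prod.ext h2 h4⟩

theorem cov_mul {a b : ℕ} (h : Cov (Fin a)) (h' : Cov (Fin b)) : Cov (Fin (a * b)) :=
  (h.prod h').of_card (by simp)

/-- Linear forms `s` and `b + c s`. -/
def lin {R : Type} [CommRing R] (i : Option (Fin 4)) (y : R × R) : R :=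
  match i with
  | none => y.1
  | some c => y.2 + (c : ℕ) * y.1

theorem lin_ex {R : Type} [CommRing R] (i j : Option (Fin 4)) (hij : i ≠ j)
    (hu : ∀ a b : Fin 4, i = some a → j = some b → IsUnit (((a : ℕ) : R) - (b : ℕ))) (p q : R) :
    ∃ y : R × R, lin i y = p ∧ lin j y = q := by
  rcases i with _ | a <;> rcases j with _ | b
  · exact absurd rfl hij
  · exact ⟨(p, q - (b : ℕ) * p), rfl, by simp [lin]⟩
  · exact ⟨(q, p - (a : ℕ) * q), by simp [lin], rfl⟩
  · obtain ⟨u, hu⟩ := (hu a b rfl rfl).exists_right_inv
    refine ⟨(u * (p - q), p - (a : ℕ) * (u * (p - q))), by simp [lin], ?_⟩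
    simp only [lin]
    linear_combination (q - p) * hu

theorem cov_odd {n : ℕ} (hn : Odd n) : Cov (Fin n) := by
  haveI : NeZero n := ⟨by rintro rfl; simp at hn⟩
  have h2 : IsUnit (2 : ZMod n) := by
    have := (ZMod.isUnit_iff_coprime 2 n).mpr ((Nat.coprime_two_left).mpr hn)
    simpa using this
  refine Cov.of_card (α := ZMod n) ⟨ZMod n × ZMod n, inferInstance,
    fun i => lin (![none, some 0, some 1, some 2] i), by simp [sq], ?_⟩ (by simp)
  intro i j hij a b
  refine lin_ex _ _ ?_ ?_ a b
  · revert i j; decide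
  · intro a b ha hb
    fin_cases i <;> fin_cases j <;> simp at ha hb hij <;> subst ha <;> subst hb <;> norm_num <;>
      first | exact h2 | exact h2.neg

def tab (N n a b : ℕ) : ℕ := N >>> (4 * (a * n + b)) % 16

def row (n NP NQ : ℕ) (r : ℕ) (i : Fin 4) : ℕ :=
  ![r / n, r % n, tab NP n (r / n) (r % n), tab NQ n (r / n) (r % n)] i

def chk (n NP NQ : ℕ) : Bool :=
  (List.finRange 4).all fun i => (List.finRange 4).all fun j => i == j ||
    (List.range n).all fun a => (List.range n).all fun b =>
      (List.range (n * n)).any fun r => row n NP NQ r i == a && row n NP NQ r j == b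

theorem cov_of_chk (n NP NQ : ℕ) (hn : 0 < n) (h : chk n NP NQ = true) : Cov (Fin n) := by
  refine ⟨Fin (n * n), inferInstance, fun i r => ⟨row n NP NQ r i % n, Nat.mod_lt _ hn⟩,
    by simp [sq], ?_⟩
  intro i j hij a b
  simp only [chk, List.all_eq_true, List.mem_finRange, forall_const, Bool.or_eq_true, beq_iff_eq,
    List.mem_range, List.any_eq_true, Bool.and_eq_true] at h
  obtain ⟨r, hr, h1, h2⟩ := ((h i j).resolve_left hij) a a.2 b b.2
  exact ⟨⟨r, hr⟩, Fin.ext (by simp [h1, Nat.mod_eq_of_lt a.2]),
    Fin.ext (by simp [h2, Nat.mod_eq_of_lt b.2])⟩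

theorem cov_4 : Cov (Fin 4) :=
  cov_of_chk 4
    81927025744491024
    2311244918467662624
    (by decide) (by decide +kernel)

theorem cov_8 : Cov (Fin 8) :=
  cov_of_chk 8
    514631494928646303341455936939146235248427799039887685160188751890747765264
    14650829345046748877112246722012837689969094235904073787632533748873585452064
    (by decide) (by decide +kernel)

theorem cov_10 : Cov (Fin 10) :=
  cov_of_chk 10
    1367656593960172020520463790186141020486445632165915545386398693371602831849848448782565751612356230854474967138011776825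
    1216268832832863134406278963491912148197995257514116265900151615012179542784309293112922782845916704411155122476137149075
    (by decide) (by decide +kernel)

theorem cov_14 : Cov (Fin 14) :=
  cov_of_chk 14
    81005800758972911291805858119311091217571294417937083276791548821319122595849569841665449002229485580477560290889428406819814689562177341931918088780143036986619303839583115250866856542127054434591292626689087240050695384786451961640349
    75049028202726654479839444158194969774714058388524198653940362251917240152582225728895289850033294981217076071261487506244986328167172934439057238763634091445512576106591155149907227173620940349850934176854155475422379616267330521221574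
    (by decide) (by decide +kernel)

end Pool.Agent.MP_c7a479_co
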