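import Pool.Agent.MP_c7a479_co.OLS
import Pool.Agent.MP_c7a479_co.TarryRun

namespace Pool.Agent.MP_c7a479_co

open Function

namespace Tarry

theorem testBit_one_shift (n i : ℕ) : (Nat.shiftLeft 1 n).testBit i = true ↔ i = n := by
  have : Nat.shiftLeft 1 n = 2 ^ n := by
    show 1 <<< n = 2 ^ n
    rw [Nat.one_shiftLeft]
  rw [this, Nat.testBit_two_pow]
  simp [eq_comm]

theorem testBit_lor (a b i : ℕ) :
    (Nat.lor a b).testBit i = true ↔ a.testBit i = true ∨ b.testBit i = true := by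
  have : Nat.lor a b = a ||| b := rfl
  rw [this, Nat.testBit_or, Bool.or_eq_true]

theorem land_eq_zero (a b : ℕ) :
    Nat.land a b = 0 ↔ ∀ i, a.testBit i = true → b.testBit i = true → False := by
  have : Nat.land a b = a &&& b := rfl
  rw [this]
  constructor
  · intro h i h1 h2
    have := congrArg (fun n => Nat.testBit n i) h
    simp [Nat.testBit_and, h1, h2] at this
  · intro h
    apply Nat.eq_of_testBit_eq
    intro i
    rw [Nat.testBit_and, Nat.zero_testBit]
    cases h1 : a.testBit i <;> cases h2 : b.testBit i <;> simp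
    exact h i h1 h2

theorem testBit_mask (a b c d i : ℕ) : (mask a b c d).testBit i = true ↔
    i = 6 * a + b ∨ i = 36 + (6 * a + c) ∨ i = 72 + (6 * a + d) ∨ i = 108 + (6 * b + c) ∨
      i = 144 + (6 * b + d) ∨ i = 180 + (6 * c + d) := by
  simp only [mask, testBit_lor, testBit_one_shift]
  rfl

section Sound

variable {X : Type} (M : X → ℕ)

/-- The covered pairs are a union of masks of rows. -/
def Inv (cov : ℕ) : Prop :=
  ∀ u i, (M u).testBit i = true → cov.testBit i = true →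
    ∀ j, (M u).testBit j = true → cov.testBit j = true

variable {M}

theorem inv_zero : Inv M 0 := fun u i _ h => by simp at h

theorem Inv.add (hd : ∀ u v i, (M u).testBit i = true → (M v).testBit i = true → u = v)
    {cov : ℕ} (h : Inv M cov) (v : X) : Inv M (Nat.lor cov (M v)) := by
  intro u i h1 h2 j h3
  rw [testBit_lor] at h2 ⊢
  rcases h2 with h2 | h2
  · exact Or.inl (h u i h1 h2 j h3)
  · rw [hd u v i h1 h2] at h3
    exact Or.inr h3

theorem step_ne (g : ℕ → ℕ → ℕ) (cov k a b j s : ℕ) (h : step g cov k a b j s ≠ 0) :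
    s ≠ 0 ∧ (Nat.land (cand k a b (j / 6) (j % 6)) cov = 0 →
      g (Nat.lor cov (cand k a b (j / 6) (j % 6))) s ≠ 0) := by
  simp only [step, frc_eq] at h
  have hs : s ≠ 0 := by
    rintro rfl
    exact h rfl
  refine ⟨hs, fun h0 => ?_⟩
  have e1 : Nat.beq s 0 = false := by
    cases s with
    | zero => exact absurd rfl hs
    | succ n => rfl
  have e2 : Nat.beq (Nat.land (cand k a b (Nat.div j 6) (Nat.mod j 6)) cov) 0 = true := by
    have : Nat.land (cand k a b (Nat.div j 6) (Nat.mod j 6)) cov = 0 := h0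
    rw [this]; rfl
  rw [e1, e2] at h
  exact h

theorem loop_ne (g : ℕ → ℕ → ℕ) (cov k a b s0 n : ℕ) (h : loop g cov k a b s0 n ≠ 0) :
    ∀ j < n, Nat.land (cand k a b (j / 6) (j % 6)) cov = 0 →
      ∃ s, g (Nat.lor cov (cand k a b (j / 6) (j % 6))) s ≠ 0 := by
  induction n with
  | zero => intro j hj; omega
  | succ n ih =>
    have h' : step g cov k a b n (loop g cov k a b s0 n) ≠ 0 := h
    obtain ⟨h1, h2⟩ := step_ne _ _ _ _ _ _ _ h'
    intro j hj h0
    rcases Nat.lt_succ_iff_lt_or_eq.mp hj with hj | rfl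
    · exact ih h1 j hj h0
    · exact ⟨_, h2 h0⟩

theorem go_sound (hd : ∀ u v i, (M u).testBit i = true → (M v).testBit i = true → u = v)
    (hc : ∀ x, x ≤ 215 → ∃ u, ∃ j < 36, M u = cand (x / 36) (x / 6 % 6) (x % 6) (j / 6) (j % 6) ∧
      (M u).testBit x = true) (f : ℕ) : ∀ cov s, Inv M cov → go f cov s = 0 := by
  induction f with
  | zero => intro _ _ _; rfl
  | succ f ih =>
    intro cov s hI
    by_contra hne
    have h : node (go f) cov s ≠ 0 := hne
    simp only [node, frc_eq] at h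
    cases hb : (Nat.ble (Nat.mod s 256) 215 &&
        Nat.beq (Nat.land (Nat.shiftLeft 1 (Nat.mod s 256)) cov) 0) with
    | false => rw [hb] at h; exact h rfl
    | true =>
      rw [hb, cond_true] at h
      rw [Bool.and_eq_true] at hb
      have hx : Nat.mod s 256 ≤ 215 := Nat.le_of_ble_eq_true hb.1
      have h0 := (land_eq_zero _ _).mp (Nat.eq_of_beq_eq_true hb.2) (Nat.mod s 256)
        ((testBit_one_shift _ _).mpr rfl)
      obtain ⟨u, j, hj, hu1, hu2⟩ := hc _ hx
      have h1 : Nat.land (M u) cov = 0 :=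
        (land_eq_zero _ _).mpr fun i h1 h2 => h0 (hI u i h1 h2 _ hu2)
      have h2 := loop_ne _ _ _ _ _ _ _ h j hj (by rw [hu1] at h1; exact h1)
      obtain ⟨s', hs'⟩ := h2
      refine hs' (ih _ _ ?_)
      have := hI.add hd u
      rw [hu1] at this
      exact this

end Sound

/-- An orthogonal array with four columns over six symbols. -/
structure OA4 {X : Type} (c0 c1 c2 c3 : X → Fin 6) : Prop where
  h01 : Bijective fun x => (c0 x, c1 x)
  h02 : Bijective fun x => (c0 x, c2 x)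
  h03 : Bijective fun x => (c0 x, c3 x)
  h12 : Bijective fun x => (c1 x, c2 x)
  h13 : Bijective fun x => (c1 x, c3 x)
  h23 : Bijective fun x => (c2 x, c3 x)

variable {X : Type} {c0 c1 c2 c3 : X → Fin 6}

theorem OA4.map (h : OA4 c0 c1 c2 c3) {e0 e1 e2 e3 : Fin 6 → Fin 6} (b0 : Bijective e0)
    (b1 : Bijective e1) (b2 : Bijective e2) (b3 : Bijective e3) :
    OA4 (fun x => e0 (c0 x)) (fun x => e1 (c1 x)) (fun x => e2 (c2 x)) (fun x => e3 (c3 x)) :=
  ⟨(b0.prodMap b1).comp h.h01, (b0.prodMap b2).comp h.h02, (b0.prodMap b3).comp h.h03,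
    (b1.prodMap b2).comp h.h12, (b1.prodMap b3).comp h.h13, (b2.prodMap b3).comp h.h23⟩

theorem OA4.disj (h : OA4 c0 c1 c2 c3) (u v : X) (i : ℕ)
    (h1 : (mask (c0 u) (c1 u) (c2 u) (c3 u)).testBit i = true)
    (h2 : (mask (c0 v) (c1 v) (c2 v) (c3 v)).testBit i = true) : u = v := by
  rw [testBit_mask] at h1 h2
  have a0 := (c0 u).2; have a1 := (c1 u).2; have a2 := (c2 u).2; have a3 := (c3 u).2
  have b0 := (c0 v).2; have b1 := (c1 v).2; have b2 := (c2 v).2; have b3 := (c3 v).2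
  rcases h1 with h1 | h1 | h1 | h1 | h1 | h1
  · exact h.h01.1 (Prod.ext (Fin.ext (by dsimp only; omega)) (Fin.ext (by dsimp only; omega)))
  · exact h.h02.1 (Prod.ext (Fin.ext (by dsimp only; omega)) (Fin.ext (by dsimp only; omega)))
  · exact h.h03.1 (Prod.ext (Fin.ext (by dsimp only; omega)) (Fin.ext (by dsimp only; omega)))
  · exact h.h12.1 (Prod.ext (Fin.ext (by dsimp only; omega)) (Fin.ext (by dsimp only; omega)))
  · exact h.h13.1 (Prod.ext (Fin.ext (by dsimp only; omega)) (Fin.ext (by dsimp only; omega)))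
  · exact h.h23.1 (Prod.ext (Fin.ext (by dsimp only; omega)) (Fin.ext (by dsimp only; omega)))

theorem pair_ex {c c' : X → Fin 6} (h : Bijective fun x => (c x, c' x)) (a b : ℕ) (ha : a < 6)
    (hb : b < 6) : ∃ u, (c u : ℕ) = a ∧ (c' u : ℕ) = b := by
  obtain ⟨u, hu⟩ := h.2 (⟨a, ha⟩, ⟨b, hb⟩)
  simp only [Prod.mk.injEq] at hu
  exact ⟨u, by rw [hu.1], by rw [hu.2]⟩

theorem OA4.cover (h : OA4 c0 c1 c2 c3) (x : ℕ) (hx : x ≤ 215) :
    ∃ u, ∃ j < 36, mask (c0 u) (c1 u) (c2 u) (c3 u) =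
      cand (x / 36) (x / 6 % 6) (x % 6) (j / 6) (j % 6) ∧
      (mask (c0 u) (c1 u) (c2 u) (c3 u)).testBit x = true := by
  have ha : x / 6 % 6 < 6 := Nat.mod_lt _ (by norm_num)
  have hb : x % 6 < 6 := Nat.mod_lt _ (by norm_num)
  have key : ∀ p q : Fin 6, 6 * (p : ℕ) + q < 36 ∧ (6 * (p : ℕ) + q) / 6 = p ∧
      (6 * (p : ℕ) + q) % 6 = q := fun p q => by
    have := p.2; have := q.2; omega
  have hk : x / 36 = 0 ∨ x / 36 = 1 ∨ x / 36 = 2 ∨ x / 36 = 3 ∨ x / 36 = 4 ∨ x / 36 = 5 := by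
    omega
  rcases hk with hk | hk | hk | hk | hk | hk
  · obtain ⟨u, h1, h2⟩ := pair_ex h.h01 _ _ ha hb
    obtain ⟨k1, k2, k3⟩ := key (c2 u) (c3 u)
    refine ⟨u, _, k1, ?_, by rw [testBit_mask]; omega⟩
    rw [k2, k3, hk, ← h1, ← h2]; rfl
  · obtain ⟨u, h1, h2⟩ := pair_ex h.h02 _ _ ha hb
    obtain ⟨k1, k2, k3⟩ := key (c1 u) (c3 u)
    refine ⟨u, _, k1, ?_, by rw [testBit_mask]; omega⟩
    rw [k2, k3, hk, ← h1, ← h2]; rfl
  · obtain ⟨u, h1, h2⟩ := pair_ex h.h03 _ _ ha hb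
    obtain ⟨k1, k2, k3⟩ := key (c1 u) (c2 u)
    refine ⟨u, _, k1, ?_, by rw [testBit_mask]; omega⟩
    rw [k2, k3, hk, ← h1, ← h2]; rfl
  · obtain ⟨u, h1, h2⟩ := pair_ex h.h12 _ _ ha hb
    obtain ⟨k1, k2, k3⟩ := key (c0 u) (c3 u)
    refine ⟨u, _, k1, ?_, by rw [testBit_mask]; omega⟩
    rw [k2, k3, hk, ← h1, ← h2]; rfl
  · obtain ⟨u, h1, h2⟩ := pair_ex h.h13 _ _ ha hb
    obtain ⟨k1, k2, k3⟩ := key (c0 u) (c2 u)
    refine ⟨u, _, k1, ?_, by rw [testBit_mask]; omega⟩
    rw [k2, k3, hk, ← h1, ← h2]; rfl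
  · obtain ⟨u, h1, h2⟩ := pair_ex h.h23 _ _ ha hb
    obtain ⟨k1, k2, k3⟩ := key (c0 u) (c1 u)
    refine ⟨u, _, k1, ?_, by rw [testBit_mask]; omega⟩
    rw [k2, k3, hk, ← h1, ← h2]; rfl

/-- The pairs covered by the normalised first row and first column. -/
def start (t : Fin 6 → Fin 6) : ℕ :=
  (List.finRange 6).foldl (fun s (a : Fin 6) => Nat.lor s (mask a 0 a (t a)))
    ((List.finRange 6).foldl (fun s (b : Fin 6) => Nat.lor s (mask 0 b b b)) 0)

theorem OA4.go_start (h : OA4 c0 c1 c2 c3) (t : Fin 6 → Fin 6)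
    (hr : ∀ b, ∃ x, c0 x = 0 ∧ c1 x = b ∧ c2 x = b ∧ c3 x = b)
    (hc : ∀ a, ∃ x, c0 x = a ∧ c1 x = 0 ∧ c2 x = a ∧ c3 x = t a) (f s : ℕ) :
    go f (start t) s = 0 := by
  refine go_sound (M := fun u => mask (c0 u) (c1 u) (c2 u) (c3 u)) h.disj h.cover f _ s ?_
  have gen : ∀ (m : Fin 6 → ℕ), (∀ a, ∃ u, mask (c0 u) (c1 u) (c2 u) (c3 u) = m a) →
      ∀ (l : List (Fin 6)) (cov : ℕ), Inv (fun u => mask (c0 u) (c1 u) (c2 u) (c3 u)) cov →
        Inv (fun u => mask (c0 u) (c1 u) (c2 u) (c3 u))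
          (l.foldl (fun s a => Nat.lor s (m a)) cov) := by
    intro m hm l
    induction l with
    | nil => intro cov hI; exact hI
    | cons a l ih =>
      intro cov hI
      obtain ⟨u, hu⟩ := hm a
      refine ih _ ?_
      have := hI.add h.disj u
      simp only [hu] at this
      exact this
  refine gen _ (fun a => ?_) _ _ (gen _ (fun b => ?_) _ _ inv_zero)
  · obtain ⟨x, h0, h1, h2, h3⟩ := hc a
    exact ⟨x, by rw [h0, h1, h2, h3]; rfl⟩
  · obtain ⟨x, h0, h1, h2, h3⟩ := hr b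
    exact ⟨x, by rw [h0, h1, h2, h3]; rfl⟩

theorem conj_ex : ∀ t : Equiv.Perm (Fin 6), t 0 = 0 → (∀ a, a ≠ 0 → t a ≠ a) →
    ∃ p : Equiv.Perm (Fin 6), p 0 = 0 ∧
      ((∀ a, p (t a) = ![0, 2, 3, 4, 5, 1] (p a)) ∨ ∀ a, p (t a) = ![0, 2, 1, 4, 5, 3] (p a)) := by
  decide +kernel

theorem OA4.false_of_norm (h : OA4 c0 c1 c2 c3) (t : Fin 6 → Fin 6)
    (hr : ∀ b, ∃ x, c0 x = 0 ∧ c1 x = b ∧ c2 x = b ∧ c3 x = b)
    (hc : ∀ a, ∃ x, c0 x = a ∧ c1 x = 0 ∧ c2 x = a ∧ c3 x = t a) : False := by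
  have ht : Injective t := by
    intro a a' haa
    obtain ⟨x, h0, h1, -, h3⟩ := hc a
    obtain ⟨y, k0, k1, -, k3⟩ := hc a'
    have : x = y := h.h13.1 (Prod.ext (h1.trans k1.symm) (by dsimp only; rw [h3, k3, haa]))
    rw [← h0, this, k0]
  have ht0 : t 0 = 0 := by
    obtain ⟨x, h0, h1, -, h3⟩ := hc 0
    obtain ⟨y, k0, k1, -, k3⟩ := hr 0
    have : x = y := h.h01.1 (Prod.ext (h0.trans k0.symm) (h1.trans k1.symm))
    rw [← h3, this, k3]
  have ht1 : ∀ a, a ≠ 0 → t a ≠ a := by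
    intro a ha hta
    obtain ⟨x, h0, -, h2, h3⟩ := hc a
    obtain ⟨y, k0, -, k2, k3⟩ := hr a
    have : x = y := h.h23.1 (Prod.ext (h2.trans k2.symm) (by dsimp only; rw [h3, k3, hta]))
    exact ha (by rw [← h0, this, k0])
  obtain ⟨p, hp0, hp⟩ := conj_ex (Equiv.ofBijective t ht.bijective_of_finite) ht0 ht1
  have h' := h.map p.bijective p.bijective p.bijective p.bijective
  have main : ∀ t' : Fin 6 → Fin 6, (∀ a, p (t a) = t' (p a)) → ∀ f s, go f (start t') s = 0 := by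
    intro t' ht' f s
    refine h'.go_start t' (fun b => ?_) (fun a => ?_) f s
    · obtain ⟨x, h0, h1, h2, h3⟩ := hr (p.symm b)
      exact ⟨x, by rw [h0, hp0], by rw [h1]; simp, by rw [h2]; simp, by rw [h3]; simp⟩
    · obtain ⟨x, h0, h1, h2, h3⟩ := hc (p.symm a)
      exact ⟨x, by rw [h0]; simp, by rw [h1, hp0], by rw [h2]; simp, by rw [h3, ht']; simp⟩
  rcases hp with hp | hp
  · have h1 := run1
    rw [show (57191000911181352998912743596758096501202429884140493487363854463 : ℕ) =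
      start ![0, 2, 3, 4, 5, 1] by decide +kernel, main _ hp] at h1
    exact absurd h1 (by decide)
  · have h1 := run2
    rw [show (67063990592498176931757975677365690708598697062631937403353567359 : ℕ) =
      start ![0, 2, 1, 4, 5, 3] by decide +kernel, main _ hp] at h1
    exact absurd h1 (by decide)

/-- There is no orthogonal array of strength two and index one with four columns over six
symbols. -/
theorem OA4.false (h : OA4 c0 c1 c2 c3) : False := by
  let r : Fin 6 × Fin 6 ≃ X := (Equiv.ofBijective _ h.h01).symm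
  have r0 : ∀ a b, c0 (r (a, b)) = a := fun a b =>
    congrArg Prod.fst ((Equiv.ofBijective _ h.h01).apply_symm_apply (a, b))
  have r1 : ∀ a b, c1 (r (a, b)) = b := fun a b =>
    congrArg Prod.snd ((Equiv.ofBijective _ h.h01).apply_symm_apply (a, b))
  have row : ∀ c : X → Fin 6, (Injective fun x => (c0 x, c x)) →
      Bijective fun b => c (r (0, b)) := by
    intro c hc
    refine Injective.bijective_of_finite fun b b' hb => ?_
    have : r (0, b) = r (0, b') := hc (Prod.ext (by dsimp only; rw [r0, r0]) hb)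
    exact congrArg Prod.snd (r.injective this)
  let e2 := (Equiv.ofBijective _ (row c2 h.h02.1)).symm
  let e3 := (Equiv.ofBijective _ (row c3 h.h03.1)).symm
  have he2 : ∀ b, e2 (c2 (r (0, b))) = b := fun b =>
    (Equiv.ofBijective _ (row c2 h.h02.1)).symm_apply_apply b
  have he3 : ∀ b, e3 (c3 (r (0, b))) = b := fun b =>
    (Equiv.ofBijective _ (row c3 h.h03.1)).symm_apply_apply b
  have hb0 : Bijective fun a => e2 (c2 (r (a, 0))) := by
    refine Injective.bijective_of_finite fun a a' ha => ?_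
    have : r (a, 0) = r (a', 0) :=
      h.h12.1 (Prod.ext (by dsimp only; rw [r1, r1]) (e2.injective ha))
    exact congrArg Prod.fst (r.injective this)
  let e0 := Equiv.ofBijective _ hb0
  have he0 : ∀ a, e0 a = e2 (c2 (r (a, 0))) := fun _ => rfl
  refine (h.map e0.bijective bijective_id e2.bijective e3.bijective).false_of_norm
    (fun a => e3 (c3 (r (e0.symm a, 0)))) (fun b => ⟨r (0, b), ?_, r1 _ _, he2 b, he3 b⟩)
    (fun a => ⟨r (e0.symm a, 0), ?_, r1 _ _, ?_, rfl⟩)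
  · rw [r0, he0, he2]
  · rw [r0, Equiv.apply_symm_apply]
  · rw [← he0, Equiv.apply_symm_apply]

end Tarry

/-- Tarry's theorem: there is no pair of orthogonal latin squares of order six. -/
theorem not_hasOLS_six : ¬ HasOLS (Fin 6) := by
  rintro ⟨P, Q, hP, hQ, h⟩
  have bij : ∀ f : Fin 6 × Fin 6 → Fin 6 × Fin 6, Injective f → Bijective f :=
    fun f hf => hf.bijective_of_finite
  refine Tarry.OA4.false (X := Fin 6 × Fin 6) (c0 := Prod.fst) (c1 := Prod.snd)
    (c2 := fun x => P x.1 x.2) (c3 := fun x => Q x.1 x.2)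
    ⟨bijective_id, bij _ ?_, bij _ ?_, bij _ ?_, bij _ ?_, bij _ ?_⟩
  all_goals
    rintro ⟨a, b⟩ ⟨a', b'⟩ hh
    simp only [Prod.mk.injEq] at hh ⊢
  · obtain ⟨rfl, h2⟩ := hh
    exact ⟨rfl, (hP.1 a).1 h2⟩
  · obtain ⟨rfl, h2⟩ := hh
    exact ⟨rfl, (hQ.1 a).1 h2⟩
  · obtain ⟨rfl, h2⟩ := hh
    exact ⟨(hP.2 b).1 h2, rfl⟩
  · obtain ⟨rfl, h2⟩ := hh
    exact ⟨(hQ.2 b).1 h2, rfl⟩
  · exact h _ _ _ _ hh.1 hh.2

/-- Tarry's theorem for orthogonal arrays of strength two with at least four columns. -/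
theorem IsOA.false_six {X κ : Type} [Fintype κ] {C : κ → X → Fin 6} (h : IsOA 2 C)
    (hk : 4 ≤ Fintype.card κ) : False := by
  classical
  obtain ⟨f⟩ : Nonempty (Fin 4 ↪ κ) := Function.Embedding.nonempty_of_card_le (by simpa using hk)
  have hb : ∀ i j : Fin 4, i ≠ j → Bijective fun x => (C (f i) x, C (f j) x) := by
    intro i j hij
    have hne : f i ≠ f j := f.injective.ne hij
    constructor
    · intro x y hxy
      simp only [Prod.mk.injEq] at hxy
      refine h.sep x y {f i, f j} (by rw [Finset.card_pair hne]) ?_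
      intro l hl
      rcases Finset.mem_insert.mp hl with rfl | hl
      · exact hxy.1
      · rw [Finset.mem_singleton.mp hl]; exact hxy.2
    · rintro ⟨a, b⟩
      obtain ⟨x, hx⟩ := h.ex {f i, f j} Finset.card_le_two (update (fun _ => a) (f j) b)
      refine ⟨x, Prod.ext ?_ ?_⟩
      · dsimp only
        rw [hx (f i) (by simp), update_of_ne hne]
      · dsimp only
        rw [hx (f j) (by simp), update_self]
  exact Tarry.OA4.false ⟨hb 0 1 (by decide), hb 0 2 (by decide), hb 0 3 (by decide),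
    hb 1 2 (by decide), hb 1 3 (by decide), hb 2 3 (by decide)⟩

/-- For order six there are at most `m + 1` cubes in a variational set of dimension `m ≥ 2`. -/
theorem HasVarSet.le_six {m k : ℕ} (h : HasVarSet m 6 k) (hm : 2 ≤ m) : k ≤ m + 1 := by
  classical
  by_contra hlt
  obtain ⟨C, hC⟩ := h.exists_isOA (by omega)
  obtain ⟨x0, -⟩ := hC.ex ∅ (by simp) (fun _ => 0)
  obtain ⟨S, -, hS⟩ := Finset.exists_subset_card_eq (s := (Finset.univ : Finset (Fin k)))
    (n := m - 2) (by simp; omega)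
  have hd := hC.derived S (by omega) x0
  rw [show m - S.card = 2 by omega] at hd
  refine hd.false_six ?_
  rw [Fintype.card_subtype_compl, Fintype.card_coe, Fintype.card_fin]
  omega

end Pool.Agent.MP_c7a479_co
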