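import Pool.Agent.MP_c7a479_co.Six
import Pool.Agent.MP_c7a479_co.Tarry

namespace Pool.Agent.Results.MP_c7a479_co.OrderSix

open Pool.Agent.MP_c7a479_co

theorem result (m : ℕ) (hm : 5 ≤ m) : PiEq m 6 (m + 1) :=
  ⟨hasVarSet_six hm, fun _ hk => HasVarSet.le_six hk (by omega)⟩

end Pool.Agent.Results.MP_c7a479_co.OrderSix
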