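import Pool.Agent.MP_c7a479_co.PolyDefs

/-! A combinatorial absorber: splitting and elimination gadgets turn a signed decomposition into
two families of blocks on a larger vertex set, the negative one being edge disjoint. -/

namespace Pool.Agent.MP_c7a479_co

open Finset Function
open scoped Classical

noncomputable section

section Fam

variable {ι A B α : Type}

/-- The multiset of blocks `b x`, `x ∈ s`. -/
def fam (s : Finset α) (b : α → ι → A) : Multiset (ι → A) := ∑ x ∈ s, {b x}

theorem fam_eq_map (s : Finset α) (b : α → ι → A) : fam s b = s.val.map b := by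
  rw [fam, Finset.sum, ← Multiset.sum_map_singleton (s.val.map b), Multiset.map_map]
  rfl

theorem cov_fam (s : Finset α) (b : α → ι → A) (T : Finset ι) (τ : ι → A) :
    cov (fam s b) T τ = ∑ x ∈ s, cov {b x} T τ := cov_sum _ _ _ _

theorem mem_fam {s : Finset α} {b : α → ι → A} {c : ι → A} : c ∈ fam s b ↔ ∃ x ∈ s, b x = c := by
  simp [fam_eq_map]

theorem card_fam (s : Finset α) (b : α → ι → A) : (fam s b).card = #s := by
  simp [fam_eq_map]

theorem map_fam {ι' : Type} (s : Finset α) (b : α → ι → A) (φ : (ι → A) → ι' → B) :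
    (fam s b).map φ = fam s fun x => φ (b x) := by
  simp [fam_eq_map]

theorem exists_fam (μ : Multiset (ι → A)) :
    ∃ b : Fin μ.card → ι → A, μ = fam univ b := by
  induction μ using Quotient.inductionOn with
  | h l =>
    refine ⟨l.get, ?_⟩
    have : (univ : Finset (Fin l.length)).val.map l.get = l := by
      rw [Fin.univ_val_map, List.ofFn_get]
    exact this.symm.trans (fam_eq_map _ _).symm

theorem cov_singleton_congr {b b' : ι → A} {T : Finset ι} (h : ∀ i ∈ T, b i = b' i) (τ : ι → A) :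
    cov {b} T τ = cov {b'} T τ := by
  rw [cov_singleton, cov_singleton]
  congr 1
  exact propext (forall₂_congr fun i hi => by rw [h i hi])

theorem cov_shift {Γ : Type} [AddCommGroup Γ] (s : Finset Γ) (b b' : Γ → ι → A) (T : Finset ι)
    (s' : Finset Γ) (δ : Γ) (hs : ∀ γ, γ ∈ s' ↔ γ + δ ∈ s)
    (h : ∀ γ ∈ s', ∀ i ∈ T, b' γ i = b (γ + δ) i) (τ : ι → A) :
    cov (fam s' b') T τ = cov (fam s b) T τ := by
  rw [cov_fam, cov_fam]
  exact sum_equiv (Equiv.addRight δ) hs fun γ hγ => cov_singleton_congr (h γ hγ) τ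

theorem cov_push [Nonempty A] {μ ν : Multiset (ι → A)} {T : Finset ι}
    (h : ∀ τ, cov μ T τ = cov ν T τ) (φ : ι → A → B) (τ : ι → B) :
    cov (μ.map fun b i => φ i (b i)) T τ = cov (ν.map fun b i => φ i (b i)) T τ := by
  have key : ∀ μ : Multiset (ι → A), ∀ w : T → A, (μ.map fun b (i : T) => b i).count w =
      cov μ T fun i => if h : i ∈ T then w ⟨i, h⟩ else Classical.arbitrary A := by
    intro μ w
    rw [Multiset.count_map, cov, Multiset.countP_eq_card_filter]
    congr 1
    refine Multiset.filter_congr fun b _ => ⟨fun h i hi => by simp [hi, h], fun h => ?_⟩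
    funext i
    simpa using (h i i.2).symm
  have h1 : (μ.map fun b (i : T) => b i) = ν.map fun b (i : T) => b i :=
    Multiset.ext.mpr fun w => by rw [key, key, h]
  have key2 : ∀ μ : Multiset (ι → A), cov (μ.map fun b i => φ i (b i)) T τ =
      (μ.map fun b (i : T) => b i).countP fun w => ∀ i : T, φ i (w i) = τ i := by
    intro μ
    rw [cov_map, Multiset.countP_map, Multiset.countP_eq_card_filter]
    congr 1
    exact Multiset.filter_congr fun b _ => by simp
  rw [key2, key2, h1]

theorem exists_match {α' : Type} [Fintype α] [Fintype α'] [Nonempty A] (b : α → ι → A)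
    (b' : α' → ι → A) (T : Finset ι) (h : ∀ τ, cov (fam univ b') T τ ≤ cov (fam univ b) T τ) :
    ∃ m : α' → α, Injective m ∧ ∀ x, ∀ i ∈ T, b (m x) i = b' x i := by
  have key : ∀ w : T → A, Nonempty ({x // (fun i : T => b' x i) = w} ↪
      {x // (fun i : T => b x i) = w}) := by
    intro w
    apply Function.Embedding.nonempty_of_card_le
    have := h fun i => if h : i ∈ T then w ⟨i, h⟩ else Classical.arbitrary A
    simp only [cov_fam, cov_singleton, sum_boole, Nat.cast_id] at this
    rw [Fintype.card_subtype, Fintype.card_subtype]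
    convert this using 3 <;>
    · refine ⟨fun h i hi => by simp [hi, ← h], fun h => funext fun i => ?_⟩
      simpa using h i i.2
  let e := fun w => Classical.choice (key w)
  have he : ∀ x, (fun i : T => b (e _ ⟨x, rfl⟩).1 i) = fun i : T => b' x i :=
    fun x => (e _ ⟨x, rfl⟩).2
  refine ⟨fun x => (e _ ⟨x, rfl⟩).1, fun x y hxy => ?_, fun x i hi => congrFun (he x) ⟨i, hi⟩⟩
  have h1 : (fun i : T => b' x i) = fun i : T => b' y i := by
    rw [← he x, ← he y]
    simp only at hxy
    rw [hxy]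
  have h2 : ∀ w (hx : (fun i : T => b' x i) = w) (hy : (fun i : T => b' y i) = w),
      (e w ⟨x, hx⟩).1 = (e w ⟨y, hy⟩).1 → x = y := fun w hx hy h =>
    congrArg Subtype.val ((e w).injective (Subtype.ext h))
  refine h2 _ rfl h1.symm (hxy.trans ?_)
  have h3 : ∀ w (hy : (fun i : T => b' y i) = w), (e _ ⟨y, rfl⟩).1 = (e w ⟨y, hy⟩).1 := by
    rintro w rfl; rfl
  exact h3 _ _

end Fam

section Ups

variable {ι F : Type} [Field F] [Fintype F]

variable (F) in
/-- The two decompositions of the gadget: polynomials of degree less than `t`, and monic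
polynomials of degree `t`. -/
def Ups (t : ℕ) (ε : Bool) : Finset (F → F) :=
  {f | (fun u => f u - if ε then u ^ t else 0) ∈ Pol F F t}

theorem mem_Ups {t : ℕ} {ε : Bool} {f : F → F} :
    f ∈ Ups F t ε ↔ (fun u => f u - if ε then u ^ t else 0) ∈ Pol F F t := by simp [Ups]

theorem zero_mem_Ups (t : ℕ) : (0 : F → F) ∈ Ups F t false := by
  rw [mem_Ups]
  exact ⟨0, by simp⟩

theorem card_Ups_le (t : ℕ) (ε : Bool) : #(Ups F t ε) ≤ Fintype.card F ^ t := by
  refine le_trans ?_ (card_PolF_le (F := F) (Λ := F) t)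
  refine card_le_card_of_injOn (fun f u => f u - if ε then u ^ t else 0)
    (fun f hf => mem_coe.mpr (mem_PolF.mpr (mem_Ups.mp hf))) fun f _ g _ h => funext fun u => ?_
  simpa using congrFun h u

theorem Ups_unique {a : ι → F} (ha : Injective a) {t : ℕ} {ε : Bool} {f g : F → F}
    (hf : f ∈ Ups F t ε) (hg : g ∈ Ups F t ε) {T : Finset ι} (hT : t ≤ #T)
    (h : ∀ i ∈ T, f (a i) = g (a i)) : f = g := by
  have := pol_unique ha (mem_Ups.mp hf) (mem_Ups.mp hg) hT fun i hi => by simp [h i hi]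
  funext u
  simpa using congrFun this u

theorem exists_Pi {a : ι → F} (ha : Injective a) (t : ℕ) : ∃ Q : Finset ι → F → F,
    ∀ T, #T = t → Q T ∈ Ups F t true ∧ ∀ i, Q T (a i) = 0 ↔ i ∈ T := by
  have : ∀ T : Finset ι, ∃ q : F → F, #T = t → q ∈ Ups F t true ∧ ∀ i, q (a i) = 0 ↔ i ∈ T := by
    intro T
    by_cases hT : #T = t
    swap
    · exact ⟨0, fun h => absurd h hT⟩
    obtain ⟨g, hg, hg'⟩ := pol_interp ha hT.le fun i => -a i ^ t
    refine ⟨fun u => u ^ t + g u, fun _ => ⟨by simpa [mem_Ups] using hg, fun i => ⟨fun h => ?_,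
      fun h => by simp [hg' i h]⟩⟩⟩
    by_contra hi
    have := card_le_of_pow_add ha (one_ne_zero (α := F)) hg (U := insert i T) fun j hj => by
      rcases mem_insert.mp hj with rfl | hj
      · simpa using h
      · simp [hg' j hj]
    rw [card_insert_of_notMem hi] at this
    omega
  choose Q hQ using this
  exact ⟨Q, hQ⟩

theorem Ups_trade {A : Type} {a : ι → F} (ha : Injective a) {t : ℕ} (φ : ι → F → A)
    {T : Finset ι} (hT : #T = t) (τ : ι → A) :
    cov (fam (Ups F t false) fun f i => φ i (f (a i))) T τ =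
      cov (fam (Ups F t true) fun f i => φ i (f (a i))) T τ := by
  obtain ⟨Q, hQ⟩ := exists_Pi ha t
  obtain ⟨h1, h2⟩ := hQ T hT
  refine cov_shift _ _ _ T _ (Q T) (fun f => ?_) (fun f _ i hi => by simp [(h2 i).mpr hi]) τ
  rw [mem_Ups] at h1
  rw [mem_Ups, mem_Ups, ← (Pol F F t).add_mem_iff_left h1]
  congr! 1
  funext u
  simp
  ring

end Ups

section Abs

variable {ι F K Ip In : Type} [Field F] [Fintype F] [Fintype ι] [Fintype Ip] [Fintype In]

/-- The new vertices. -/
abbrev AV (ι F Ip In : Type) : Type :=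
  ((Ip ⊕ In) × F) ⊕ (Ip × Finset ι) ⊕ ((Ip ⊕ In) × Finset ι × F)

/-- The data of the construction. -/
structure AbsData (ι F K Ip In : Type) [Field F] [Fintype F] where
  t : ℕ
  a : ι → F
  ha : Injective a
  Q : Finset ι → F → F
  hQ : ∀ T, #T = t → Q T ∈ Ups F t true ∧ ∀ i, Q T (a i) = 0 ↔ i ∈ T
  b : Ip ⊕ In → ι → K
  m : Finset ι → In → Ip
  hm : ∀ T, #T = t → Injective (m T) ∧ ∀ x, ∀ i ∈ T, b (.inl (m T x)) i = b (.inr x) i

namespace AbsData

variable (d : AbsData ι F K Ip In)

/-- The partner index. -/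
def r (α : Ip ⊕ In) (T : Finset ι) : Ip := α.elim id (d.m T)

/-- The vertices of the splitting gadget. -/
def vS (α : Ip ⊕ In) (i : ι) (u : F) : K ⊕ AV ι F Ip In :=
  if u = 0 then .inl (d.b α i) else .inr (.inl (α, u))

/-- The vertices of the elimination gadget. -/
def vE (α : Ip ⊕ In) (T : Finset ι) (i : ι) (u : F) : K ⊕ AV ι F Ip In :=
  if u = d.Q T (d.a i) then d.vS α i u
  else if u = 0 then .inr (.inr (.inl (d.r α T, T))) else .inr (.inr (.inr (α, T, u)))

/-- The vertices of both gadgets. -/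
def v (α : Ip ⊕ In) : Option (Finset ι) → ι → F → K ⊕ AV ι F Ip In
  | none => d.vS α
  | some T => d.vE α T

/-- The common clique of a matched pair. -/
def R (x : Ip) (T : Finset ι) (i : ι) : K ⊕ AV ι F Ip In :=
  if i ∈ T then .inl (d.b (.inl x) i) else .inr (.inr (.inl (x, T)))

/-- The polynomials used in a gadget. -/
def Ex : Option (Finset ι) → Bool → Finset (F → F)
  | _, false => (Ups F d.t false).erase 0
  | none, true => Ups F d.t true \ (powersetCard d.t univ).image d.Q
  | some T, true => (Ups F d.t true).erase (d.Q T)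

/-- The side of a gadget. -/
def sd : Option (Finset ι) → Bool → Bool
  | none, ε => ε
  | some _, ε => !ε

/-- The index set of the gadget blocks of sign `ε` relative to the sign of the root block. -/
def Idx (ε : Bool) : Finset ((Ip ⊕ In) × Option (Finset ι) × (F → F)) :=
  (univ.sigma fun α : Ip ⊕ In => (insertNone (powersetCard d.t univ)).sigma fun o =>
    d.Ex o (sd o (α.isLeft == ε))).image fun x => (x.1, x.2.1, x.2.2)

/-- The gadget blocks. -/
def blk (x : (Ip ⊕ In) × Option (Finset ι) × (F → F)) (i : ι) : K ⊕ AV ι F Ip In :=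
  d.v x.1 x.2.1 i (x.2.2 (d.a i))

theorem mem_Idx {ε : Bool} {α : Ip ⊕ In} {o : Option (Finset ι)} {f : F → F} :
    (α, o, f) ∈ d.Idx ε ↔ (∀ T ∈ o, #T = d.t) ∧ f ∈ d.Ex o (sd o (α.isLeft == ε)) := by
  simp only [Idx, mem_image, mem_sigma, mem_univ, true_and, mem_insertNone, mem_powersetCard,
    subset_univ, Prod.mk.injEq]
  constructor
  · rintro ⟨⟨α', o', f'⟩, h, rfl, rfl, rfl⟩
    exact h
  · intro h
    exact ⟨⟨α, o, f⟩, h, rfl, rfl, rfl⟩

theorem cov_Idx (ε : Bool) (T : Finset ι) (τ : ι → K ⊕ AV ι F Ip In) :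
    cov (fam (d.Idx ε) d.blk) T τ = ∑ α : Ip ⊕ In,
      (cov (fam (d.Ex none (α.isLeft == ε)) fun f i => d.vS α i (f (d.a i))) T τ +
        ∑ T' ∈ powersetCard d.t univ,
          cov (fam (d.Ex (some T') (!(α.isLeft == ε))) fun f i => d.vE α T' i (f (d.a i))) T τ) := by
  rw [cov_fam, Idx, sum_image, sum_sigma]
  · refine sum_congr rfl fun α _ => ?_
    rw [sum_sigma, sum_insertNone]
    simp only [cov_fam]
    rfl
  · rintro ⟨α, o, f⟩ _ ⟨α', o', f'⟩ _ h
    simp only [Prod.mk.injEq] at h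
    obtain ⟨rfl, rfl, rfl⟩ := h
    rfl

omit [Fintype Ip] [Fintype In] in
theorem Ex_subset (o : Option (Finset ι)) (ε : Bool) : d.Ex o ε ⊆ Ups F d.t ε := by
  cases ε
  · cases o <;> exact erase_subset _ _
  · cases o
    · exact sdiff_subset
    · exact erase_subset _ _

theorem card_Idx (ε : Bool) : #(d.Idx ε) ≤
    Fintype.card (Ip ⊕ In) * ((Fintype.card ι ^ d.t + 1) * Fintype.card F ^ d.t) := by
  refine card_image_le.trans ?_
  rw [card_sigma]
  refine (sum_le_card_nsmul _ _ ((Fintype.card ι ^ d.t + 1) * Fintype.card F ^ d.t)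
    fun α _ => ?_).trans (by simp)
  rw [card_sigma]
  refine (sum_le_card_nsmul _ _ _ fun o _ =>
    (card_le_card (d.Ex_subset o _)).trans (card_Ups_le _ _)).trans ?_
  rw [card_insertNone, card_powersetCard, smul_eq_mul]
  exact Nat.mul_le_mul_right _ (Nat.add_le_add_right (Nat.choose_le_pow _ _) 1)

omit [Fintype ι] [Fintype Ip] [Fintype In] in
theorem Q_inj {T T' : Finset ι} (hT : #T = d.t) (hT' : #T' = d.t) (h : d.Q T = d.Q T') : T = T' := by
  ext i
  rw [← (d.hQ T hT).2, ← (d.hQ T' hT').2, h]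

omit [Fintype Ip] [Fintype In] in
theorem split_trade (α : Ip ⊕ In) {T : Finset ι} (hT : #T = d.t) (τ : ι → K ⊕ AV ι F Ip In) :
    cov {fun i => Sum.inl (d.b α i)} T τ +
      cov (fam (d.Ex none false) fun f i => d.vS α i (f (d.a i))) T τ =
    ∑ T' ∈ powersetCard d.t univ, cov {fun i => d.vS α i (d.Q T' (d.a i))} T τ +
      cov (fam (d.Ex none true) fun f i => d.vS α i (f (d.a i))) T τ := by
  have := Ups_trade d.ha (d.vS α) hT τ
  rw [cov_fam, cov_fam, ← add_sum_erase _ _ (zero_mem_Ups d.t),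
    ← sum_sdiff (s₁ := (powersetCard d.t univ).image d.Q) (s₂ := Ups F d.t true), sum_image,
    add_comm (∑ _ ∈ _ \ _, _)]
    at this
  · simpa only [cov_fam, Ex, vS, Pi.zero_apply, if_true] using this
  · intro T₁ h₁ T₂ h₂ h
    exact d.Q_inj (mem_powersetCard.mp h₁).2 (mem_powersetCard.mp h₂).2 h
  · intro f hf
    obtain ⟨T', hT', rfl⟩ := mem_image.mp hf
    exact (d.hQ T' (mem_powersetCard.mp hT').2).1

omit [Fintype Ip] [Fintype In] in
theorem elim_trade (α : Ip ⊕ In) {T' : Finset ι} (hT' : #T' = d.t) {T : Finset ι} (hT : #T = d.t)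
    (τ : ι → K ⊕ AV ι F Ip In) :
    cov {d.R (d.r α T') T'} T τ +
      cov (fam (d.Ex (some T') false) fun f i => d.vE α T' i (f (d.a i))) T τ =
    cov {fun i => d.vS α i (d.Q T' (d.a i))} T τ +
      cov (fam (d.Ex (some T') true) fun f i => d.vE α T' i (f (d.a i))) T τ := by
  have := Ups_trade d.ha (d.vE α T') hT τ
  rw [cov_fam, cov_fam, ← add_sum_erase _ _ (zero_mem_Ups d.t),
    ← add_sum_erase _ _ (d.hQ T' hT').1] at this
  have h1 : (fun i => d.vE α T' i ((0 : F → F) (d.a i))) = d.R (d.r α T') T' := by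
    funext i
    by_cases hi : i ∈ T'
    · have h2 : d.b α i = d.b (.inl (d.r α T')) i := by
        cases α
        · rfl
        · exact ((d.hm T' hT').2 _ i hi).symm
      simp [vE, vS, R, hi, ((d.hQ T' hT').2 i).mpr hi, h2]
    · have : ¬ (0 : F) = d.Q T' (d.a i) := fun h => hi (((d.hQ T' hT').2 i).mp h.symm)
      simp [vE, R, hi, this]
  have h2 : (fun i => d.vE α T' i (d.Q T' (d.a i))) = fun i => d.vS α i (d.Q T' (d.a i)) := by
    funext i
    simp [vE]
  rw [h1, h2] at this
  simpa only [cov_fam, Ex] using this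

/-- The cliques through the unmatched positive occurrences. -/
def Unm : Multiset (ι → K ⊕ AV ι F Ip In) :=
  ∑ T ∈ powersetCard d.t univ, fam {x | x ∉ univ.image (d.m T)} fun x => d.R x T

theorem identity {T : Finset ι} (hT : #T = d.t) (τ : ι → K ⊕ AV ι F Ip In) :
    cov (d.Unm + fam (d.Idx true) d.blk) T τ +
      cov (fam univ fun x i => Sum.inl (d.b (.inr x) i)) T τ =
    cov (fam univ fun x i => Sum.inl (d.b (.inl x) i)) T τ + cov (fam (d.Idx false) d.blk) T τ := by
  have h1 : ∀ α : Ip ⊕ In, cov {fun i => Sum.inl (d.b α i)} T τ +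
      (cov (fam (d.Ex none false) fun f i => d.vS α i (f (d.a i))) T τ +
        ∑ T' ∈ powersetCard d.t univ,
          cov (fam (d.Ex (some T') true) fun f i => d.vE α T' i (f (d.a i))) T τ) =
      ∑ T' ∈ powersetCard d.t univ, cov {d.R (d.r α T') T'} T τ +
      (cov (fam (d.Ex none true) fun f i => d.vS α i (f (d.a i))) T τ +
        ∑ T' ∈ powersetCard d.t univ,
          cov (fam (d.Ex (some T') false) fun f i => d.vE α T' i (f (d.a i))) T τ) := by
    intro α
    have h2 := d.split_trade α hT τ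
    have h3 := sum_congr rfl fun T' (hT' : T' ∈ powersetCard d.t univ) =>
      d.elim_trade α (mem_powersetCard.mp hT').2 hT τ
    rw [sum_add_distrib, sum_add_distrib] at h3
    omega
  have h2 := sum_congr rfl fun x (_ : x ∈ (univ : Finset Ip)) => h1 (.inl x)
  have h3 := sum_congr rfl fun x (_ : x ∈ (univ : Finset In)) => h1 (.inr x)
  have h4 : ∑ x : Ip, ∑ T' ∈ powersetCard d.t univ, cov {d.R (d.r (.inl x) T') T'} T τ =
      ∑ x : In, ∑ T' ∈ powersetCard d.t univ, cov {d.R (d.r (.inr x) T') T'} T τ +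
        cov d.Unm T τ := by
    rw [sum_comm, sum_comm (s := univ), Unm, cov_sum, ← sum_add_distrib]
    refine sum_congr rfl fun T' hT' => ?_
    rw [cov_fam, ← sum_filter_add_sum_filter_not univ (· ∈ univ.image (d.m T')),
      filter_mem_eq_inter, univ_inter,
      sum_image fun x _ y _ h => (d.hm T' (mem_powersetCard.mp hT').2).1 h]
    rfl
  rw [sum_add_distrib (g := fun x => _ + _), sum_add_distrib (g := fun x => _ + _)] at h2 h3
  rw [cov_add, cov_Idx, cov_Idx, Fintype.sum_sum_type, Fintype.sum_sum_type, cov_fam, cov_fam]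
  simp only [Sum.isLeft_inl, Sum.isLeft_inr, beq_self_eq_true, Bool.not_true, Bool.false_beq,
    Bool.not_false, Bool.true_beq] at *
  omega

omit [Fintype Ip] [Fintype In] in
theorem not_vanish {o : Option (Finset ι)} {ε : Bool} {f : F → F} (hf : f ∈ d.Ex o ε)
    {T : Finset ι} (hT : #T = d.t) (h0 : ∀ i ∈ T, f (d.a i) = 0) (ho : ε = true → ∀ T' ∈ o, T' = T) :
    False := by
  have hU := d.Ex_subset o ε hf
  cases ε
  · have : f = 0 := Ups_unique d.ha hU (zero_mem_Ups _) hT.ge h0
    cases o <;> simp [Ex, this] at hf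
  · have : f = d.Q T := Ups_unique d.ha hU (d.hQ T hT).1 hT.ge fun i hi => by
      rw [h0 i hi, ((d.hQ T hT).2 i).mpr hi]
    rcases o with _ | T'
    · simp only [Ex, this, mem_sdiff, mem_image, mem_powersetCard, subset_univ, true_and,
        not_exists, not_and] at hf
      exact hf.2 T hT rfl
    · obtain rfl := ho rfl T' rfl
      simp [Ex, this] at hf

theorem roots_lt {ε : Bool} {x : (Ip ⊕ In) × Option (Finset ι) × (F → F)} (hx : x ∈ d.Idx ε) :
    #{i | (d.blk x i).getRight? = none} < d.t := by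
  obtain ⟨α, o, f⟩ := x
  obtain ⟨ho, hf⟩ := d.mem_Idx.mp hx
  by_contra hc
  obtain ⟨T, hT, hTc⟩ := exists_subset_card_eq (not_lt.mp hc)
  have hT' : ∀ i ∈ T, (d.v α o i (f (d.a i))).getRight? = none := fun i hi => by
    simpa [blk] using hT hi
  rcases o with _ | T'
  · refine d.not_vanish hf hTc (fun i hi => ?_) (by simp)
    have := hT' i hi
    simp only [v, vS] at this
    split_ifs at this with h
    · exact h
    · simp at this
  · have key : ∀ i ∈ T, f (d.a i) = 0 ∧ i ∈ T' := fun i hi => by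
      have := hT' i hi
      simp only [v, vE, vS] at this
      split_ifs at this with h1 h2
      · exact ⟨h2, ((d.hQ T' (ho T' rfl)).2 i).mp (h1 ▸ h2)⟩
      all_goals simp at this
    refine d.not_vanish hf hTc (fun i hi => (key i hi).1) fun _ T'' hT'' => ?_
    obtain rfl : T' = T'' := by simpa using hT''
    exact (eq_of_subset_of_card_le (fun i hi => (key i hi).2) (by rw [ho T' rfl, hTc])).symm

omit [Fintype ι] [Fintype Ip] [Fintype In] in
theorem vS_vS {α α' : Ip ⊕ In} {i : ι} {u u' : F}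
    (h : (d.vS α i u).getRight? = (d.vS α' i u').getRight?) : u = u' ∧ (u = 0 ∨ α = α') := by
  simp only [vS] at h
  split_ifs at h with h1 h2 <;> simp_all

omit [Fintype ι] [Fintype Ip] [Fintype In] in
theorem vS_vE {α α' : Ip ⊕ In} {T : Finset ι} {i : ι} {u u' : F}
    (h : (d.vS α i u).getRight? = (d.vE α' T i u').getRight?) :
    u' = d.Q T (d.a i) ∧ u = u' ∧ (u = 0 ∨ α = α') := by
  by_cases h1 : u' = d.Q T (d.a i)
  · rw [vE, if_pos h1] at h
    exact ⟨h1, d.vS_vS h⟩
  · simp only [vE, if_neg h1, vS] at h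
    split_ifs at h <;> simp at h

omit [Fintype ι] [Fintype Ip] [Fintype In] in
theorem vE_vE {α α' : Ip ⊕ In} {T T' : Finset ι} {i : ι} {u u' : F}
    (h : (d.vE α T i u).getRight? = (d.vE α' T' i u').getRight?) :
    u = u' ∧ ((u = d.Q T (d.a i) ∧ u' = d.Q T' (d.a i) ∧ (u = 0 ∨ α = α')) ∨
      (u = 0 ∧ d.r α T = d.r α' T' ∧ T = T') ∨ (α = α' ∧ T = T')) := by
  by_cases h1 : u = d.Q T (d.a i)
  · rw [vE, if_pos h1] at h
    have := d.vS_vE h
    exact ⟨this.2.1, Or.inl ⟨h1, this.1, this.2.2⟩⟩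
  · by_cases h2 : u' = d.Q T' (d.a i)
    · rw [vE.eq_1 d α', if_pos h2] at h
      exact absurd (d.vS_vE h.symm).1 h1
    · simp only [vE, if_neg h1, if_neg h2] at h
      split_ifs at h with h3 h4 h4
      · simp only [Sum.getRight?_inr, Option.some.injEq, Sum.inr.injEq, Sum.inl.injEq,
          Prod.mk.injEq] at h
        exact ⟨h3.trans h4.symm, Or.inr (Or.inl ⟨h3, h⟩)⟩
      · simp at h
      · simp at h
      · simp only [Sum.getRight?_inr, Option.some.injEq, Sum.inr.injEq, Prod.mk.injEq] at h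
        exact ⟨h.2.2, Or.inr (Or.inr ⟨h.1, h.2.1⟩)⟩

theorem disjoint_aux {α α' : Ip ⊕ In} {T' : Finset ι} {f f' : F → F}
    (hx : (α, none, f) ∈ d.Idx false) (hx' : (α', some T', f') ∈ d.Idx false) {T : Finset ι}
    (hT : #T = d.t) (h : ∀ i ∈ T, (d.vS α i (f (d.a i))).getRight? =
      (d.vE α' T' i (f' (d.a i))).getRight?) : False := by
  obtain ⟨-, hf⟩ := d.mem_Idx.mp hx
  obtain ⟨ho', hf'⟩ := d.mem_Idx.mp hx'
  have hT' := ho' T' rfl
  have key := fun i hi => d.vS_vE (h i hi)
  by_cases hα : α = α'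
  · subst hα
    cases α
    · have : f' = d.Q T' := Ups_unique d.ha (d.Ex_subset _ _ hf') (d.hQ T' hT').1 hT.ge
        fun i hi => (key i hi).1
      simp [sd, Ex, this] at hf'
    · have : f = d.Q T' := Ups_unique d.ha (d.Ex_subset _ _ hf) (d.hQ T' hT').1 hT.ge
        fun i hi => (key i hi).2.1.trans (key i hi).1
      simp only [sd, Ex, this, Sum.isLeft_inr, beq_self_eq_true, mem_sdiff, mem_image,
        mem_powersetCard, subset_univ, true_and, not_exists, not_and] at hf
      exact hf.2 T' hT' rfl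
  · exact d.not_vanish hf hT (fun i hi => (key i hi).2.2.resolve_right hα) (by simp)

theorem disjoint {x x' : (Ip ⊕ In) × Option (Finset ι) × (F → F)} (hx : x ∈ d.Idx false)
    (hx' : x' ∈ d.Idx false) {T : Finset ι} (hT : #T = d.t)
    (h : ∀ i ∈ T, (d.blk x i).getRight? = (d.blk x' i).getRight?) : x = x' := by
  obtain ⟨α, o, f⟩ := x
  obtain ⟨α', o', f'⟩ := x'
  obtain ⟨ho, hf⟩ := d.mem_Idx.mp hx
  obtain ⟨ho', hf'⟩ := d.mem_Idx.mp hx'
  have fin : α = α' → o = o' → (∀ i ∈ T, f (d.a i) = f' (d.a i)) → (α, o, f) = (α', o', f') := by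
    rintro rfl rfl h
    rw [Ups_unique d.ha (d.Ex_subset _ _ hf) (d.Ex_subset _ _ hf') hT.ge h]
  rcases o with _ | T₁ <;> rcases o' with _ | T₂
  · have key := fun i hi => d.vS_vS (h i hi)
    by_cases hα : α = α'
    · exact fin hα rfl fun i hi => (key i hi).1
    · exact (d.not_vanish hf hT (fun i hi => (key i hi).2.resolve_right hα) (by simp)).elim
  · exact (d.disjoint_aux hx hx' hT h).elim
  · exact (d.disjoint_aux hx' hx hT fun i hi => (h i hi).symm).elim
  · have key := fun i hi => d.vE_vE (α := α) (α' := α') (u := f (d.a i)) (u' := f' (d.a i)) (h i hi)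
    have h₁ := ho T₁ rfl
    have h₂ := ho' T₂ rfl
    by_cases hc : α = α' ∧ T₁ = T₂
    · exact fin hc.1 (by rw [hc.2]) fun i hi => (key i hi).1
    exfalso
    by_cases hR : d.r α T₁ = d.r α' T₂ ∧ T₁ = T₂
    · obtain ⟨hr, rfl⟩ := hR
      have hα : α ≠ α' := fun h => hc ⟨h, rfl⟩
      have h0 : ∀ i ∈ T, f (d.a i) = 0 := fun i hi => by
        rcases (key i hi).2 with h | h | h
        · exact h.2.2.resolve_right hα
        · exact h.1
        · exact absurd h hc
      rcases α with x | x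
      · rcases α' with y | y
        · exact hα (congrArg _ hr)
        · exact d.not_vanish hf' hT (fun i hi => (key i hi).1 ▸ h0 i hi) (by simp [sd])
      · exact d.not_vanish hf hT h0 (by simp [sd])
    · have key' : ∀ i ∈ T, f (d.a i) = d.Q T₁ (d.a i) ∧ f' (d.a i) = d.Q T₂ (d.a i) ∧
          (f (d.a i) = 0 ∨ α = α') := fun i hi => by
        rcases (key i hi).2 with h | h | h
        · exact h
        · exact absurd h.2 hR
        · exact absurd h hc
      obtain rfl : T₁ = T₂ := d.Q_inj h₁ h₂ (Ups_unique d.ha (d.hQ _ h₁).1 (d.hQ _ h₂).1 hT.ge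
        fun i hi => by rw [← (key' i hi).1, ← (key' i hi).2.1, (key i hi).1])
      have hα : α ≠ α' := fun h => hc ⟨h, rfl⟩
      have h0 : ∀ i ∈ T, f (d.a i) = 0 := fun i hi => (key' i hi).2.2.resolve_right hα
      refine d.not_vanish hf hT h0 fun _ T' hT' => ?_
      obtain rfl : T₁ = T' := by simpa using hT'
      refine (eq_of_subset_of_card_le (fun i hi => ((d.hQ _ h₁).2 i).mp ?_) (by omega)).symm
      rw [← (key' i hi).1, h0 i hi]

end AbsData

/-- The combinatorial absorber. -/
theorem exists_abs [Nonempty K] {a : ι → F} (ha : Injective a) {t : ℕ} (ht : t ≤ Fintype.card ι)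
    (P N : Multiset (ι → K))
    (h : ∀ T, #T = t → ∀ τ, cov N T τ ≤ cov P T τ) :
    ∃ (V J : Type) (_ : Fintype V) (_ : Fintype J) (P₀ : Multiset (ι → K ⊕ V)) (s : Finset J)
      (n : J → ι → K ⊕ V),
      (∀ T, #T = t → ∀ τ, cov P₀ T τ + cov (N.map fun b i => Sum.inl (b i)) T τ =
        cov (P.map fun b i => Sum.inl (b i)) T τ + cov (fam s n) T τ) ∧
      (∀ b ∈ P₀, #{i | (b i).getRight? = none} ≤ t) ∧
      (∀ x ∈ s, #{i | (n x i).getRight? = none} < t) ∧
      (∀ x ∈ s, ∀ x' ∈ s, ∀ T, #T = t → (∀ i ∈ T, (n x i).getRight? = (n x' i).getRight?) →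
        x = x') ∧
      P₀.card ≤ 2 * ((P.card + N.card) * ((Fintype.card ι ^ t + 1) * Fintype.card F ^ t)) ∧
      #s ≤ (P.card + N.card) * ((Fintype.card ι ^ t + 1) * Fintype.card F ^ t) := by
  obtain ⟨bp, hp⟩ := exists_fam P
  obtain ⟨bn, hn⟩ := exists_fam N
  obtain ⟨Q, hQ⟩ := exists_Pi ha t
  have : ∀ T : Finset ι, ∃ m : Fin N.card → Fin P.card, #T = t →
      Injective m ∧ ∀ x, ∀ i ∈ T, bp (m x) i = bn x i := by
    intro T
    by_cases hT : #T = t
    · obtain ⟨m, hm⟩ := exists_match bp bn T fun τ => by rw [← hp, ← hn]; exact h T hT τ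
      exact ⟨m, fun _ => hm⟩
    · obtain ⟨T', -, hT'⟩ := exists_subset_card_eq (s := (univ : Finset ι)) ht
      obtain ⟨m, hm⟩ := exists_match bp bn T' fun τ => by rw [← hp, ← hn]; exact h T' hT' τ
      exact ⟨m, fun h => absurd h hT⟩
  choose m hm using this
  let d : AbsData ι F K (Fin P.card) (Fin N.card) := ⟨t, a, ha, Q, hQ, Sum.elim bp bn, m, hm⟩
  have hc : ∀ ε, #(d.Idx ε) ≤
      (P.card + N.card) * ((Fintype.card ι ^ t + 1) * Fintype.card F ^ t) := fun ε => by
    simpa using d.card_Idx ε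
  refine ⟨_, _, inferInstance, inferInstance, d.Unm + fam (d.Idx true) d.blk, d.Idx false, d.blk,
    fun T hT τ => ?_, fun b hb => ?_, fun x hx => d.roots_lt hx,
    fun x hx x' hx' T hT => d.disjoint hx hx' hT, ?_, hc false⟩
  · have := d.identity hT τ
    rw [congrArg (Multiset.map _) hn, congrArg (Multiset.map _) hp, map_fam, map_fam]
    exact this
  · rcases Multiset.mem_add.mp hb with hb | hb
    · simp only [AbsData.Unm, Multiset.mem_sum, mem_fam] at hb
      obtain ⟨T, hT, x, -, rfl⟩ := hb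
      rw [← show #T = t from (mem_powersetCard.mp hT).2]
      refine card_le_card fun i hi => ?_
      by_contra hc
      simp [AbsData.R, hc] at hi
    · obtain ⟨x, hx, rfl⟩ := mem_fam.mp hb
      exact (d.roots_lt hx).le
  · rw [Multiset.card_add, card_fam, two_mul]
    refine add_le_add ?_ (hc true)
    rw [AbsData.Unm, Multiset.card_sum]
    refine (sum_le_card_nsmul _ _ P.card fun T _ => ?_).trans ?_
    · rw [card_fam]
      exact (card_le_univ _).trans (by simp)
    · rw [card_powersetCard, smul_eq_mul, mul_comm]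
      refine Nat.mul_le_mul (Nat.le_add_right _ _) ?_
      refine le_trans ?_ (Nat.le_mul_of_pos_right _ (by positivity))
      exact (Nat.choose_le_pow _ _).trans (Nat.le_succ _)

end Abs

end

end Pool.Agent.MP_c7a479_co
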