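import Pool.Agent.MP_c7a479_co.PolyDefs

/-! The chain composition: universal ingredients survive multiplying the symbols of chosen types
by a vector space. -/

namespace Pool.Agent.MP_c7a479_co

open Finset
open scoped Classical

noncomputable section

variable {ι A A' W F Λ : Type} [Field F] [AddCommGroup Λ] [Module F Λ]

omit [AddCommGroup Λ] in
theorem cov_lift {ty : A → Option W} {car : Option W → Prop} {lift : A → Λ → A'}
    (hinj : ∀ x l x' l', lift x l = lift x' l' ↔ x = x' ∧ (car (ty x) → l = l'))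
    (ν : Multiset (ι → A)) (h : ι → Λ) (T : Finset ι) (τ : ι → A) (x : ι → Λ) :
    cov (ν.map fun b i => lift (b i) (h i)) T (fun i => lift (τ i) (x i)) =
      if ∀ i ∈ T, car (ty (τ i)) → h i = x i then cov ν T τ else 0 := by
  split_ifs with hc
  · refine cov_map_of_iff fun b _ => forall₂_congr fun i hi => ?_
    rw [hinj]
    exact ⟨fun h => h.1, fun h => ⟨h, fun h' => hc i hi (h ▸ h')⟩⟩
  · rw [cov_eq_zero]
    intro b hb hagree
    obtain ⟨b, -, rfl⟩ := Multiset.mem_map.mp hb
    refine hc fun i hi h' => ?_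
    have := (hinj _ _ _ _).mp (hagree i hi)
    exact this.2 (this.1 ▸ h')

theorem sum_fibre {a : ι → F} (ha : Function.Injective a) {n : ℕ} {O : Finset ι} (hO : #O = n)
    (s : Finset (F → Λ)) (hs : ∀ f ∈ Pol F Λ n, f ∈ s) (x : ι → Λ) (P : Prop) :
    ∑ f ∈ s, (if ∀ i ∈ O, f (a i) = x i then (if P ∧ f ∈ Pol F Λ n then 1 else 0) else 0) =
      if P then 1 else 0 := by
  obtain ⟨f, hf, hf'⟩ := pol_interp ha hO.le x
  rw [sum_eq_single f]
  · rw [if_pos hf']
    simp [hf]
  · intro g _ hg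
    split_ifs with h1 h2
    · exact absurd (pol_unique ha h2.2 hf hO.ge fun i hi => by rw [h1 i hi, hf' i hi]) hg
    · rfl
    · rfl
  · intro h; exact absurd (hs f hf) h

/-- The number of symbols of a pattern that do not carry the new factor. -/
def nc (car : Option W → Prop) (p : Multiset W) : ℕ := (p.filter fun w => ¬ car (some w)).card

theorem nc_mono (car : Option W → Prop) {p q : Multiset W} (h : p ≤ q) : nc car p ≤ nc car q :=
  Multiset.card_le_card (Multiset.filter_le_filter _ h)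

theorem card_car {ty : A → Option W} {car : Option W → Prop} (hcar : car none) (T : Finset ι)
    (τ : ι → A) : #{i ∈ T | car (ty (τ i))} = #T - nc car (pat ty T τ) := by
  rw [nc, card_filter_pat, ← card_filter_add_card_filter_not (s := T) fun i => car (ty (τ i))]
  have : #{i ∈ T | ∃ w, ty (τ i) = some w ∧ ¬ car (some w)} = #{i ∈ T | ¬ car (ty (τ i))} := by
    congr 1
    refine filter_congr fun i _ => ?_
    rcases ty (τ i) with _ | w <;> simp [hcar]
  omega

/-- The family of patterns used over the fibre `f`. -/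
def DF (t : ℕ) (car : Option W → Prop) (𝒟 : Multiset W → Prop) (f : F → Λ) (p : Multiset W) :
    Prop := 𝒟 p ∧ f ∈ Pol F Λ (t - nc car p)

theorem Down.DF {t : ℕ} {car : Option W → Prop} {𝒟 : Multiset W → Prop} (h : Down 𝒟) {f : F → Λ}
    (hf : f ∈ Pol F Λ t) : Down (DF t car 𝒟 f) :=
  ⟨⟨h.1, by simpa [nc] using hf⟩, fun p q hpq hq =>
    ⟨h.2 p q hpq hq.1, Pol_mono (Nat.sub_le_sub_left (nc_mono car hpq) t) hq.2⟩⟩

theorem Univ.comp [Fintype F] [Fintype Λ] {t σ : ℕ} {a : ι → F} (ha : Function.Injective a)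
    {ty : A → Option W} {ty' : A' → Option W} {car : Option W → Prop} (hcar : car none)
    {lift : A → Λ → A'} (hty : ∀ x l, ty' (lift x l) = ty x)
    (hsurj : ∀ y, ∃ x l, lift x l = y)
    (hinj : ∀ x l x' l', lift x l = lift x' l' ↔ x = x' ∧ (car (ty x) → l = l'))
    (h : Univ ι t σ ty) : Univ ι t σ ty' := by
  intro 𝒟 hD hσ
  have key : ∀ f : F → Λ, ∃ ν : Multiset (ι → A), f ∈ Pol F Λ t → Ing t ty (DF t car 𝒟 f) ν := by
    intro f
    by_cases hf : f ∈ Pol F Λ t
    · obtain ⟨ν, hν⟩ := h _ (hD.DF (car := car) hf) fun p hp => hσ p hp.1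
      exact ⟨ν, fun _ => hν⟩
    · exact ⟨0, fun h => absurd h hf⟩
  choose ν hν using key
  refine ⟨∑ f ∈ PolF F Λ t, (ν f).map fun b i => lift (b i) (f (a i)), fun T hT τ' => ?_⟩
  choose τ x hτ using fun i => hsurj (τ' i)
  obtain rfl : τ' = fun i => lift (τ i) (x i) := funext fun i => (hτ i).symm
  rw [cov_sum, pat_congr (ty' := ty) (τ' := τ) fun i _ => hty _ _,
    ← sum_fibre ha (card_car (ty := ty) hcar T τ) (PolF F Λ t) (fun f hf => mem_PolF.mpr
      (Pol_mono (by omega) hf)) x]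
  refine sum_congr rfl fun f hf => ?_
  rw [cov_lift hinj, hν f (mem_PolF.mp hf) T hT, hT]
  simp only [mem_filter, and_imp, DF]
  congr

/-- The extension of the old symbols of `M ⊕ W` by `Λ`. -/
def liftS {M : Type} (x : M ⊕ W) (l : Λ) : (M × Λ) ⊕ W := x.map (fun m => (m, l)) id

omit [AddCommGroup Λ] in
theorem liftS_ty {M : Type} (x : M ⊕ W) (l : Λ) : (liftS x l).getRight? = x.getRight? := by
  cases x <;> rfl

theorem liftS_surj {M : Type} (y : (M × Λ) ⊕ W) : ∃ x l, liftS x l = y := by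
  rcases y with ⟨m, l⟩ | w
  · exact ⟨.inl m, l, rfl⟩
  · exact ⟨.inr w, 0, rfl⟩

omit [AddCommGroup Λ] in
theorem liftS_inj {M : Type} (x : M ⊕ W) (l : Λ) (x' : M ⊕ W) (l' : Λ) :
    liftS x l = liftS x' l' ↔ x = x' ∧ (x.getRight? = none → l = l') := by
  cases x <;> cases x' <;> simp [liftS]

theorem Univ.compS [Fintype F] [Fintype Λ] {t σ : ℕ} {a : ι → F} (ha : Function.Injective a)
    {M : Type} (h : Univ ι t σ (Sum.getRight? : M ⊕ W → Option W)) :
    Univ ι t σ (Sum.getRight? : (M × Λ) ⊕ W → Option W) :=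
  h.comp ha (car := fun o => o = none) rfl liftS_ty liftS_surj liftS_inj

end

end Pool.Agent.MP_c7a479_co
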