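import Mathlib

/-! Basic notions for the polynomial lower bound: designs as multisets of blocks, patterns of new
symbols, universal ingredients, polynomial functions of bounded degree. -/

namespace Pool.Agent.MP_c7a479_co

open Finset
open scoped Classical

noncomputable section

section Designs

variable {ι A B W : Type}

/-- The number of blocks of `μ` that agree with the word `τ` on the coordinate set `T`. -/
def cov (μ : Multiset (ι → A)) (T : Finset ι) (τ : ι → A) : ℕ :=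
  μ.countP fun b => ∀ i ∈ T, b i = τ i

@[simp] theorem cov_zero (T : Finset ι) (τ : ι → A) : cov 0 T τ = 0 := by simp [cov]

@[simp] theorem cov_add (μ ν : Multiset (ι → A)) (T : Finset ι) (τ : ι → A) :
    cov (μ + ν) T τ = cov μ T τ + cov ν T τ := Multiset.countP_add _ _ _

theorem cov_singleton (b : ι → A) (T : Finset ι) (τ : ι → A) [Decidable (∀ i ∈ T, b i = τ i)] :
    cov {b} T τ = if ∀ i ∈ T, b i = τ i then 1 else 0 := by
  rw [cov, ← Multiset.cons_zero, Multiset.countP_cons]; simp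

theorem cov_replicate (n : ℕ) (b : ι → A) (T : Finset ι) (τ : ι → A)
    [Decidable (∀ i ∈ T, b i = τ i)] :
    cov (Multiset.replicate n b) T τ = if ∀ i ∈ T, b i = τ i then n else 0 := by
  induction n with
  | zero => simp
  | succ n ih =>
    rw [Multiset.replicate_succ, ← Multiset.singleton_add, cov_add, ih, cov_singleton]
    split_ifs <;> omega

theorem cov_sum {α : Type} (s : Finset α) (f : α → Multiset (ι → A)) (T : Finset ι) (τ : ι → A) :
    cov (∑ x ∈ s, f x) T τ = ∑ x ∈ s, cov (f x) T τ := by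
  induction s using Finset.induction_on with
  | empty => simp
  | insert a s ha ih => rw [sum_insert ha, sum_insert ha, cov_add, ih]

theorem cov_mono {μ ν : Multiset (ι → A)} (h : μ ≤ ν) (T : Finset ι) (τ : ι → A) :
    cov μ T τ ≤ cov ν T τ := Multiset.countP_le_of_le _ h

theorem cov_congr (μ : Multiset (ι → A)) {T : Finset ι} {τ τ' : ι → A} (h : ∀ i ∈ T, τ i = τ' i) :
    cov μ T τ = cov μ T τ' := by
  unfold cov
  refine Multiset.countP_congr rfl fun b _ => propext ?_
  exact forall₂_congr fun i hi => by rw [h i hi]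

theorem cov_pos {μ : Multiset (ι → A)} {T : Finset ι} {τ : ι → A} :
    0 < cov μ T τ ↔ ∃ b ∈ μ, ∀ i ∈ T, b i = τ i := Multiset.countP_pos

theorem cov_eq_zero {μ : Multiset (ι → A)} {T : Finset ι} {τ : ι → A} :
    cov μ T τ = 0 ↔ ∀ b ∈ μ, ¬ ∀ i ∈ T, b i = τ i := Multiset.countP_eq_zero

theorem cov_map {α : Type} (μ : Multiset α) (φ : α → ι → A) (T : Finset ι) (τ : ι → A) :
    cov (μ.map φ) T τ = μ.countP fun x => ∀ i ∈ T, φ x i = τ i := by
  unfold cov
  rw [Multiset.countP_map, Multiset.countP_eq_card_filter]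

theorem cov_le_of_imp {ι' : Type} {μ : Multiset (ι → A)} {φ : (ι → A) → ι' → B} {T : Finset ι}
    {T' : Finset ι'} {τ : ι → A} {τ' : ι' → B}
    (h : ∀ b ∈ μ, (∀ i ∈ T', φ b i = τ' i) → ∀ i ∈ T, b i = τ i) :
    cov (μ.map φ) T' τ' ≤ cov μ T τ := by
  rw [cov_map, cov, Multiset.countP_eq_card_filter, Multiset.countP_eq_card_filter]
  apply Multiset.card_le_card
  rw [Multiset.le_iff_count]
  intro b
  simp only [Multiset.count_filter]
  split_ifs with h1 h2
  · exact le_rfl
  · by_cases hb : b ∈ μ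
    · exact absurd (h b hb h1) h2
    · simp [Multiset.count_eq_zero.mpr hb]
  · exact Nat.zero_le _
  · exact le_rfl

theorem cov_map_of_iff {ι' : Type} {μ : Multiset (ι → A)} {φ : (ι → A) → ι' → B} {T : Finset ι}
    {T' : Finset ι'} {τ : ι → A} {τ' : ι' → B}
    (h : ∀ b ∈ μ, (∀ i ∈ T', φ b i = τ' i) ↔ ∀ i ∈ T, b i = τ i) :
    cov (μ.map φ) T' τ' = cov μ T τ := by
  rw [cov_map, cov]
  exact Multiset.countP_congr rfl fun b hb => propext (h b hb)

/-- Two blocks of a multiset that agree on a set covered at most once are equal. -/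
theorem eq_of_cov_le_one {μ : Multiset (ι → A)} {T : Finset ι} {b b' : ι → A} (hb : b ∈ μ)
    (hb' : b' ∈ μ) (h : ∀ i ∈ T, b i = b' i) (h1 : cov μ T b' ≤ 1) : b = b' := by
  by_contra hne
  have hle : ({b} + {b'} : Multiset (ι → A)) ≤ μ := by
    rw [Multiset.le_iff_count]
    intro c
    rw [Multiset.count_add, Multiset.count_singleton, Multiset.count_singleton]
    by_cases h3 : c = b
    · subst h3
      simp [hne, Multiset.one_le_count_iff_mem.mpr hb]
    · by_cases h2 : c = b'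
      · rw [if_neg h3, if_pos h2, h2]
        exact Multiset.one_le_count_iff_mem.mpr hb'
      · simp [h3, h2]
  have := cov_mono hle T b'
  rw [cov_add, cov_singleton, cov_singleton, if_pos h, if_pos (fun _ _ => rfl)] at this
  omega

theorem cov_le_one_of {μ : Multiset (ι → A)} {T : Finset ι} {τ : ι → A} (hn : μ.Nodup)
    (h : ∀ b ∈ μ, ∀ b' ∈ μ, (∀ i ∈ T, b i = τ i) → (∀ i ∈ T, b' i = τ i) → b = b') :
    cov μ T τ ≤ 1 := by
  rw [cov, Multiset.countP_eq_card_filter]
  have hn' := hn.filter fun b => ∀ i ∈ T, b i = τ i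
  rw [← Multiset.toFinset_card_of_nodup hn', Finset.card_le_one]
  intro b hb b' hb'
  simp only [Multiset.mem_toFinset, Multiset.mem_filter] at hb hb'
  exact h b hb.1 b' hb'.1 hb.2 hb'.2

/-- The multiset of types of one symbol: empty for an old symbol. -/
def tyM (o : Option W) : Multiset W := o.elim 0 fun w => {w}

@[simp] theorem tyM_none : tyM (none : Option W) = 0 := rfl
@[simp] theorem tyM_some (w : W) : tyM (some w) = {w} := rfl

/-- The pattern of the word `τ` on `T`: the multiset of types of its new symbols. -/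
def pat (ty : A → Option W) (T : Finset ι) (τ : ι → A) : Multiset W := ∑ i ∈ T, tyM (ty (τ i))

theorem pat_congr {ty : A → Option W} {ty' : B → Option W} {T : Finset ι} {τ : ι → A}
    {τ' : ι → B} (h : ∀ i ∈ T, ty (τ i) = ty' (τ' i)) : pat ty T τ = pat ty' T τ' :=
  sum_congr rfl fun i hi => by rw [h i hi]

theorem pat_mono (ty : A → Option W) {T T' : Finset ι} (h : T ⊆ T') (τ : ι → A) :
    pat ty T τ ≤ pat ty T' τ :=
  sum_le_sum_of_subset_of_nonneg h fun _ _ _ => Multiset.zero_le _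

theorem card_filter_pat (ty : A → Option W) (q : W → Prop) [DecidablePred q] (T : Finset ι)
    (τ : ι → A) :
    ((pat ty T τ).filter q).card = #{i ∈ T | ∃ w, ty (τ i) = some w ∧ q w} := by
  unfold pat
  induction T using Finset.induction_on with
  | empty => simp
  | insert j T hj ih =>
    rw [sum_insert hj, Multiset.filter_add, Multiset.card_add, ih, filter_insert]
    rcases h : ty (τ j) with _ | w
    · simp
    · by_cases hq : q w
      · rw [if_pos ⟨w, rfl, hq⟩, card_insert_of_notMem (by simp [hj])]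
        simp [hq, Multiset.filter_singleton, add_comm]
      · rw [if_neg (by simpa using hq)]
        simp [hq, Multiset.filter_singleton]

theorem card_pat (ty : A → Option W) (T : Finset ι) (τ : ι → A) :
    (pat ty T τ).card = #{i ∈ T | ty (τ i) ≠ none} := by
  have := card_filter_pat ty (fun _ => True) T τ
  rw [(@Multiset.filter_eq_self _ _ (_) _).mpr fun _ _ => trivial] at this
  rw [this]
  congr 1
  ext i
  simp [Option.ne_none_iff_exists']

/-- A down-closed nonempty family of patterns. -/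
def Down (𝒟 : Multiset W → Prop) : Prop := 𝒟 0 ∧ ∀ p q, p ≤ q → 𝒟 q → 𝒟 p

/-- `μ` covers each word on a `t`-set once if its pattern is allowed, and otherwise not at all. -/
def Ing (t : ℕ) (ty : A → Option W) (𝒟 : Multiset W → Prop) (μ : Multiset (ι → A)) : Prop :=
  ∀ T : Finset ι, #T = t → ∀ τ : ι → A, cov μ T τ = if 𝒟 (pat ty T τ) then 1 else 0

/-- Ingredients exist for all down-closed families whose patterns have size less than `σ`. -/
def Univ (ι : Type) (t σ : ℕ) (ty : A → Option W) : Prop :=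
  ∀ 𝒟 : Multiset W → Prop, Down 𝒟 → (∀ p, 𝒟 p → p.card < σ) →
    ∃ μ : Multiset (ι → A), Ing t ty 𝒟 μ

/-- A packing that is exact on the words whose pattern has size at least `s`. -/
def XL (t s : ℕ) (ty : A → Option W) (𝒟 : Multiset W → Prop) (μ : Multiset (ι → A)) : Prop :=
  ∀ T : Finset ι, #T = t → ∀ τ : ι → A,
    cov μ T τ ≤ (if 𝒟 (pat ty T τ) then 1 else 0) ∧
      (s ≤ (pat ty T τ).card → cov μ T τ = if 𝒟 (pat ty T τ) then 1 else 0)

theorem cov_map_equiv (μ : Multiset (ι → A)) (e : ι → A ≃ B) (T : Finset ι) (τ : ι → B) :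
    cov (μ.map fun b i => e i (b i)) T τ = cov μ T fun i => (e i).symm (τ i) :=
  cov_map_of_iff fun _ _ => forall₂_congr fun i _ => (e i).eq_symm_apply.symm

theorem Ing.map_equiv {t : ℕ} {ty : A → Option W} {ty' : B → Option W} {𝒟 : Multiset W → Prop}
    {μ : Multiset (ι → A)} (h : Ing t ty 𝒟 μ) (e : ι → A ≃ B) (he : ∀ i x, ty' (e i x) = ty x) :
    Ing t ty' 𝒟 (μ.map fun b i => e i (b i)) := by
  intro T hT τ
  rw [cov_map_equiv, h T hT, pat_congr (ty' := ty') (τ' := τ)]
  intro i _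
  rw [← he i, Equiv.apply_symm_apply]

theorem XL.map_equiv {t s : ℕ} {ty : A → Option W} {ty' : B → Option W} {𝒟 : Multiset W → Prop}
    {μ : Multiset (ι → A)} (h : XL t s ty 𝒟 μ) (e : ι → A ≃ B) (he : ∀ i x, ty' (e i x) = ty x) :
    XL t s ty' 𝒟 (μ.map fun b i => e i (b i)) := by
  intro T hT τ
  have := h T hT fun i => (e i).symm (τ i)
  rw [pat_congr (ty' := ty') (τ' := τ)] at this
  · rwa [cov_map_equiv]
  · intro i _
    rw [← he i, Equiv.apply_symm_apply]

theorem Univ.map_equiv {t σ : ℕ} {ty : A → Option W} {ty' : B → Option W} (h : Univ ι t σ ty)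
    (e : A ≃ B) (he : ∀ x, ty' (e x) = ty x) : Univ ι t σ ty' := fun 𝒟 h1 h2 =>
  let ⟨_, hμ⟩ := h 𝒟 h1 h2
  ⟨_, hμ.map_equiv (fun _ => e) fun _ => he⟩

end Designs

section Pol

variable {F : Type} [Field F] {Λ Λ' : Type} [AddCommGroup Λ] [Module F Λ] [AddCommGroup Λ']
  [Module F Λ'] {ι : Type}

/-- Polynomial functions `F → Λ` of degree less than `n`. -/
def Pol (F : Type) [Field F] (Λ : Type) [AddCommGroup Λ] [Module F Λ] (n : ℕ) :
    Submodule F (F → Λ) where
  carrier := {f | ∃ c : ℕ → Λ, ∀ u, f u = ∑ e ∈ range n, u ^ e • c e}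
  add_mem' := by
    rintro f g ⟨c, hc⟩ ⟨d, hd⟩
    exact ⟨c + d, fun u => by simp [hc, hd, sum_add_distrib]⟩
  zero_mem' := ⟨0, by simp⟩
  smul_mem' := by
    rintro r f ⟨c, hc⟩
    refine ⟨r • c, fun u => ?_⟩
    simp only [Pi.smul_apply, hc, smul_sum]
    exact sum_congr rfl fun e _ => smul_comm _ _ _

theorem mem_Pol {n : ℕ} {f : F → Λ} :
    f ∈ Pol F Λ n ↔ ∃ c : ℕ → Λ, ∀ u, f u = ∑ e ∈ range n, u ^ e • c e := Iff.rfl

theorem Pol_mono {n n' : ℕ} (h : n ≤ n') {f : F → Λ} (hf : f ∈ Pol F Λ n) : f ∈ Pol F Λ n' := by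
  obtain ⟨c, hc⟩ := hf
  refine ⟨fun e => if e < n then c e else 0, fun u => ?_⟩
  rw [hc, ← sum_subset (range_subset_range.mpr h)]
  · exact sum_congr rfl fun e he => by simp [mem_range.mp he]
  · intro e _ he
    simp [show ¬ e < n by simpa using he]

theorem Pol_comp {n : ℕ} (θ : Λ →ₗ[F] Λ') {f : F → Λ} (hf : f ∈ Pol F Λ n) :
    (fun u => θ (f u)) ∈ Pol F Λ' n := by
  obtain ⟨c, hc⟩ := hf
  exact ⟨fun e => θ (c e), fun u => by simp [hc, map_sum]⟩

theorem Pol_smul_vec {n : ℕ} {q : F → F} (hq : q ∈ Pol F F n) (v : Λ) :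
    (fun u => q u • v) ∈ Pol F Λ n :=
  Pol_comp (LinearMap.toSpanSingleton F Λ v) hq

theorem Pol_pi {X : Type} {n : ℕ} {f : F → X → Λ} (h : ∀ x, (fun u => f u x) ∈ Pol F Λ n) :
    f ∈ Pol F (X → Λ) n := by
  choose c hc using h
  refine ⟨fun e x => c x e, fun u => funext fun x => ?_⟩
  rw [Finset.sum_apply]
  exact hc x u

theorem Pol_apply {X : Type} {n : ℕ} {f : F → X → Λ} (h : f ∈ Pol F (X → Λ) n) (x : X) :
    (fun u => f u x) ∈ Pol F Λ n := Pol_comp (LinearMap.proj x) h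

theorem pow_smul_mem_Pol {n e : ℕ} (he : e < n) (v : Λ) : (fun u : F => u ^ e • v) ∈ Pol F Λ n := by
  refine ⟨fun e' => if e' = e then v else 0, fun u => ?_⟩
  rw [sum_eq_single e]
  · simp
  · intro b _ hb; simp [hb]
  · intro h; exact absurd (mem_range.mpr he) h

theorem eval_mem_Pol {n : ℕ} (P : Polynomial F) (hP : P.degree < n) :
    (fun u => P.eval u) ∈ Pol F F n := by
  by_cases h0 : P = 0
  · subst h0
    exact ⟨0, by simp⟩
  · refine ⟨fun e => P.coeff e, fun u => ?_⟩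
    beta_reduce
    rw [Polynomial.eval_eq_sum_range' ((Polynomial.natDegree_lt_iff_degree_lt h0).mpr hP)]
    exact sum_congr rfl fun e _ => by rw [smul_eq_mul, mul_comm]

theorem exists_poly_of_mem_Pol {n : ℕ} {q : F → F} (hq : q ∈ Pol F F n) :
    ∃ P : Polynomial F, P.degree < n ∧ ∀ u, q u = P.eval u := by
  obtain ⟨c, hc⟩ := hq
  refine ⟨∑ e ∈ range n, Polynomial.C (c e) * Polynomial.X ^ e, ?_, fun u => ?_⟩
  · refine (Polynomial.degree_sum_le _ _).trans_lt ?_
    refine (Finset.sup_lt_iff (WithBot.bot_lt_coe n)).mpr fun e he => ?_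
    refine (Polynomial.degree_C_mul_X_pow_le _ _).trans_lt ?_
    exact WithBot.coe_lt_coe.mpr (mem_range.mp he)
  · rw [hc, Polynomial.eval_finsetSum]
    exact sum_congr rfl fun e _ => by
      rw [Polynomial.eval_mul, Polynomial.eval_C, Polynomial.eval_pow, Polynomial.eval_X,
        smul_eq_mul, mul_comm]

theorem pol_eq_zero {a : ι → F} (ha : Function.Injective a) {n : ℕ} {f : F → Λ}
    (hf : f ∈ Pol F Λ n) {T : Finset ι} (hT : n ≤ #T) (h : ∀ i ∈ T, f (a i) = 0) : f = 0 := by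
  funext u
  rw [Pi.zero_apply, ← Module.forall_dual_apply_eq_zero_iff F]
  intro φ
  obtain ⟨P, hP, hP'⟩ := exists_poly_of_mem_Pol (Pol_comp φ hf)
  have : P = 0 := by
    refine Polynomial.eq_zero_of_degree_lt_of_eval_index_eq_zero T ha.injOn
      (hP.trans_le (by exact_mod_cast hT)) fun i hi => ?_
    rw [← hP', h i hi, map_zero]
  rw [hP', this, Polynomial.eval_zero]

theorem pol_unique {a : ι → F} (ha : Function.Injective a) {n : ℕ} {f g : F → Λ}
    (hf : f ∈ Pol F Λ n) (hg : g ∈ Pol F Λ n) {T : Finset ι} (hT : n ≤ #T)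
    (h : ∀ i ∈ T, f (a i) = g (a i)) : f = g :=
  sub_eq_zero.mp (pol_eq_zero ha (sub_mem hf hg) hT fun i hi => by simp [h i hi])

theorem pol_interp {a : ι → F} (ha : Function.Injective a) {n : ℕ} {T : Finset ι} (hT : #T ≤ n)
    (x : ι → Λ) : ∃ f ∈ Pol F Λ n, ∀ i ∈ T, f (a i) = x i := by
  have key : ∀ j, ∃ q ∈ Pol F F n, ∀ i ∈ T, q (a i) = if i = j then 1 else 0 := fun j =>
    ⟨_, eval_mem_Pol (Lagrange.interpolate T a fun i => if i = j then 1 else 0)
      ((Lagrange.degree_interpolate_lt _ ha.injOn).trans_le (by exact_mod_cast hT)),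
      fun i hi => Lagrange.eval_interpolate_at_node _ ha.injOn hi⟩
  choose q hq hq' using key
  refine ⟨∑ j ∈ T, fun u => q j u • x j, sum_mem fun j _ => Pol_smul_vec (hq j) _, fun i hi => ?_⟩
  rw [Finset.sum_apply, sum_eq_single i]
  · simp [hq' i i hi]
  · intro j _ hj
    simp [hq' j i hi, Ne.symm hj]
  · intro h; exact absurd hi h

/-- The word `x` agrees on `U` with a polynomial function of degree less than `n`. -/
def PolyOn (a : ι → F) (n : ℕ) (U : Finset ι) (x : ι → Λ) : Prop :=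
  ∃ g ∈ Pol F Λ n, ∀ i ∈ U, g (a i) = x i

theorem PolyOn.comp {a : ι → F} {n : ℕ} {U : Finset ι} {x : ι → Λ} (h : PolyOn a n U x)
    (θ : Λ →ₗ[F] Λ') : PolyOn a n U fun i => θ (x i) :=
  let ⟨_, hg, hg'⟩ := h
  ⟨_, Pol_comp θ hg, fun i hi => by simp [hg' i hi]⟩

theorem PolyOn.congr {a : ι → F} {n : ℕ} {U : Finset ι} {x y : ι → Λ} (h : PolyOn a n U x)
    (hxy : ∀ i ∈ U, x i = y i) : PolyOn a n U y :=
  let ⟨g, hg, hg'⟩ := h
  ⟨g, hg, fun i hi => by rw [hg' i hi, hxy i hi]⟩

theorem PolyOn.sub {a : ι → F} {n : ℕ} {U : Finset ι} {x y : ι → Λ} (hx : PolyOn a n U x)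
    (hy : PolyOn a n U y) : PolyOn a n U fun i => x i - y i :=
  let ⟨_, hg, hg'⟩ := hx
  let ⟨_, hf, hf'⟩ := hy
  ⟨_, sub_mem hg hf, fun i hi => by simp [hg' i hi, hf' i hi]⟩

theorem PolyOn.smul {a : ι → F} {n : ℕ} {U : Finset ι} {x : ι → Λ} (hx : PolyOn a n U x) (r : F) :
    PolyOn a n U fun i => r • x i :=
  let ⟨_, hg, hg'⟩ := hx
  ⟨_, Submodule.smul_mem _ r hg, fun i hi => by simp [hg' i hi]⟩

theorem polyOn_of_mem {a : ι → F} {n : ℕ} (U : Finset ι) {g : F → Λ} (hg : g ∈ Pol F Λ n) :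
    PolyOn a n U fun i => g (a i) := ⟨g, hg, fun _ _ => rfl⟩

/-- A word that vanishes on all but one point of a set of `n + 1` points and is polynomial of
degree less than `n` there vanishes. -/
theorem PolyOn.eq_zero {a : ι → F} (ha : Function.Injective a) {n : ℕ} {U : Finset ι}
    (hU : n + 1 ≤ #U) {x : ι → Λ} (hx : PolyOn a n U x) {j : ι} (hj : j ∈ U)
    (h : ∀ i ∈ U, i ≠ j → x i = 0) : x j = 0 := by
  obtain ⟨g, hg, hg'⟩ := hx
  have : g = 0 := pol_eq_zero ha hg (T := U.erase j) (by rw [card_erase_of_mem hj]; omega)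
    fun i hi => by rw [hg' i (mem_of_mem_erase hi), h i (mem_of_mem_erase hi) (ne_of_mem_erase hi)]
  rw [← hg' j hj, this, Pi.zero_apply]

/-- `u ^ n • v + g u` with `v ≠ 0` has at most `n` zeros. -/
theorem card_le_of_pow_add {a : ι → F} (ha : Function.Injective a) {n : ℕ} {v : Λ} (hv : v ≠ 0)
    {g : F → Λ} (hg : g ∈ Pol F Λ n) {U : Finset ι} (h : ∀ i ∈ U, a i ^ n • v + g (a i) = 0) :
    #U ≤ n := by
  by_contra hlt
  obtain ⟨φ, hφ⟩ : ∃ φ : Module.Dual F Λ, φ v ≠ 0 := by
    by_contra hc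
    push Not at hc
    exact hv ((Module.forall_dual_apply_eq_zero_iff F v).mp hc)
  obtain ⟨P, hP, hP'⟩ := exists_poly_of_mem_Pol (Pol_comp φ hg)
  have hdeg : (Polynomial.C (φ v) * Polynomial.X ^ n + P).degree = (n : WithBot ℕ) := by
    rw [Polynomial.degree_add_eq_left_of_degree_lt] <;>
      rw [Polynomial.degree_C_mul_X_pow _ hφ]
    exact hP
  have : Polynomial.C (φ v) * Polynomial.X ^ n + P = 0 := by
    refine Polynomial.eq_zero_of_degree_lt_of_eval_index_eq_zero U ha.injOn ?_ fun i hi => ?_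
    · rw [hdeg]; exact_mod_cast (by omega : n < #U)
    · have := congrArg φ (h i hi)
      rw [map_add, map_smul, map_zero, smul_eq_mul] at this
      rw [Polynomial.eval_add, ← hP', ← this, Polynomial.eval_mul, Polynomial.eval_C,
        Polynomial.eval_pow, Polynomial.eval_X, mul_comm]
  rw [this, Polynomial.degree_zero] at hdeg
  exact absurd hdeg (by simp)

theorem not_polyOn_pow {a : ι → F} (ha : Function.Injective a) {n : ℕ} {v : Λ} (hv : v ≠ 0)
    {U : Finset ι} (hU : n + 1 ≤ #U) : ¬ PolyOn a n U fun i => a i ^ n • v := by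
  rintro ⟨g, hg, hg'⟩
  have := card_le_of_pow_add ha hv (neg_mem hg) (U := U) fun i hi => by simp [hg' i hi]
  omega

/-- A failure of polynomiality is witnessed by one nonzero vector. -/
theorem exists_witness {a : ι → F} (ha : Function.Injective a) {n : ℕ} {U : Finset ι}
    (hU : n ≤ #U) {x : ι → Λ} (hx : ¬ PolyOn a n U x) :
    ∃ z : Λ, z ≠ 0 ∧ ∀ (Λ' : Type) [AddCommGroup Λ'] [Module F Λ'] (θ : Λ →ₗ[F] Λ'), θ z ≠ 0 →
      ¬ PolyOn a n U fun i => θ (x i) := by
  obtain ⟨T, hTU, hT⟩ := exists_subset_card_eq hU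
  obtain ⟨g, hg, hg'⟩ := pol_interp ha hT.le x
  obtain ⟨j, hj, hne⟩ : ∃ j ∈ U, g (a j) ≠ x j := by
    by_contra hc
    push Not at hc
    exact hx ⟨g, hg, hc⟩
  refine ⟨g (a j) - x j, sub_ne_zero.mpr hne, fun Λ' _ _ θ hθ ⟨g', h1, h2⟩ => hθ ?_⟩
  have : g' = fun u => θ (g u) := pol_unique ha h1 (Pol_comp θ hg) hT.ge fun i hi => by
    rw [h2 i (hTU hi), hg' i hi]
  have h3 := h2 j hj
  rw [this] at h3
  rw [map_sub, sub_eq_zero]
  exact h3

variable (F Λ) in
/-- The finite set of polynomial functions of degree less than `n`. -/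
def PolF [Fintype F] [Fintype Λ] (n : ℕ) : Finset (F → Λ) := {f | f ∈ Pol F Λ n}

@[simp] theorem mem_PolF [Fintype F] [Fintype Λ] {n : ℕ} {f : F → Λ} :
    f ∈ PolF F Λ n ↔ f ∈ Pol F Λ n := by simp [PolF]

theorem card_PolF_le [Fintype F] [Fintype Λ] (n : ℕ) : #(PolF F Λ n) ≤ Fintype.card Λ ^ n := by
  have : PolF F Λ n ⊆ (univ : Finset (Fin n → Λ)).image
      fun c u => ∑ e : Fin n, u ^ (e : ℕ) • c e := by
    intro f hf
    obtain ⟨c, hc⟩ := mem_PolF.mp hf
    refine mem_image.mpr ⟨fun e => c e, mem_univ _, funext fun u => ?_⟩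
    rw [hc, Fin.sum_univ_eq_sum_range fun e => u ^ e • c e]
  refine (card_le_card this).trans (card_image_le.trans ?_)
  simp

/-- Exactly one polynomial function of degree less than `n` interpolates on an `n`-set. -/
theorem card_interp [Fintype F] [Fintype Λ] {a : ι → F} (ha : Function.Injective a) {n : ℕ}
    {T : Finset ι} (hT : #T = n) (x : ι → Λ) :
    ∃ f ∈ Pol F Λ n, ∀ g, (g ∈ Pol F Λ n ∧ ∀ i ∈ T, g (a i) = x i) ↔ g = f := by
  obtain ⟨f, hf, hf'⟩ := pol_interp ha hT.le x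
  refine ⟨f, hf, fun g => ⟨fun h => pol_unique ha h.1 hf hT.ge fun i hi => ?_, ?_⟩⟩
  · rw [h.2 i hi, hf' i hi]
  · rintro rfl; exact ⟨hf, hf'⟩

end Pol

end

end Pool.Agent.MP_c7a479_co
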