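import Pool.Agent.MP_c7a479_co.Defs
import Pool.Agent.MP_c7a479_co.PolyComp
import Pool.Agent.MP_c7a479_co.PolySieve

/-! From universal ingredients to the polynomial lower bound. -/

namespace Pool.Agent.MP_c7a479_co

open Finset
open scoped Classical

namespace PolyFinal

variable {ι W : Type} {t : ℕ}

/-- Universal ingredients exist on an alphabet with `size o` symbols of type `o`. -/
def Good (ι : Type) (t : ℕ) (size : Option W → ℕ) : Prop :=
  ∃ S : Option W → Type, (∀ o, Finite (S o)) ∧ (∀ o, Nat.card (S o) = size o) ∧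
    Univ ι t (t + 1) (Sigma.fst : (Σ o, S o) → Option W)

theorem good_init {M : Type} [Finite M]
    (h : Univ ι t (t + 1) (Sum.getRight? : M ⊕ W → Option W)) :
    Good ι t fun o : Option W => o.elim (Nat.card M) fun _ => 1 := by
  let S : Option W → Type := fun o => match o with
    | none => M
    | some _ => Unit
  let e : M ⊕ W ≃ (Σ o, S o) :=
    { toFun := fun x => match x with
        | .inl m => ⟨none, m⟩
        | .inr w => ⟨some w, ()⟩
      invFun := fun x => match x with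
        | ⟨none, m⟩ => .inl m
        | ⟨some w, _⟩ => .inr w
      left_inv := by rintro (_ | _) <;> rfl
      right_inv := by rintro ⟨_ | _, _⟩ <;> rfl }
  refine ⟨S, ?_, ?_, h.map_equiv e ?_⟩
  · rintro (_ | _) <;> simp only [S] <;> infer_instance
  · rintro (_ | _) <;> simp [S]
  · rintro (_ | _) <;> rfl

theorem Good.prime [Fintype ι] {size : Option W → ℕ} (h : Good ι t size) {q : ℕ} (hq : q.Prime)
    (hι : Fintype.card ι ≤ q) {car : Option W → Prop} (hcar : car none) :
    Good ι t fun o => if car o then size o * q else size o := by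
  obtain ⟨S, hf, hc, hU⟩ := h
  have : Fact q.Prime := ⟨hq⟩
  obtain ⟨a⟩ : Nonempty (ι ↪ ZMod q) :=
    Function.Embedding.nonempty_of_card_le (by rwa [ZMod.card])
  refine ⟨fun o => S o × {l : ZMod q // ¬ car o → l = 0}, fun o => inferInstance, fun o => ?_,
    hU.comp (Λ := ZMod q) a.injective hcar (lift := fun x l =>
      ⟨x.1, x.2, if car x.1 then l else 0, fun h => if_neg h⟩) (fun _ _ => rfl) ?_ ?_⟩
  · rw [Nat.card_prod, hc]
    beta_reduce
    split_ifs with h
    · rw [Nat.card_congr (Equiv.subtypeUnivEquiv fun l h' => absurd h h'), Nat.card_zmod]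
    · have : Unique {l : ZMod q // ¬ car o → l = 0} :=
        ⟨⟨⟨0, fun _ => rfl⟩⟩, fun l => Subtype.ext (l.2 h)⟩
      rw [Nat.card_unique, mul_one]
  · rintro ⟨o, s, l, hl⟩
    refine ⟨⟨o, s⟩, l, ?_⟩
    by_cases h : car o
    · simp [h]
    · simp [h, hl h]
  · rintro ⟨o, s⟩ l ⟨o', s'⟩ l'
    by_cases ho : o = o'
    · subst ho
      by_cases h : car o <;> simp [h]
    · simp [ho]

theorem Good.mul [Fintype ι] {car : Option W → Prop} (hcar : car none) (r : ℕ) (hr : r ≠ 0)
    (hl : ∀ l : ℕ, l.Prime → l ∣ r → Fintype.card ι ≤ l) {size : Option W → ℕ}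
    (h : Good ι t size) : Good ι t fun o => if car o then size o * r else size o := by
  induction r using induction_on_primes with
  | zero => exact absurd rfl hr
  | one => simpa using h
  | prime_mul q r hq ih =>
    have := (ih (right_ne_zero_of_mul hr) fun l h1 h2 => hl l h1 (h2.mul_left q)).prime hq
      (hl q hq (dvd_mul_right q r)) hcar
    convert this using 2 with o
    split_ifs
    · ring
    · rfl

theorem Good.levels [Fintype ι] {q : ℕ} (hq : q.Prime) (hι : Fintype.card ι ≤ q)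
    (lev : Option W → ℕ) {size : Option W → ℕ} (h : Good ι t size) (d : ℕ) (hd : d ≤ lev none) :
    Good ι t fun o => size o * q ^ min (lev o) d := by
  induction d with
  | zero => simpa using h
  | succ d ih =>
    have := (ih (Nat.le_of_succ_le hd)).prime hq hι (car := fun o => d < lev o) hd
    convert this using 2 with o
    split_ifs with h1
    · rw [min_eq_right h1, min_eq_right h1.le, pow_succ, mul_assoc]
    · rw [min_eq_left (by omega), min_eq_left (by omega)]

theorem Good.hasVarSet [Fintype W] {m K : ℕ} (hm : 1 ≤ m) {size : Option W → ℕ}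
    (h : Good (Fin m ⊕ Fin K) m size) : HasVarSet m (∑ o, size o) K := by
  obtain ⟨S, hf, hc, hU⟩ := h
  obtain ⟨μ, hμ⟩ := hU (fun q => q.card < m + 1)
    ⟨by simp, fun p q hpq hq => (Multiset.card_le_card hpq).trans_lt hq⟩ fun _ h => h
  have h1 : ∀ T : Finset (Fin m ⊕ Fin K), #T = m → ∀ τ, cov μ T τ = 1 := by
    intro T hT τ
    rw [hμ T hT, if_pos]
    beta_reduce
    rw [card_pat]
    exact Nat.lt_succ_of_le ((card_filter_le _ _).trans hT.le)
  have h2 : ∀ x : Fin m → Σ o, S o, ∃ b ∈ μ, ∀ j, b (.inl j) = x j := by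
    intro x
    have := h1 (univ.map Function.Embedding.inl) (by simp) (Sum.elim x fun _ => x ⟨0, hm⟩)
    obtain ⟨b, hb, hb'⟩ := cov_pos.1 (this ▸ one_pos)
    exact ⟨b, hb, fun j => hb' (.inl j) (by simp)⟩
  choose B hB hB' using h2
  have key : ∀ x y (T : Finset (Fin m ⊕ Fin K)), #T = m → (∀ i ∈ T, B x i = B y i) → x = y := by
    intro x y T hT h
    have := eq_of_cov_le_one (hB x) (hB y) h (h1 T hT _).le
    funext j
    rw [← hB' x, this, hB']
  have : Fintype (Σ o, S o) := Fintype.ofFinite _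
  refine IsVarSet.hasVarSet (C := fun (k : Fin K) x => B x (.inr k)) (isVarSet_of_sep ?_ ?_)
    (by simp) ?_ (by simp)
  · intro k x j
    refine Function.Injective.bijective_of_finite fun s s' hs => ?_
    have := key (Function.update x j s) (Function.update x j s')
      (insert (.inr k) ((univ.erase j).map Function.Embedding.inl)) ?_ ?_
    · simpa using congrFun this j
    · rw [card_insert_of_notMem (by simp), card_map, card_erase_of_mem (mem_univ _)]
      simp only [card_univ, Fintype.card_fin]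
      omega
    · intro i hi
      rcases mem_insert.1 hi with rfl | hi
      · exact hs
      · obtain ⟨i, hi', rfl⟩ := mem_map.1 hi
        have hij := ne_of_mem_erase hi'
        simp only [Function.Embedding.inl_apply, hB', Function.update_of_ne hij]
  · intro x y T hT h
    refine key x y (T.map Function.Embedding.inr) (by simpa using hT) fun i hi => ?_
    obtain ⟨i, hi', rfl⟩ := mem_map.1 hi
    exact h i hi'
  · rw [← Nat.card_eq_fintype_card, Nat.card_sigma]
    exact sum_congr rfl fun o _ => hc o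

theorem digits {p d u : ℕ} (h : u < p ^ d) :
    ∃ f : Fin d → ℕ, (∀ l, f l ≤ p) ∧ ∑ l, f l * p ^ (l : ℕ) = u := by
  obtain ⟨f, hf⟩ := finFunctionFinEquiv.surjective (⟨u, h⟩ : Fin (p ^ d))
  exact ⟨fun l => f l, fun l => (f l).2.le, by rw [← finFunctionFinEquiv_apply, hf]⟩

theorem card_types {p d : ℕ} {f : Fin d → ℕ} (hf : ∀ l, f l ≤ p) :
    Fintype.card (Σ l, Fin (f l)) ≤ d * p := by
  rw [Fintype.card_sigma]
  simpa using sum_le_card_nsmul univ (fun l => f l) p fun l _ => hf l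

theorem build {m K D d p r u v : ℕ} [Fact p.Prime] (hm : 1 ≤ m) (hK : 1 ≤ K) (hp : m + K = p)
    (H : ∀ (ι W : Type) [Fintype ι] [Fintype W] (a : ι → ZMod p), Function.Injective a →
      m < Fintype.card ι → Fintype.card W ≤ p ^ 2 →
      Univ ι m (m + 1) (Sum.getRight? : (Fin D → ZMod p) ⊕ W → Option W))
    (hd : 2 * (d + 1) ≤ p) (hr : r ≠ 0) (hl : ∀ l : ℕ, l.Prime → l ∣ r → p ≤ l)
    (hu : u < p ^ (d + 1)) (hv : v < p ^ (d + 1)) :
    HasVarSet m (r * (p ^ (D + d) + u) + v) K := by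
  obtain ⟨f, hf, rfl⟩ := digits hu
  obtain ⟨g, hg, rfl⟩ := digits hv
  have hι : Fintype.card (Fin m ⊕ Fin K) = p := by simpa using hp
  obtain ⟨a⟩ : Nonempty (Fin m ⊕ Fin K ↪ ZMod p) :=
    Function.Embedding.nonempty_of_card_le (by rw [ZMod.card, hι])
  have h0 := good_init (H (Fin m ⊕ Fin K) ((Σ l, Fin (f l)) ⊕ (Σ l, Fin (g l))) a a.injective
    (by omega) (by
      rw [Fintype.card_sum]
      have := card_types hf
      have := card_types hg
      nlinarith))
  have h1 := h0.levels (Fact.out : p.Prime) hι.le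
    (fun o => o.elim d (Sum.elim (fun x => x.1) fun x => x.1)) d le_rfl
  have h2 := (h1.mul (car := fun o => o.elim True (Sum.elim (fun _ => True) fun _ => False))
    trivial r hr (by rwa [hι])).hasVarSet hm
  convert h2 using 1
  have hmin : ∀ l : Fin (d + 1), min (l : ℕ) d = l := fun l => min_eq_left (by omega)
  simp only [Fintype.sum_option, Fintype.sum_sum_type, Fintype.sum_sigma, Option.elim,
    Sum.elim_inl, Sum.elim_inr, if_true, if_false, hmin, min_self, sum_const, card_univ,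
    Fintype.card_fin, smul_eq_mul, one_mul, Nat.card_pi, Nat.card_zmod, prod_const]
  rw [mul_add, mul_sum, add_assoc, pow_add, mul_comm r]
  congr 2
  exact sum_congr rfl fun l _ => by ring

theorem split {C D p n : ℕ} (hp : 2 ≤ p) (h1 : p ^ (C + 2 * D + (C + D + 1) + 1) ≤ n)
    (h2 : n < p ^ (C + 2 * D + (C + D + 1) + 1 + 1))
    (hC : ∀ x, ∃ r, x < r ∧ r ≤ x + p ^ C ∧ ∀ l : ℕ, l.Prime → l ∣ r → p ≤ l) :
    ∃ r u v, r ≠ 0 ∧ (∀ l : ℕ, l.Prime → l ∣ r → p ≤ l) ∧ u < p ^ (C + D + 1 + 1) ∧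
      v < p ^ (C + D + 1 + 1) ∧ r * (p ^ (D + (C + D + 1)) + u) + v = n := by
  obtain ⟨d, hd⟩ : ∃ d, d = C + D + 1 := ⟨_, rfl⟩
  rw [← hd] at h1 h2 ⊢
  have hP : 0 < p ^ (D + d) := by positivity
  obtain ⟨y, hy⟩ : ∃ y, y = n / p ^ (D + d) := ⟨_, rfl⟩
  have hy1 : p ^ (C + D + 1) ≤ y := by
    rw [hy, Nat.le_div_iff_mul_le hP, ← pow_add]
    convert h1 using 2
    omega
  have hy2 : y < p ^ (d + 1) := by
    rw [hy, Nat.div_lt_iff_lt_mul hP, ← pow_add]
    convert h2 using 2
    omega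
  have h3 : p ^ C ≤ p ^ (C + D) := Nat.pow_le_pow_right (by omega) (by omega)
  have h4 : p ^ (C + D) * 2 ≤ p ^ (C + D + 1) := by rw [pow_succ]; gcongr
  obtain ⟨r, hr1, hr2, hr3⟩ := hC (y - p ^ C)
  have hry : r ≤ y := by omega
  have hr0 : 0 < r := by omega
  have h5 : p ^ (D + d) ≤ n / r := by
    rw [Nat.le_div_iff_mul_le hr0]
    calc p ^ (D + d) * r ≤ p ^ (D + d) * y := by gcongr
      _ ≤ n := hy ▸ Nat.mul_div_le _ _
  refine ⟨r, n / r - p ^ (D + d), n % r, hr0.ne', hr3, ?_, (Nat.mod_lt _ hr0).trans_le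
    (hry.trans hy2.le), ?_⟩
  · rw [Nat.sub_lt_iff_lt_add' h5, Nat.div_lt_iff_lt_mul hr0]
    calc n < p ^ (D + d) * (y + 1) := hy ▸ Nat.lt_mul_div_succ _ hP
      _ ≤ p ^ (D + d) * (r + p ^ C) := Nat.mul_le_mul_left _ (by omega)
      _ = p ^ (D + d) * r + p ^ d * p ^ (C + D) := by ring
      _ ≤ p ^ (D + d) * r + p ^ (d + 1) * r := by
        gcongr
        · omega
        · omega
        · omega
      _ = (p ^ (D + d) + p ^ (d + 1)) * r := by ring
  · rw [Nat.add_sub_cancel' h5, Nat.div_add_mod]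

end PolyFinal

open PolyFinal in
theorem final_of_univ (H : ∀ t : ℕ, ∃ D : ℕ, ∀ (p : ℕ) [Fact p.Prime] (ι W : Type) [Fintype ι]
    [Fintype W] (a : ι → ZMod p), Function.Injective a → t < Fintype.card ι →
    Fintype.card W ≤ p ^ 2 →
    Univ ι t (t + 1) (Sum.getRight? : (Fin D → ZMod p) ⊕ W → Option W)) (m : ℕ) (hm : 1 ≤ m) :
    ∃ c : ℝ, 0 < c ∧ ∃ n₀ : ℕ, ∀ n : ℕ, n₀ ≤ n → ∃ k : ℕ, (n : ℝ) ^ c ≤ k ∧ HasVarSet m n k := by
  obtain ⟨D, hD⟩ := H m
  obtain ⟨C, hC⟩ := rough_interval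
  set lo := C + 2 * D + (C + D + 1) + 1 with hlo
  refine ⟨((2 * (lo + 1) : ℕ) : ℝ)⁻¹, by positivity,
    (2 ^ lo + 2 * (C + D + 1 + 1) + 2 * m) ^ (lo + 1), fun n hn => ?_⟩
  set s := Nat.nthRoot (lo + 1) n with hs
  have hs1 : 2 ^ lo + 2 * (C + D + 1 + 1) + 2 * m ≤ s := (Nat.le_nthRoot_iff (by omega)).2 hn
  have hs2 : s ^ (lo + 1) ≤ n := (Nat.le_nthRoot_iff (by omega)).1 le_rfl
  have hs3 : n < (s + 1) ^ (lo + 1) := Nat.lt_pow_nthRoot_add_one (by omega) n
  have h2 : 2 ^ lo ≤ s := by omega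
  have h3 : 2 * (C + D + 1 + 1) + 2 * m ≤ s := le_trans (by
    rw [add_assoc (2 ^ lo)]; exact Nat.le_add_left _ _) hs1
  obtain ⟨p, hp, hp1, hp2⟩ := Nat.exists_prime_lt_and_le_two_mul s (by omega)
  have : Fact p.Prime := ⟨hp⟩
  have hn2 : n < p ^ (lo + 1) := hs3.trans_le (Nat.pow_le_pow_left hp1 _)
  have hn1 : p ^ lo ≤ n :=
    calc p ^ lo ≤ (2 * s) ^ lo := Nat.pow_le_pow_left hp2 _
      _ = 2 ^ lo * s ^ lo := mul_pow _ _ _
      _ ≤ s * s ^ lo := by gcongr
      _ = s ^ (lo + 1) := by ring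
      _ ≤ n := hs2
  obtain ⟨r, u, v, hr, hl, hu, hv, rfl⟩ := split hp.two_le hn1 hn2 fun x => hC p x hp.two_le
  obtain ⟨K, hK⟩ : ∃ K, m + K = p := ⟨p - m, by omega⟩
  refine ⟨K, ?_, build hm (by omega) hK (hD p) (by omega) hr hl hu hv⟩
  rw [← Real.pow_rpow_inv_natCast (Nat.cast_nonneg K) (n := 2 * (lo + 1)) (by omega)]
  refine Real.rpow_le_rpow (Nat.cast_nonneg _) ?_ (by positivity)
  norm_cast
  rw [pow_mul]
  exact hn2.le.trans
    (Nat.pow_le_pow_left (by nlinarith [show m ≤ K by omega, show 2 ≤ K by omega]) _)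

end Pool.Agent.MP_c7a479_co
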