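import Pool.Agent.MP_c7a479_co.PolyDefs

/-! Integral decompositions with polynomially many blocks. -/

namespace Pool.Agent.MP_c7a479_co

open Finset Function
open scoped Classical

noncomputable section

variable {ι K : Type} [Fintype ι] [Fintype K]

/-- Words with at most `t` letters different from `z`. -/
def small (ι : Type) [Fintype ι] {K : Type} [Fintype K] (z : K) (t : ℕ) : Finset (ι → K) :=
  {b | #{i | b i ≠ z} ≤ t}

theorem card_small_le (z : K) (t : ℕ) :
    #(small ι z t) ≤ (Fintype.card ι * Fintype.card K + 1) ^ t := by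
  have : small ι z t ⊆ (univ : Finset (Fin t → Option (ι × K))).image
      fun v i => if h : ∃ κ, ∃ e, v e = some (i, κ) then h.choose else z := by
    intro b hb
    have hb' : Fintype.card ({i | b i ≠ z} : Finset ι) ≤ Fintype.card (Fin t) := by
      rw [Fintype.card_coe, Fintype.card_fin]
      simpa [small] using hb
    obtain ⟨g⟩ := Function.Embedding.nonempty_of_card_le hb'
    refine mem_image.mpr ⟨fun e => if h : ∃ i, g i = e then some (h.choose, b h.choose) else none,
      mem_univ _, funext fun i => ?_⟩
    have hv : ∀ κ, (∃ e, (if h : ∃ i, g i = e then some ((h.choose : ι), b h.choose) else none) =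
        some (i, κ)) ↔ b i ≠ z ∧ κ = b i := by
      intro κ
      constructor
      · rintro ⟨e, he⟩
        split_ifs at he with h
        simp only [Option.some.injEq, Prod.mk.injEq] at he
        have := h.choose.2
        rw [he.1] at this
        exact ⟨by simpa using this, by rw [← he.2, he.1]⟩
      · rintro ⟨hi, rfl⟩
        have h : ∃ j, g j = g ⟨i, by simpa using hi⟩ := ⟨_, rfl⟩
        refine ⟨_, (dif_pos h).trans ?_⟩
        rw [g.injective h.choose_spec]
    simp only [hv]
    split_ifs with h
    · exact h.choose_spec.2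
    · by_contra hne
      exact h ⟨b i, Ne.symm hne, rfl⟩
  refine (card_le_card this).trans (card_image_le.trans ?_)
  simp

omit [Fintype ι] in
theorem sum_cov_update (μ : Multiset (ι → K)) {T : Finset ι} {i : ι} (hi : i ∉ T) (τ : ι → K) :
    ∑ u, cov μ (insert i T) (update τ i u) = cov μ T τ := by
  induction μ using Multiset.induction_on with
  | empty => simp
  | cons b μ ih =>
    rw [← Multiset.singleton_add]
    simp only [cov_add, sum_add_distrib, ih, cov_singleton]
    congr 1
    rw [sum_eq_single (b i)]
    · congr 1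
      simp only [mem_insert, forall_eq_or_imp, update_self, true_and, eq_iff_iff]
      exact forall₂_congr fun j hj => by rw [update_of_ne (ne_of_mem_of_not_mem hj hi)]
    · intro u _ hu
      rw [if_neg]
      intro h
      exact hu (by simpa using (h i (mem_insert_self _ _)).symm)
    · simp

/-- `L T` depends only on the letters in `T`. -/
def IsLocal (t : ℕ) (L : Finset ι → (ι → K) → ℤ) : Prop :=
  ∀ T, #T = t → ∀ τ τ', (∀ i ∈ T, τ i = τ' i) → L T τ = L T τ'

/-- The marginals of `L` are consistent. -/
def IsCons (t : ℕ) (L : Finset ι → (ι → K) → ℤ) : Prop :=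
  ∀ T, #T + 1 = t → ∀ i ∉ T, ∀ j ∉ T, ∀ τ,
    ∑ u, L (insert i T) (update τ i u) = ∑ u, L (insert j T) (update τ j u)

omit [Fintype ι] [Fintype K] in
theorem const_of_exchange {t : ℕ} {S : Finset ι} {v : Finset ι → ℤ}
    (h : ∀ T, #T + 1 = t → S ⊆ T → ∀ i ∉ T, ∀ j ∉ T, v (insert i T) = v (insert j T))
    {T' : Finset ι} (hT' : #T' = t) (hS' : S ⊆ T') :
    ∀ n, ∀ T, #(T \ T') = n → #T = t → S ⊆ T → v T = v T' := by
  intro n
  induction n with
  | zero =>
    intro T hn hT _
    rw [card_eq_zero, sdiff_eq_empty_iff_subset] at hn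
    rw [eq_of_subset_of_card_le hn (by omega)]
  | succ n ih =>
    intro T hn hT hS
    obtain ⟨i, hi⟩ : (T \ T').Nonempty := card_pos.mp (by omega)
    obtain ⟨j, hj⟩ : (T' \ T).Nonempty := by
      rw [← card_pos, card_sdiff_comm (hT'.trans hT.symm)]; omega
    rw [mem_sdiff] at hi hj
    have hSe : S ⊆ T.erase i := fun x hx =>
      mem_erase.mpr ⟨fun hxi => hi.2 (hxi ▸ hS' hx), hS hx⟩
    have hc : #(T.erase i) + 1 = t := by rw [card_erase_add_one hi.1, hT]
    have hj' : j ∉ T.erase i := fun h => hj.2 (mem_of_mem_erase h)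
    have := h (T.erase i) hc hSe i (notMem_erase _ _) j hj'
    rw [insert_erase hi.1] at this
    rw [this]
    refine ih _ ?_ (by rw [card_insert_of_notMem hj', hc]) (hSe.trans (subset_insert _ _))
    have : insert j (T.erase i) \ T' = (T \ T').erase i := by
      ext x
      simp only [mem_sdiff, mem_insert, mem_erase]
      constructor
      · rintro ⟨rfl | h1, h2⟩
        · exact absurd hj.1 h2
        · exact ⟨h1.1, h1.2, h2⟩
      · rintro ⟨h1, h2, h3⟩
        exact ⟨Or.inr ⟨h1, h2⟩, h3⟩
    rw [this, card_erase_of_mem (mem_sdiff.mpr hi), hn]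
    rfl

theorem int_decomp_aux (z : K) {t : ℕ} (ht : t ≤ Fintype.card ι) : ∀ j ≤ t + 1,
    ∀ (L : Finset ι → (ι → K) → ℤ) (B : ℕ), IsLocal t L → IsCons t L →
      (∀ T, #T = t → ∀ τ, |L T τ| ≤ B) →
      (∀ T, #T = t → ∀ τ, j ≤ #{i ∈ T | τ i ≠ z} → L T τ = 0) →
      ∃ P N : Multiset (ι → K), (∀ T, #T = t → ∀ τ, (cov P T τ : ℤ) = L T τ + cov N T τ) ∧
        P.card + N.card + B ≤ B * (#(small ι z t) + 1) ^ j := by
  intro j
  induction j with
  | zero =>
    intro _ L B _ _ _ h0
    exact ⟨0, 0, fun T hT τ => by simp [h0 T hT τ (Nat.zero_le _)], by simp⟩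
  | succ j ih =>
    intro hj L B hloc hcons hB h0
    set 𝔅 : Finset (ι → K) := {b | #{i | b i ≠ z} = j} with h𝔅
    have h𝔅c : #𝔅 ≤ #(small ι z t) := card_le_card fun b hb => by
      simp only [h𝔅, small, mem_filter, mem_univ, true_and] at hb ⊢
      omega
    have hval : ∀ b : ι → K, ∃ v : ℤ, |v| ≤ B ∧ (b ∈ 𝔅 →
        ∀ T, #T = t → ({i | b i ≠ z} : Finset ι) ⊆ T → L T b = v) := by
      intro b
      by_cases hb : b ∈ 𝔅
      swap
      · exact ⟨0, by simp, fun h => absurd h hb⟩
      have hb' : #{i | b i ≠ z} = j := by simpa [h𝔅] using hb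
      obtain ⟨T', hS', hT'⟩ := exists_superset_card_eq (s := {i | b i ≠ z}) (n := t)
        (by omega) ht
      refine ⟨L T' b, hB T' hT' b, fun _ T hT hS => ?_⟩
      refine const_of_exchange (v := fun T => L T b) ?_ hT' hS' _ T rfl hT hS
      intro T₀ hT₀ hS₀ i hi i' hi'
      have key : ∀ i ∉ T₀, ∑ u, L (insert i T₀) (update b i u) = L (insert i T₀) b := by
        intro i hi
        have hbi : b i = z := by
          by_contra hne
          exact hi (hS₀ (by simpa using hne))
        rw [sum_eq_single z]
        · rw [← hbi, update_eq_self]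
        · intro u _ hu
          refine h0 _ (by rw [card_insert_of_notMem hi, hT₀]) _ ?_
          rw [← hb', ← card_insert_of_notMem (a := i) (by simp [hbi])]
          refine card_le_card fun x hx => ?_
          rcases mem_insert.mp hx with rfl | hx
          · simp [hu]
          · have hx' := hS₀ hx
            have : x ≠ i := ne_of_mem_of_not_mem hx' hi
            simpa [hx', this] using hx
        · simp
      rw [← key i hi, ← key i' hi']
      exact hcons T₀ hT₀ i hi i' hi' b
    choose val hvalB hval using hval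
    set P₁ : Multiset (ι → K) := ∑ b ∈ 𝔅, Multiset.replicate (val b).toNat b
    set N₁ : Multiset (ι → K) := ∑ b ∈ 𝔅, Multiset.replicate (-val b).toNat b
    have hc : ∀ T τ, (cov P₁ T τ : ℤ) - cov N₁ T τ =
        ∑ b ∈ 𝔅, if ∀ i ∈ T, b i = τ i then val b else 0 := by
      intro T τ
      simp only [P₁, N₁, cov_sum, cov_replicate, Nat.cast_sum, ← sum_sub_distrib]
      refine sum_congr rfl fun b _ => ?_
      split_ifs
      · exact Int.toNat_sub_toNat_neg _
      · simp
    have hcard : P₁.card + N₁.card ≤ #(small ι z t) * B := by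
      simp only [P₁, N₁, Multiset.card_sum, Multiset.card_replicate, ← sum_add_distrib]
      refine (sum_le_card_nsmul _ _ B fun b _ => ?_).trans (by simpa using Nat.mul_le_mul_right _ h𝔅c)
      have := hvalB b
      rw [abs_le] at this
      omega
    obtain ⟨P, N, hPN, hPNc⟩ := ih (by omega) (fun T τ => L T τ - (cov P₁ T τ - cov N₁ T τ))
      (B * (#(small ι z t) + 1))
      (fun T hT τ τ' h => by beta_reduce; rw [hloc T hT τ τ' h, cov_congr P₁ h, cov_congr N₁ h])
      (fun T hT i hi i' hi' τ => by
        simp only [sum_sub_distrib, ← Nat.cast_sum, sum_cov_update _ hi, sum_cov_update _ hi']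
        rw [hcons T hT i hi i' hi' τ])
      (fun T hT τ => by
        rw [hc]
        refine (abs_sub _ _).trans ?_
        have h1 : |∑ b ∈ 𝔅, if ∀ i ∈ T, b i = τ i then val b else 0| ≤ #𝔅 * B := by
          refine (abs_sum_le_sum_abs _ _).trans ?_
          refine (sum_le_card_nsmul _ _ (B : ℤ) fun b _ => ?_).trans (by simp)
          split_ifs
          · exact hvalB b
          · simp
        have h2 : (#𝔅 : ℤ) * B ≤ #(small ι z t) * B := by
          exact_mod_cast Nat.mul_le_mul_right _ h𝔅c
        have := hB T hT τ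
        push_cast
        linarith)
      (fun T hT τ hτ => by
        rw [hc, sub_eq_zero]
        have hsub : ∀ b : ι → K, (∀ i ∈ T, b i = τ i) →
            ({i ∈ T | τ i ≠ z} : Finset ι) ⊆ ({i | b i ≠ z} : Finset ι) := fun b hb i hi => by
          rw [mem_filter] at hi
          simpa [hb i hi.1] using hi.2
        rcases hτ.lt_or_eq with hlt | heq
        · rw [h0 T hT τ hlt, eq_comm]
          refine sum_eq_zero fun b hb => if_neg fun h => ?_
          have := card_le_card (hsub b h)
          have hb' : #{i | b i ≠ z} = j := by simpa [h𝔅] using hb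
          omega
        · set b₀ : ι → K := fun i => if i ∈ T then τ i else z
          have hb₀ : ({i | b₀ i ≠ z} : Finset ι) = {i ∈ T | τ i ≠ z} := by
            ext i
            by_cases hi : i ∈ T <;> simp [b₀, hi]
          have hmem : b₀ ∈ 𝔅 := by simp only [h𝔅, mem_filter, mem_univ, true_and, hb₀, heq]
          have hag : ∀ i ∈ T, b₀ i = τ i := fun i hi => if_pos hi
          rw [sum_eq_single b₀, if_pos hag, ← hval b₀ hmem T hT (hb₀ ▸ filter_subset _ _)]
          · exact (hloc T hT _ _ hag).symm
          · intro b hb hne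
            refine if_neg fun h => hne (funext fun i => ?_)
            have hb' : #{i | b i ≠ z} = j := by simpa [h𝔅] using hb
            have he := eq_of_subset_of_card_le (hsub b h) (by omega)
            by_cases hi : i ∈ T
            · rw [h i hi, hag i hi]
            · have : i ∉ ({i | b i ≠ z} : Finset ι) := he ▸ fun h => hi (mem_filter.mp h).1
              simpa [b₀, hi] using this
          · intro h; exact absurd hmem h)
    refine ⟨P + P₁, N + N₁, fun T hT τ => ?_, ?_⟩
    · have := hPN T hT τ
      simp only [cov_add, Nat.cast_add]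
      linarith
    · rw [pow_succ', ← mul_assoc]
      refine le_trans ?_ hPNc
      simp only [Multiset.card_add]
      nlinarith

/-- Integral decomposition of a consistent family with values of modulus at most one. -/
theorem int_decomp (z : K) {t : ℕ} (ht : t ≤ Fintype.card ι) (L : Finset ι → (ι → K) → ℤ)
    (hloc : IsLocal t L) (hcons : IsCons t L) (hB : ∀ T, #T = t → ∀ τ, |L T τ| ≤ 1) :
    ∃ P N : Multiset (ι → K), (∀ T, #T = t → ∀ τ, (cov P T τ : ℤ) = L T τ + cov N T τ) ∧
      P.card + N.card ≤ ((Fintype.card ι * Fintype.card K + 1) ^ t + 1) ^ (t + 1) := by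
  obtain ⟨P, N, h1, h2⟩ := int_decomp_aux z ht (t + 1) le_rfl L 1 hloc hcons
    (by exact_mod_cast hB) fun T hT τ h => absurd (h.trans (card_filter_le _ _)) (by omega)
  refine ⟨P, N, h1, ?_⟩
  have := Nat.pow_le_pow_left (Nat.add_le_add_right (card_small_le (ι := ι) z t) 1) (t + 1)
  omega

end

end Pool.Agent.MP_c7a479_co
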