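import Pool.Agent.MP_c7a479_co.PolyStep

/-! Universal ingredients of polynomial size. -/

namespace Pool.Agent.MP_c7a479_co

open Finset Function
open scoped Classical

noncomputable section

/-- Universal ingredients exist on `F ^ D` plus the new symbols. -/
def GoodU (t σ D : ℕ) : Prop := ∀ (ι W F : Type) [Field F] [Fintype F] [Fintype ι] [Fintype W]
  (a : ι → F), Injective a → t ≤ Fintype.card ι → Fintype.card W ≤ Fintype.card F ^ 2 →
    Univ ι t σ (Sum.getRight? : (Fin D → F) ⊕ W → Option W)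

/-- Packings exact on large patterns exist on `F ^ D` plus the new symbols. -/
def GoodX (t σ s D : ℕ) : Prop := ∀ (ι W F : Type) [Field F] [Fintype F] [Fintype ι] [Fintype W]
  (a : ι → F), Injective a → t ≤ Fintype.card ι → Fintype.card W ≤ Fintype.card F ^ 2 →
    ∀ 𝒟 : Multiset W → Prop, Down 𝒟 → (∀ p, 𝒟 p → p.card < σ + 1) →
      ∃ X : Multiset (ι → (Fin D → F) ⊕ W), XL t s Sum.getRight? 𝒟 X

/-- The alphabet `F ^ D` is large. -/
def Big (t D : ℕ) : Prop := ∀ p, 2 ≤ p → (p * (p ^ 2 + 1) + 1) ^ t + p * p ^ 2 + 1 ≤ p ^ D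

theorem exists_big (t : ℕ) : ∃ D, Big t D :=
  ((((PB.id.mul ((PB.id.pow 2).add (PB.const 1))).add (PB.const 1)).pow t).add
    (PB.id.mul (PB.id.pow 2))).add (PB.const 1)

theorem Big.mono {t D : ℕ} (h : Big t D) (D' : ℕ) : Big t (D + D') := fun p hp =>
  (h p hp).trans (Nat.pow_le_pow_right (by omega) (Nat.le_add_right _ _))

theorem GoodU.mono {t σ D : ℕ} (h : GoodU t σ D) (D' : ℕ) : GoodU t σ (D + D') := by
  intro ι W F _ _ _ _ a ha ht hW
  refine ((h ι W F a ha ht hW).compS (Λ := Fin D' → F) ha).map_equiv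
    (Equiv.sumCongr (Fintype.equivOfCardEq (by simp [pow_add])) (Equiv.refl W)) fun x => ?_
  cases x <;> rfl

theorem goodX_top {t σ D : ℕ} (hσ : σ ≤ t) (h : Big t D) : GoodX t σ σ D := by
  intro ι W F _ _ _ _ a ha ht hW 𝒟 hD hD'
  refine top_layer ha hσ ?_ hD hD'
  have hk : Fintype.card ι ≤ Fintype.card F := Fintype.card_le_of_injective a ha
  rw [Fintype.card_fun, Fintype.card_fin]
  refine le_trans ?_ (le_trans ((Nat.le_add_right _ _).trans (Nat.le_succ _))
    (h _ Fintype.one_lt_card))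
  gcongr

theorem goodX_step {t σ s D : ℕ} (hs : s < σ) (hσ : σ ≤ t) (h : Big t D) (hU : GoodU t σ D)
    (hX : GoodX t σ (s + 1) D) : ∃ D', GoodX t σ s (D + D') := by
  obtain ⟨D₀, hD₀⟩ := absorber (t - s) D
  obtain ⟨E, hE⟩ : PB fun p => (p * (p ^ 2 + 1) + 1) ^ t * (p ^ D₀) ^ t :=
    (((PB.id.mul ((PB.id.pow 2).add (PB.const 1))).add (PB.const 1)).pow t).mul
      ((PB.id.pow D₀).pow t)
  refine ⟨D₀ * (E + 1), fun ι W F _ _ _ _ a ha ht hW 𝒟 hD hD' => ?_⟩
  have hk : Fintype.card ι ≤ Fintype.card F := Fintype.card_le_of_injective a ha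
  obtain ⟨X, hX⟩ := hX ι W F a ha ht hW 𝒟 hD hD'
  have key : ∀ π : ι → Option W, ∃ (P : Multiset (ι → (Fin D → F) × (Fin D₀ → F)))
      (R : Finset ((ι → Fin D → F) × (F → Fin D₀ → F))),
      π ∈ PS ι s 𝒟 → Absorbs a (t - s) (supp π) (dem X π) P R := by
    intro π
    by_cases hπ : π ∈ PS ι s 𝒟
    swap
    · exact ⟨0, ∅, fun h => absurd h hπ⟩
    have hπ' := (mem_PS.mp hπ).1
    obtain ⟨P, R, h⟩ := hD₀ ι F (Fin D → F) a ha (supp π) (by omega) (by simp) (dem X π)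
      (dem_local X π _)
      (fun T hT hd i hi hi' j hj hj' τ => by
        rw [dem_marginal hX hπ' (by omega) hd hi hi', dem_marginal hX hπ' (by omega) hd hj hj'])
      fun T hT hd τ => dem_bound hX (by omega) hd τ
    exact ⟨P, R, fun _ => h⟩
  choose P R hPR using key
  obtain ⟨sv, hsv⟩ := exists_injOn (β := Fin E → F) (PS ι s 𝒟 ×ˢ PolF F (Fin D₀ → F) (t - σ)) (by
    rw [card_product, Fintype.card_fun, Fintype.card_fin]
    refine le_trans (Nat.mul_le_mul ((card_PS_le (by omega : s ≤ t) 𝒟).trans ?_)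
      ((card_PolF_le _).trans ?_)) (hE _ Fintype.one_lt_card)
    · gcongr
    · rw [Fintype.card_fun, Fintype.card_fin]
      exact Nat.pow_le_pow_right (by positivity) (Nat.sub_le _ _))
  obtain ⟨X', hX'⟩ := xstep_core ha hs hσ ht (by
    rw [Fintype.card_fun, Fintype.card_fin]
    refine lt_of_le_of_lt (Nat.mul_le_mul hk hW) (lt_of_lt_of_le ?_ (h _ Fintype.one_lt_card))
    omega) (hU ι W F a ha ht hW) hD hD' hX P R hPR sv hsv
  exact ⟨_, hX'.map_equiv (fun _ => Equiv.sumCongr (Fintype.equivOfCardEq (by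
    simp [pow_add, pow_mul])) (Equiv.refl W)) fun _ x => by cases x <;> rfl⟩

theorem goodU_step {t σ D : ℕ} (hσ : σ ≤ t) (h : Big t D) (hU : GoodU t σ D) :
    ∃ D', GoodU t (σ + 1) (D + D') := by
  have key : ∀ n ≤ σ, ∃ D', GoodX t σ (σ - n) (D + D') := by
    intro n
    induction n with
    | zero => exact fun _ => ⟨0, goodX_top hσ h⟩
    | succ n ih =>
      intro hn
      obtain ⟨D', hD'⟩ := ih (by omega)
      obtain ⟨D'', hD''⟩ := goodX_step (s := σ - (n + 1)) (by omega) hσ (h.mono D') (hU.mono D')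
        (by rwa [show σ - (n + 1) + 1 = σ - n by omega])
      exact ⟨D' + D'', by rwa [← add_assoc]⟩
  obtain ⟨D', hD'⟩ := key σ le_rfl
  refine ⟨D', fun ι W F _ _ _ _ a ha ht hW 𝒟 hD hD₁ => ?_⟩
  obtain ⟨X, hX⟩ := hD' ι W F a ha ht hW 𝒟 hD hD₁
  exact ⟨X, fun T hT τ => (hX T hT τ).2 (by omega)⟩

theorem exists_goodU (t : ℕ) : ∃ D, GoodU t (t + 1) D := by
  have key : ∀ σ ≤ t + 1, ∃ D, Big t D ∧ GoodU t σ D := by
    intro σ
    induction σ with
    | zero =>
      obtain ⟨D, hD⟩ := exists_big t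
      exact fun _ => ⟨D, hD, fun _ _ _ _ _ _ _ _ _ _ _ _ h h' => absurd (h' 0 h.1) (by simp)⟩
    | succ σ ih =>
      intro hσ
      obtain ⟨D, h1, h2⟩ := ih (by omega)
      obtain ⟨D', h3⟩ := goodU_step (by omega) h1 h2
      exact ⟨D + D', h1.mono D', h3⟩
  exact (key _ le_rfl).imp fun _ h => h.2

theorem univ_theorem (t : ℕ) : ∃ D : ℕ, ∀ (p : ℕ) [Fact p.Prime] (ι W : Type) [Fintype ι]
    [Fintype W] (a : ι → ZMod p), Function.Injective a → t < Fintype.card ι →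
    Fintype.card W ≤ p ^ 2 →
    Univ ι t (t + 1) (Sum.getRight? : (Fin D → ZMod p) ⊕ W → Option W) := by
  obtain ⟨D, hD⟩ := exists_goodU t
  exact ⟨D, fun p _ ι W _ _ a ha ht hW => hD ι W (ZMod p) a ha ht.le (by rwa [ZMod.card])⟩

end

end Pool.Agent.MP_c7a479_co
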