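import Pool.Agent.MP_c7a479_co.PolyAbs

/-! The standardiser: every negative block of the absorber is traded for polynomial blocks. -/

namespace Pool.Agent.MP_c7a479_co

open Finset Function
open scoped Classical

noncomputable section

section Box

variable {ι F Ω K J : Type} [Field F] [Fintype F] [AddCommGroup Ω] [Module F Ω] [Fintype J]

variable (F) in
/-- Families of polynomials supported on `D`. -/
def Box (t : ℕ) (D : Finset J) : Finset (J → F → F) :=
  Fintype.piFinset fun j => if j ∈ D then PolF F F t else {0}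

theorem mem_Box {t : ℕ} {D : Finset J} {γ : J → F → F} :
    γ ∈ Box F t D ↔ ∀ j, γ j ∈ Pol F F t ∧ (j ∉ D → γ j = 0) := by
  simp only [Box, Fintype.mem_piFinset]
  refine forall_congr' fun j => ?_
  split_ifs with h
  · simp [h]
  · simp only [mem_singleton, h, not_false_eq_true, forall_const, iff_and_self]
    intro h
    rw [h]
    exact zero_mem _

theorem card_Box_le (t : ℕ) (D : Finset J) : #(Box F t D) ≤ (Fintype.card F ^ t) ^ #D := by
  rw [Box, Fintype.card_piFinset, ← prod_subset (subset_univ D)]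
  · exact prod_le_pow_card _ _ _ fun j hj => by rw [if_pos hj]; exact card_PolF_le t
  · intro j _ hj
    simp [hj]

theorem box_trade {a : ι → F} (ha : Injective a) {t : ℕ} (D : Finset J) (dir : J → Ω)
    (E : J → ι → F) (hE : ∀ j ∉ D, E j = 0) (g : ι → Ω) (c : ι → K) {T : Finset ι} (hT : #T = t)
    (τ : ι → K × Ω) :
    cov (fam (Box F t D) fun γ i => (c i, g i + ∑ j, (γ j (a i) + E j i) • dir j)) T τ =
      cov (fam (Box F t D) fun γ i => (c i, g i + ∑ j, γ j (a i) • dir j)) T τ := by
  have : ∀ j, ∃ q : F → F, (q ∈ Pol F F t ∧ (j ∉ D → q = 0)) ∧ ∀ i ∈ T, q (a i) = E j i := by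
    intro j
    by_cases hj : j ∈ D
    · obtain ⟨q, hq, hq'⟩ := pol_interp ha hT.le (E j)
      exact ⟨q, ⟨hq, fun h => absurd hj h⟩, hq'⟩
    · exact ⟨0, ⟨zero_mem _, fun _ => rfl⟩, fun i _ => by simp [hE j hj]⟩
  choose δ hδ hδ' using this
  refine cov_shift _ _ _ T _ δ (fun γ => ?_) (fun γ _ i hi => by simp [hδ' _ i hi]) τ
  simp only [mem_Box, Pi.add_apply]
  refine forall_congr' fun j => ?_
  rw [(Pol F F t).add_mem_iff_left (hδ j).1]
  exact and_congr_right fun _ => imp_congr_right fun hj => by simp [(hδ j).2 hj]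

end Box

section Std

variable {ι F K V J : Type} [Field F] [Fintype F] [Fintype ι]

/-- The coordinates of the free module. -/
abbrev SX (ι F V J : Type) : Type := (ι × V) ⊕ (J × ((F → F) ⊕ Bool))

/-- The vector of a vertex. -/
def vec (F J : Type) [Field F] (i : ι) (y : K ⊕ V) : SX ι F V J → F :=
  Sum.elim (fun p => if p.1 = i ∧ y.getRight? = some p.2 then 1 else 0) 0

/-- The label of a vertex. -/
def lab (z : K) (y : K ⊕ V) : K := y.elim id fun _ => z

/-- The data of the standardiser. -/
structure StdData (ι F K V J : Type) [Field F] [Fintype ι] where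
  t : ℕ
  a : ι → F
  ha : Injective a
  ht : t ≤ Fintype.card ι
  z : K
  s : Finset J
  n : J → ι → K ⊕ V
  hroot : ∀ x ∈ s, #{i | (n x i).getRight? = none} < t
  hdisj : ∀ x ∈ s, ∀ x' ∈ s, ∀ T, #T = t → (∀ i ∈ T, (n x i).getRight? = (n x' i).getRight?) →
    x = x'

namespace StdData

variable (d : StdData ι F K V J)

/-- The generic polynomial of degree less than `t`. -/
def χ (β : J) (u : F) : SX ι F V J → F :=
  Sum.elim 0 fun p => if p.1 = β then p.2.elim (fun q => if q ∈ Pol F F d.t then q u else 0) 0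
    else 0

/-- Two further basis vectors. -/
def bv (ι F V : Type) [Field F] (β : J) (ε : Bool) : SX ι F V J → F := Pi.single (.inr (β, .inr ε)) 1

/-- The vertices of the splitting gadget. -/
def φ (β : J) (i : ι) (u : F) : SX ι F V J → F :=
  if u = 0 then vec F J i (d.n β i)
  else d.χ β (d.a i) + d.a i ^ d.t • bv ι F V β true + u • bv ι F V β false

/-- The directions of the box trade. -/
def dir (β : J) : Option ι → SX ι F V J → F
  | none => bv ι F V β true + bv ι F V β false
  | some j => vec F J j (d.n β j) - d.χ β (d.a j) - d.a j ^ d.t • bv ι F V β true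

/-- The support of the box trade. -/
def D (f : F → F) : Finset (Option ι) := insertNone {i | f (d.a i) = 0}

/-- The shifts of the box trade. -/
def E (f : F → F) : Option ι → ι → F
  | none => fun i => d.a i ^ d.t
  | some j => fun i => if i = j ∧ f (d.a j) = 0 then 1 else 0

/-- The base polynomial. -/
def g₀ (β : J) (f : F → F) (u : F) : SX ι F V J → F := d.χ β u + (f u - u ^ d.t) • bv ι F V β false

/-- The polynomial blocks. -/
def std (x : J × (F → F) × (Option ι → F → F)) (u : F) : SX ι F V J → F :=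
  d.g₀ x.1 x.2.1 u + ∑ j, x.2.2 j u • d.dir x.1 j

/-- The new blocks of the box trade. -/
def new (β : J) (f : F → F) (γ : Option ι → F → F) (i : ι) : SX ι F V J → F :=
  d.g₀ β f (d.a i) + ∑ j, (γ j (d.a i) + d.E f j i) • d.dir β j

/-- The labels. -/
def c (β : J) (i : ι) : K := lab d.z (d.n β i)

/-- The index set of the polynomial blocks. -/
def RI : Finset (J × (F → F) × (Option ι → F → F)) :=
  (d.s.sigma fun _ => (Ups F d.t true).sigma fun f => Box F d.t (d.D f)).image
    fun x => (x.1, x.2.1, x.2.2)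

/-- The added blocks. -/
def add : Multiset (ι → K × (SX ι F V J → F)) :=
  ∑ β ∈ d.s, (fam ((Ups F d.t false).erase 0) (fun f i => (d.c β i, d.φ β i (f (d.a i)))) +
    ∑ f ∈ Ups F d.t true, fam ((Box F d.t (d.D f)).erase 0) fun γ i => (d.c β i, d.new β f γ i))

theorem mem_RI {β : J} {f : F → F} {γ : Option ι → F → F} :
    (β, f, γ) ∈ d.RI ↔ β ∈ d.s ∧ f ∈ Ups F d.t true ∧ γ ∈ Box F d.t (d.D f) := by
  simp only [RI, mem_image, mem_sigma, Prod.mk.injEq]
  constructor
  · rintro ⟨⟨α', o', f'⟩, h, rfl, rfl, rfl⟩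
    exact h
  · intro h
    exact ⟨⟨β, f, γ⟩, h, rfl, rfl, rfl⟩

omit [Fintype F] in
theorem new_zero (β : J) (f : F → F) (i : ι) : d.new β f 0 i = d.φ β i (f (d.a i)) := by
  simp only [new, Pi.zero_apply, zero_add, Fintype.sum_option, E, dir, g₀, φ]
  rw [sum_eq_single i]
  · split_ifs with h1 h2 h2
    · rw [h2]; module
    · exact absurd h1.2 h2
    · exact absurd ⟨rfl, h2⟩ h1
    · module
  · intro j _ hj
    simp [Ne.symm hj]
  · simp

theorem card_zeros {f : F → F} (hf : f ∈ Ups F d.t true) : #{i | f (d.a i) = 0} ≤ d.t :=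
  card_le_of_pow_add d.ha (one_ne_zero (α := F)) (mem_Ups.mp hf) fun i hi => by simpa using hi

theorem identity {T : Finset ι} (hT : #T = d.t) (τ : ι → K × (SX ι F V J → F)) :
    cov (fam d.s fun β i => (d.c β i, vec F J i (d.n β i))) T τ + cov d.add T τ =
      cov (fam d.RI fun x i => (d.c x.1 i, d.std x (d.a i))) T τ := by
  rw [cov_fam, cov_fam, RI, sum_image, sum_sigma, add, cov_sum, ← sum_add_distrib]
  · refine sum_congr rfl fun β _ => ?_
    rw [sum_sigma, cov_add, cov_sum]
    have h1 := Ups_trade d.ha (fun i u => (d.c β i, d.φ β i u)) hT τ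
    rw [cov_fam, ← add_sum_erase _ _ (zero_mem_Ups d.t), ← cov_fam, cov_fam (Ups F d.t true)] at h1
    have h2 : ∀ f ∈ Ups F d.t true, cov {fun i => (d.c β i, d.φ β i (f (d.a i)))} T τ +
        cov (fam ((Box F d.t (d.D f)).erase 0) fun γ i => (d.c β i, d.new β f γ i)) T τ =
        ∑ γ ∈ Box F d.t (d.D f), cov {fun i => (d.c β i, d.std (β, f, γ) (d.a i))} T τ := by
      intro f _
      have h3 := box_trade d.ha (d.D f) (d.dir β) (d.E f) (fun j hj => by
        rcases j with _ | j
        · simp [D] at hj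
        · funext i
          have : f (d.a j) ≠ 0 := by simpa [D] using hj
          simp [E, this]) (fun i => d.g₀ β f (d.a i)) (d.c β) hT τ
      rw [cov_fam, cov_fam, ← add_sum_erase _ _ (a := 0) (by simp [mem_Box]), ← cov_fam] at h3
      simp only [← new_zero]
      exact h3
    have h3 := sum_congr rfl h2
    rw [sum_add_distrib] at h3
    simp only [φ, Pi.zero_apply, if_true] at h1 h3 ⊢
    omega
  · rintro ⟨α, o, f⟩ _ ⟨α', o', f'⟩ _ h
    simp only [Prod.mk.injEq] at h
    obtain ⟨rfl, rfl, rfl⟩ := h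
    rfl

theorem card_RI : #d.RI ≤ #d.s * (Fintype.card F ^ d.t * (Fintype.card F ^ d.t) ^ (d.t + 1)) := by
  refine card_image_le.trans ?_
  rw [card_sigma]
  refine (sum_le_card_nsmul _ _ (Fintype.card F ^ d.t * (Fintype.card F ^ d.t) ^ (d.t + 1))
    fun α _ => ?_).trans (by simp)
  rw [card_sigma]
  refine (sum_le_card_nsmul _ _ ((Fintype.card F ^ d.t) ^ (d.t + 1)) fun f hf =>
    (card_Box_le _ _).trans ?_).trans (Nat.mul_le_mul_right _ (card_Ups_le _ _))
  refine Nat.pow_le_pow_right (by positivity) ?_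
  rw [D, card_insertNone]
  exact Nat.add_le_add_right (d.card_zeros hf) 1

theorem card_add : d.add.card ≤
    #d.s * (2 * (Fintype.card F ^ d.t * (Fintype.card F ^ d.t) ^ (d.t + 1))) := by
  rw [add, Multiset.card_sum]
  refine (sum_le_card_nsmul _ _ (2 * (Fintype.card F ^ d.t * (Fintype.card F ^ d.t) ^ (d.t + 1)))
    fun α _ => ?_).trans (by simp)
  rw [Multiset.card_add, card_fam, Multiset.card_sum, two_mul]
  refine add_le_add (card_erase_le.trans ((card_Ups_le _ _).trans
    (Nat.le_mul_of_pos_right _ (by positivity)))) ?_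
  refine (sum_le_card_nsmul _ _ ((Fintype.card F ^ d.t) ^ (d.t + 1)) fun f hf => ?_).trans
    (Nat.mul_le_mul_right _ (card_Ups_le _ _))
  rw [card_fam]
  refine card_erase_le.trans ((card_Box_le _ _).trans (Nat.pow_le_pow_right (by positivity) ?_))
  rw [D, card_insertNone]
  exact Nat.add_le_add_right (d.card_zeros hf) 1

omit [Fintype F] in
theorem std_vertex (β : J) (f : F → F) (γ : Option ι → F → F) (u : F) (i : ι) (v : V) :
    d.std (β, f, γ) u (.inl (i, v)) = if (d.n β i).getRight? = some v then γ (some i) u else 0 := by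
  simp only [std, g₀, χ, bv, dir, vec, Fintype.sum_option, Pi.add_apply, Pi.smul_apply,
    Finset.sum_apply, Pi.sub_apply, Sum.elim_inl, Pi.zero_apply, ne_eq, reduceCtorEq,
    not_false_eq_true, Pi.single_eq_of_ne, smul_eq_mul, mul_zero, add_zero, zero_add, sub_zero]
  rw [sum_eq_single i]
  · simp
  · intro j _ hj
    simp [Ne.symm hj]
  · simp

omit [Fintype F] in
theorem std_q (β : J) (f : F → F) (γ : Option ι → F → F) (u : F) {q : F → F}
    (hq : q ∈ Pol F F d.t) :
    d.std (β, f, γ) u (.inr (β, .inl q)) = q u - ∑ j, γ (some j) u * q (d.a j) := by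
  simp [std, g₀, χ, bv, dir, vec, Fintype.sum_option, hq, sub_eq_add_neg]

omit [Fintype F] in
theorem std_ne {β β' : J} (h : β' ≠ β) (f : F → F) (γ : Option ι → F → F) (u : F)
    (y : (F → F) ⊕ Bool) : d.std (β, f, γ) u (.inr (β', y)) = 0 := by
  simp [std, g₀, χ, bv, dir, vec, Fintype.sum_option, h]

omit [Fintype F] in
theorem std_true (β : J) (f : F → F) (γ : Option ι → F → F) (u : F) :
    d.std (β, f, γ) u (.inr (β, .inr true)) = γ none u - ∑ j, γ (some j) u * d.a j ^ d.t := by
  simp [std, g₀, χ, bv, dir, vec, Fintype.sum_option, sub_eq_add_neg]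

omit [Fintype F] in
theorem std_false (β : J) (f : F → F) (γ : Option ι → F → F) (u : F) :
    d.std (β, f, γ) u (.inr (β, .inr false)) = f u - u ^ d.t + γ none u := by
  simp [std, g₀, χ, bv, dir, vec, Fintype.sum_option]

omit [Fintype F] in
theorem χ_mem (β : J) : d.χ β ∈ Pol F (SX ι F V J → F) d.t := by
  refine Pol_pi fun x => ?_
  rcases x with x | ⟨β', q | ε⟩
  · exact zero_mem _
  · simp only [χ, Sum.elim_inr, Sum.elim_inl]
    split_ifs with h1 h2
    · exact h2
    · exact zero_mem _
    · exact zero_mem _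
  · simp only [χ, Sum.elim_inr, Pi.zero_apply, ite_self]
    exact zero_mem _

theorem std_mem {x : J × (F → F) × (Option ι → F → F)} (hx : x ∈ d.RI) :
    d.std x ∈ Pol F (SX ι F V J → F) d.t := by
  obtain ⟨β, f, γ⟩ := x
  obtain ⟨-, hf, hγ⟩ := d.mem_RI.mp hx
  have h1 := add_mem (add_mem (d.χ_mem β) (Pol_smul_vec (mem_Ups.mp hf) (bv ι F V β false)))
    (sum_mem fun j (_ : j ∈ univ) => Pol_smul_vec ((mem_Box.mp hγ j).1) (d.dir β j))
  convert h1 using 1
  funext u
  simp [std, g₀]

theorem std_not_mem {x : J × (F → F) × (Option ι → F → F)} (hx : x ∈ d.RI) :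
    d.std x ∉ Pol F (SX ι F V J → F) (d.t - 1) := by
  obtain ⟨β, f, γ⟩ := x
  obtain ⟨hβ, -, -⟩ := d.mem_RI.mp hx
  intro h
  have hr := d.hroot β hβ
  obtain ⟨Z, hZ, hZc⟩ := exists_superset_card_eq (s := {i | (d.n β i).getRight? = none})
    (n := d.t - 1) (by omega) (by have := d.ht; omega)
  obtain ⟨i₀, hi₀⟩ : ∃ i₀, i₀ ∉ Z := by
    by_contra hc
    push Not at hc
    have := card_le_card (s := univ) (t := Z) fun i _ => hc i
    have := d.ht
    rw [card_univ] at *
    omega
  obtain ⟨q, hq, hq'⟩ := pol_interp d.ha (n := d.t) (T := insert i₀ Z)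
    (by rw [card_insert_of_notMem hi₀]; omega) fun i => if i = i₀ then (1 : F) else 0
  have hq0 : ∀ i ∈ Z, q (d.a i) = 0 := fun i hi => by
    rw [hq' i (mem_insert_of_mem hi), if_neg (ne_of_mem_of_not_mem hi hi₀)]
  have h1 := Pol_apply h (.inr (β, .inl q))
  simp only [d.std_q _ _ _ _ hq] at h1
  have h2 : ∀ j, (fun u => γ (some j) u * q (d.a j)) ∈ Pol F F (d.t - 1) := by
    intro j
    rcases hj : (d.n β j).getRight? with _ | v
    · rw [hq0 j (hZ (by simpa using hj))]
      simp only [mul_zero]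
      exact zero_mem _
    · have := Pol_apply h (.inl (j, v))
      simp only [d.std_vertex, hj, if_true] at this
      exact Pol_smul_vec this _
  have h3 : q ∈ Pol F F (d.t - 1) := by
    convert add_mem h1 (sum_mem fun j (_ : j ∈ univ) => h2 j) using 1
    funext u
    simp
  have := hq' i₀ (mem_insert_self _ _)
  rw [pol_eq_zero d.ha h3 hZc.ge hq0] at this
  simp at this

theorem std_sep {β : J} {f : F → F} {γ : Option ι → F → F} (hx : (β, f, γ) ∈ d.RI)
    (h : ∀ u y, d.std (β, f, γ) u (.inr (β, y)) = 0) :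
    #{i | f (d.a i) = 0} = d.t ∧ ∀ j, f (d.a j) = 0 → ∀ i, f (d.a i) = 0 →
      γ (some j) (d.a i) = if i = j then 1 else 0 := by
  obtain ⟨-, hf, hγ⟩ := d.mem_RI.mp hx
  have hD := d.card_zeros hf
  have key : ∀ q ∈ Pol F F d.t, ∀ u, q u = ∑ j with f (d.a j) = 0, γ (some j) u * q (d.a j) := by
    intro q hq u
    have := h u (.inl q)
    rw [d.std_q _ _ _ _ hq, sub_eq_zero] at this
    rw [this, sum_filter]
    refine sum_congr rfl fun j _ => ?_
    split_ifs with hj
    · rfl
    · rw [(mem_Box.mp hγ (some j)).2 (by simpa [D] using hj)]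
      simp
  constructor
  · by_contra hne
    obtain ⟨i₀, hi₀⟩ : ∃ i₀, i₀ ∉ ({i | f (d.a i) = 0} : Finset ι) := by
      by_contra hc
      push Not at hc
      have := card_le_card (s := univ) fun i _ => hc i
      have := d.ht
      rw [card_univ] at *
      omega
    obtain ⟨q, hq, hq'⟩ := pol_interp d.ha (n := d.t) (T := insert i₀ ({i | f (d.a i) = 0} : Finset ι))
      (by rw [card_insert_of_notMem hi₀]; omega) fun i => if i = i₀ then (1 : F) else 0
    have := key q hq (d.a i₀)
    rw [hq' _ (mem_insert_self _ _), if_pos rfl, sum_eq_zero] at this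
    · exact one_ne_zero this
    · intro j hj
      rw [hq' _ (mem_insert_of_mem hj), if_neg (ne_of_mem_of_not_mem hj hi₀), mul_zero]
  · intro j hj i hi
    obtain ⟨q, hq, hq'⟩ := pol_interp d.ha hD fun i => if i = j then (1 : F) else 0
    have := key q hq (d.a i)
    rw [hq' _ (by simpa using hi), sum_eq_single j, hq' _ (by simpa using hj), if_pos rfl,
      mul_one] at this
    · exact this.symm
    · intro j' hj' hne
      rw [hq' _ hj', if_neg hne, mul_zero]
    · intro h
      exact absurd (by simpa using hj) h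

theorem std_inj : Set.InjOn d.std d.RI := by
  rintro ⟨β, f, γ⟩ hx ⟨β', f', γ'⟩ hx' h
  rw [mem_coe] at hx hx'
  obtain ⟨hβ, hf, hγ⟩ := d.mem_RI.mp hx
  obtain ⟨hβ', hf', hγ'⟩ := d.mem_RI.mp hx'
  have hv : ∀ u i v, (if (d.n β i).getRight? = some v then γ (some i) u else 0) =
      if (d.n β' i).getRight? = some v then γ' (some i) u else 0 := fun u i v => by
    rw [← d.std_vertex β f, ← d.std_vertex β' f', h]
  obtain rfl : β = β' := by
    by_contra hne
    obtain ⟨h1, h2⟩ := d.std_sep hx fun u y => by rw [h, d.std_ne hne]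
    obtain ⟨h1', h2'⟩ := d.std_sep hx' fun u y => by rw [← h, d.std_ne (Ne.symm hne)]
    obtain ⟨i₀, hi₀, hi₀'⟩ : ∃ i₀, f (d.a i₀) = 0 ∧ (d.n β i₀).getRight? ≠ none := by
      by_contra hc
      push Not at hc
      have := card_le_card (s := {i | f (d.a i) = 0}) (t := {i | (d.n β i).getRight? = none})
        fun i hi => by simpa using hc i (by simpa using hi)
      have := d.hroot β hβ
      omega
    obtain ⟨v, hv₀⟩ := Option.ne_none_iff_exists'.mp hi₀'
    have h3 := h2 i₀ hi₀ i₀ hi₀
    have h4 := hv (d.a i₀) i₀ v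
    rw [if_pos hv₀, h3, if_pos rfl] at h4
    have h5 : (d.n β' i₀).getRight? = some v := by
      by_contra hc
      simp [hc] at h4
    have h6 : γ (some i₀) = γ' (some i₀) := funext fun u => by simpa [hv₀, h5] using hv u i₀ v
    have h7 : f' (d.a i₀) = 0 := by
      by_contra hc
      rw [h6, (mem_Box.mp hγ' (some i₀)).2 (by simpa [D] using hc)] at h3
      simp at h3
    have h8 : ∀ i, f' (d.a i) = 0 → f (d.a i) = 0 := by
      intro i hi
      by_contra hc
      have hne : i ≠ i₀ := fun h => hc (h ▸ hi₀)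
      have : γ (some i₀) = 0 := pol_eq_zero d.ha (mem_Box.mp hγ (some i₀)).1
        (T := insert i (({i | f (d.a i) = 0} : Finset ι).erase i₀))
        (by rw [card_insert_of_notMem (by simp [hc]), card_erase_add_one (by simpa using hi₀), h1])
        fun j hj => by
          rcases mem_insert.mp hj with rfl | hj
          · rw [h6, h2' i₀ h7 _ hi, if_neg hne]
          · rw [h2 i₀ hi₀ j (by simpa using mem_of_mem_erase hj), if_neg (ne_of_mem_erase hj)]
      rw [this] at h3
      simp at h3
    refine hne (d.hdisj β hβ β' hβ' _ h1' fun i hi => Option.ext fun w => ?_)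
    have hi' : f' (d.a i) = 0 := by simpa using hi
    have := hv (d.a i) i w
    rw [h2 i (h8 i hi') i (h8 i hi'), h2' i hi' i hi', if_pos rfl] at this
    constructor <;> intro hw <;> by_contra hc
    · rw [if_neg hc, if_pos hw] at this
      exact one_ne_zero this
    · rw [if_neg hc, if_pos hw] at this
      exact zero_ne_one this
  have h1 : ∀ j, (d.n β j).getRight? ≠ none → γ (some j) = γ' (some j) := fun j hj => by
    obtain ⟨v, hv₀⟩ := Option.ne_none_iff_exists'.mp hj
    exact funext fun u => by simpa [hv₀] using hv u j v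
  have h2 : ∀ j, γ (some j) = γ' (some j) := fun j => by
    by_cases hj : (d.n β j).getRight? = none
    swap
    · exact h1 j hj
    obtain ⟨q, hq, hq'⟩ := pol_interp d.ha (d.hroot β hβ).le fun i => if i = j then (1 : F) else 0
    funext u
    have h3 := congrFun (congrFun h u) (.inr (β, .inl q))
    rw [d.std_q _ _ _ _ hq, d.std_q _ _ _ _ hq, sub_right_inj, ← sub_eq_zero, ← sum_sub_distrib,
      sum_eq_single j, hq' j (by simpa using hj), if_pos rfl, mul_one, mul_one, sub_eq_zero] at h3
    · exact h3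
    · intro i _ hi
      by_cases hi' : (d.n β i).getRight? = none
      · rw [hq' i (by simpa using hi'), if_neg hi]
        simp
      · rw [h1 i hi', sub_self]
    · simp
  have h3 : γ none = γ' none := funext fun u => by
    have h3 := congrFun (congrFun h u) (.inr (β, .inr true))
    rw [d.std_true, d.std_true] at h3
    simpa [h2] using h3
  have h4 : f = f' := funext fun u => by
    have h4 := congrFun (congrFun h u) (.inr (β, .inr false))
    rw [d.std_false, d.std_false] at h4
    simpa [h3] using h4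
  have h5 : γ = γ' := funext fun j => by
    cases j
    · exact h3
    · exact h2 _
  rw [h4, h5]

theorem add_sep {b : ι → K × (SX ι F V J → F)} (hb : b ∈ d.add) {U : Finset ι}
    (hU : #U = d.t + 1) : ¬ PolyOn d.a d.t U fun i => (b i).2 := by
  intro h
  simp only [add, Multiset.mem_sum, Multiset.mem_add, mem_fam] at hb
  obtain ⟨β, -, ⟨f, hf, rfl⟩ | ⟨f, hf, γ, hγ, rfl⟩⟩ := hb
  · obtain ⟨i₀, hi₀, hi₀'⟩ : ∃ i₀ ∈ U, f (d.a i₀) ≠ 0 := by
      by_contra hc
      push Not at hc
      exact ne_of_mem_erase hf (Ups_unique d.ha (mem_of_mem_erase hf) (zero_mem_Ups _)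
        (T := U) (by omega) hc)
    obtain ⟨q, hq, hq'⟩ := pol_interp d.ha (n := d.t) (T := U.erase i₀)
      (by rw [card_erase_of_mem hi₀]; omega) fun i => d.a i ^ d.t
    have h1 := (h.comp (LinearMap.proj (.inr (β, .inr true)))).sub
      (h.comp (LinearMap.proj (.inr (β, .inl q))))
    have h2 : ∀ i, d.φ β i (f (d.a i)) (.inr (β, .inr true)) -
        d.φ β i (f (d.a i)) (.inr (β, .inl q)) =
        if f (d.a i) = 0 then 0 else d.a i ^ d.t - q (d.a i) := fun i => by
      unfold φ
      split_ifs <;> simp [vec, χ, bv, hq]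
    simp only [LinearMap.proj_apply, h2] at h1
    have h3 := h1.eq_zero d.ha hU.ge hi₀ fun i hi hne => by
      rw [hq' i (mem_erase.mpr ⟨hne, hi⟩), sub_self, ite_self]
    rw [if_neg hi₀', sub_eq_zero] at h3
    refine not_polyOn_pow d.ha (one_ne_zero (α := F)) hU.ge ⟨q, hq, fun i hi => ?_⟩
    by_cases hne : i = i₀
    · simp [hne, h3]
    · simp [hq' i (mem_erase.mpr ⟨hne, hi⟩)]
  · have h1 := (h.comp (LinearMap.proj (.inr (β, .inr false)))).sub (polyOn_of_mem U
      (add_mem (mem_Ups.mp hf) (mem_Box.mp (mem_of_mem_erase hγ) none).1))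
    refine not_polyOn_pow d.ha (one_ne_zero (α := F)) hU.ge (h1.congr fun i _ => ?_)
    simp [new, g₀, χ, bv, dir, vec, Fintype.sum_option, E]

end StdData

omit [Fintype F] in
theorem vec_sep {a : ι → F} (ha : Injective a) {t : ℕ} {b : ι → K ⊕ V}
    (hb : #{i | (b i).getRight? = none} ≤ t) {U : Finset ι} (hU : #U = t + 1) :
    ¬ PolyOn a t U fun i => vec F J i (b i) := by
  intro h
  obtain ⟨i₀, hi₀, hi₀'⟩ : ∃ i₀ ∈ U, (b i₀).getRight? ≠ none := by
    by_contra hc
    push Not at hc
    have := card_le_card (s := U) (t := {i | (b i).getRight? = none})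
      fun i hi => by simpa using hc i hi
    omega
  obtain ⟨v, hv⟩ := Option.ne_none_iff_exists'.mp hi₀'
  have := (h.comp (LinearMap.proj (.inl (i₀, v)))).eq_zero ha hU.ge hi₀ fun i _ hi => by
    simp [vec, Ne.symm hi]
  simp [vec, hv] at this

end Std

end

end Pool.Agent.MP_c7a479_co
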