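import Pool.Agent.MP_c7a479_co.PolyTop

/-! One step of the induction: exactness is extended to patterns of the next smaller size. -/

namespace Pool.Agent.MP_c7a479_co

open Finset Function
open scoped Classical

noncomputable section

section Th

variable {F Λ Y : Type} [Field F] [AddCommGroup Λ] [Module F Λ]

/-- The embedding `v ↦ (1, c) ⊗ v`. -/
def th (c : Y → F) : Λ →ₗ[F] (Option Y → Λ) := LinearMap.pi fun e => (e.elim 1 c : F) • LinearMap.id

@[simp] theorem th_none (c : Y → F) (v : Λ) : th c v none = v := by simp [th]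

@[simp] theorem th_some (c : Y → F) (v : Λ) (e : Y) : th c v (some e) = c e • v := by simp [th]

theorem th_sep {ι : Type} {a : ι → F} {n : ℕ} {U : Finset ι} {c c' : Y → F} {h h' : ι → Λ}
    (H : PolyOn a n U fun i => th c (h i) - th c' (h' i)) (hh : ¬ PolyOn a n U h) : c = c' := by
  funext e
  by_contra hne
  have := ((H.comp (LinearMap.proj (some e))).sub
    ((H.comp (LinearMap.proj none)).smul (c' e))).smul (c e - c' e)⁻¹
  refine hh (this.congr fun i _ => ?_)
  simp only [LinearMap.proj_apply, Pi.sub_apply, th_some, th_none]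
  rw [inv_smul_eq_iff₀ (sub_ne_zero.mpr hne)]
  module

theorem cov_th {ι K : Type} (c : Y → F) (g : ι → Option Y → Λ) (μ : Multiset (ι → K × Λ))
    (T : Finset ι) (κ : ι → K) (x : ι → Option Y → Λ) :
    cov (μ.map fun b i => ((b i).1, g i + th c (b i).2)) T (fun i => (κ i, x i)) =
      if ∀ i ∈ T, g i + th c (x i none - g i none) = x i then
        cov μ T fun i => (κ i, x i none - g i none) else 0 := by
  split_ifs with h
  · refine cov_map_of_iff fun b _ => forall₂_congr fun i hi => ?_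
    simp only [Prod.ext_iff]
    refine and_congr_right fun _ => ⟨fun h' => ?_, fun h' => by rw [h', h i hi]⟩
    rw [← h']
    simp
  · rw [cov_eq_zero]
    intro b hb h'
    obtain ⟨b', -, rfl⟩ := Multiset.mem_map.mp hb
    refine h fun i hi => ?_
    have : g i + th c (b' i).2 = x i := (Prod.ext_iff.mp (h' i hi)).2
    rw [← this]
    simp

end Th

variable {ι W M F : Type} [Field F] [Fintype F] [Fintype ι] [Fintype W] [Fintype M]

/-- The demand left by the packing `X` on the words with pattern `π`. -/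
def dem (X : Multiset (ι → M ⊕ W)) (π : ι → Option W) (T : Finset ι) (κ : ι → M) : ℤ :=
  1 - cov X (supp π ∪ T) (blkP π κ)

omit [Fintype W] [Fintype M] in
theorem dem_local (X : Multiset (ι → M ⊕ W)) (π : ι → Option W) (t : ℕ) :
    IsLocal t (dem X π) := fun T _ τ τ' h => by
  unfold dem
  rw [cov_congr X fun i hi => blkP_congr fun h' => h i ?_]
  simpa [h'] using hi

omit [Fintype W] [Fintype M] in
theorem dem_bound {t s : ℕ} {𝒟 : Multiset W → Prop} {X : Multiset (ι → M ⊕ W)}
    (hX : XL t s Sum.getRight? 𝒟 X) {π : ι → Option W} {T : Finset ι} (hT : #(supp π) + #T = t)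
    (hd : Disjoint T (supp π)) (κ : ι → M) : 0 ≤ dem X π T κ ∧ dem X π T κ ≤ 1 := by
  have := (hX (supp π ∪ T) (by rw [card_union_of_disjoint hd.symm, hT]) (blkP π κ)).1
  unfold dem
  split_ifs at this <;> omega

theorem dem_marginal {t s : ℕ} {𝒟 : Multiset W → Prop} {X : Multiset (ι → M ⊕ W)}
    (hX : XL t (s + 1) Sum.getRight? 𝒟 X) {π : ι → Option W} (hπ : #(supp π) = s) {T : Finset ι}
    (hT : s + #T + 1 = t) (hd : Disjoint T (supp π)) {i : ι} (hi : i ∉ T) (hi' : i ∉ supp π)
    (κ : ι → M) : ∑ u, dem X π (insert i T) (update κ i u) = Fintype.card M -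
      cov X (supp π ∪ T) (blkP π κ) + ∑ w, if 𝒟 ({w} + pat id univ π) then 1 else 0 := by
  have hi'' : i ∉ supp π ∪ T := by rw [mem_union]; tauto
  have hπi : π i = none := by simpa using hi'
  rw [← sum_cov_update X hi'' (blkP π κ), Fintype.sum_sum_type]
  have h1 : ∀ u, blkP π (update κ i u) = update (blkP π κ) i (.inl u) := fun u => by
    funext j
    by_cases hj : j = i
    · subst hj
      rw [blkP_none _ hπi, update_self, update_self]
    · rw [update_of_ne hj]
      exact blkP_congr fun _ => update_of_ne hj _ _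
  have h2 : ∀ w, cov X (insert i (supp π ∪ T)) (update (blkP π κ) i (.inr w)) =
      if 𝒟 ({w} + pat id univ π) then 1 else 0 := fun w => by
    have h3 : pat Sum.getRight? (insert i (supp π ∪ T)) (update (blkP π κ) i (.inr w)) =
        {w} + pat id univ π := by
      rw [← pat_of_supp (subset_union_left (s₂ := T)), ← pat_blkP π κ, pat, sum_insert hi'', pat]
      congr 1
      · simp
      · exact sum_congr rfl fun j hj => by rw [update_of_ne (ne_of_mem_of_not_mem hj hi'')]
    rw [← h3]
    refine (hX _ (by rw [card_insert_of_notMem hi'', card_union_of_disjoint hd.symm]; omega) _).2 ?_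
    rw [h3, Multiset.card_add, card_pat_univ, hπ, Multiset.card_singleton, add_comm]
  simp only [dem, h1, h2, union_insert, sum_sub_distrib]
  push_cast
  simp only [sum_const, card_univ, nsmul_eq_mul, mul_one]
  ring

omit [Fintype F] [Fintype ι] [Fintype W] [Fintype M] in
theorem nc_none (p : Multiset W) : nc (fun o => o = none) p = p.card := by simp [nc]

theorem xstep_core {Λ Y : Type} [AddCommGroup Λ] [Module F Λ] [Fintype Λ] [Fintype Y]
    {a : ι → F} (ha : Injective a) {t s σ : ℕ} (hs : s < σ) (hσ : σ ≤ t)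
    (ht : t ≤ Fintype.card ι) (hM : Fintype.card ι * Fintype.card W < Fintype.card M)
    (hU : Univ ι t σ (Sum.getRight? : M ⊕ W → Option W)) {𝒟 : Multiset W → Prop} (hD : Down 𝒟)
    (hD' : ∀ p, 𝒟 p → p.card < σ + 1) {X : Multiset (ι → M ⊕ W)}
    (hX : XL t (s + 1) Sum.getRight? 𝒟 X) (P : (ι → Option W) → Multiset (ι → M × Λ))
    (R : (ι → Option W) → Finset ((ι → M) × (F → Λ)))
    (hPR : ∀ π ∈ PS ι s 𝒟, Absorbs a (t - s) (supp π) (dem X π) (P π) (R π))
    (sv : (ι → Option W) × (F → Λ) → Y → F)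
    (hsv : Set.InjOn sv (PS ι s 𝒟 ×ˢ PolF F Λ (t - σ) : Finset _)) :
    ∃ X' : Multiset (ι → (M × (Option Y → Λ)) ⊕ W), XL t s Sum.getRight? 𝒟 X' := by
  obtain ⟨z⟩ : Nonempty M := Fintype.card_pos_iff.mp (by omega)
  let J : Finset ((ι → Option W) × (F → Option Y → Λ)) :=
    PS ι s 𝒟 ×ˢ PolF F (Option Y → Λ) (t - σ)
  have hJ : ∀ {j}, j ∈ J ↔ j.1 ∈ PS ι s 𝒟 ∧ j.2 ∈ Pol F (Option Y → Λ) (t - σ) := by
    simp [J]
  let c : (ι → Option W) × (F → Option Y → Λ) → Y → F := fun j => sv (j.1, fun u => j.2 u none)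
  have hc : ∀ j ∈ J, ∀ j' ∈ J, c j = c j' → j.1 = j'.1 ∧ ∀ u, j.2 u none = j'.2 u none := by
    intro j hj j' hj' h
    have := hsv (mem_coe.mpr (mem_product.mpr ⟨(hJ.mp hj).1, mem_PolF.mpr
      (Pol_apply (hJ.mp hj).2 none)⟩)) (mem_coe.mpr (mem_product.mpr ⟨(hJ.mp hj').1,
      mem_PolF.mpr (Pol_apply (hJ.mp hj').2 none)⟩)) h
    exact ⟨(Prod.ext_iff.mp this).1, congrFun (Prod.ext_iff.mp this).2⟩
  let push : (ι → Option W) × (F → Option Y → Λ) → (ι → M × Λ) → ι → (M × (Option Y → Λ)) ⊕ W :=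
    fun j b => blkP j.1 fun i => ((b i).1, j.2 (a i) + th (c j) (b i).2)
  let Add := ∑ j ∈ J, (P j.1).map (push j)
  let Rem := ∑ j ∈ J, (fam (R j.1) fun r i => (r.1 i, r.2 (a i))).map (push j)
  let I := J.sigma fun j => R j.1
  let fib : (Σ _ : (ι → Option W) × (F → Option Y → Λ), (ι → M) × (F → Λ)) → F → Option Y → Λ :=
    fun x u => x.1.2 u + th (c x.1) (x.2.2 u)
  have hle : t - σ ≤ t - s - 1 := by omega
  have hR : ∀ x ∈ I, x.2.2 ∈ Pol F Λ (t - s) ∧ ¬ PolyOn id (t - s - 1) univ x.2.2 := by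
    intro x hx
    rw [mem_sigma] at hx
    have := (hPR _ (hJ.mp hx.1).1).2.1 _ hx.2
    exact ⟨this.1, fun ⟨g, hg, hg'⟩ =>
      this.2 ((funext fun u => hg' u (mem_univ u) : g = x.2.2) ▸ hg)⟩
  have hfib : ∀ x ∈ I, fib x ∈ Pol F (Option Y → Λ) (t - s) ∧
      fib x ∉ Pol F (Option Y → Λ) (t - σ) := by
    intro x hx
    have hg := (hJ.mp (mem_sigma.mp hx).1).2
    refine ⟨add_mem (Pol_mono (by omega) hg) (Pol_comp _ (hR x hx).1), fun h => (hR x hx).2 ?_⟩
    refine (polyOn_of_mem univ (Pol_mono hle (Pol_apply (sub_mem h hg) none))).congr fun u _ => ?_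
    simp [fib]
  have hfib' : Set.InjOn fib I := by
    rintro ⟨⟨π, g⟩, r⟩ hx ⟨⟨π', g'⟩, r'⟩ hx' h
    have h0 := hR _ hx
    rw [mem_coe, mem_sigma] at hx hx'
    have h1 : c (π, g) = c (π', g') := th_sep (h' := r'.2) ((polyOn_of_mem (a := id) univ
      (Pol_mono hle (sub_mem (hJ.mp hx'.1).2 (hJ.mp hx.1).2))).congr fun u _ => by
        have := congrFun h u
        simp only [fib] at this
        rw [Pi.sub_apply, id, sub_eq_sub_iff_add_eq_add, add_comm (th _ _)]
        exact this.symm) h0.2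
    obtain ⟨h2, h3⟩ := hc _ hx.1 _ hx'.1 h1
    dsimp only at h2 h3
    subst h2
    have h4 : r = r' := (hPR _ (hJ.mp hx.1).1).2.2.1 hx.2 hx'.2 (funext fun u => by
      have := congrFun (congrFun h u) none
      simpa [fib, h3] using this)
    subst h4
    have h5 : g = g' := funext fun u => by
      have := congrFun h u
      simpa [fib, h1] using this
    rw [h5]
  have hν : ∀ f : F → Option Y → Λ, ∃ ν : Multiset (ι → M ⊕ W),
      (f ∈ Pol F _ (t - σ) → ν = X) ∧ (f ∈ Pol F _ (t - s) → f ∉ Pol F _ (t - σ) →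
        Ing t Sum.getRight? (DF t (fun o => o = none) 𝒟 f) ν) ∧
        ∀ x ∈ I, fib x = f → blkP x.1.1 x.2.1 ∈ ν := by
    intro f
    by_cases h1 : f ∈ Pol F _ (t - σ)
    · exact ⟨X, fun _ => rfl, fun _ h => absurd h1 h, fun x hx h => absurd (h ▸ h1) (hfib x hx).2⟩
    by_cases h2 : f ∈ Pol F _ (t - s)
    swap
    · exact ⟨0, fun h => absurd h h1, fun h => absurd h h2,
        fun x hx h => absurd (h ▸ (hfib x hx).1) h2⟩
    obtain ⟨ν, hν⟩ := hU _ (hD.DF (t := t) (car := fun o => o = none) (Pol_mono (by omega) h2))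
      fun p hp => by
        by_contra hc
        have := hp.2
        rw [nc_none] at this
        exact h1 (Pol_mono (by omega) this)
    by_cases h3 : ∃ x ∈ I, fib x = f
    · obtain ⟨x, hx, rfl⟩ := h3
      have hπ := mem_PS.mp (hJ.mp (mem_sigma.mp hx).1).1
      obtain ⟨ν', h4, h5⟩ := prescribed hM ht hν (π := x.1.1) (by omega)
        ⟨hπ.2, by rwa [nc_none, card_pat_univ, hπ.1]⟩ x.2.1
      exact ⟨ν', fun h => absurd h h1, fun _ _ => h4, fun x' hx' h => hfib' hx' hx h ▸ h5⟩
    · exact ⟨ν, fun h => absurd h h1, fun _ _ => hν, fun x hx h => absurd ⟨x, hx, h⟩ h3⟩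
  choose ν hν₁ hν₂ hν₃ using hν
  let Base := ∑ f ∈ PolF F (Option Y → Λ) (t - s), (ν f).map fun b i => liftS (b i) (f (a i))
  have hRem : Rem ≤ Base := by
    have h1 : Rem = ∑ x ∈ I, {fun i => liftS (blkP x.1.1 x.2.1 i) (fib x (a i))} := by
      rw [sum_sigma]
      refine sum_congr rfl fun j _ => ?_
      rw [map_fam, fam]
      refine sum_congr rfl fun r _ => ?_
      congr 1
      funext i
      simp only [push, blkP, fib]
      cases j.1 i <;> rfl
    refine le_trans ?_ (sum_le_sum_of_subset_of_nonneg (s := I.image fib)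
      (fun f hf => ?_) fun _ _ _ => Multiset.zero_le _)
    · rw [h1, sum_image hfib']
      exact sum_le_sum fun x hx => Multiset.singleton_le.mpr
        (Multiset.mem_map.mpr ⟨_, hν₃ _ x hx rfl, rfl⟩)
    · obtain ⟨x, hx, rfl⟩ := mem_image.mp hf
      exact mem_PolF.mpr (hfib x hx).1
  have hB : ∀ T (τ : ι → M ⊕ W) (x : ι → Option Y → Λ), cov Base T (fun i => liftS (τ i) (x i)) =
      ∑ f ∈ PolF F (Option Y → Λ) (t - s),
        if ∀ i ∈ ({i ∈ T | (τ i).getRight? = none} : Finset ι), f (a i) = x i then cov (ν f) T τ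
        else 0 := fun T τ x => by
    rw [cov_sum]
    refine sum_congr rfl fun f _ => ?_
    rw [cov_lift (car := fun o => o = none) liftS_inj]
    simp only [mem_filter, and_imp]
    congr
  have hν₄ : ∀ f ∈ PolF F (Option Y → Λ) (t - s), ∀ T, #T = t → ∀ τ,
      cov (ν f) T τ ≤ (if 𝒟 (pat Sum.getRight? T τ) ∧
        f ∈ Pol F _ (t - (pat Sum.getRight? T τ).card) then 1 else 0) ∧
      (s + 1 ≤ (pat Sum.getRight? T τ).card → cov (ν f) T τ = if 𝒟 (pat Sum.getRight? T τ) ∧
        f ∈ Pol F _ (t - (pat Sum.getRight? T τ).card) then 1 else 0) := by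
    intro f hf T hT τ
    by_cases h1 : f ∈ Pol F _ (t - σ)
    · have h2 : 𝒟 (pat Sum.getRight? T τ) ∧ f ∈ Pol F _ (t - (pat Sum.getRight? T τ).card) ↔
          𝒟 (pat Sum.getRight? T τ) :=
        and_iff_left_of_imp fun h => Pol_mono (by have := hD' _ h; omega) h1
      simp only [h2, hν₁ f h1]
      exact hX T hT τ
    · have := hν₂ f (mem_PolF.mp hf) h1 T hT τ
      simp only [DF, nc_none] at this
      exact ⟨by convert this.le, fun _ => by convert this⟩
  have hB₂ : ∀ T, #T = t → ∀ (τ : ι → M ⊕ W) (x : ι → Option Y → Λ), cov Base T (fun i => liftS (τ i) (x i)) ≤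
      if 𝒟 (pat Sum.getRight? T τ) then 1 else 0 := fun T hT τ x => by
    rw [hB, ← sum_fibre ha (hT ▸ card_old T τ) (PolF F (Option Y → Λ) t)
      (fun f hf => mem_PolF.mpr (Pol_mono (by omega) hf)) x]
    refine le_trans (sum_le_sum fun f hf => ?_) (sum_le_sum_of_subset
      fun f hf => mem_PolF.mpr (Pol_mono (by omega) (mem_PolF.mp hf)))
    split_ifs with h1 h2
    · simpa [h2] using (hν₄ f hf T hT τ).1
    · simpa [h2] using (hν₄ f hf T hT τ).1
    · rfl
  have hB₃ : ∀ T, #T = t → ∀ (τ : ι → M ⊕ W) (x : ι → Option Y → Λ), s + 1 ≤ (pat Sum.getRight? T τ).card →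
      cov Base T (fun i => liftS (τ i) (x i)) = if 𝒟 (pat Sum.getRight? T τ) then 1 else 0 :=
    fun T hT τ x h => by
    rw [hB, ← sum_fibre ha (hT ▸ card_old T τ) (PolF F (Option Y → Λ) (t - s))
      (fun f hf => mem_PolF.mpr (Pol_mono (by omega) hf)) x]
    refine sum_congr rfl fun f hf => ?_
    rw [(hν₄ f hf T hT τ).2 h]
    congr
  have hag : ∀ {j b} {T : Finset ι} {τ : ι → M ⊕ W} {x : ι → Option Y → Λ},
      (∀ i ∈ T, push j b i = liftS (τ i) (x i)) → ∀ i ∈ T, j.1 i = (τ i).getRight? :=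
    fun h i hi => by rw [← liftS_ty _ _, ← h i hi, blkP_right]
  have hag' : ∀ {j b} {T : Finset ι} {τ : ι → M ⊕ W} {x : ι → Option Y → Λ},
      (∀ i ∈ T, push j b i = liftS (τ i) (x i)) → ∀ i ∈ T, (τ i).getRight? = none →
        j.2 (a i) + th (c j) (b i).2 = x i := by
    intro j b T τ x h i hi h'
    have := h i hi
    simp only [push] at this
    rw [blkP_none _ ((hag h i hi).trans h')] at this
    rcases h'' : τ i with m | w
    · simp only [h'', liftS, Sum.map_inl, Sum.inl.injEq, Prod.mk.injEq] at this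
      exact this.2
    · simp [h''] at h'
  have hX' : ∀ T τ, cov (Base - Rem + Add) T τ + cov Rem T τ = cov Base T τ + cov Add T τ := by
    intro T τ
    conv_rhs => rw [← tsub_add_cancel_of_le hRem]
    simp only [cov_add]
    omega
  have hAdd0 : ∀ T (τ : ι → M ⊕ W) (x : ι → Option Y → Λ), ¬ 𝒟 (pat Sum.getRight? T τ) →
      cov Add T (fun i => liftS (τ i) (x i)) = 0 := fun T τ x hp => by
    rw [cov_eq_zero]
    intro b hb h
    simp only [Add, Multiset.mem_sum, Multiset.mem_map] at hb
    obtain ⟨j, hj, b, -, rfl⟩ := hb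
    exact hp (hD.2 _ _ (pat_le_of_agree (hag h)) (mem_PS.mp (hJ.mp hj).1).2)
  have main : ∀ T, #T = t → ∀ (τ : ι → M ⊕ W) (x : ι → Option Y → Λ),
      (pat Sum.getRight? T τ).card = s → 𝒟 (pat Sum.getRight? T τ) →
      cov (Base - Rem + Add) T (fun i => liftS (τ i) (x i)) = 1 := by
    intro T hT τ x hj hp
    set O : Finset ι := {i ∈ T | (τ i).getRight? = none} with hO
    have hOc : #O = t - s := by rw [hO, card_old, hT, hj]
    have hπ : pw T τ ∈ PS ι s 𝒟 := hj ▸ pw_mem_PS hp
    have hOd : Disjoint O (supp (pw T τ)) := disjoint_left.mpr fun i hi => by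
      rw [mem_filter] at hi
      simp [pw, hi.1, hi.2]
    let κ : ι → M := fun i => (τ i).elim id fun _ => z
    have h1 : ∀ j ∈ J, ∀ μ : Multiset (ι → M × Λ),
        cov (μ.map (push j)) T (fun i => liftS (τ i) (x i)) = if j.1 = pw T τ then
          cov (μ.map fun b i => ((b i).1, j.2 (a i) + th (c j) (b i).2)) O
            (fun i => (κ i, x i)) else 0 := by
      intro j hj' μ
      split_ifs with h
      · rw [cov_map, cov_map]
        refine @Multiset.countP_congr _ _ _ rfl _ _ (_) (_) fun b _ => propext ?_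
        simp only [hO, mem_filter, and_imp]
        refine forall₂_congr fun i hi => ?_
        simp only [push, blkP, h, pw, if_pos hi, κ]
        cases τ i <;> simp [liftS]
      · rw [cov_eq_zero]
        intro b hb h'
        obtain ⟨b, -, rfl⟩ := Multiset.mem_map.mp hb
        exact h (eq_pw_of_agree (hag h') (by rw [(mem_PS.mp (hJ.mp hj').1).1, hj]))
    obtain ⟨f₀, hf₀, hf₀'⟩ := pol_interp ha hOc.le x
    have h2 : (cov Add T (fun i => liftS (τ i) (x i)) : ℤ) =
        cov Rem T (fun i => liftS (τ i) (x i)) +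
          if f₀ ∈ Pol F _ (t - σ) then dem X (pw T τ) O κ else 0 := by
      have h3 : (if f₀ ∈ Pol F _ (t - σ) then dem X (pw T τ) O κ else 0) =
          ∑ j ∈ J, if j = (pw T τ, f₀) then dem X (pw T τ) O κ else 0 := by
        rw [sum_ite_eq']
        simp [hJ, hπ]
      rw [h3, cov_sum, cov_sum, Nat.cast_sum, Nat.cast_sum, ← sum_add_distrib]
      refine sum_congr rfl fun j hj' => ?_
      rw [h1 j hj', h1 j hj']
      by_cases h : j.1 = pw T τ
      swap
      · rw [if_neg h, if_neg h, if_neg fun h' => h (by rw [h'])]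
        simp
      rw [if_pos h, if_pos h, cov_th, cov_th]
      have h4 := (hPR _ hπ).1 O hOc hOd κ fun i => x i none - j.2 (a i) none
      have h5 : j = (pw T τ, f₀) ↔ ∀ i ∈ O, j.2 (a i) = x i := by
        refine ⟨fun h' => by rw [h']; exact hf₀', fun h' => Prod.ext h ?_⟩
        exact pol_unique ha (Pol_mono (by omega) (hJ.mp hj').2) hf₀ hOc.ge
          fun i hi => (h' i hi).trans (hf₀' i hi).symm
      rw [h]
      by_cases h6 : ∀ i ∈ O, j.2 (a i) = x i
      · have h7 : ∀ i ∈ O, x i none - j.2 (a i) none = 0 := fun i hi => by rw [h6 i hi, sub_self]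
        rw [if_pos h7] at h4
        rw [if_pos (h5.mpr h6), if_pos fun i hi => by rw [h7 i hi, map_zero, add_zero, h6 i hi],
          if_pos fun i hi => by rw [h7 i hi, map_zero, add_zero, h6 i hi], h4, add_comm]
      · rw [if_neg fun h' => h6 (h5.mp h')]
        split_ifs with h7
        · rw [h4, if_neg fun h8 => h6 fun i hi => by
            rw [← h7 i hi, h8 i hi, map_zero, add_zero]]
          simp
        · simp
    have h3 : cov Base T (fun i => liftS (τ i) (x i)) = cov (ν f₀) T τ := by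
      rw [hB, sum_eq_single f₀, if_pos hf₀']
      · intro f hf hne
        exact if_neg fun h => hne (pol_unique ha (mem_PolF.mp hf) hf₀ hOc.ge
          fun i hi => by rw [h i hi, hf₀' i hi])
      · intro h
        exact absurd (mem_PolF.mpr hf₀) h
    have h4 := hX' T fun i => liftS (τ i) (x i)
    split_ifs at h2 with h5
    · have h6 : supp (pw T τ) ∪ O = T := by
        ext i
        rw [mem_union, mem_supp, hO, mem_filter, pw]
        by_cases hi : i ∈ T
        · rw [if_pos hi]
          tauto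
        · simp [hi]
      rw [dem, h6, cov_congr X (τ' := τ) fun i hi => blkP_self z τ _ (if_pos hi)] at h2
      rw [hν₁ f₀ h5] at h3
      omega
    · rw [hν₂ f₀ hf₀ h5 T hT τ, if_pos ⟨hp, by rwa [nc_none, hj]⟩] at h3
      omega
  refine ⟨Base - Rem + Add, fun T hT τ' => ?_⟩
  choose τ x hτ using fun i => liftS_surj (τ' i)
  obtain rfl : τ' = fun i => liftS (τ i) (x i) := funext fun i => (hτ i).symm
  rw [pat_congr (ty' := Sum.getRight?) (τ' := τ) fun i _ => liftS_ty _ _]
  have h1 := hX' T fun i => liftS (τ i) (x i)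
  have h2 := hB₂ T hT τ x
  by_cases hp : 𝒟 (pat Sum.getRight? T τ)
  swap
  · have := hAdd0 T τ x hp
    rw [if_neg hp] at h2 ⊢
    omega
  rw [if_pos hp] at h2 ⊢
  rcases lt_trichotomy (pat Sum.getRight? T τ).card s with hj | hj | hj
  · refine ⟨?_, fun h => by omega⟩
    by_cases h0 : cov Add T (fun i => liftS (τ i) (x i)) = 0
    · omega
    obtain ⟨b, hb, hb'⟩ := cov_pos.mp (Nat.pos_of_ne_zero h0)
    simp only [Add, Multiset.mem_sum, Multiset.mem_map] at hb
    obtain ⟨j, hj', b, hb, rfl⟩ := hb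
    obtain ⟨U, hU, hUc⟩ := exists_subset_card_eq (n := t - s + 1)
      (s := {i ∈ T | (τ i).getRight? = none}) (by rw [card_old]; omega)
    have hU' : ∀ i ∈ U, i ∈ T ∧ (τ i).getRight? = none := fun i hi => mem_filter.mp (hU hi)
    have hUd : Disjoint U (supp j.1) := disjoint_left.mpr fun i hi => by
      simp [hag hb' i (hU' i hi).1, (hU' i hi).2]
    have hnp := (hPR _ (hJ.mp hj').1).2.2.2 b hb U hUc hUd
    have hg := polyOn_of_mem (a := a) U (Pol_mono (by omega : t - σ ≤ t - s) (hJ.mp hj').2)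
    have h3 : cov Base T (fun i => liftS (τ i) (x i)) = 0 := by
      rw [hB]
      refine sum_eq_zero fun f hf => if_neg fun h => hnp ?_
      refine (((polyOn_of_mem U (mem_PolF.mp hf)).sub hg).comp (LinearMap.proj none)).congr
        fun i hi => ?_
      rw [h i (hU hi), ← hag' hb' i (hU' i hi).1 (hU' i hi).2]
      simp
    obtain ⟨T', hT', hT'c⟩ := exists_subset_card_eq (n := t - s) (s := U) (by omega)
    have hT'd : Disjoint (supp j.1) T' := (hUd.mono_left hT').symm
    choose τ₁ x₁ hτ₁ using fun i => liftS_surj (push j b i)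
    have h4 : pat Sum.getRight? (supp j.1 ∪ T') τ₁ = pat id univ j.1 := by
      rw [← pat_of_supp (subset_union_left (s₂ := T'))]
      exact pat_congr fun i _ => by rw [← liftS_ty _ (x₁ i), hτ₁, blkP_right, id]
    have h5 := main (supp j.1 ∪ T') (by
      rw [card_union_of_disjoint hT'd, (mem_PS.mp (hJ.mp hj').1).1]; omega) τ₁ x₁
      (by rw [h4, card_pat_univ, (mem_PS.mp (hJ.mp hj').1).1])
      (by rw [h4]; exact (mem_PS.mp (hJ.mp hj').1).2)
    have h6 : cov Add T (fun i => liftS (τ i) (x i)) ≤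
        cov Add (supp j.1 ∪ T') fun i => liftS (τ₁ i) (x₁ i) := by
      have := cov_le_of_imp (μ := Add) (φ := id) (T := supp j.1 ∪ T') (T' := T)
        (τ := fun i => liftS (τ₁ i) (x₁ i)) (τ' := fun i => liftS (τ i) (x i)) (by
          intro b' hb₁ hb₂ i hi
          simp only [Add, Multiset.mem_sum, Multiset.mem_map] at hb₁
          obtain ⟨j', hj'', b', -, rfl⟩ := hb₁
          rw [hτ₁]
          rcases mem_union.mp hi with hi | hi
          · have hg' := polyOn_of_mem (a := a) U
              (Pol_mono (by omega : t - σ ≤ t - s) (hJ.mp hj'').2)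
            have h7 := (hc j hj' j' hj'' (th_sep (h' := fun i => (b' i).2)
              ((hg'.sub hg).congr fun i hi => by
                rw [sub_eq_sub_iff_add_eq_add, hag' hb₂ i (hU' i hi).1 (hU' i hi).2, add_comm,
                  hag' hb' i (hU' i hi).1 (hU' i hi).2]) hnp)).1
            simp only [push, ← h7]
            exact blkP_congr fun h => absurd h (mem_supp.mp hi)
          · exact (hb₂ i (hU' i (hT' hi)).1).trans (hb' i (hU' i (hT' hi)).1).symm)
      rwa [Multiset.map_id] at this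
    rw [cov_add] at h5
    omega
  · rw [main T hT τ x hj hp]
    exact ⟨le_rfl, fun _ => rfl⟩
  · have h3 : ∀ μ : (ι → Option W) × (F → Option Y → Λ) → Multiset (ι → M × Λ),
        cov (∑ j ∈ J, (μ j).map (push j)) T (fun i => liftS (τ i) (x i)) = 0 := fun μ => by
      rw [cov_eq_zero]
      intro b hb h
      simp only [Multiset.mem_sum, Multiset.mem_map] at hb
      obtain ⟨j, hj', b, -, rfl⟩ := hb
      have := Multiset.card_le_card (pat_le_of_agree (hag h))
      rw [card_pat_univ, (mem_PS.mp (hJ.mp hj').1).1] at this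
      omega
    have h4 := hB₃ T hT τ x hj
    rw [if_pos hp] at h4
    have h5 : cov Add T (fun i => liftS (τ i) (x i)) = 0 := h3 _
    have h6 : cov Rem T (fun i => liftS (τ i) (x i)) = 0 := h3 _
    omega

end

end Pool.Agent.MP_c7a479_co
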