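import Pool.Agent.MP_c7a479_co.PolyU

/-! Blocks with a prescribed pattern, the top layer, and prescribed blocks in ingredients. -/

namespace Pool.Agent.MP_c7a479_co

open Finset Function
open scoped Classical

noncomputable section

variable {ι W M : Type}

/-- The block with new symbols `π` and old symbols `c` elsewhere. -/
def blkP (π : ι → Option W) (c : ι → M) (i : ι) : M ⊕ W := (π i).elim (.inl (c i)) .inr

@[simp] theorem blkP_right (π : ι → Option W) (c : ι → M) (i : ι) :
    (blkP π c i).getRight? = π i := by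
  unfold blkP; cases π i <;> rfl

theorem blkP_none {π : ι → Option W} (c : ι → M) {i : ι} (h : π i = none) :
    blkP π c i = .inl (c i) := by simp [blkP, h]

theorem blkP_congr {π : ι → Option W} {c c' : ι → M} {i : ι} (h : π i = none → c i = c' i) :
    blkP π c i = blkP π c' i := by
  unfold blkP
  rcases h' : π i with _ | w
  · simp [h h']
  · rfl

theorem blkP_self (z : M) (τ : ι → M ⊕ W) (π : ι → Option W) {i : ι} (h : π i = (τ i).getRight?) :
    blkP π (fun i => (τ i).elim id fun _ => z) i = τ i := by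
  unfold blkP
  rw [h]
  beta_reduce
  cases τ i <;> rfl

/-- The pattern word of `τ` on `T`. -/
def pw (T : Finset ι) (τ : ι → M ⊕ W) (i : ι) : Option W := if i ∈ T then (τ i).getRight? else none

theorem card_old (T : Finset ι) (τ : ι → M ⊕ W) :
    #{i ∈ T | (τ i).getRight? = none} = #T - (pat Sum.getRight? T τ).card := by
  rw [card_pat, ← card_filter_add_card_filter_not (s := T) fun i => (τ i).getRight? = none]
  refine (Nat.sub_eq_of_eq_add ?_).symm
  congr

theorem card_pat_le (T : Finset ι) (τ : ι → M ⊕ W) : (pat Sum.getRight? T τ).card ≤ #T := by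
  rw [card_pat]; exact card_filter_le _ _

theorem cov_fam_le_one {α A : Type} {s : Finset α} {b : α → ι → A} {T : Finset ι} {τ : ι → A}
    (h : ∀ x ∈ s, ∀ y ∈ s, (∀ i ∈ T, b x i = τ i) → (∀ i ∈ T, b y i = τ i) → x = y) :
    cov (fam s b) T τ ≤ 1 := by
  simp only [cov_fam, cov_singleton, sum_boole, Nat.cast_id]
  exact card_le_one.mpr fun x hx y hy =>
    h x (mem_filter.mp hx).1 y (mem_filter.mp hy).1 (mem_filter.mp hx).2 (mem_filter.mp hy).2

theorem exists_injOn {α β : Type} [Fintype β] [Nonempty β] (s : Finset α)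
    (h : #s ≤ Fintype.card β) : ∃ f : α → β, Set.InjOn f s := by
  obtain ⟨g⟩ : Nonempty (s ↪ β) := Function.Embedding.nonempty_of_card_le (by simpa using h)
  refine ⟨fun x => if h : x ∈ s then g ⟨x, h⟩ else Classical.arbitrary β, fun x hx y hy hxy => ?_⟩
  simp only [mem_coe.mp hx, mem_coe.mp hy, dif_pos] at hxy
  exact congrArg Subtype.val (g.injective hxy)

variable [Fintype ι]

/-- The support of a pattern word. -/
def supp (π : ι → Option W) : Finset ι := {i | π i ≠ none}

@[simp] theorem mem_supp {π : ι → Option W} {i : ι} : i ∈ supp π ↔ π i ≠ none := by simp [supp]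

theorem card_pat_univ (π : ι → Option W) : (pat id univ π).card = #(supp π) := card_pat _ _ _

theorem pat_of_supp {π : ι → Option W} {T : Finset ι} (h : supp π ⊆ T) :
    pat id T π = pat id univ π :=
  sum_subset (subset_univ T) fun i _ hi => by
    have : π i = none := by simpa using fun h' => hi (h (mem_supp.mpr h'))
    simp [this]

theorem pat_pw (T : Finset ι) (τ : ι → M ⊕ W) : pat id univ (pw T τ) = pat Sum.getRight? T τ := by
  rw [← pat_of_supp (T := T)]
  · exact pat_congr fun i hi => if_pos hi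
  · intro i hi
    by_contra h
    simp [pw, h] at hi

theorem supp_pw (T : Finset ι) (τ : ι → M ⊕ W) : supp (pw T τ) ⊆ T := fun i hi => by
  by_contra h
  simp [pw, h] at hi

theorem pat_le_of_agree {π : ι → Option W} {T : Finset ι} {τ : ι → M ⊕ W}
    (h : ∀ i ∈ T, π i = (τ i).getRight?) : pat Sum.getRight? T τ ≤ pat id univ π :=
  (pat_congr fun i hi => (h i hi).symm).trans_le (pat_mono id (subset_univ T) π)

theorem eq_pw_of_agree {π : ι → Option W} {T : Finset ι} {τ : ι → M ⊕ W}
    (h : ∀ i ∈ T, π i = (τ i).getRight?) (hc : #(supp π) ≤ (pat Sum.getRight? T τ).card) :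
    π = pw T τ := by
  rw [card_pat] at hc
  have := eq_of_subset_of_card_le (s := {i ∈ T | (τ i).getRight? ≠ none}) (t := supp π)
    (fun i hi => by rw [mem_filter] at hi; rw [mem_supp, h i hi.1]; exact hi.2) hc
  funext i
  unfold pw
  split_ifs with hi
  · exact h i hi
  · by_contra hne
    exact hi (mem_filter.mp (this ▸ mem_supp.mpr hne)).1

variable [Fintype W]

variable (ι) in
/-- The allowed pattern words of size `s`. -/
def PS (s : ℕ) (𝒟 : Multiset W → Prop) : Finset (ι → Option W) :=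
  {π | #(supp π) = s ∧ 𝒟 (pat id univ π)}

theorem mem_PS {s : ℕ} {𝒟 : Multiset W → Prop} {π : ι → Option W} :
    π ∈ PS ι s 𝒟 ↔ #(supp π) = s ∧ 𝒟 (pat id univ π) := by simp [PS]

theorem card_PS_le {s t : ℕ} (h : s ≤ t) (𝒟 : Multiset W → Prop) :
    #(PS ι s 𝒟) ≤ (Fintype.card ι * (Fintype.card W + 1) + 1) ^ t := by
  refine le_trans (card_le_card fun π hπ => ?_) ((card_small_le (ι := ι) (none : Option W) t).trans
    (by simp))
  have := (mem_PS.mp hπ).1
  simp only [small, mem_filter, mem_univ, true_and]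
  convert (this.trans_le h)
  ext i
  simp

omit [Fintype ι] [Fintype W] in
theorem pat_blkP (π : ι → Option W) (c : ι → M) (T : Finset ι) :
    pat Sum.getRight? T (blkP π c) = pat id T π := pat_congr fun _ _ => blkP_right _ _ _

theorem pw_mem_PS {𝒟 : Multiset W → Prop} {T : Finset ι} {τ : ι → M ⊕ W}
    (h : 𝒟 (pat Sum.getRight? T τ)) : pw T τ ∈ PS ι (pat Sum.getRight? T τ).card 𝒟 :=
  mem_PS.mpr ⟨by rw [← card_pat_univ, pat_pw], by rwa [pat_pw]⟩

/-- The top layer. -/
theorem top_layer {F : Type} [Field F] [Fintype F] [AddCommGroup M] [Module F M] [Fintype M]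
    {a : ι → F} (ha : Injective a) {t σ : ℕ} (hσ : σ ≤ t)
    (hM : (Fintype.card ι * (Fintype.card W + 1) + 1) ^ t ≤ Fintype.card M)
    {𝒟 : Multiset W → Prop} (hD : Down 𝒟) (hD' : ∀ p, 𝒟 p → p.card < σ + 1) :
    ∃ μ : Multiset (ι → M ⊕ W), XL t σ Sum.getRight? 𝒟 μ := by
  obtain ⟨c, hc⟩ := exists_injOn (β := M) (PS ι σ 𝒟) ((card_PS_le hσ 𝒟).trans hM)
  refine ⟨fam (PS ι σ 𝒟 ×ˢ PolF F M (t - σ)) fun x =>
    blkP x.1 fun i => a i ^ (t - σ) • c x.1 + x.2 (a i), fun T hT τ => ?_⟩
  have hag : ∀ {π : ι → Option W} {c : ι → M}, (∀ i ∈ T, blkP π c i = τ i) →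
      ∀ i ∈ T, π i = (τ i).getRight? := fun h i hi => by rw [← h i hi, blkP_right]
  by_cases hp : 𝒟 (pat Sum.getRight? T τ)
  swap
  · rw [if_neg hp, cov_eq_zero.mpr]
    · simp
    · intro b hb h
      obtain ⟨x, hx, rfl⟩ := mem_fam.mp hb
      exact hp (hD.2 _ _ (pat_le_of_agree (hag h)) (mem_PS.mp (mem_product.mp hx).1).2)
  have hj := hD' _ hp
  have hO := card_old T τ
  have h1 : cov (fam (PS ι σ 𝒟 ×ˢ PolF F M (t - σ)) fun x =>
      blkP x.1 fun i => a i ^ (t - σ) • c x.1 + x.2 (a i)) T τ ≤ 1 := by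
    refine cov_fam_le_one ?_
    rintro ⟨π, f⟩ hx ⟨π', f'⟩ hx' h h'
    simp only [mem_product, mem_PolF] at hx hx'
    have key : ∀ i ∈ ({i ∈ T | (τ i).getRight? = none} : Finset ι),
        a i ^ (t - σ) • c π + f (a i) = a i ^ (t - σ) • c π' + f' (a i) := fun i hi => by
      rw [mem_filter] at hi
      have := (h i hi.1).trans (h' i hi.1).symm
      rwa [blkP_none _ ((hag h i hi.1).trans hi.2), blkP_none _ ((hag h' i hi.1).trans hi.2),
        Sum.inl.injEq] at this
    obtain rfl : π = π' := by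
      by_contra hne
      have h2 := card_le_of_pow_add ha (sub_ne_zero.mpr fun h => hne (hc hx.1 hx'.1 h))
        (sub_mem hx.2 hx'.2) fun i hi => by
          rw [smul_sub, Pi.sub_apply, sub_add_sub_comm, key i hi, sub_self]
      exact hne ((eq_pw_of_agree (hag h) (by rw [(mem_PS.mp hx.1).1]; omega)).trans
        (eq_pw_of_agree (hag h') (by rw [(mem_PS.mp hx'.1).1]; omega)).symm)
    rw [pol_unique ha hx.2 hx'.2 (by omega) fun i hi => add_left_cancel (key i hi)]
  rw [if_pos hp]
  refine ⟨h1, fun hs => le_antisymm h1 (cov_pos.mpr ?_)⟩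
  obtain ⟨f, hf, hf'⟩ := pol_interp ha (n := t - σ) (T := {i ∈ T | (τ i).getRight? = none})
    (by omega) fun i => (τ i).elim id (fun _ => 0) - a i ^ (t - σ) • c (pw T τ)
  refine ⟨_, mem_fam.mpr ⟨(pw T τ, f), mem_product.mpr ⟨?_, mem_PolF.mpr hf⟩, rfl⟩, fun i hi => ?_⟩
  · rw [← show (pat Sum.getRight? T τ).card = σ by omega]
    exact pw_mem_PS hp
  · rw [← blkP_self 0 τ (pw T τ) (i := i) (if_pos hi)]
    refine blkP_congr fun h => ?_
    dsimp only at h ⊢
    rw [hf' i (mem_filter.mpr ⟨hi, by simpa [pw, hi] using h⟩), add_sub_cancel]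

theorem exists_block [Fintype M] (hM : Fintype.card ι * Fintype.card W < Fintype.card M) {t : ℕ}
    (ht : t ≤ Fintype.card ι) {𝒟 : Multiset W → Prop} {μ : Multiset (ι → M ⊕ W)}
    (hμ : Ing t Sum.getRight? 𝒟 μ) {π : ι → Option W} (hπ : #(supp π) < t)
    (hD : 𝒟 (pat id univ π)) : ∃ c, blkP π c ∈ μ := by
  obtain ⟨T, hS, hT⟩ := exists_superset_card_eq hπ.le ht
  obtain ⟨j, hj, hj'⟩ := exists_mem_notMem_of_card_lt_card (hT ▸ hπ)
  have hj'' : π j = none := by simpa using hj'
  obtain ⟨z⟩ : Nonempty M := Fintype.card_pos_iff.mp (by omega)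
  have h1 : ∀ u : M, ∃ b ∈ μ, ∀ i ∈ T, b i = blkP π (update (fun _ => z) j u) i := fun u => by
    rw [← cov_pos, hμ T hT, pat_blkP, pat_of_supp hS, if_pos hD]
    exact one_pos
  choose b hb hb' using h1
  by_contra hc
  have h2 : ∀ u, ∃ y : ι × W, y.1 ∉ T ∧ b u y.1 = .inr y.2 := fun u => by
    by_contra h
    refine hc ⟨fun i => (b u i).elim id fun _ => z, ?_⟩
    convert hb u
    funext i
    refine blkP_self z _ _ ?_
    by_cases hi : i ∈ T
    · rw [hb' u i hi, blkP_right]
    · have : π i = none := by simpa using fun h' => hi (hS (mem_supp.mpr h'))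
      rw [this]
      rcases h' : b u i with m | w
      · rfl
      · exact absurd ⟨(i, w), hi, h'⟩ h
  choose y hy hy' using h2
  obtain ⟨u, u', hne, h⟩ := Fintype.exists_ne_map_eq_of_card_lt y (by simpa using hM)
  have h3 : b u = b u' := eq_of_cov_le_one (hb u) (hb u') (T := insert (y u).1 (T.erase j))
    (fun i hi => by
      rcases mem_insert.mp hi with rfl | hi
      · rw [hy' u, h, hy' u']
      · rw [hb' u i (mem_of_mem_erase hi), hb' u' i (mem_of_mem_erase hi)]
        exact blkP_congr fun _ => by simp [ne_of_mem_erase hi])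
    (by
      rw [hμ _ (by rw [card_insert_of_notMem fun h => hy u (mem_of_mem_erase h),
        card_erase_add_one hj, hT])]
      split_ifs <;> omega)
  have h4 := hb' u j hj
  rw [h3, hb' u' j hj, blkP_none _ hj'', blkP_none _ hj''] at h4
  exact hne (by simpa using h4.symm)

theorem prescribed [Fintype M] (hM : Fintype.card ι * Fintype.card W < Fintype.card M) {t : ℕ}
    (ht : t ≤ Fintype.card ι) {𝒟 : Multiset W → Prop} {μ : Multiset (ι → M ⊕ W)}
    (hμ : Ing t Sum.getRight? 𝒟 μ) {π : ι → Option W} (hπ : #(supp π) < t)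
    (hD : 𝒟 (pat id univ π)) (c : ι → M) :
    ∃ ν : Multiset (ι → M ⊕ W), Ing t Sum.getRight? 𝒟 ν ∧ blkP π c ∈ ν := by
  obtain ⟨c', hc'⟩ := exists_block hM ht hμ hπ hD
  refine ⟨_, hμ.map_equiv (fun i => Equiv.sumCongr (Equiv.swap (c' i) (c i)) (Equiv.refl W))
    fun i x => by cases x <;> rfl, Multiset.mem_map.mpr ⟨_, hc', funext fun i => ?_⟩⟩
  unfold blkP
  cases π i
  · simp
  · rfl

end

end Pool.Agent.MP_c7a479_co
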