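import Pool.Agent.MP_c7a479_co.PolyInt
import Pool.Agent.MP_c7a479_co.PolyStd
import Pool.Agent.MP_c7a479_co.PolyComp

/-! The algebraic absorber in bounded dimension. -/

namespace Pool.Agent.MP_c7a479_co

open Finset Function
open scoped Classical

noncomputable section

/-- Polynomially bounded functions. -/
def PB (f : ℕ → ℕ) : Prop := ∃ e, ∀ p, 2 ≤ p → f p ≤ p ^ e

theorem PB.id : PB fun p => p := ⟨1, by simp⟩

theorem PB.const (c : ℕ) : PB fun _ => c :=
  ⟨c, fun _ hp => (Nat.lt_two_pow_self.le).trans (Nat.pow_le_pow_left hp c)⟩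

theorem PB.mul {f g : ℕ → ℕ} (hf : PB f) (hg : PB g) : PB fun p => f p * g p :=
  let ⟨e, he⟩ := hf
  let ⟨e', he'⟩ := hg
  ⟨e + e', fun p hp => by rw [pow_add]; exact Nat.mul_le_mul (he p hp) (he' p hp)⟩

theorem PB.add {f g : ℕ → ℕ} (hf : PB f) (hg : PB g) : PB fun p => f p + g p := by
  obtain ⟨e, he⟩ := hf
  obtain ⟨e', he'⟩ := hg
  refine ⟨e + e' + 1, fun p hp => ?_⟩
  have h1 := (he p hp).trans (Nat.pow_le_pow_right (by omega) (Nat.le_add_right e e'))
  have h2 := (he' p hp).trans (Nat.pow_le_pow_right (by omega) (Nat.le_add_left e' e))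
  rw [pow_succ]
  nlinarith

theorem PB.pow {f : ℕ → ℕ} (hf : PB f) (n : ℕ) : PB fun p => f p ^ n :=
  let ⟨e, he⟩ := hf
  ⟨e * n, fun p hp => by rw [pow_mul]; exact Nat.pow_le_pow_left (he p hp) n⟩

theorem exists_proj {X F : Type} [Field F] [Fintype F] [Fintype X] (Z : Finset (X → F))
    (hZ : ∀ z ∈ Z, z ≠ 0) {D : ℕ} (hD : #Z < Fintype.card F ^ D) :
    ∃ θ : (X → F) →ₗ[F] (Fin D → F), ∀ z ∈ Z, θ z ≠ 0 := by
  by_contra hc
  push Not at hc
  have key : ∀ z ∈ Z, Fintype.card F ^ D * #{M : X → Fin D → F | ∑ x, z x • M x = 0} =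
      Fintype.card (X → Fin D → F) := by
    intro z hz
    obtain ⟨x₀, hx₀⟩ := Function.ne_iff.mp (hZ z hz)
    let ev : (X → Fin D → F) →+ (Fin D → F) :=
      { toFun := fun M => ∑ x, z x • M x
        map_zero' := by simp
        map_add' := fun M M' => by simp [sum_add_distrib] }
    have hsurj : ∀ y, y ∈ Set.range ev := fun y =>
      ⟨Pi.single x₀ ((z x₀)⁻¹ • y), by
        change ∑ x, z x • (Pi.single x₀ ((z x₀)⁻¹ • y) : X → Fin D → F) x = y
        rw [sum_eq_single x₀]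
        · rw [Pi.single_eq_same, smul_inv_smul₀ hx₀]
        · intro x _ hx; simp [hx]
        · simp⟩
    rw [← card_univ (α := X → Fin D → F),
      card_eq_sum_card_fiberwise (f := ev) (s := univ) (t := univ) fun _ _ => mem_univ _,
      sum_congr rfl fun y _ => AddMonoidHom.card_fiber_eq_of_mem_range ev (hsurj y) (hsurj 0)]
    simp only [sum_const, card_univ, Fintype.card_fun, Fintype.card_fin, smul_eq_mul]
    congr
  have h1 : (univ : Finset (X → Fin D → F)) ⊆
      Z.biUnion fun z => {M : X → Fin D → F | ∑ x, z x • M x = 0} := by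
    intro M _
    obtain ⟨z, hz, hz'⟩ := hc (Fintype.linearCombination F M)
    exact mem_biUnion.mpr ⟨z, hz, by simpa [Fintype.linearCombination_apply] using hz'⟩
  have h2 := Nat.mul_le_mul_left (Fintype.card F ^ D) ((card_le_card h1).trans card_biUnion_le)
  rw [mul_sum, sum_congr rfl key, sum_const, card_univ, smul_eq_mul] at h2
  exact absurd (Nat.le_of_mul_le_mul_right h2 Fintype.card_pos) (by omega)

theorem cov_map_zero {ι K Λ : Type} [AddCommGroup Λ] (ν : Multiset (ι → K)) (T : Finset ι)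
    (κ : ι → K) (x : ι → Λ) :
    cov (ν.map fun b i => (b i, (0 : Λ))) T (fun i => (κ i, x i)) =
      if ∀ i ∈ T, x i = 0 then cov ν T κ else 0 := by
  have := cov_lift (W := Unit) (ty := fun _ : K => none) (car := fun _ => True)
    (lift := (Prod.mk : K → Λ → K × Λ)) (by simp) ν 0 T κ x
  simpa [eq_comm (a := (0 : Λ))] using this

/-- The conclusion of the absorber lemma on the coordinates outside `S`. -/
def Absorbs {ι F K Λ : Type} [Field F] [AddCommGroup Λ] [Module F Λ] (a : ι → F) (t : ℕ)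
    (S : Finset ι) (L : Finset ι → (ι → K) → ℤ) (P : Multiset (ι → K × Λ))
    (R : Finset ((ι → K) × (F → Λ))) : Prop :=
  (∀ T, #T = t → Disjoint T S → ∀ (κ : ι → K) (x : ι → Λ), (cov P T fun i => (κ i, x i) : ℤ) =
      (if ∀ i ∈ T, x i = 0 then L T κ else 0) +
        cov (fam R fun r i => (r.1 i, r.2 (a i))) T fun i => (κ i, x i)) ∧
    (∀ r ∈ R, r.2 ∈ Pol F Λ t ∧ r.2 ∉ Pol F Λ (t - 1)) ∧ Set.InjOn Prod.snd (R : Set ((ι → K) × (F → Λ))) ∧
    ∀ b ∈ P, ∀ U, #U = t + 1 → Disjoint U S → ¬ PolyOn a t U fun i => (b i).2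

theorem absorber_full (t E : ℕ) : ∃ D : ℕ, ∀ (ι F K : Type) [Field F] [Fintype F] [Fintype ι]
    [Fintype K] [Nonempty K] (a : ι → F), Injective a → t ≤ Fintype.card ι →
    Fintype.card K ≤ Fintype.card F ^ E → ∀ L : Finset ι → (ι → K) → ℤ, IsLocal t L → IsCons t L →
    (∀ T, #T = t → ∀ τ, 0 ≤ L T τ ∧ L T τ ≤ 1) →
    ∃ (P : Multiset (ι → K × (Fin D → F))) (R : Finset ((ι → K) × (F → Fin D → F))),
      Absorbs a t ∅ L P R := by
  let n₁ : ℕ → ℕ := fun p => ((p * p ^ E + 1) ^ t + 1) ^ (t + 1) * ((p ^ t + 1) * p ^ t)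
  let n₂ : ℕ → ℕ := fun p => n₁ p * (p ^ t * (p ^ t) ^ (t + 1))
  have hn₁ : PB n₁ := ((((PB.id.mul (PB.id.pow E)).add (PB.const 1)).pow t).add (PB.const 1)).pow
    (t + 1) |>.mul (((PB.id.pow t).add (PB.const 1)).mul (PB.id.pow t))
  have hn₂ : PB n₂ := hn₁.mul ((PB.id.pow t).mul ((PB.id.pow t).pow (t + 1)))
  obtain ⟨D, hD⟩ : PB fun p => (2 * n₁ p + 2 * n₂ p) * p ^ (t + 1) + n₂ p + n₂ p * n₂ p + 1 :=
    ((((((PB.const 2).mul hn₁).add ((PB.const 2).mul hn₂)).mul (PB.id.pow _)).add hn₂).add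
      (hn₂.mul hn₂)).add (PB.const 1)
  refine ⟨D, fun ι F K _ _ _ _ _ a ha ht hK L hloc hcons hL => ?_⟩
  have hk : Fintype.card ι ≤ Fintype.card F := Fintype.card_le_of_injective a ha
  obtain ⟨z⟩ := ‹Nonempty K›
  obtain ⟨P₁, N₁, h₁, hc₁⟩ := int_decomp z ht L hloc hcons fun T hT τ =>
    abs_le.mpr ⟨by linarith [(hL T hT τ).1], (hL T hT τ).2⟩
  obtain ⟨V, J, _, _, P₀, s, n, h₀, hP₀, hroot, hdisj, hcP₀, hcs⟩ := exists_abs ha ht P₁ N₁
    fun T hT τ => by have := h₁ T hT τ; have := (hL T hT τ).1; omega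
  let d : StdData ι F K V J := ⟨t, a, ha, ht, z, s, n, hroot, hdisj⟩
  let emb : ι → K ⊕ V → K × (SX ι F V J → F) := fun i y => (lab z y, vec F J i y)
  let P : Multiset (ι → K × (SX ι F V J → F)) := (P₀.map fun b i => emb i (b i)) + d.add
  have hsep : ∀ b ∈ P, ∀ U, #U = t + 1 → ¬ PolyOn a t U fun i => (b i).2 := by
    intro b hb U hU
    rcases Multiset.mem_add.mp hb with hb | hb
    · obtain ⟨b', hb', rfl⟩ := Multiset.mem_map.mp hb
      exact vec_sep ha (hP₀ b' hb') hU
    · exact d.add_sep hb hU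
  have w₁ : ∀ y : (ι → K × (SX ι F V J → F)) × Finset ι, ∃ w : SX ι F V J → F,
      y ∈ P.toFinset ×ˢ powersetCard (t + 1) univ → w ≠ 0 ∧
        ∀ θ : (SX ι F V J → F) →ₗ[F] (Fin D → F), θ w ≠ 0 →
          ¬ PolyOn a t y.2 fun i => θ (y.1 i).2 := by
    rintro ⟨b, U⟩
    by_cases h : (b, U) ∈ P.toFinset ×ˢ powersetCard (t + 1) univ
    · simp only [mem_product, Multiset.mem_toFinset, mem_powersetCard] at h
      obtain ⟨w, hw, hw'⟩ := exists_witness ha (by omega) (hsep b h.1 U h.2.2)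
      exact ⟨w, fun _ => ⟨hw, hw' _⟩⟩
    · exact ⟨0, fun h' => absurd h' h⟩
  have w₂ : ∀ x : J × (F → F) × (Option ι → F → F), ∃ w : SX ι F V J → F, x ∈ d.RI → w ≠ 0 ∧
      ∀ θ : (SX ι F V J → F) →ₗ[F] (Fin D → F), θ w ≠ 0 →
        (fun u => θ (d.std x u)) ∉ Pol F (Fin D → F) (t - 1) := by
    intro x
    by_cases h : x ∈ d.RI
    · obtain ⟨w, hw, hw'⟩ := exists_witness (a := (id : F → F)) injective_id (n := t - 1)
        (U := univ) (by rw [card_univ]; omega) (x := d.std x) fun ⟨g, hg, hg'⟩ =>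
          d.std_not_mem h ((funext fun u => hg' u (mem_univ u) : g = d.std x) ▸ hg)
      exact ⟨w, fun _ => ⟨hw, fun θ hθ h' => hw' _ θ hθ (polyOn_of_mem univ h')⟩⟩
    · exact ⟨0, fun h' => absurd h' h⟩
  have w₃ : ∀ y : (J × (F → F) × (Option ι → F → F)) × (J × (F → F) × (Option ι → F → F)),
      ∃ w : SX ι F V J → F, y ∈ d.RI.offDiag → w ≠ 0 ∧
        ∀ θ : (SX ι F V J → F) →ₗ[F] (Fin D → F), θ w ≠ 0 →
          (fun u => θ (d.std y.1 u)) ≠ fun u => θ (d.std y.2 u) := by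
    rintro ⟨x, x'⟩
    by_cases h : (x, x') ∈ d.RI.offDiag
    · rw [mem_offDiag] at h
      obtain ⟨u, hu⟩ := Function.ne_iff.mp fun h' => h.2.2 (d.std_inj h.1 h.2.1 h')
      refine ⟨d.std x u - d.std x' u, fun _ => ⟨sub_ne_zero.mpr hu, fun θ hθ h' => hθ ?_⟩⟩
      rw [map_sub, sub_eq_zero]
      exact congrFun h' u
    · exact ⟨0, fun h' => absurd h' h⟩
  choose w₁ hw₁ using w₁
  choose w₂ hw₂ using w₂
  choose w₃ hw₃ using w₃
  obtain ⟨θ, hθ⟩ := exists_proj (D := D) ((P.toFinset ×ˢ powersetCard (t + 1) univ).image w₁ ∪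
    d.RI.image w₂ ∪ d.RI.offDiag.image w₃) (by
      simp only [mem_union, mem_image]
      rintro _ ((⟨y, hy, rfl⟩ | ⟨y, hy, rfl⟩) | ⟨y, hy, rfl⟩)
      exacts [(hw₁ y hy).1, (hw₂ y hy).1, (hw₃ y hy).1]) (by
      have e₁ : (P₁.card + N₁.card) * ((Fintype.card ι ^ t + 1) * Fintype.card F ^ t) ≤
          n₁ (Fintype.card F) := by
        refine Nat.mul_le_mul (hc₁.trans ?_) ?_ <;> gcongr
      have e₂ : #d.RI ≤ n₂ (Fintype.card F) :=
        d.card_RI.trans (Nat.mul_le_mul_right _ (hcs.trans e₁))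
      have e₃ : d.add.card ≤ 2 * n₂ (Fintype.card F) := by
        refine d.card_add.trans ?_
        rw [mul_left_comm]
        exact Nat.mul_le_mul_left _ (Nat.mul_le_mul_right _ (hcs.trans e₁))
      have e₄ : #P.toFinset ≤ 2 * n₁ (Fintype.card F) + 2 * n₂ (Fintype.card F) := by
        refine (Multiset.toFinset_card_le _).trans ?_
        rw [Multiset.card_add, Multiset.card_map]
        omega
      have e₅ : #(P.toFinset ×ˢ powersetCard (t + 1) (univ : Finset ι)) ≤
          (2 * n₁ (Fintype.card F) + 2 * n₂ (Fintype.card F)) * Fintype.card F ^ (t + 1) := by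
        rw [card_product, card_powersetCard]
        exact Nat.mul_le_mul e₄ ((Nat.choose_le_pow _ _).trans (Nat.pow_le_pow_left hk _))
      have e₆ : #d.RI.offDiag ≤ n₂ (Fintype.card F) * n₂ (Fintype.card F) := by
        rw [offDiag_card]
        exact (Nat.sub_le _ _).trans (Nat.mul_le_mul e₂ e₂)
      refine lt_of_lt_of_le ?_ (hD _ Fintype.one_lt_card)
      refine Nat.lt_succ_of_le ((card_union_le _ _).trans (add_le_add ((card_union_le _ _).trans
        (add_le_add (card_image_le.trans e₅) (card_image_le.trans e₂))) (card_image_le.trans e₆))))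
  simp only [mem_union, mem_image] at hθ
  have hinj : Set.InjOn (fun x u => θ (d.std x u)) d.RI := fun x hx x' hx' h => by
    by_contra hne
    have : (x, x') ∈ d.RI.offDiag := mem_offDiag.mpr ⟨hx, hx', hne⟩
    exact (hw₃ _ this).2 θ (hθ _ (Or.inr ⟨_, this, rfl⟩)) h
  refine ⟨P.map fun b i => ((b i).1, θ (b i).2),
    d.RI.image fun x => (d.c x.1, fun u => θ (d.std x u)), fun T hT _ κ x => ?_, ?_, ?_, ?_⟩
  · have h2 : ∀ τ, cov (P + N₁.map fun b i => (b i, 0)) T τ =
        cov ((P₁.map fun b i => (b i, 0)) + fam d.RI fun x i => (d.c x.1 i, d.std x (a i))) T τ := by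
      intro τ
      have h3 := cov_push (μ := P₀ + N₁.map fun b i => Sum.inl (b i))
        (ν := (P₁.map fun b i => Sum.inl (b i)) + fam s n)
        (fun τ => by rw [cov_add, cov_add]; exact h₀ T hT τ) emb τ
      have h4 : ∀ i κ, emb i (Sum.inl κ) = (κ, 0) := fun i κ => by
        simp only [emb, lab, vec, Sum.elim_inl, id_eq, Sum.getRight?_inl, reduceCtorEq, and_false,
          if_false, Prod.mk.injEq, true_and]
        funext y
        cases y <;> rfl
      simp only [Multiset.map_add, Multiset.map_map, comp_def, h4, cov_add, map_fam] at h3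
      have h5 := d.identity hT τ
      simp only [P, cov_add]
      change cov (fam s fun β i => emb i (n β i)) T τ + _ = cov (fam d.RI fun x i =>
        (d.c x.1 i, d.std x (a i))) T τ at h5
      omega
    have h3 := cov_push h2 (fun _ y => (y.1, θ y.2)) fun i => (κ i, x i)
    simp only [Multiset.map_add, Multiset.map_map, comp_def, cov_add, map_fam, map_zero,
      cov_map_zero] at h3
    have h4 : (fam (d.RI.image fun x => (d.c x.1, fun u => θ (d.std x u))) fun r i =>
        (r.1 i, r.2 (a i))) = fam d.RI fun x i => (d.c x.1 i, θ (d.std x (a i))) := by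
      rw [fam, sum_image fun x hx x' hx' h => hinj hx hx' (congrArg Prod.snd h)]
      rfl
    rw [h4]
    have h5 := h₁ T hT κ
    split_ifs at h3 ⊢ <;> omega
  · intro r hr
    obtain ⟨x, hx, rfl⟩ := mem_image.mp hr
    exact ⟨Pol_comp θ (d.std_mem hx), (hw₂ x hx).2 θ (hθ _ (Or.inl (Or.inr ⟨_, hx, rfl⟩)))⟩
  · intro r hr r' hr' h
    obtain ⟨x, hx, rfl⟩ := mem_image.mp (mem_coe.mp hr)
    obtain ⟨x', hx', rfl⟩ := mem_image.mp (mem_coe.mp hr')
    rw [hinj hx hx' h]
  · intro b hb U hU _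
    obtain ⟨b', hb', rfl⟩ := Multiset.mem_map.mp hb
    have : (b', U) ∈ P.toFinset ×ˢ powersetCard (t + 1) univ := by simp [hb', hU]
    exact (hw₁ _ this).2 θ (hθ _ (Or.inl (Or.inl ⟨_, this, rfl⟩)))

theorem absorber (t E : ℕ) : ∃ D : ℕ, ∀ (ι F K : Type) [Field F] [Fintype F] [Fintype ι]
    [Fintype K] [Nonempty K] (a : ι → F), Injective a → ∀ S : Finset ι,
    #S + t ≤ Fintype.card ι → Fintype.card K ≤ Fintype.card F ^ E →
    ∀ L : Finset ι → (ι → K) → ℤ, IsLocal t L →
    (∀ T, #T + 1 = t → Disjoint T S → ∀ i ∉ T, i ∉ S → ∀ j ∉ T, j ∉ S → ∀ τ,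
      ∑ u, L (insert i T) (update τ i u) = ∑ u, L (insert j T) (update τ j u)) →
    (∀ T, #T = t → Disjoint T S → ∀ τ, 0 ≤ L T τ ∧ L T τ ≤ 1) →
    ∃ (P : Multiset (ι → K × (Fin D → F))) (R : Finset ((ι → K) × (F → Fin D → F))),
      Absorbs a t S L P R := by
  obtain ⟨D, hD⟩ := absorber_full t E
  refine ⟨D, fun ι F K _ _ _ _ _ a ha S hS hK L hloc hcons hL => ?_⟩
  obtain ⟨z⟩ := ‹Nonempty K›
  let ext : ∀ {X : Type}, X → ({i // i ∉ S} → X) → ι → X := fun x₀ κ i =>
    if h : i ∈ S then x₀ else κ ⟨i, h⟩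
  have hext : ∀ {X : Type} (x₀ : X) (κ : {i // i ∉ S} → X) (i : {i // i ∉ S}),
      ext x₀ κ i = κ i := fun x₀ κ i => dif_neg i.2
  let e : {i // i ∉ S} ↪ ι := Embedding.subtype _
  have hdis : ∀ T : Finset {i // i ∉ S}, Disjoint (T.map e) S := fun T =>
    disjoint_left.mpr fun i hi => by
      obtain ⟨j, -, rfl⟩ := mem_map.mp hi
      exact j.2
  have hsub : ∀ T, Disjoint T S → (T.subtype (· ∉ S)).map e = T := fun T hT =>
    subtype_map_of_mem fun i hi => disjoint_left.mp hT hi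
  obtain ⟨P, R, h1, h2, h3, h4⟩ := hD {i // i ∉ S} F K (fun i => a i)
    (ha.comp Subtype.val_injective) (by
      rw [Fintype.card_subtype_compl, Fintype.card_coe]; omega) hK
    (fun T κ => L (T.map e) (ext z κ))
    (fun T hT τ τ' h => hloc _ (by rw [card_map, hT]) _ _ fun i hi => by
      obtain ⟨j, hj, rfl⟩ := mem_map.mp hi
      exact (hext _ _ j).trans ((h j hj).trans (hext _ _ j).symm))
    (fun T hT i hi j hj τ => by
      have key : ∀ (inst : DecidableEq {i // i ∉ S}) (i : {i // i ∉ S}) u,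
          ext z (@update _ _ inst τ i u) = update (ext z τ) i u := by
        intro _ i u
        funext j
        by_cases hj : j ∈ S
        · rw [update_of_ne fun h : j = i => i.2 (h ▸ hj)]
          simp [ext, hj]
        · by_cases hji : j = i
          · subst hji
            rw [update_self, hext, update_self]
          · rw [update_of_ne hji]
            simp only [ext, dif_neg hj]
            rw [update_of_ne fun h => hji (congrArg Subtype.val h)]
      simp only [map_insert, key]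
      exact hcons _ (by rw [card_map, hT]) (hdis T) _ (fun h => hi ((mem_map' e).mp h)) i.2 _
        (fun h => hj ((mem_map' e).mp h)) j.2 _)
    (fun T hT τ => hL _ (by rw [card_map, hT]) (hdis T) _)
  refine ⟨P.map (ext (z, 0)), R.image fun r => (ext z r.1, r.2), fun T hT hTS κ x => ?_, ?_, ?_, ?_⟩
  · have h5 := h1 (T.subtype (· ∉ S)) (by rw [← card_map e, hsub T hTS, hT]) (disjoint_empty_right _)
      (fun i => κ i) fun i => x i
    have key : ∀ {X : Type} (x₀ : X) (b : {i // i ∉ S} → X) (τ : ι → X),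
        (∀ i ∈ T, ext x₀ b i = τ i) ↔ ∀ i ∈ T.subtype (· ∉ S), b i = τ i := by
      intro X x₀ b τ
      refine ⟨fun h i hi => (hext x₀ b i).symm.trans (h i (mem_subtype.mp hi)), fun h i hi => ?_⟩
      exact (hext x₀ b ⟨i, disjoint_left.mp hTS hi⟩).trans (h ⟨i, _⟩ (mem_subtype.mpr hi))
    have h6 : (fam (R.image fun r => (ext z r.1, r.2)) fun r i => (r.1 i, r.2 (a i))) =
        fam R fun r i => (ext z r.1 i, r.2 (a i)) := by
      rw [fam, sum_image]
      · rfl
      · exact fun x hx x' hx' h => h3 hx hx' (congrArg Prod.snd h :)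
    beta_reduce at h5
    rw [cov_map_of_iff fun b _ => key _ b _, h5, hsub T hTS, h6, cov_fam, cov_fam]
    congr 1
    · rw [hloc T hT _ κ fun i hi => hext z (fun i => κ i) ⟨i, disjoint_left.mp hTS hi⟩]
      congr 1
      exact propext ⟨fun h i hi => h ⟨i, disjoint_left.mp hTS hi⟩ (mem_subtype.mpr hi),
        fun h i hi => h i (mem_subtype.mp hi)⟩
    · congr 1
      refine sum_congr rfl fun r _ => ?_
      rw [cov_singleton, cov_singleton]
      congr 1
      rw [← key (z, 0) (fun i => (r.1 i, r.2 (a i))) fun i => (κ i, x i)]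
      refine propext (forall₂_congr fun i hi => ?_)
      simp [ext, disjoint_left.mp hTS hi]
  · intro r hr
    obtain ⟨r', hr', rfl⟩ := mem_image.mp hr
    exact h2 r' hr'
  · intro r hr r' hr' h
    obtain ⟨x, hx, rfl⟩ := mem_image.mp (mem_coe.mp hr)
    obtain ⟨x', hx', rfl⟩ := mem_image.mp (mem_coe.mp hr')
    rw [h3 hx hx' h]
  · intro b hb U hU hUS ⟨g, hg, hg'⟩
    obtain ⟨b', hb', rfl⟩ := Multiset.mem_map.mp hb
    refine h4 b' hb' (U.subtype (· ∉ S)) (by rw [← card_map e, hsub U hUS, hU])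
      (disjoint_empty_right _) ⟨g, hg, fun i hi => ?_⟩
    rw [hg' i (mem_subtype.mp hi)]
    simp only [hext]

end

end Pool.Agent.MP_c7a479_co
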