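import Pool.Agent.MP_c7a479_co.Defs

namespace Pool.Agent.MP_c7a479_co.Six

abbrev G : Type := ZMod 6

/-- Entry `(a, b)` of a `6 × 6` table packed in base eight. -/
def tb (N : ℕ) (a b : G) : G := ((N / 8 ^ (6 * a.val + b.val) % 8 : ℕ) : G)

def g1 (a b : G) : G := tb 6622112600043280258611307790475 a b
def g2 (a b : G) : G := tb 218365838641466236358083267057872 a b
def g3 (a b : G) : G := tb 130271165087957515793440482535755 a b

def par (a : G) : Bool := a.val % 2 == 1

def P (p c : G) : G := tb 99829192281990218748400600764954 c p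

def Q (p c : G) (b : Bool) : G :=
  if b then tb 135089771664660639808101315261093 c p else tb 135089771664660639821089296364386 c p

def sg (a : G) : G := if a = 2 then 3 else if a = 3 then 2 else a

def R (u v : G × Bool) : Prop := u.1 ≠ v.1 ∧ ∀ p, Q p u.1 u.2 ≠ Q p v.1 v.2

instance (u v : G × Bool) : Decidable (R u v) := by unfold R; infer_instance

theorem g1_l : ∀ a a' b, a ≠ a' → g1 a b ≠ g1 a' b := by decide +kernel
theorem g1_r : ∀ a b b', b ≠ b' → g1 a b ≠ g1 a b' := by decide +kernel
theorem g2_l : ∀ a a' b, a ≠ a' → g2 a b ≠ g2 a' b := by decide +kernel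
theorem g2_r : ∀ a b b', b ≠ b' → g2 a b ≠ g2 a b' := by decide +kernel
theorem g3_l : ∀ a a' b, a ≠ a' → g3 a b ≠ g3 a' b := by decide +kernel
theorem g3_r : ∀ a b b', b ≠ b' → g3 a b ≠ g3 a b' := by decide +kernel

theorem g_diff : ∀ a b a' b', g1 a b - g3 a b = g1 a' b' - g3 a' b' →
    g2 a b - g3 a b = g2 a' b' - g3 a' b' → a = a' ∧ b = b' := by decide +kernel

theorem sg_inj : ∀ a a', sg a = sg a' → a = a' := by decide +kernel

theorem par_cancel : ∀ a b a' b' : G, a + b = a' + b' → par a = par a' → par b = par b' := by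
  decide +kernel

theorem P_l : ∀ p p' c, p ≠ p' → P p c ≠ P p' c := by decide +kernel
theorem P_r : ∀ p c c', c ≠ c' → P p c ≠ P p c' := by decide +kernel
theorem Q_l : ∀ p p' c b, p ≠ p' → Q p c b ≠ Q p' c b := by decide +kernel

theorem PQ_par : ∀ p c p' c', P p c = P p' c' → ∀ b b', Q p c b = Q p' c' b' →
    par c = par c' ∧ par p = par p' := by decide +kernel

theorem PQ_eq : ∀ p c p' c', P p c = P p' c' → ∀ b, Q p c b = Q p' c' b →
    p = p' ∧ c = c' := by decide +kernel

theorem R_x : ∀ c b c' b', R (c, b) (c', b') → ∀ y,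
    R (P y c, par (Q y c b)) (P y c', par (Q y c' b')) := by decide +kernel

theorem R_y : ∀ c b y y', y ≠ y' →
    R (P y c, par (Q y c b)) (P y' c, par (Q y' c b)) := by decide +kernel

theorem seed_0 : ∀ a a' b z, a ≠ a' →
    R (sg (g1 a b + z), par (g3 a b + z)) (sg (g1 a' b + z), par (g3 a' b + z)) := by
  decide +kernel

theorem seed_1 : ∀ a b b' z, b ≠ b' →
    R (sg (g1 a b + z), par (g3 a b + z)) (sg (g1 a b' + z), par (g3 a b' + z)) := by
  decide +kernel

theorem seed_2 : ∀ a b z z', z ≠ z' →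
    R (sg (g1 a b + z), par (g3 a b + z)) (sg (g1 a b + z'), par (g3 a b + z')) := by
  decide +kernel

end Pool.Agent.MP_c7a479_co.Six
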