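import Pool.Agent.MP_c7a479_co.Defs

namespace Pool.Agent.MP_c7a479_co

open Function Finset

/-- An index one orthogonal array of strength `m` (an MDS code): rows `X`, columns `κ`. -/
structure IsOA {X κ α : Type} (m : ℕ) (C : κ → X → α) : Prop where
  sep : ∀ (x y : X) (S : Finset κ), m ≤ S.card → (∀ i ∈ S, C i x = C i y) → x = y
  ex : ∀ (S : Finset κ), S.card ≤ m → ∀ w : κ → α, ∃ x, ∀ i ∈ S, C i x = w i

theorem IsVarSet.isOA {ι κ α : Type} [DecidableEq ι] [Fintype ι] [Fintype κ]
    {C : κ → (ι → α) → α} (h : IsVarSet C) (hk : Fintype.card ι ≤ Fintype.card κ) :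
    IsOA (Fintype.card ι) C := by
  classical
  refine ⟨fun x y S hS hxy => h.sep x y S hS hxy, fun S hS w => ?_⟩
  obtain ⟨T, hST, -, hT⟩ := exists_subsuperset_card_eq (subset_univ S) hS (by simpa using hk)
  have e : ι ≃ T := Fintype.equivOfCardEq (by simp [hT])
  obtain ⟨x, hx⟩ := (h.2 (fun j => (e j : κ)) (Subtype.val_injective.comp e.injective)).2
    (fun j => w (e j))
  refine ⟨x, fun i hi => ?_⟩
  have := congrFun hx (e.symm ⟨i, hST hi⟩)
  simpa using this

namespace IsOA

variable {X κ α : Type} {m : ℕ} {C : κ → X → α}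

/-- Bush's bound for large strength: `m + 2` columns force `m ≤ n - 1`. -/
theorem bush_large [Fintype κ] [Fintype α] (h : IsOA m C) (hn : 2 ≤ Fintype.card α)
    (hk : m + 2 ≤ Fintype.card κ) : m + 1 ≤ Fintype.card α := by
  classical
  obtain ⟨z⟩ : Nonempty α := Fintype.card_pos_iff.mp (by omega)
  obtain ⟨x0, -⟩ := h.ex ∅ (by simp) (fun _ => z)
  obtain ⟨T, -, hT⟩ := exists_subset_card_eq (s := (univ : Finset κ)) (n := m + 2)
    (by simpa using hk)
  obtain ⟨a, ha⟩ : T.Nonempty := card_pos.mp (by omega)
  obtain ⟨b, hb⟩ : (T.erase a).Nonempty := card_pos.mp (by rw [card_erase_of_mem ha]; omega)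
  set S := (T.erase a).erase b with hSdef
  have hS : S.card = m := by rw [hSdef, card_erase_of_mem hb, card_erase_of_mem ha]; omega
  have hbS : b ∉ S := notMem_erase _ _
  have haS : a ∉ S := fun h => notMem_erase a T (mem_of_mem_erase h)
  have hab : b ≠ a := (mem_erase.mp hb).1
  choose y hy using fun (i : κ) (t : α) => h.ex S hS.le (update (fun j => C j x0) i t)
  have hne : ∀ i ∈ S, ∀ t, t ≠ C i x0 → ∀ c ∉ S, C c (y i t) ≠ C c x0 := by
    intro i hi t ht c hc hcc
    have : y i t = x0 := by
      refine h.sep _ _ (insert c (S.erase i)) ?_ ?_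
      · rw [card_insert_of_notMem (fun h => hc (mem_of_mem_erase h)), card_erase_of_mem hi]
        have := card_pos.mpr ⟨i, hi⟩
        omega
      · intro j hj
        rcases mem_insert.mp hj with rfl | hj
        · exact hcc
        · rw [hy i t j (mem_of_mem_erase hj), update_of_ne (mem_erase.mp hj).1]
    have h2 := hy i t i hi
    rw [this, update_self] at h2
    exact ht h2.symm
  have key : (S.sigma fun i => (univ : Finset α).erase (C i x0)).card ≤
      (((univ : Finset α).erase (C a x0)) ×ˢ ((univ : Finset α).erase (C b x0))).card := by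
    refine card_le_card_of_injOn (fun p => (C a (y p.1 p.2), C b (y p.1 p.2))) ?_ ?_
    · rintro ⟨i, t⟩ hp
      simp only [coe_sigma, Set.mem_sigma_iff, mem_coe, mem_erase, mem_univ, and_true] at hp
      simp only [coe_product, Set.mem_prod, mem_coe, mem_erase, mem_univ, and_true]
      exact ⟨hne i hp.1 t hp.2 a haS, hne i hp.1 t hp.2 b hbS⟩
    · rintro ⟨i, t⟩ hp ⟨i', t'⟩ hp' hpp
      simp only [coe_sigma, Set.mem_sigma_iff, mem_coe, mem_erase, mem_univ, and_true] at hp hp'
      simp only [Prod.mk.injEq] at hpp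
      have hyy : y i t = y i' t' := by
        refine h.sep _ _ (insert a (insert b ((S.erase i).erase i'))) ?_ ?_
        · have h1 : a ∉ insert b ((S.erase i).erase i') := by
            intro h
            rcases mem_insert.mp h with h | h
            · exact hab h.symm
            · exact haS (mem_of_mem_erase (mem_of_mem_erase h))
          have h2 : b ∉ (S.erase i).erase i' :=
            fun h => hbS (mem_of_mem_erase (mem_of_mem_erase h))
          rw [card_insert_of_notMem h1, card_insert_of_notMem h2]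
          have h3 := pred_card_le_card_erase (s := S) (a := i)
          have h4 := pred_card_le_card_erase (s := S.erase i) (a := i')
          omega
        · intro j hj
          rcases mem_insert.mp hj with rfl | hj
          · exact hpp.1
          rcases mem_insert.mp hj with rfl | hj
          · exact hpp.2
          have h1 := mem_erase.mp hj
          have h2 := mem_erase.mp h1.2
          rw [hy i t j h2.2, hy i' t' j h2.2, update_of_ne h2.1, update_of_ne h1.1]
      have h1 := hy i t i hp.1
      rw [hyy, hy i' t' i hp.1, update_self] at h1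
      have hii : i = i' := by
        by_contra hne
        rw [update_of_ne hne] at h1
        exact hp.2 h1.symm
      subst hii
      rw [update_self] at h1
      rw [h1]
  rw [card_sigma, card_product] at key
  simp only [card_erase_of_mem (mem_univ _), card_univ, sum_const, smul_eq_mul, hS] at key
  have := Nat.le_of_mul_le_mul_right key (by omega : 0 < Fintype.card α - 1)
  omega

/-- The derived array: rows agreeing with `x0` on the columns of `S`. -/
theorem derived [DecidableEq κ] (h : IsOA m C) (S : Finset κ) (hS : S.card ≤ m) (x0 : X) :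
    IsOA (m - S.card)
      (fun (i : {i // i ∉ S}) (x : {x // ∀ j ∈ S, C j x = C j x0}) => C i.1 x.1) := by
  have hd : ∀ T : Finset {i // i ∉ S}, Disjoint S (T.map (Embedding.subtype _)) := by
    intro T
    rw [disjoint_left]
    intro a ha hb
    obtain ⟨b, -, rfl⟩ := mem_map.mp hb
    exact b.2 ha
  constructor
  · intro x y T hT hxy
    apply Subtype.ext
    refine h.sep _ _ (S ∪ T.map (Embedding.subtype _)) ?_ ?_
    · rw [card_union_of_disjoint (hd T), card_map]; omega
    · intro i hi
      rcases mem_union.mp hi with hi | hi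
      · rw [x.2 i hi, y.2 i hi]
      · obtain ⟨b, hb, rfl⟩ := mem_map.mp hi
        exact hxy b hb
  · intro T hT w
    obtain ⟨x, hx⟩ := h.ex (S ∪ T.map (Embedding.subtype _))
      (by rw [card_union_of_disjoint (hd T), card_map]; omega)
      (fun i => if hi : i ∈ S then C i x0 else w ⟨i, hi⟩)
    refine ⟨⟨x, fun j hj => ?_⟩, fun i hi => ?_⟩
    · rw [hx j (mem_union_left _ hj), dif_pos hj]
    · have := hx i.1 (mem_union_right _ (mem_map_of_mem (Embedding.subtype _) hi))
      rw [dif_neg i.2] at this
      exact this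

/-- Number of rows with prescribed values in `m - 1` columns. -/
theorem card_fiber [Fintype X] [Fintype α] [DecidableEq α] [DecidableEq κ] (h : IsOA m C)
    (S : Finset κ) (hS : S.card + 1 = m) (c : κ) (hc : c ∉ S) (w : κ → α) :
    (univ.filter fun x => ∀ i ∈ S, C i x = w i).card = Fintype.card α := by
  rw [← card_univ]
  refine card_bij (fun x _ => C c x) (fun _ _ => mem_univ _) ?_ ?_
  · intro x hx y hy hxy
    refine h.sep _ _ (insert c S) (by rw [card_insert_of_notMem hc]; omega) ?_
    intro j hj
    rcases mem_insert.mp hj with rfl | hj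
    · exact hxy
    · rw [(mem_filter.mp hx).2 j hj, (mem_filter.mp hy).2 j hj]
  · intro t _
    obtain ⟨x, hx⟩ := h.ex (insert c S) (by rw [card_insert_of_notMem hc]; omega) (update w c t)
    refine ⟨x, mem_filter.mpr ⟨mem_univ _, fun i hi => ?_⟩, ?_⟩
    · rw [hx i (mem_insert_of_mem hi), update_of_ne (fun h : i = c => hc (h ▸ hi))]
    · rw [hx c (mem_insert_self _ _), update_self]

/-- Strength two: given a row `x0`, a column `a` and a symbol `t ≠ C a x0`; at most `n + 1`
columns, and with `n + 1` columns any two rows agree somewhere. -/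
theorem two_bound [Fintype κ] [Fintype α] (h : IsOA 2 C) (hn : 2 ≤ Fintype.card α) :
    Fintype.card κ ≤ Fintype.card α + 1 ∧
      (Fintype.card κ = Fintype.card α + 1 → ∀ x y, ∃ i, C i x = C i y) := by
  classical
  -- for a row `x`, a column `a`, and `t ≠ C a x`, the rows through `(a,t)` meeting `x`
  have main : ∀ (x : X) (a : κ) (t : α), t ≠ C a x → ∀ b, b ≠ a →
      ∃ f : {i // i ≠ a} → α, Injective f ∧
        ∀ i, ∀ y, C a y = t → C b y = f i → C i.1 y = C i.1 x := by
    intro x a t ht b hb
    choose y hy using fun i : {i // i ≠ a} =>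
      h.ex {a, i.1} card_le_two (update (fun j => C j x) a t)
    have hya : ∀ i, C a (y i) = t := fun i => by rw [hy i a (by simp), update_self]
    have hyi : ∀ i, C i.1 (y i) = C i.1 x := fun i => by
      rw [hy i i.1 (by simp), update_of_ne i.2]
    have hsep : ∀ u v, C a u = C a v → C b u = C b v → u = v := by
      intro u v h1 h2
      refine h.sep _ _ {a, b} (by rw [card_pair hb.symm]) ?_
      intro j hj
      rcases mem_insert.mp hj with rfl | hj
      · exact h1
      · rw [mem_singleton.mp hj]; exact h2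
    refine ⟨fun i => C b (y i), ?_, ?_⟩
    · intro i j hij
      have hyy : y i = y j := hsep _ _ (by rw [hya, hya]) hij
      by_contra hne
      have : y i = x := by
        refine h.sep _ _ {i.1, j.1} (by rw [card_pair (fun h => hne (Subtype.ext h))]) ?_
        intro l hl
        rcases mem_insert.mp hl with rfl | hl
        · exact hyi i
        · rw [mem_singleton.mp hl, hyy]; exact hyi j
      exact ht (by rw [← hya i, this])
    · intro i u h1 h2
      rw [hsep u (y i) (by rw [h1, hya]) h2, hyi]
  obtain ⟨z⟩ : Nonempty α := Fintype.card_pos_iff.mp (by omega)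
  constructor
  · by_contra hlt
    obtain ⟨x0, -⟩ := h.ex ∅ (by simp) (fun _ => z)
    haveI : Nontrivial κ := Fintype.one_lt_card_iff_nontrivial.mp (by omega)
    haveI : Nontrivial α := Fintype.one_lt_card_iff_nontrivial.mp (by omega)
    obtain ⟨a, b, hab⟩ := exists_pair_ne κ
    obtain ⟨t, ht⟩ := exists_ne (C a x0)
    obtain ⟨f, hf, -⟩ := main x0 a t ht b hab.symm
    have := Fintype.card_le_of_injective f hf
    simp only [ne_eq, Fintype.card_subtype_compl, Fintype.card_unique] at this
    omega
  · intro hk x y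
    haveI : Nontrivial κ := Fintype.one_lt_card_iff_nontrivial.mp (by omega)
    obtain ⟨a, b, hab⟩ := exists_pair_ne κ
    by_cases ht : C a y = C a x
    · exact ⟨a, ht.symm⟩
    obtain ⟨f, hf, hf2⟩ := main x a (C a y) ht b hab.symm
    have hs : Surjective f := ((Fintype.bijective_iff_injective_and_card f).mpr ⟨hf, by
      simp only [ne_eq, Fintype.card_subtype_compl, Fintype.card_unique]; omega⟩).2
    obtain ⟨i, hi⟩ := hs (C b y)
    exact ⟨i.1, (hf2 i y rfl hi.symm).symm⟩

/-- Bush's general bound `k ≤ n + m - 1`. -/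
theorem bush [Fintype κ] [Fintype α] (h : IsOA m C) (hm : 2 ≤ m) (hn : 2 ≤ Fintype.card α) :
    Fintype.card κ + 1 ≤ Fintype.card α + m := by
  classical
  by_contra hlt
  obtain ⟨z⟩ : Nonempty α := Fintype.card_pos_iff.mp (by omega)
  obtain ⟨x0, -⟩ := h.ex ∅ (by simp) (fun _ => z)
  obtain ⟨S, -, hS⟩ := exists_subset_card_eq (s := (univ : Finset κ)) (n := m - 2)
    (by rw [card_univ]; omega)
  have hd := h.derived S (by omega) x0
  rw [show m - S.card = 2 by omega] at hd
  have := (hd.two_bound hn).1
  rw [Fintype.card_subtype_compl, Fintype.card_coe] at this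
  omega

theorem even_card_of_invol {β : Type} [Fintype β] (g : β → β) (h1 : ∀ b, g (g b) = b)
    (h2 : ∀ b, g b ≠ b) : Even (Fintype.card β) := by
  have := Finset.sum_involution (s := (univ : Finset β)) (f := fun _ => (1 : ZMod 2))
    (fun a _ => g a) (fun _ _ => by decide) (fun a _ _ => h2 a) (fun _ _ => mem_univ _)
    (fun a _ => h1 a)
  rw [sum_const, card_univ, nsmul_eq_mul, mul_one] at this
  exact (ZMod.natCast_eq_zero_iff_even).mp this

/-- Strength three with `n + 2` columns forces `n` even. -/
theorem three_even [Fintype κ] [Fintype α] (h : IsOA 3 C) (hn : 2 ≤ Fintype.card α)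
    (hk : Fintype.card κ = Fintype.card α + 2) : Even (Fintype.card α) := by
  classical
  have hA : ∀ (x y : X) (a : κ), C a y = C a x → ∃ j, j ≠ a ∧ C j y = C j x := by
    intro x y a hxy
    have hd := h.derived {a} (by simp) x
    rw [card_singleton] at hd
    obtain ⟨i, hi⟩ := (hd.two_bound hn).2 (by
      rw [Fintype.card_subtype_compl, Fintype.card_coe, card_singleton]; omega)
      ⟨y, by simpa using hxy⟩ ⟨x, by simp⟩
    exact ⟨i.1, fun h => i.2 (by simp [h]), hi⟩
  obtain ⟨z⟩ : Nonempty α := Fintype.card_pos_iff.mp (by omega)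
  obtain ⟨x0, -⟩ := h.ex ∅ (by simp) (fun _ => z)
  haveI : Nontrivial κ := Fintype.one_lt_card_iff_nontrivial.mp (by omega)
  haveI : Nontrivial α := Fintype.one_lt_card_iff_nontrivial.mp (by omega)
  obtain ⟨c, c', hcc⟩ := exists_pair_ne κ
  obtain ⟨t, ht⟩ := exists_ne (C c x0)
  obtain ⟨t', ht'⟩ := exists_ne (C c' x0)
  choose y hy using fun i : κ => h.ex {c, c', i} card_le_three
    (update (update (fun j => C j x0) c t) c' t')
  have hyc : ∀ i, C c (y i) = t := fun i => by
    rw [hy i c (by simp), update_of_ne hcc, update_self]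
  have hyc' : ∀ i, C c' (y i) = t' := fun i => by rw [hy i c' (by simp), update_self]
  have hyi : ∀ i, i ≠ c → i ≠ c' → C i (y i) = C i x0 := fun i h1 h2 => by
    rw [hy i i (by simp), update_of_ne h2, update_of_ne h1]
  have hsep : ∀ (u v : X) (a b d : κ), a ≠ b → a ≠ d → b ≠ d → C a u = C a v → C b u = C b v →
      C d u = C d v → u = v := by
    intro u v a b d h1 h2 h3 e1 e2 e3
    refine h.sep _ _ {a, b, d} (by rw [card_eq_three.mpr ⟨a, b, d, h1, h2, h3, rfl⟩]) ?_
    intro j hj
    simp only [mem_insert, mem_singleton] at hj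
    rcases hj with rfl | rfl | rfl <;> assumption
  have hex : ∀ i : {i // i ∉ ({c, c'} : Finset κ)}, ∃ j : {i // i ∉ ({c, c'} : Finset κ)},
      j ≠ i ∧ C j.1 (y i.1) = C j.1 x0 := by
    rintro ⟨i, hi⟩
    have hi' := hi
    simp only [mem_insert, mem_singleton, not_or] at hi'
    obtain ⟨j, hj, hj2⟩ := hA x0 (y i) i (hyi i hi'.1 hi'.2)
    refine ⟨⟨j, ?_⟩, fun h => hj (congrArg Subtype.val h), hj2⟩
    simp only [mem_insert, mem_singleton, not_or]
    constructor
    · rintro rfl; exact ht (by rw [← hj2, hyc])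
    · rintro rfl; exact ht' (by rw [← hj2, hyc'])
  choose g hg1 hg2 using hex
  have hmem : ∀ i : {i // i ∉ ({c, c'} : Finset κ)}, i.1 ≠ c ∧ i.1 ≠ c' := fun i => by
    have := i.2
    simpa only [mem_insert, mem_singleton, not_or] using this
  have hinv : ∀ i, g (g i) = i := by
    intro i
    have hyy : y (g i).1 = y i.1 :=
      hsep _ _ c c' (g i).1 hcc (hmem _).1.symm (hmem _).2.symm (by rw [hyc, hyc])
        (by rw [hyc', hyc']) (by rw [hyi _ (hmem _).1 (hmem _).2, hg2])
    by_contra hne
    have : y i.1 = x0 :=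
      hsep _ _ i.1 (g i).1 (g (g i)).1 (fun h => hg1 i (Subtype.ext h).symm)
        (fun h => hne (Subtype.ext h).symm) (fun h => hg1 (g i) (Subtype.ext h).symm)
        (hyi _ (hmem _).1 (hmem _).2) (hg2 i) (by rw [← hyy]; exact hg2 (g i))
    exact ht (by rw [← hyc i.1, this])
  have := even_card_of_invol g hinv hg1
  rw [Fintype.card_subtype_compl, Fintype.card_coe, card_pair hcc] at this
  rwa [show Fintype.card κ - 2 = Fintype.card α by omega] at this

/-- Bush's bound `k ≤ n + m - 2` for odd order and strength at least three. -/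
theorem bush_odd [Fintype κ] [Fintype α] (h : IsOA m C) (hm : 3 ≤ m) (hn : 2 ≤ Fintype.card α)
    (ho : Odd (Fintype.card α)) : Fintype.card κ + 2 ≤ Fintype.card α + m := by
  classical
  by_contra hlt
  have hb := h.bush (by omega) hn
  obtain ⟨z⟩ : Nonempty α := Fintype.card_pos_iff.mp (by omega)
  obtain ⟨x0, -⟩ := h.ex ∅ (by simp) (fun _ => z)
  obtain ⟨S, -, hS⟩ := exists_subset_card_eq (s := (univ : Finset κ)) (n := m - 3)
    (by rw [card_univ]; omega)
  have hd := h.derived S (by omega) x0
  rw [show m - S.card = 3 by omega] at hd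
  have := hd.three_even hn (by rw [Fintype.card_subtype_compl, Fintype.card_coe]; omega)
  exact (Nat.not_even_iff_odd.mpr ho) this

/-- Strength `n - 1` with `n + 2` columns forces `n` even. -/
theorem pred_even [Fintype κ] [Fintype α] (h : IsOA m C) (hm : 1 ≤ m)
    (hn : Fintype.card α = m + 1) (hk : m + 3 ≤ Fintype.card κ) : Even (Fintype.card α) := by
  classical
  obtain ⟨z⟩ : Nonempty α := Fintype.card_pos_iff.mp (by omega)
  obtain ⟨x0, -⟩ := h.ex ∅ (by simp) (fun _ => z)
  haveI : Nontrivial α := Fintype.one_lt_card_iff_nontrivial.mp (by omega)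
  obtain ⟨T, -, hT⟩ := exists_subset_card_eq (s := (univ : Finset κ)) (n := m + 3)
    (by simpa using hk)
  obtain ⟨a, ha⟩ : T.Nonempty := card_pos.mp (by omega)
  obtain ⟨b, hb⟩ : (T.erase a).Nonempty := card_pos.mp (by rw [card_erase_of_mem ha]; omega)
  set R := (T.erase a).erase b with hRdef
  have hR : R.card = m + 1 := by rw [hRdef, card_erase_of_mem hb, card_erase_of_mem ha]; omega
  have hbR : b ∉ R := notMem_erase _ _
  have haR : a ∉ R := fun h => notMem_erase a T (mem_of_mem_erase h)
  have hab : b ≠ a := (mem_erase.mp hb).1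
  obtain ⟨t, ht⟩ := exists_ne (C a x0)
  obtain ⟨t', ht'⟩ := exists_ne (C b x0)
  have hcard : ∀ c ∈ R, ∀ d ∈ R, d ≠ c → ((R.erase c).erase d).card + 1 = m := by
    intro c hc d hd hdc
    rw [card_erase_of_mem (mem_erase.mpr ⟨hdc, hd⟩), card_erase_of_mem hc]; omega
  -- `P c d y`: the row `y` has symbol `t` in column `a` and agrees with `x0` on `R` off `c, d`
  let P : κ → κ → X → Prop := fun c d y =>
    C a y = t ∧ ∀ i ∈ R, i ≠ c → i ≠ d → C i y = C i x0
  have hex : ∀ c ∈ R, ∀ d ∈ R, d ≠ c → ∃ y, P c d y := by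
    intro c hc d hd hdc
    have haS : a ∉ (R.erase c).erase d := fun h => haR (mem_of_mem_erase (mem_of_mem_erase h))
    obtain ⟨y, hy⟩ := h.ex (insert a ((R.erase c).erase d))
      (by rw [card_insert_of_notMem haS, hcard c hc d hd hdc]) (update (fun j => C j x0) a t)
    refine ⟨y, by rw [hy a (mem_insert_self _ _), update_self], fun i hi h1 h2 => ?_⟩
    rw [hy i (mem_insert_of_mem (mem_erase.mpr ⟨h2, mem_erase.mpr ⟨h1, hi⟩⟩)),
      update_of_ne (fun h : i = a => haR (h ▸ hi))]
  have hdiff : ∀ c ∈ R, ∀ d ∈ R, d ≠ c → ∀ y, P c d y → ∀ e, e ∉ (R.erase c).erase d →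
      C e y ≠ C e x0 := by
    intro c hc d hd hdc y hy e he hee
    have : y = x0 := by
      refine h.sep _ _ (insert e ((R.erase c).erase d))
        (by rw [card_insert_of_notMem he, hcard c hc d hd hdc]) ?_
      intro j hj
      rcases mem_insert.mp hj with rfl | hj
      · exact hee
      · have h1 := mem_erase.mp hj
        have h2 := mem_erase.mp h1.2
        exact hy.2 j h2.2 h2.1 h1.1
    exact ht (by rw [← hy.1, this])
  have huniq : ∀ c ∈ R, ∀ d ∈ R, d ≠ c → ∀ d' ∈ R, d' ≠ c → ∀ y y', P c d y → P c d' y' →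
      C b y = C b y' → d = d' := by
    intro c hc d hd hdc d' hd' hdc' y y' hy hy' hbb
    have hyy : y = y' := by
      refine h.sep _ _ (insert a (insert b (((R.erase c).erase d).erase d'))) ?_ ?_
      · have h1 : a ∉ insert b (((R.erase c).erase d).erase d') := by
          intro h
          rcases mem_insert.mp h with h | h
          · exact hab h.symm
          · exact haR (mem_of_mem_erase (mem_of_mem_erase (mem_of_mem_erase h)))
        have h2 : b ∉ ((R.erase c).erase d).erase d' :=
          fun h => hbR (mem_of_mem_erase (mem_of_mem_erase (mem_of_mem_erase h)))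
        rw [card_insert_of_notMem h1, card_insert_of_notMem h2]
        have h3 := pred_card_le_card_erase (s := (R.erase c).erase d) (a := d')
        have h4 := hcard c hc d hd hdc
        omega
      · intro j hj
        rcases mem_insert.mp hj with rfl | hj
        · rw [hy.1, hy'.1]
        rcases mem_insert.mp hj with rfl | hj
        · exact hbb
        have h0 := mem_erase.mp hj
        have h1 := mem_erase.mp h0.2
        have h2 := mem_erase.mp h1.2
        rw [hy.2 j h2.2 h2.1 h1.1, hy'.2 j h2.2 h2.1 h0.1]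
    by_contra hne
    exact hdiff c hc d hd hdc y hy d (notMem_erase _ _) (by rw [hyy]; exact hy'.2 d hd hdc hne)
  have hsurj : ∀ c : R, ∃ d : R, d ≠ c ∧ ∃ y, P c.1 d.1 y ∧ C b y = t' := by
    rintro ⟨c, hc⟩
    choose y hy using fun d : R.erase c =>
      hex c hc d.1 (mem_of_mem_erase d.2) (mem_erase.mp d.2).1
    let f : R.erase c → {s // s ≠ C b x0} := fun d => ⟨C b (y d),
      hdiff c hc d.1 (mem_of_mem_erase d.2) (mem_erase.mp d.2).1 _ (hy d) b
        (fun h => hbR (mem_of_mem_erase (mem_of_mem_erase h)))⟩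
    have hf : Injective f := fun d d' hdd => Subtype.ext
      (huniq c hc d.1 (mem_of_mem_erase d.2) (mem_erase.mp d.2).1 d'.1 (mem_of_mem_erase d'.2)
        (mem_erase.mp d'.2).1 _ _ (hy d) (hy d') (congrArg Subtype.val hdd))
    have hs : Surjective f := ((Fintype.bijective_iff_injective_and_card f).mpr ⟨hf, by
      simp only [ne_eq, Fintype.card_subtype_compl, Fintype.card_unique, Fintype.card_coe,
        card_erase_of_mem hc]; omega⟩).2
    obtain ⟨d, hd⟩ := hs ⟨t', ht'⟩
    exact ⟨⟨d.1, mem_of_mem_erase d.2⟩, fun h => (mem_erase.mp d.2).1 (congrArg Subtype.val h),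
      y d, hy d, congrArg Subtype.val hd⟩
  choose g hg1 y hy1 hy2 using hsurj
  have hinv : ∀ c, g (g c) = c := by
    intro c
    apply Subtype.ext
    refine huniq (g c).1 (g c).2 _ (g (g c)).2 (fun h => hg1 (g c) (Subtype.ext h)) c.1 c.2
      (fun h => hg1 c (Subtype.ext h).symm) (y (g c)) (y c) (hy1 (g c))
      ⟨(hy1 c).1, fun i hi h1 h2 => (hy1 c).2 i hi h2 h1⟩ (by rw [hy2, hy2])
  have := even_card_of_invol g hinv hg1
  rwa [Fintype.card_coe, hR, ← hn] at this

end IsOA

/-- Upper bounds for variational sets. -/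
theorem HasVarSet.exists_isOA {m n k : ℕ} (h : HasVarSet m n k) (hk : m ≤ k) :
    ∃ C : Fin k → (Fin m → Fin n) → Fin n, IsOA m C := by
  obtain ⟨C, hC⟩ := h
  have := hC.isOA (by simpa using hk)
  exact ⟨C, by simpa using this⟩

theorem HasVarSet.le_of_large {m n k : ℕ} (h : HasVarSet m n k) (hn : 2 ≤ n) (hm : n ≤ m) :
    k ≤ m + 1 := by
  by_contra hlt
  obtain ⟨C, hC⟩ := h.exists_isOA (by omega)
  have := hC.bush_large (by simpa using hn) (by simp; omega)
  simp at this
  omega

theorem HasVarSet.le_bush {m n k : ℕ} (h : HasVarSet m n k) (hn : 2 ≤ n) (hm : 2 ≤ m) :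
    k + 1 ≤ n + m := by
  by_contra hlt
  obtain ⟨C, hC⟩ := h.exists_isOA (by omega)
  have := hC.bush hm (by simpa using hn)
  simp at this
  omega

theorem HasVarSet.le_bush_odd {m n k : ℕ} (h : HasVarSet m n k) (hn : 2 ≤ n) (hm : 3 ≤ m)
    (ho : Odd n) : k + 2 ≤ n + m := by
  by_contra hlt
  obtain ⟨C, hC⟩ := h.exists_isOA (by omega)
  have := hC.bush_odd hm (by simpa using hn) (by simpa using ho)
  simp at this
  omega

theorem HasVarSet.le_pred_odd {m k : ℕ} (h : HasVarSet m (m + 1) k) (hm : 1 ≤ m)
    (ho : Odd (m + 1)) : k ≤ m + 2 := by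
  by_contra hlt
  obtain ⟨C, hC⟩ := h.exists_isOA (by omega)
  have := hC.pred_even hm (by simp) (by simp; omega)
  exact (Nat.not_even_iff_odd.mpr ho) (by simpa using this)

/-- For order two, at most `m - 1` cubes. -/
theorem HasVarSet.le_two {m k : ℕ} (h : HasVarSet m 2 k) (hm : 2 ≤ m) : k + 1 ≤ m := by
  by_contra hlt
  obtain ⟨C, hC⟩ := h
  let j0 : Fin m := ⟨0, by omega⟩
  let j1 : Fin m := ⟨1, by omega⟩
  have h01 : j0 ≠ j1 := by simp [j0, j1]
  let x : Fin m → Fin 2 := fun _ => 0
  let y : Fin m → Fin 2 := update (update x j0 1) j1 1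
  have hxy : x = y := by
    refine hC.sep x y univ (by simp; omega) fun i _ => ?_
    have h1 := (hC.1 i x j0).1.ne (show (0 : Fin 2) ≠ 1 by decide)
    have h2 := (hC.1 i (update x j0 1) j1).1.ne (show (0 : Fin 2) ≠ 1 by decide)
    have e1 : update x j0 0 = x := update_eq_self j0 x
    have e2 : update (update x j0 1) j1 0 = update x j0 1 := by
      have : (update x j0 1) j1 = 0 := by rw [update_of_ne h01.symm]
      rw [← this]; exact update_eq_self _ _
    simp only [e1, e2] at h1 h2
    have : ∀ a b c : Fin 2, a ≠ b → b ≠ c → a = c := by decide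
    exact this _ _ _ h1 h2
  have := congrFun hxy j1
  simp [x, y] at this

end Pool.Agent.MP_c7a479_co
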